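import Pool.Agent.Lib.MP_3e612f_nt.NF.P.Defs

/-! Integrals of periodic functions over translated cubes. -/

set_option autoImplicit false

namespace Pool.Agent.Lib.MP_3e612f_nt.NF

open MeasureTheory

/-- elements of the lattice `ℤ^t` -/
theorem cubeSh_mem {t : ℕ} (g : Submodule.span ℤ (Set.range (Pi.basisFun ℝ (Fin t)))) : ∃ z : Fin t → ℤ, ∀ i, (g : Fin t → ℝ) i = z i := by
  have h1 := (Module.Basis.mem_span_iff_repr_mem ℤ (Pi.basisFun ℝ (Fin t)) (g : Fin t → ℝ)).1 g.2
  choose z hz using h1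
  refine ⟨z, fun i => ?_⟩
  have h2 := hz i
  rw [Pi.basisFun_repr] at h2
  rw [← h2]
  simp

theorem cubeSh_ae (t : ℕ) : (ZSpan.fundamentalDomain (Pi.basisFun ℝ (Fin t)) : Set (Fin t → ℝ)) =ᵐ[volume] Set.Icc 0 1 := by
  rw [ZSpan.fundamentalDomain_pi_basisFun]
  exact MeasureTheory.Measure.univ_pi_Ico_ae_eq_Icc

/-- the integral of a periodic function over a translated unit cube -/
theorem cube_shift {t : ℕ} (F : (Fin t → ℝ) → ℝ) (hF : ∀ (x : Fin t → ℝ) (z : Fin t → ℤ), F (fun i => x i + z i) = F x) (v : Fin t → ℝ) :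
    ∫ x in Set.Icc (0 : Fin t → ℝ) 1, F (fun i => x i - v i) = ∫ x in Set.Icc (0 : Fin t → ℝ) 1, F x := by
  have hD : IsAddFundamentalDomain (Submodule.span ℤ (Set.range (Pi.basisFun ℝ (Fin t)))) (ZSpan.fundamentalDomain (Pi.basisFun ℝ (Fin t))) volume :=
    ZSpan.isAddFundamentalDomain (Pi.basisFun ℝ (Fin t)) volume
  have hD' : IsAddFundamentalDomain (Submodule.span ℤ (Set.range (Pi.basisFun ℝ (Fin t)))) ((fun x => x + v) ⁻¹' (ZSpan.fundamentalDomain (Pi.basisFun ℝ (Fin t)))) volume := by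
    refine hD.preimage_of_equiv (measurePreserving_add_right volume v).quasiMeasurePreserving (e := id) Function.bijective_id (fun g x => ?_)
    show (id g : Fin t → ℝ) + x + v = g + (x + v)
    rw [id, add_assoc]
  have hFg : ∀ (g : Submodule.span ℤ (Set.range (Pi.basisFun ℝ (Fin t)))) (x : Fin t → ℝ), F (g +ᵥ x) = F x := by
    intro g x
    obtain ⟨z, hz⟩ := cubeSh_mem g
    rw [← hF x z]
    congr 1
    funext i
    show (g : Fin t → ℝ) i + x i = x i + z i
    rw [hz, add_comm]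
  have : VAddInvariantMeasure (Submodule.span ℤ (Set.range (Pi.basisFun ℝ (Fin t)))) (Fin t → ℝ) volume :=
    ⟨fun c s _ => measure_preimage_add volume (c : Fin t → ℝ) s⟩
  have : MeasurableConstVAdd (Submodule.span ℤ (Set.range (Pi.basisFun ℝ (Fin t)))) (Fin t → ℝ) :=
    ⟨fun c => measurable_const_add (c : Fin t → ℝ)⟩
  have : Countable (Submodule.span ℤ (Set.range (Pi.basisFun ℝ (Fin t)))) := inferInstance
  rw [← setIntegral_congr_set (cubeSh_ae t), ← setIntegral_congr_set (cubeSh_ae t), ← hD'.setIntegral_eq hD hFg]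
  have h1 := (measurePreserving_add_right volume v).setIntegral_preimage_emb (measurableEmbedding_addRight v) (fun x : Fin t → ℝ => F (fun i => x i - v i))
    (ZSpan.fundamentalDomain (Pi.basisFun ℝ (Fin t)))
  rw [← h1]
  congr 1
  funext x
  congr 1
  funext i
  simp

end Pool.Agent.Lib.MP_3e612f_nt.NF
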