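import Pool.Agent.Lib.MP_3e612f_nt.NF.P.LevA

/-! Level sets of slices (paper v2). -/

set_option autoImplicit false

namespace Pool.Agent.Lib.MP_3e612f_nt.NF

open Finset
open Pool.Agent.Lib.MP_3e612f_nt.MR (mu ex)

theorem lev_closed {t : ℕ} (K : Set (Fin (t + 1) → ℝ)) (c : ℝ) : IsClosed (lev K c) := by
  have h : lev K c = ⋂ n : ℕ, {β : ℝ | c ≤ sI n K β} := by
    ext β
    simp [lev]
  rw [h]
  exact isClosed_iInter fun n => isClosed_le continuous_const (sI_cont n K)

theorem lev_per {t : ℕ} {K : Set (Fin (t + 1) → ℝ)} (hp : Per K) (c : ℝ) : Per1 (lev K c) := by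
  intro β hβ z n
  rw [sI_per n hp]
  exact hβ n

/-- Compactness of `[0,1]` and periodicity: the closed sets `{β : c ≤ sI n K β}` decrease to `lev K c`, so for `n` large they are contained in the `δ`-neighbourhood of it. (If `lev K c` is empty then `{β : c ≤ sI n K β}` is empty for large `n`.) -/
theorem lev_nbhd {t : ℕ} {K : Set (Fin (t + 1) → ℝ)} (hp : Per K) (c δ : ℝ) (hδ : 0 < δ) :
    ∃ n : ℕ, ∀ β : ℝ, c ≤ sI n K β → ∃ y ∈ lev K c, |β - y| ≤ δ := by
  by_contra hcon
  push Not at hcon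
  choose β hβ hfar using hcon
  have hmem : ∀ n, Int.fract (β n) ∈ Set.Icc (0 : ℝ) 1 := fun n =>
    ⟨Int.fract_nonneg _, (Int.fract_lt_one _).le⟩
  obtain ⟨b, -, φ, hφ, hlim⟩ := isCompact_Icc.tendsto_subseq hmem
  have hsI : ∀ n, sI n K (Int.fract (β n)) = sI n K (β n) := by
    intro n
    have h := sI_per n hp (Int.fract (β n)) ⌊β n⌋
    rw [Int.fract_add_floor] at h
    exact h.symm
  have hb : b ∈ lev K c := by
    intro m
    have h1 : Filter.Tendsto (fun k => sI m K (Int.fract (β (φ k)))) Filter.atTop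
        (nhds (sI m K b)) := ((sI_cont m K).tendsto b).comp hlim
    refine ge_of_tendsto h1 ?_
    filter_upwards [Filter.eventually_ge_atTop m] with k hk
    have h2 : m ≤ φ k := hk.trans (hφ.id_le k)
    calc c ≤ sI (φ k) K (β (φ k)) := hβ _
      _ = sI (φ k) K (Int.fract (β (φ k))) := (hsI _).symm
      _ ≤ sI m K (Int.fract (β (φ k))) := sI_anti h2 K _
  have h3 : ∀ᶠ k in Filter.atTop, dist ((fun n => Int.fract (β n)) (φ k)) b < δ :=
    (Metric.tendsto_nhds.1 hlim) δ hδ
  obtain ⟨k, hk⟩ := h3.exists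
  have h4 := hfar (φ k) (b + (⌊β (φ k)⌋ : ℝ)) (lev_per hp c b hb ⌊β (φ k)⌋)
  rw [Real.dist_eq] at hk
  have h5 : β (φ k) - (b + (⌊β (φ k)⌋ : ℝ)) = Int.fract (β (φ k)) - b := by
    rw [Int.fract]
    ring
  rw [h5] at h4
  simp only at hk
  linarith

/-- A null slice: `sI n K β → volume (slice K β ∩ cube) = 0` (dominated convergence). -/
theorem not_mem_lev {t : ℕ} {K : Set (Fin (t + 1) → ℝ)} (hK : IsClosed K) (β : ℝ) (h0 : MeasureTheory.volume (slice K β) = 0) (c : ℝ) (hc : 0 < c) :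
    β ∉ lev K c := by
  intro hβ
  have h1 : Filter.Tendsto (fun n => sI n K β) Filter.atTop
      (nhds (∫ x in Set.Icc (0 : Fin t → ℝ) 1,
        K.indicator (fun _ => (1 : ℝ)) (Fin.snoc (α := fun _ => ℝ) x β : Fin (t + 1) → ℝ))) := by
    unfold sI
    refine MeasureTheory.tendsto_integral_of_dominated_convergence (fun _ => (1 : ℝ)) ?_ ?_ ?_ ?_
    · intro n
      exact (gK_snoc_cont n K β).aestronglyMeasurable
    · exact MeasureTheory.integrableOn_const isCompact_Icc.measure_lt_top.ne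
    · intro n
      refine Filter.Eventually.of_forall fun x => ?_
      rw [Real.norm_eq_abs, abs_of_nonneg (gK_nonneg n K _)]
      exact gK_le_one n K _
    · exact Filter.Eventually.of_forall fun x => gK_tendsto hK _
  have h2 : (∫ x in Set.Icc (0 : Fin t → ℝ) 1,
        K.indicator (fun _ => (1 : ℝ)) (Fin.snoc (α := fun _ => ℝ) x β : Fin (t + 1) → ℝ)) = 0 := by
    refine MeasureTheory.integral_eq_zero_of_ae ?_
    have h3 : ∀ᵐ x ∂(MeasureTheory.volume : MeasureTheory.Measure (Fin t → ℝ)), x ∉ slice K β :=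
      MeasureTheory.measure_eq_zero_iff_ae_notMem.1 h0
    refine MeasureTheory.ae_restrict_of_ae ?_
    filter_upwards [h3] with x hx
    have hx' : (Fin.snoc (α := fun _ => ℝ) x β : Fin (t + 1) → ℝ) ∉ K := hx
    exact Set.indicator_of_notMem hx' _
  rw [h2] at h1
  have h4 : c ≤ 0 := ge_of_tendsto h1 (Filter.Eventually.of_forall fun n => hβ n)
  linarith

/-- Fubini: `∫_{[0,1]} sI n K β dβ → volume (K ∩ cube) = 0`, and `c volume(lev K c ∩ [0,1]) ≤ ∫_{[0,1]} sI n K` for all `n`; then periodicity. (`Fin.snoc`: `MeasureTheory.volume_preserving_piFinSuccAbove` for `Fin.last`.) -/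
theorem lev_null {t : ℕ} {K : Set (Fin (t + 1) → ℝ)} (hK : IsClosed K) (hp : Per K) (h0 : MeasureTheory.volume K = 0) (c : ℝ) (hc : 0 < c) :
    MeasureTheory.volume (lev K c) = 0 := by
  have he := (MeasureTheory.volume_preserving_piFinSuccAbove (fun _ : Fin (t + 1) => ℝ)
    (Fin.last t)).symm
  have h1 : MeasureTheory.volume ((MeasurableEquiv.piFinSuccAbove (fun _ : Fin (t + 1) => ℝ)
      (Fin.last t)).symm ⁻¹' K) = 0 := by
    rw [he.measure_preimage hK.measurableSet.nullMeasurableSet, h0]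
  have h2 := MeasureTheory.Measure.measure_ae_null_of_prod_null (μ := MeasureTheory.volume)
    (ν := MeasureTheory.volume) h1
  have h3 : ∀ᵐ β ∂(MeasureTheory.volume : MeasureTheory.Measure ℝ), β ∉ lev K c := by
    filter_upwards [h2] with β hβ
    refine not_mem_lev hK β ?_ c hc
    have h4 : slice K β = Prod.mk β ⁻¹' ((MeasurableEquiv.piFinSuccAbove
        (fun _ : Fin (t + 1) => ℝ) (Fin.last t)).symm ⁻¹' K) := by
      ext x
      simp only [slice, Set.mem_preimage]
      have h5 : (MeasurableEquiv.piFinSuccAbove (fun _ : Fin (t + 1) => ℝ) (Fin.last t)).symm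
          (β, x) = (Fin.snoc (α := fun _ => ℝ) x β : Fin (t + 1) → ℝ) := by
        rw [MeasurableEquiv.piFinSuccAbove_symm_apply]
        simp [Fin.insertNthEquiv]
      rw [h5]
      rfl
    rw [h4]
    exact hβ
  exact MeasureTheory.measure_eq_zero_iff_ae_notMem.2 h3

theorem sI_one {K : Set (Fin 1 → ℝ)} (n : ℕ) (β : ℝ) : sI n K β = gK n K (fun _ => β) := by
  unfold sI
  have h1 : ∀ x : Fin 0 → ℝ, (Fin.snoc (α := fun _ => ℝ) x β : Fin 1 → ℝ) = fun _ => β := by
    intro x
    funext i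
    have hi : i = Fin.last 0 := Fin.ext (by omega)
    rw [hi]
    exact Fin.snoc_last _ _
  have h2 : Set.Icc (0 : Fin 0 → ℝ) 1 = Set.univ := by
    ext x
    simp only [Set.mem_univ, iff_true]
    exact ⟨fun i => i.elim0, fun i => i.elim0⟩
  rw [h2]
  simp only [h1, MeasureTheory.Measure.restrict_univ]
  have h3 : (MeasureTheory.volume : MeasureTheory.Measure (Fin 0 → ℝ)).real Set.univ = 1 := by
    have h4 : (MeasureTheory.volume : MeasureTheory.Measure (Fin 0 → ℝ)) =
        MeasureTheory.Measure.dirac default := MeasureTheory.Measure.volume_pi_eq_dirac _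
    rw [h4]
    simp
  rw [MeasureTheory.integral_const, h3, one_smul]

/-- Level 1: the slices of a subset of `ℝ^1` are subsets of a point: `sI n K β = gK n K (fun _ => β)`. -/
theorem lev_one_sub {K : Set (Fin 1 → ℝ)} (hK : IsClosed K) (c : ℝ) (hc : 0 < c) : lev K c ⊆ {β | (fun _ => β) ∈ K} := by
  intro β hβ
  by_contra hx
  have h1 := gK_tendsto hK (fun _ => β)
  have hx' : (fun _ => β : Fin 1 → ℝ) ∉ K := hx
  rw [Set.indicator_of_notMem hx'] at h1
  have h2 : c ≤ 0 := by
    refine ge_of_tendsto h1 (Filter.Eventually.of_forall fun n => ?_)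
    rw [← sI_one]
    exact hβ n
  linarith

theorem sub_lev_one (K : Set (Fin 1 → ℝ)) (c : ℝ) (hc : c ≤ 1) : {β | (fun _ => β) ∈ K} ⊆ lev K c := by
  intro β hβ n
  rw [sI_one]
  have h1 : gK n K (fun _ => β) = 1 := by
    unfold gK
    rw [thickenedIndicator_one _ K hβ]
    rfl
  rw [h1]
  exact hc

end Pool.Agent.Lib.MP_3e612f_nt.NF
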