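import Pool.Agent.Lib.MP_3e612f_nt.NF.P.AdmU
import Pool.Agent.Lib.MP_3e612f_nt.NF.P.LevB
import Pool.Agent.Lib.MP_3e612f_nt.NF.P.CubeSh

/-! Translates of admissible sets (paper v2). -/

set_option autoImplicit false

namespace Pool.Agent.Lib.MP_3e612f_nt.NF

open Finset
open Pool.Agent.Lib.MP_3e612f_nt.MR (mu ex)

theorem admT_gK_le {t : ℕ} (n : ℕ) (K K' : Set (Fin t → ℝ)) (x x' : Fin t → ℝ)
    (h : Metric.infEDist x' K' ≤ Metric.infEDist x K) : gK n K x ≤ gK n K' x' := by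
  unfold gK
  rw [NNReal.coe_le_coe, thickenedIndicator_apply, thickenedIndicator_apply]
  refine ENNReal.toNNReal_mono thickenedIndicatorAux_lt_top.ne ?_
  unfold thickenedIndicatorAux
  exact tsub_le_tsub_left (ENNReal.div_le_div_right h _) 1

/-- reduction of a vector of integers modulo `m` -/
theorem admT_mod (m : ℕ) (hm : 1 ≤ m) (z : ℤ) : ∃ (a : Fin m) (q : ℤ), (z : ℝ) / m = ((a : ℕ) : ℝ) / m + q := by
  have hm0 : (m : ℤ) ≠ 0 := by exact_mod_cast (by omega : m ≠ 0)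
  have h1 := Int.emod_nonneg z hm0
  have h2 := Int.emod_lt_of_pos z (by exact_mod_cast hm : (0 : ℤ) < m)
  refine ⟨⟨(z % m).toNat, by omega⟩, z / m, ?_⟩
  have hm' : (m : ℝ) ≠ 0 := by exact_mod_cast (by omega : m ≠ 0)
  have h3 : (((z % m).toNat : ℕ) : ℝ) = ((z % m : ℤ) : ℝ) := by
    have := Int.toNat_of_nonneg h1
    exact_mod_cast this
  have h4 : ((z : ℤ) : ℝ) = m * ((z / m : ℤ) : ℝ) + ((z % m : ℤ) : ℝ) := by
    have := Int.mul_ediv_add_emod z m
    exact_mod_cast this.symm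
  show (z : ℝ) / m = (((z % m).toNat : ℕ) : ℝ) / m + ((z / m : ℤ) : ℝ)
  rw [h3, h4]
  field_simp
  ring

theorem admT_gK_thick {t : ℕ} (n m : ℕ) (hm : 1 ≤ m) {K : Set (Fin t → ℝ)} (hK : IsClosed K) (hp : Per K) (x : Fin t → ℝ) :
    gK n (thick m K) x ≤ ∑ a : Fin t → Fin m, gK n K (fun i => x i - ((a i : ℕ) : ℝ) / m) := by
  rcases (thick m K).eq_empty_or_nonempty with h0 | h0
  · have h1 : gK n (thick m K) x = 0 := by
      unfold gK
      rw [h0, thickenedIndicator_zero, NNReal.coe_zero]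
      rw [Metric.thickening_empty]
      exact Set.notMem_empty x
    rw [h1]
    exact Finset.sum_nonneg fun a _ => gK_nonneg n K _
  · obtain ⟨y, hy, hd⟩ := (thick_closed m hm hK hp).exists_infDist_eq_dist h0 x
    have hd' : Metric.infEDist x (thick m K) = edist x y := by
      rw [edist_dist, ← hd, Metric.infDist, ENNReal.ofReal_toReal (Metric.infEDist_ne_top h0)]
    obtain ⟨z, hz⟩ := hy
    choose a q haq using fun i => admT_mod m hm (z i)
    have hz2 := hp _ hz q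
    have hz3 : (fun i => y i - ((a i : ℕ) : ℝ) / m) ∈ K := by
      convert hz2 using 1
      funext i
      rw [haq i]
      ring
    have h2 : Metric.infEDist (fun i => x i - ((a i : ℕ) : ℝ) / m) K ≤ Metric.infEDist x (thick m K) := by
      rw [hd']
      refine (Metric.infEDist_le_edist_of_mem hz3).trans (le_of_eq ?_)
      have e1 : (fun i => x i - ((a i : ℕ) : ℝ) / m) = x - fun i => ((a i : ℕ) : ℝ) / m := rfl
      have e2 : (fun i => y i - ((a i : ℕ) : ℝ) / m) = y - fun i => ((a i : ℕ) : ℝ) / m := rfl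
      rw [e1, e2, edist_sub_right]
    refine (admT_gK_le n _ K x _ h2).trans ?_
    exact Finset.single_le_sum (f := fun a : Fin t → Fin m => gK n K (fun i => x i - ((a i : ℕ) : ℝ) / m)) (fun b _ => gK_nonneg n K _) (Finset.mem_univ a)

theorem admT_snoc_sub {t : ℕ} (x v : Fin t → ℝ) (β w : ℝ) (u : Fin (t + 1) → ℝ) (hu : ∀ i : Fin t, u i.castSucc = v i) (hw : u (Fin.last t) = w) :
    (fun i => (Fin.snoc (α := fun _ => ℝ) x β : Fin (t + 1) → ℝ) i - u i) = (Fin.snoc (α := fun _ => ℝ) (fun i => x i - v i) (β - w) : Fin (t + 1) → ℝ) := by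
  funext i
  refine Fin.lastCases ?_ (fun i => ?_) i
  · rw [Fin.snoc_last, Fin.snoc_last, hw]
  · rw [Fin.snoc_castSucc, Fin.snoc_castSucc, hu]

theorem admT_snoc_cont {t : ℕ} (β : ℝ) : Continuous (fun x : Fin t → ℝ => (Fin.snoc (α := fun _ => ℝ) x β : Fin (t + 1) → ℝ)) := by
  refine continuous_pi fun i => ?_
  refine Fin.lastCases ?_ (fun i => ?_) i
  · simp only [Fin.snoc_last]
    exact continuous_const
  · simp only [Fin.snoc_castSucc]
    exact continuous_apply i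

theorem admT_sI {t : ℕ} (n m : ℕ) (hm : 1 ≤ m) {K : Set (Fin (t + 1) → ℝ)} (hK : IsClosed K) (hp : Per K) (β : ℝ) :
    sI n (thick m K) β ≤ ∑ a : Fin (t + 1) → Fin m, sI n K (β - ((a (Fin.last t) : ℕ) : ℝ) / m) := by
  have hcont : ∀ a : Fin (t + 1) → Fin m, Continuous (fun x : Fin t → ℝ => gK n K (fun i => (Fin.snoc (α := fun _ => ℝ) x β : Fin (t + 1) → ℝ) i - ((a i : ℕ) : ℝ) / m)) := by
    intro a
    refine (gK_cont n K).comp (continuous_pi fun i => ?_)
    exact ((continuous_apply i).comp (admT_snoc_cont β)).sub continuous_const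
  have hint : ∀ a : Fin (t + 1) → Fin m, MeasureTheory.IntegrableOn (fun x : Fin t → ℝ => gK n K (fun i => (Fin.snoc (α := fun _ => ℝ) x β : Fin (t + 1) → ℝ) i - ((a i : ℕ) : ℝ) / m))
      (Set.Icc (0 : Fin t → ℝ) 1) MeasureTheory.volume := fun a => ((hcont a).continuousOn).integrableOn_compact isCompact_Icc
  have h1 : sI n (thick m K) β ≤ ∫ x in Set.Icc (0 : Fin t → ℝ) 1, ∑ a : Fin (t + 1) → Fin m, gK n K (fun i => (Fin.snoc (α := fun _ => ℝ) x β : Fin (t + 1) → ℝ) i - ((a i : ℕ) : ℝ) / m) := by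
    unfold sI
    refine MeasureTheory.setIntegral_mono ?_ ?_ fun x => admT_gK_thick n m hm hK hp _
    · exact (((gK_cont n _).comp (admT_snoc_cont β)).continuousOn).integrableOn_compact isCompact_Icc
    · exact MeasureTheory.integrable_finsetSum _ fun a _ => hint a
  refine h1.trans (le_of_eq ?_)
  rw [MeasureTheory.integral_finsetSum _ fun a _ => hint a]
  refine Finset.sum_congr rfl fun a _ => ?_
  unfold sI
  rw [← cube_shift (fun x => gK n K (Fin.snoc (α := fun _ => ℝ) x (β - ((a (Fin.last t) : ℕ) : ℝ) / m) : Fin (t + 1) → ℝ)) ?_ (fun i => ((a i.castSucc : ℕ) : ℝ) / m)]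
  · congr 1
    funext x
    rw [admT_snoc_sub x (fun i => ((a i.castSucc : ℕ) : ℝ) / m) β (((a (Fin.last t) : ℕ) : ℝ) / m) (fun i => ((a i : ℕ) : ℝ) / m) (fun i => rfl) rfl]
  · intro x z
    have h2 := gK_per n hp (Fin.snoc (α := fun _ => ℝ) x (β - ((a (Fin.last t) : ℕ) : ℝ) / m) : Fin (t + 1) → ℝ) (Fin.snoc (α := fun _ => ℤ) z 0)
    rw [← h2]
    congr 1
    funext i
    refine Fin.lastCases ?_ (fun i => ?_) i
    · simp
    · simp

theorem admT_lev {t : ℕ} (m : ℕ) (hm : 1 ≤ m) {K : Set (Fin (t + 1) → ℝ)} (hK : IsClosed K) (hp : Per K) (c : ℝ) (hc : 0 < c) :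
    lev (thick m K) c ⊆ {x | ∃ z : ℤ, x - z / m ∈ lev K (c / (m : ℝ) ^ (t + 1))} := by
  intro β hβ
  by_contra hcon
  have h1 : ∀ b : Fin m, ∃ n : ℕ, sI n K (β - ((b : ℕ) : ℝ) / m) < c / (m : ℝ) ^ (t + 1) := by
    intro b
    by_contra h2
    push Not at h2
    apply hcon
    refine ⟨((b : ℕ) : ℤ), fun n => ?_⟩
    rw [Int.cast_natCast]
    exact h2 n
  choose N hN using h1
  have h3 := hβ (Finset.univ.sup N)
  have h4 := admT_sI (Finset.univ.sup N) m hm hK hp β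
  have h5 : ∑ a : Fin (t + 1) → Fin m, sI (Finset.univ.sup N) K (β - ((a (Fin.last t) : ℕ) : ℝ) / m) < ∑ a : Fin (t + 1) → Fin m, c / (m : ℝ) ^ (t + 1) := by
    have : Nonempty (Fin m) := ⟨⟨0, by omega⟩⟩
    refine Finset.sum_lt_sum_of_nonempty Finset.univ_nonempty fun a _ => ?_
    exact lt_of_le_of_lt (sI_anti (Finset.le_sup (f := N) (Finset.mem_univ (a (Fin.last t)))) K _) (hN (a (Fin.last t)))
  rw [Finset.sum_const, Finset.card_univ, Fintype.card_fun, Fintype.card_fin, Fintype.card_fin, nsmul_eq_mul] at h5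
  have hm' : (0 : ℝ) < m := by exact_mod_cast hm
  have h6 : ((m ^ (t + 1) : ℕ) : ℝ) * (c / (m : ℝ) ^ (t + 1)) = c := by
    push_cast
    field_simp
  rw [h6] at h5
  linarith

theorem admT_slice {t : ℕ} (m : ℕ) (hm : 1 ≤ m) {K : Set (Fin (t + 1) → ℝ)} (hp : Per K) (r : ℝ) :
    slice (thick m K) r ⊆ ⋃ b ∈ (Finset.univ : Finset (Fin m)), thick m (slice K (r - ((b : ℕ) : ℝ) / m)) := by
  rintro x ⟨z, hz⟩
  obtain ⟨b, q, hbq⟩ := admT_mod m hm (z (Fin.last t))
  simp only [Set.mem_iUnion, exists_prop, Finset.mem_univ, true_and]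
  refine ⟨b, fun i => z i.castSucc, ?_⟩
  have h1 := hp _ hz (Fin.snoc (α := fun _ => ℤ) (fun _ => 0) q)
  show (Fin.snoc (α := fun _ => ℝ) (fun i => x i - (z i.castSucc : ℝ) / m) (r - ((b : ℕ) : ℝ) / m) : Fin (t + 1) → ℝ) ∈ K
  convert h1 using 1
  funext i
  refine Fin.lastCases ?_ (fun i => ?_) i
  · rw [Fin.snoc_last, Fin.snoc_last, Fin.snoc_last, hbq]
    ring
  · rw [Fin.snoc_castSucc, Fin.snoc_castSucc, Fin.snoc_castSucc]
    simp

/-- `thick m K` is the union over `a ∈ [0,m)^(t+1)` of the translates `K + a/m` (`Per K`), so `gK n (thick m K) ≤ ∑_a gK n K (· - a/m)` and `sI n (thick m K) β ≤ m^t ∑_{a<m} sI n K (β - a/m)` (periodicity in the cube variables); hence `lev (thick m K) c ⊆ thick1 m (lev K (c/m^(t+1)))`. `slice (thick m K) r = ⋃_{a<m} thick m (slice K (r - a/m))`: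
`adm_biUnion`, induction on `t`. -/
theorem adm_thick {𝒢 : ℕ → Set ℝ → Prop} (h𝒢 : GoodLev 𝒢) (t : ℕ) : ∀ K : Set (Fin t → ℝ), IsClosed K → Per K → AdmP 𝒢 t K → ∀ m : ℕ, 1 ≤ m →
    AdmP 𝒢 t (thick m K) := by
  induction t with
  | zero =>
    intro K _ _ _ m _
    trivial
  | succ t ih =>
    intro K hK hp hadm m hm
    obtain ⟨h1, h2⟩ := hadm
    refine ⟨fun c hc => ?_, fun r => ?_⟩
    · have hm' : (0 : ℝ) < m := by exact_mod_cast hm
      exact h𝒢.mono _ _ _ (h𝒢.shift _ _ (h1 (c / (m : ℝ) ^ (t + 1)) (by positivity)) m hm) (admT_lev m hm hK hp c hc)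
    · refine adm_mono h𝒢 t _ _ ?_ (admT_slice m hm hp (r : ℝ))
      refine adm_biUnion h𝒢 t _ ⟨⟨0, by omega⟩, Finset.mem_univ _⟩ _ fun b _ => ?_
      refine ih _ (slice_closed hK _) (slice_per hp _) ?_ m hm
      have h3 := h2 (r - ((b : ℕ) : ℚ) / m)
      push_cast at h3
      exact h3

end Pool.Agent.Lib.MP_3e612f_nt.NF
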