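import Pool.Agent.Lib.MP_3e612f_nt.NF.P.Defs

/-! Translates by vectors with bounded denominators (paper v2). -/

set_option autoImplicit false

namespace Pool.Agent.Lib.MP_3e612f_nt.NF

open Finset
open Pool.Agent.Lib.MP_3e612f_nt.MR (mu ex)

theorem thick_closed {t : ℕ} (m : ℕ) (hm : 1 ≤ m) {K : Set (Fin t → ℝ)} (hK : IsClosed K) (hp : Per K) : IsClosed (thick m K) := by
  have hm0 : (m : ℝ) ≠ 0 := by
    have : 0 < (m : ℝ) := by exact_mod_cast hm
    exact this.ne'
  have hmz : (m : ℤ) ≠ 0 := by omega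
  have h : thick m K = ⋃ r : Fin t → Fin m, {x : Fin t → ℝ | (fun i => x i - ((r i : ℕ) : ℝ) / m) ∈ K} := by
    ext x
    simp only [thick, Set.mem_setOf_eq, Set.mem_iUnion]
    constructor
    · rintro ⟨z, hz⟩
      refine ⟨fun i => ⟨(z i % m).toNat, ?_⟩, ?_⟩
      · have h1 := Int.emod_lt_of_pos (z i) (by omega : (0 : ℤ) < m)
        have h2 := Int.emod_nonneg (z i) hmz
        omega
      · have h3 := hp _ hz (fun i => z i / m)
        have h4 : (fun i => x i - (((z i % m).toNat : ℕ) : ℝ) / m) =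
            fun i => x i - (z i : ℝ) / m + ((z i / m : ℤ) : ℝ) := by
          funext i
          have h2 := Int.emod_nonneg (z i) hmz
          have h5 : (((z i % m).toNat : ℕ) : ℤ) = z i % m := Int.toNat_of_nonneg h2
          have h6 : (z i : ℤ) = m * (z i / m) + z i % m := (Int.mul_ediv_add_emod (z i) m).symm
          have h7 : (((z i % m).toNat : ℕ) : ℝ) = ((z i % m : ℤ) : ℝ) := by
            exact_mod_cast congrArg (fun a : ℤ => (a : ℝ)) h5
          have h8 : (z i : ℝ) = (m : ℝ) * ((z i / m : ℤ) : ℝ) + ((z i % m : ℤ) : ℝ) := by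
            exact_mod_cast congrArg (fun a : ℤ => (a : ℝ)) h6
          rw [h7, h8]
          field_simp
          ring
        simpa only [h4] using h3
    · rintro ⟨r, hr⟩
      exact ⟨fun i => ((r i : ℕ) : ℤ), by simpa using hr⟩
  rw [h]
  refine isClosed_iUnion_of_finite fun r => ?_
  exact hK.preimage (by fun_prop)

theorem thick_per {t : ℕ} (m : ℕ) {K : Set (Fin t → ℝ)} (hp : Per K) : Per (thick m K) := by
  rintro x ⟨z, hz⟩ w
  refine ⟨z, ?_⟩
  have h := hp _ hz w
  have h1 : (fun i => x i - (z i : ℝ) / m + w i) = fun i => x i + w i - (z i : ℝ) / m := by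
    funext i
    ring
  rw [h1] at h
  exact h

theorem subset_thick {t : ℕ} (m : ℕ) (K : Set (Fin t → ℝ)) : K ⊆ thick m K := by
  intro x hx
  exact ⟨fun _ => 0, by simpa using hx⟩

theorem thick1_closed (m : ℕ) (hm : 1 ≤ m) {C : Set ℝ} (hC : IsClosed C) (hp : Per1 C) : IsClosed (thick1 m C) := by
  have hm0 : (m : ℝ) ≠ 0 := by
    have : 0 < (m : ℝ) := by exact_mod_cast hm
    exact this.ne'
  have hmz : (m : ℤ) ≠ 0 := by omega
  have h : thick1 m C = ⋃ r : Fin m, {x : ℝ | x - ((r : ℕ) : ℝ) / m ∈ C} := by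
    ext x
    simp only [thick1, Set.mem_setOf_eq, Set.mem_iUnion]
    constructor
    · rintro ⟨z, hz⟩
      refine ⟨⟨(z % m).toNat, ?_⟩, ?_⟩
      · have h1 := Int.emod_lt_of_pos z (by omega : (0 : ℤ) < m)
        have h2 := Int.emod_nonneg z hmz
        omega
      · have h3 := hp _ hz (z / m)
        have h4 : x - (((z % m).toNat : ℕ) : ℝ) / m = x - (z : ℝ) / m + ((z / m : ℤ) : ℝ) := by
          have h2 := Int.emod_nonneg z hmz
          have h5 : (((z % m).toNat : ℕ) : ℤ) = z % m := Int.toNat_of_nonneg h2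
          have h6 : (z : ℤ) = m * (z / m) + z % m := (Int.mul_ediv_add_emod z m).symm
          have h7 : (((z % m).toNat : ℕ) : ℝ) = ((z % m : ℤ) : ℝ) := by
            exact_mod_cast congrArg (fun a : ℤ => (a : ℝ)) h5
          have h8 : (z : ℝ) = (m : ℝ) * ((z / m : ℤ) : ℝ) + ((z % m : ℤ) : ℝ) := by
            exact_mod_cast congrArg (fun a : ℤ => (a : ℝ)) h6
          rw [h7, h8]
          field_simp
          ring
        simpa only [h4] using h3
    · rintro ⟨r, hr⟩
      exact ⟨((r : ℕ) : ℤ), by simpa using hr⟩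
  rw [h]
  refine isClosed_iUnion_of_finite fun r => ?_
  exact hC.preimage (by fun_prop)

theorem thick1_per (m : ℕ) {C : Set ℝ} (hp : Per1 C) : Per1 (thick1 m C) := by
  rintro x ⟨z, hz⟩ w
  refine ⟨z, ?_⟩
  have h := hp _ hz w
  have h1 : x - (z : ℝ) / m + w = x + w - (z : ℝ) / m := by ring
  rw [h1] at h
  exact h

/-- If `m' ∣ m` then translating by `(1/m')ℤ` stays inside. -/
theorem thick1_mem {m m' : ℕ} (hm' : 1 ≤ m') (h : m' ∣ m) (hm : 1 ≤ m) {C : Set ℝ} {x : ℝ} (hx : x ∈ C) (z : ℤ) : x + z / m' ∈ thick1 m C := by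
  obtain ⟨k, rfl⟩ := h
  have hk : 1 ≤ k := by
    rcases Nat.eq_zero_or_pos k with h0 | h0
    · subst h0
      omega
    · exact h0
  refine ⟨z * k, ?_⟩
  have h1 : (m' : ℝ) ≠ 0 := by
    have : 0 < (m' : ℝ) := by exact_mod_cast hm'
    exact this.ne'
  have h2 : (k : ℝ) ≠ 0 := by
    have : 0 < (k : ℝ) := by exact_mod_cast hk
    exact this.ne'
  have h3 : x + (z : ℝ) / m' - ((z * k : ℤ) : ℝ) / ((m' * k : ℕ) : ℝ) = x := by
    push_cast
    field_simp
    ring
  rw [h3]
  exact hx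

theorem slice_closed {t : ℕ} {K : Set (Fin (t + 1) → ℝ)} (hK : IsClosed K) (β : ℝ) : IsClosed (slice K β) := by
  have h : Continuous fun x : Fin t → ℝ => (Fin.snoc (α := fun _ => ℝ) x β : Fin (t + 1) → ℝ) :=
    Continuous.finSnoc (A := fun _ => ℝ) continuous_id continuous_const
  exact hK.preimage h

theorem slice_per {t : ℕ} {K : Set (Fin (t + 1) → ℝ)} (hp : Per K) (β : ℝ) : Per (slice K β) := by
  intro x hx z
  have h := hp _ hx (Fin.snoc (α := fun _ => ℤ) z 0)
  have h1 : (fun i => (Fin.snoc (α := fun _ => ℝ) x β : Fin (t + 1) → ℝ) i +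
      ((Fin.snoc (α := fun _ => ℤ) z 0 : Fin (t + 1) → ℤ) i : ℝ)) =
      (Fin.snoc (α := fun _ => ℝ) (fun i => x i + z i) β : Fin (t + 1) → ℝ) := by
    funext i
    refine Fin.lastCases ?_ (fun j => ?_) i
    · simp
    · simp
  rw [h1] at h
  exact h

end Pool.Agent.Lib.MP_3e612f_nt.NF
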