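import Pool.Agent.Lib.MP_3e612f_nt.NF.P.LevA
import Pool.Agent.Lib.MP_3e612f_nt.NF.P.Thick

/-! Unions of admissible sets (paper v2). -/

set_option autoImplicit false

namespace Pool.Agent.Lib.MP_3e612f_nt.NF

open Finset
open Pool.Agent.Lib.MP_3e612f_nt.MR (mu ex)

theorem gK_mono {t : ℕ} (n : ℕ) {K K' : Set (Fin t → ℝ)} (h : K' ⊆ K) (x : Fin t → ℝ) :
    gK n K' x ≤ gK n K x := by
  unfold gK
  exact NNReal.coe_le_coe.2 (thickenedIndicator_subset _ h x)

theorem gK_union_le {t : ℕ} (n : ℕ) (K K' : Set (Fin t → ℝ)) (x : Fin t → ℝ) :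
    gK n (K ∪ K') x ≤ gK n K x + gK n K' x := by
  have hle : ∀ {A : Set (Fin t → ℝ)}, Metric.infEDist x (K ∪ K') = Metric.infEDist x A →
      gK n (K ∪ K') x = gK n A x := by
    intro A hA
    unfold gK
    simp only [thickenedIndicator, thickenedIndicatorAux, BoundedContinuousFunction.coe_mk, hA]
  rcases le_total (Metric.infEDist x K) (Metric.infEDist x K') with h | h
  · have h1 : Metric.infEDist x (K ∪ K') = Metric.infEDist x K := by
      rw [Metric.infEDist_union]
      exact min_eq_left h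
    rw [hle h1]
    linarith [gK_nonneg n K' x]
  · have h1 : Metric.infEDist x (K ∪ K') = Metric.infEDist x K' := by
      rw [Metric.infEDist_union]
      exact min_eq_right h
    rw [hle h1]
    linarith [gK_nonneg n K x]

theorem gK_snoc_integrable {t : ℕ} (n : ℕ) (K : Set (Fin (t + 1) → ℝ)) (β : ℝ) :
    MeasureTheory.IntegrableOn
      (fun x : Fin t → ℝ => gK n K (Fin.snoc (α := fun _ => ℝ) x β : Fin (t + 1) → ℝ))
      (Set.Icc (0 : Fin t → ℝ) 1) := by
  apply ContinuousOn.integrableOn_compact isCompact_Icc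
  apply Continuous.continuousOn
  refine (gK_cont n K).comp ?_
  refine continuous_pi fun i => ?_
  refine Fin.lastCases ?_ (fun j => ?_) i
  · simp only [Fin.snoc_last]
    exact continuous_const
  · simp only [Fin.snoc_castSucc]
    exact continuous_apply j

theorem sI_mono {t : ℕ} (n : ℕ) {K K' : Set (Fin (t + 1) → ℝ)} (h : K' ⊆ K) (β : ℝ) :
    sI n K' β ≤ sI n K β := by
  unfold sI
  exact MeasureTheory.integral_mono (gK_snoc_integrable n K' β) (gK_snoc_integrable n K β)
    fun x => gK_mono n h _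

theorem sI_union_le {t : ℕ} (n : ℕ) (K K' : Set (Fin (t + 1) → ℝ)) (β : ℝ) :
    sI n (K ∪ K') β ≤ sI n K β + sI n K' β := by
  unfold sI
  rw [← MeasureTheory.integral_add (gK_snoc_integrable n K β) (gK_snoc_integrable n K' β)]
  exact MeasureTheory.integral_mono (gK_snoc_integrable n (K ∪ K') β)
    ((gK_snoc_integrable n K β).add (gK_snoc_integrable n K' β)) fun x => gK_union_le n K K' _

theorem lev_union {t : ℕ} (K K' : Set (Fin (t + 1) → ℝ)) (c : ℝ) :
    lev (K ∪ K') c ⊆ lev K (c / 2) ∪ lev K' (c / 2) := by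
  intro β hβ
  by_contra hn
  simp only [lev, Set.mem_union, Set.mem_ofPred_eq, not_or, not_forall, not_le] at hn
  obtain ⟨⟨n, hn⟩, n', hn'⟩ := hn
  have h1 : c ≤ sI (max n n') (K ∪ K') β := hβ _
  have h2 := sI_union_le (max n n') K K' β
  have h3 := sI_anti (le_max_left n n') K β
  have h4 := sI_anti (le_max_right n n') K' β
  linarith

/-- `gK n (K ∪ K') ≤ gK n K + gK n K'`, so `lev (K ∪ K') c ⊆ lev K (c/2) ∪ lev K' (c/2)` (monotonicity in `n`), and `slice (K ∪ K') r` is the union of the slices. Induction on `t`. -/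
theorem adm_union {𝒢 : ℕ → Set ℝ → Prop} (h𝒢 : GoodLev 𝒢) (t : ℕ) : ∀ K K' : Set (Fin t → ℝ), AdmP 𝒢 t K → AdmP 𝒢 t K' → AdmP 𝒢 t (K ∪ K') := by
  induction t with
  | zero => exact fun _ _ _ _ => trivial
  | succ t ih =>
    intro K K' hK hK'
    refine ⟨fun c hc => ?_, fun r => ?_⟩
    · exact h𝒢.mono _ _ _ (h𝒢.union _ _ _ (hK.1 (c / 2) (half_pos hc)) (hK'.1 (c / 2) (half_pos hc)))
        (lev_union K K' c)
    · exact ih _ _ (hK.2 r) (hK'.2 r)

/-- subsets -/
theorem adm_mono {𝒢 : ℕ → Set ℝ → Prop} (h𝒢 : GoodLev 𝒢) (t : ℕ) : ∀ K K' : Set (Fin t → ℝ), AdmP 𝒢 t K → K' ⊆ K → AdmP 𝒢 t K' := by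
  induction t with
  | zero => exact fun _ _ _ _ => trivial
  | succ t ih =>
    intro K K' hK h
    refine ⟨fun c hc => ?_, fun r => ?_⟩
    · exact h𝒢.mono _ _ _ (hK.1 c hc) fun β hβ n => (hβ n).trans (sI_mono n h β)
    · exact ih _ _ (hK.2 r) fun x hx => h hx

/-- the empty set is admissible if the empty set is good at all levels (which follows from `mono` as soon as there is a good set) -/
theorem adm_biUnion {𝒢 : ℕ → Set ℝ → Prop} (h𝒢 : GoodLev 𝒢) (t : ℕ) {ι : Type} (s : Finset ι) (hs : s.Nonempty) (K : ι → Set (Fin t → ℝ)) (h : ∀ i ∈ s, AdmP 𝒢 t (K i)) :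
    AdmP 𝒢 t (⋃ i ∈ s, K i) := by
  classical
  induction hs using Finset.Nonempty.cons_induction with
  | singleton a => simpa using h a (Finset.mem_singleton_self a)
  | cons a s ha hs ih =>
    have h1 : (⋃ i ∈ Finset.cons a s ha, K i) = K a ∪ ⋃ i ∈ s, K i := by
      ext x
      simp
    rw [h1]
    exact adm_union h𝒢 t _ _ (h a (Finset.mem_cons_self a s))
      (ih fun i hi => h i (Finset.mem_cons_of_mem hi))

end Pool.Agent.Lib.MP_3e612f_nt.NF
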