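import Pool.Agent.Lib.MP_3e612f_nt.NF.P.Sh

/-! Translation of polynomials: bounds (paper v2, Part P). -/

set_option autoImplicit false

namespace Pool.Agent.Lib.MP_3e612f_nt.NF

open Finset
open Pool.Agent.Lib.MP_3e612f_nt.MR (mu ex)

theorem shB_dZ_sum {ι : Type} (s : Finset ι) (f : ι → ℝ) : dZ (∑ i ∈ s, f i) ≤ ∑ i ∈ s, dZ (f i) := by
  classical
  induction s using Finset.induction_on with
  | empty =>
    rw [Finset.sum_empty, Finset.sum_empty]
    have := dZ_int 0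
    rw [Int.cast_zero] at this
    exact this.le
  | insert a s ha ih =>
    rw [Finset.sum_insert ha, Finset.sum_insert ha]
    exact (dZ_add_le _ _).trans (add_le_add le_rfl ih)

/-- the coefficient bound -/
theorem shB_coef {t : ℕ} (u A : ℝ) (hA : 1 ≤ A) (hu : 0 ≤ u) (h : u ≤ A) (i j : Fin t) :
    (Nat.choose ((j : ℕ) + 1) ((i : ℕ) + 1) : ℝ) * u ^ ((j : ℕ) - (i : ℕ)) ≤ 2 ^ t * A ^ t := by
  have h1 : Nat.choose ((j : ℕ) + 1) ((i : ℕ) + 1) ≤ 2 ^ t :=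
    (Nat.choose_le_two_pow _ _).trans (Nat.pow_le_pow_right (by norm_num) j.2)
  have h2 : (Nat.choose ((j : ℕ) + 1) ((i : ℕ) + 1) : ℝ) ≤ 2 ^ t := by exact_mod_cast h1
  have h3 : u ^ ((j : ℕ) - (i : ℕ)) ≤ A ^ t := by
    refine (pow_le_pow_left₀ hu h _).trans (pow_le_pow_right₀ hA ?_)
    have := j.2
    omega
  exact mul_le_mul h2 h3 (pow_nonneg hu _) (by positivity)

/-- `sh s α i = ∑_j choose s^(j-i) α_j`, `choose ≤ 2^t`; `s` integral, so `dZ (k choose s^(j-i) α_j) ≤ choose |s|^(j-i) dZ (k α_j)`. -/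
theorem sh_dZ {t : ℕ} (s : ℤ) (A : ℝ) (hA : 1 ≤ A) (H : ℕ) (hH : 1 ≤ H) (hs : |(s : ℝ)| ≤ A * H) (k : ℕ) (K : ℝ) (hK : 0 ≤ K) (α : Fin t → ℝ)
    (h : ∀ j, dZ (k * α j) ≤ K / (H : ℝ) ^ ((j : ℕ) + 1)) (i : Fin t) : dZ (k * sh (s : ℝ) α i) ≤ (t * 2 ^ t * A ^ t) * K / (H : ℝ) ^ ((i : ℕ) + 1) := by
  have hH0 : (0 : ℝ) < H := by exact_mod_cast hH
  have h1 : (k : ℝ) * sh (s : ℝ) α i = ∑ j : Fin t,
      (((Nat.choose ((j : ℕ) + 1) ((i : ℕ) + 1) : ℤ) * s ^ ((j : ℕ) - (i : ℕ)) : ℤ) : ℝ) * (k * α j) := by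
    unfold sh
    rw [Finset.mul_sum]
    refine Finset.sum_congr rfl fun j _ => ?_
    push_cast
    ring
  have hpt : ∀ j ∈ (Finset.univ : Finset (Fin t)),
      dZ ((((Nat.choose ((j : ℕ) + 1) ((i : ℕ) + 1) : ℤ) * s ^ ((j : ℕ) - (i : ℕ)) : ℤ) : ℝ) * (k * α j)) ≤
        (2 ^ t * A ^ t) * K / (H : ℝ) ^ ((i : ℕ) + 1) := by
    intro j _
    rcases Nat.lt_or_ge (j : ℕ) (i : ℕ) with hji | hji
    · rw [Nat.choose_eq_zero_of_lt (by omega)]
      have h0 := dZ_int 0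
      rw [Int.cast_zero] at h0
      simp only [Nat.cast_zero, zero_mul, Int.cast_zero]
      rw [h0]
      positivity
    · refine (dZ_int_mul_le _ _).trans ?_
      have h2 : |((((Nat.choose ((j : ℕ) + 1) ((i : ℕ) + 1) : ℤ) * s ^ ((j : ℕ) - (i : ℕ)) : ℤ)) : ℝ)| =
          (Nat.choose ((j : ℕ) + 1) ((i : ℕ) + 1) : ℝ) * (|(s : ℝ)| / H) ^ ((j : ℕ) - (i : ℕ)) *
            (H : ℝ) ^ ((j : ℕ) - (i : ℕ)) := by
        push_cast
        rw [abs_mul, abs_pow, Nat.abs_cast, mul_assoc, ← mul_pow, div_mul_cancel₀ _ hH0.ne']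
      rw [h2]
      have h3 : |(s : ℝ)| / H ≤ A := by
        rw [div_le_iff₀ hH0]
        exact hs
      have h4 := shB_coef (|(s : ℝ)| / H) A hA (by positivity) h3 i j
      calc (Nat.choose ((j : ℕ) + 1) ((i : ℕ) + 1) : ℝ) * (|(s : ℝ)| / H) ^ ((j : ℕ) - (i : ℕ)) *
            (H : ℝ) ^ ((j : ℕ) - (i : ℕ)) * dZ (k * α j)
          ≤ (2 ^ t * A ^ t) * (H : ℝ) ^ ((j : ℕ) - (i : ℕ)) * (K / (H : ℝ) ^ ((j : ℕ) + 1)) := by
            refine mul_le_mul ?_ (h j) (dZ_nonneg _) (by positivity)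
            exact mul_le_mul_of_nonneg_right h4 (by positivity)
        _ = (2 ^ t * A ^ t) * K / (H : ℝ) ^ ((i : ℕ) + 1) := by
            have h5 : (H : ℝ) ^ ((j : ℕ) + 1) = (H : ℝ) ^ ((j : ℕ) - (i : ℕ)) * (H : ℝ) ^ ((i : ℕ) + 1) := by
              rw [← pow_add]
              congr 1
              omega
            rw [h5]
            have h6 : (H : ℝ) ^ ((j : ℕ) - (i : ℕ)) ≠ 0 := by positivity
            have h7 : (H : ℝ) ^ ((i : ℕ) + 1) ≠ 0 := by positivity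
            field_simp
  rw [h1]
  refine (shB_dZ_sum _ _).trans ((Finset.sum_le_sum hpt).trans (le_of_eq ?_))
  rw [Finset.sum_const, Finset.card_univ, Fintype.card_fin, nsmul_eq_mul]
  ring

/-- absolute values -/
theorem sh_abs {t : ℕ} (s A : ℝ) (hA : 1 ≤ A) (hs : |s| ≤ A) (α : Fin t → ℝ) (K : ℝ) (h : ∀ j, |α j| ≤ K) (i : Fin t) :
    |sh s α i| ≤ (t * 2 ^ t * A ^ t) * K := by
  have hpt : ∀ j ∈ (Finset.univ : Finset (Fin t)),
      |(Nat.choose ((j : ℕ) + 1) ((i : ℕ) + 1) : ℝ) * s ^ ((j : ℕ) - (i : ℕ)) * α j| ≤ 2 ^ t * A ^ t * K := by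
    intro j _
    rw [abs_mul, abs_mul, abs_pow, Nat.abs_cast]
    exact mul_le_mul (shB_coef |s| A hA (abs_nonneg _) hs i j) (h j) (abs_nonneg _) (by positivity)
  unfold sh
  refine (Finset.abs_sum_le_sum_abs _ _).trans ((Finset.sum_le_sum hpt).trans (le_of_eq ?_))
  rw [Finset.sum_const, Finset.card_univ, Fintype.card_fin, nsmul_eq_mul]
  ring

/-- `s ↦ sh s α i` as a polynomial: `U d` (coefficient of `s^(d+1)`) is `choose(i+d+2, i+1) α_{i+d+1}`, `d < t - 1 - i`. -/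
theorem sh_poly {t : ℕ} (α : Fin t → ℝ) (i : Fin t) (s : ℝ) :
    sh s α i = α i + pol (fun d : Fin (t - 1 - (i : ℕ)) => (Nat.choose ((i : ℕ) + d + 2) ((i : ℕ) + 1) : ℝ) * α ⟨(i : ℕ) + d + 1, by omega⟩) s := by
  classical
  set g : ℕ → ℝ := fun j => if hj : j < t then
    (Nat.choose (j + 1) ((i : ℕ) + 1) : ℝ) * s ^ (j - (i : ℕ)) * α ⟨j, hj⟩ else 0 with hg
  have h1 : sh s α i = ∑ j ∈ range t, g j := by
    unfold sh
    rw [← Fin.sum_univ_eq_sum_range]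
    refine Finset.sum_congr rfl fun j _ => ?_
    rw [hg]
    simp only [dif_pos j.2]
  have h2 : ∑ j ∈ range t, g j = ∑ j ∈ range (i : ℕ), g j + ∑ d ∈ range (t - (i : ℕ)), g ((i : ℕ) + d) := by
    rw [← Finset.sum_range_add]
    congr 2
    have := i.2
    omega
  have h3 : ∑ j ∈ range (i : ℕ), g j = 0 := by
    refine Finset.sum_eq_zero fun j hj => ?_
    rw [Finset.mem_range] at hj
    rw [hg]
    have hjt : j < t := lt_trans hj i.2
    simp only [dif_pos hjt]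
    rw [Nat.choose_eq_zero_of_lt (by omega), Nat.cast_zero, zero_mul, zero_mul]
  have h4 : t - (i : ℕ) = (t - 1 - (i : ℕ)) + 1 := by
    have := i.2
    omega
  rw [h1, h2, h3, zero_add, h4, Finset.sum_range_succ', add_comm]
  congr 1
  · rw [hg]
    simp only [add_zero, dif_pos i.2, Nat.choose_self, Nat.cast_one, one_mul, Nat.sub_self, pow_zero]
  · unfold pol
    rw [← Fin.sum_univ_eq_sum_range (fun d => g ((i : ℕ) + (d + 1)))]
    refine Finset.sum_congr rfl fun d _ => ?_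
    have hd : (i : ℕ) + ((d : ℕ) + 1) < t := by
      have := d.2
      omega
    rw [hg]
    simp only [dif_pos hd]
    have e1 : (i : ℕ) + ((d : ℕ) + 1) - (i : ℕ) = (d : ℕ) + 1 := by omega
    have e2 : (i : ℕ) + ((d : ℕ) + 1) + 1 = (i : ℕ) + d + 2 := by omega
    rw [e1, e2]
    have e3 : (⟨(i : ℕ) + ((d : ℕ) + 1), hd⟩ : Fin t) = ⟨(i : ℕ) + d + 1, by omega⟩ := by
      apply Fin.ext
      simp only
      omega
    rw [e3]
    ring

/-- conversion to polynomials -/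
theorem exists_poly {t : ℕ} (α : Fin t → ℝ) (c : ℝ) : ∃ Q : Polynomial ℝ, Q.natDegree ≤ t ∧ (∀ x : ℝ, Q.eval x = pol α x + c) ∧
    ∀ i : Fin t, Q.coeff ((i : ℕ) + 1) = α i := by
  refine ⟨(∑ i : Fin t, Polynomial.C (α i) * Polynomial.X ^ ((i : ℕ) + 1)) + Polynomial.C c, ?_, ?_, ?_⟩
  · refine (Polynomial.natDegree_add_le _ _).trans (max_le ?_ ?_)
    · refine Polynomial.natDegree_sum_le_of_forall_le _ _ fun i _ => ?_
      refine (Polynomial.natDegree_C_mul_X_pow_le _ _).trans i.2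
    · rw [Polynomial.natDegree_C]
      exact Nat.zero_le _
  · intro x
    unfold pol
    rw [Polynomial.eval_add, Polynomial.eval_finsetSum, Polynomial.eval_C]
    congr 1
    refine Finset.sum_congr rfl fun i _ => ?_
    simp
  · intro i
    rw [Polynomial.coeff_add, Polynomial.coeff_C_succ, add_zero, Polynomial.finsetSum_coeff]
    rw [Finset.sum_eq_single i]
    · simp
    · intro j _ hj
      rw [Polynomial.coeff_C_mul, Polynomial.coeff_X_pow, if_neg, mul_zero]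
      intro h1
      exact hj (Fin.ext (by omega))
    · intro h1
      exact absurd (Finset.mem_univ i) h1

end Pool.Agent.Lib.MP_3e612f_nt.NF
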