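import Pool.Agent.Lib.MP_3e612f_nt.NF.P.OneDim
import Pool.Agent.Lib.MP_3e612f_nt.NF.P.ShB
import Pool.Agent.Lib.MP_3e612f_nt.NF.P.Thick

/-! From one coordinate back to the full vector (paper v2, T). -/

set_option autoImplicit false

namespace Pool.Agent.Lib.MP_3e612f_nt.NF

open Finset
open Pool.Agent.Lib.MP_3e612f_nt.MR (mu ex)

theorem as_dZ_sum {ι : Type} (s : Finset ι) (f : ι → ℝ) : dZ (∑ i ∈ s, f i) ≤ ∑ i ∈ s, dZ (f i) := by
  classical
  induction s using Finset.induction_on with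
  | empty =>
    simp only [sum_empty]
    have := dZ_int 0
    simp only [Int.cast_zero] at this
    rw [this]
  | insert a s ha ih =>
    rw [sum_insert ha, sum_insert ha]
    exact (dZ_add_le _ _).trans (by linarith)

open scoped Classical in
/-- `i : Fin t` = the coordinate of level `I = i + 1`. By `sh_poly` `s ↦ sh s α i = α_i + pol U s`, `U_d = choose(i+d+2, i+1) α_{i+d+1}`. `one_dim` (for `C`, `c`) gives `Q₁`; put `Q = Q₁ t!` . Given `δ`: `one_dim` with `δ/(t! ..)` : `q₁ ≤ Q₁`, `dZ (q₁ U_d) ≤ δ''/H^(d+1)`; `choose(i+d+2,i+1)` divides `t!`-multiples: for `q = q₁ t!`,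
`dZ (q α_{i+d+1}) ≤ t! δ''/H^(d+1)` (`choose(n,k) ∣ n! ∣ t!` for `n ≤ t`). For one `s < H` (the set is nonempty, `c H > 0`) `sh s α i` is within `ρ` of `C`; `α_i = sh s α i - ∑_d choose s^(d+1) α_{i+d+1}` and `q s^(d+1) choose α_{i+d+1} ∈ ℤ + O(2^t t! δ'')`: so `α_i` is within `ρ + t 2^t t! δ''` of `C + (1/q)ℤ ⊆ thick1 (Q!) C`. -/
theorem ascend (t : ℕ) (i : Fin t) (C : Set ℝ) (hC : IsClosed C) (hp : Per1 C) (h0 : MeasureTheory.volume C = 0) (c : ℝ) (hc : 0 < c) :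
    ∃ Q : ℕ, 1 ≤ Q ∧ ∀ δ : ℝ, 0 < δ → ∃ ρ : ℝ, 0 < ρ ∧ ∃ H₀ : ℕ, ∀ H : ℕ, H₀ ≤ H → ∀ α : Fin t → ℝ,
      c * H ≤ ((((range H).filter (fun s : ℕ => ∃ y ∈ C, |sh (s : ℝ) α i - y| ≤ ρ)).card : ℕ) : ℝ) →
      Cond ((i : ℕ) + 1) (thick1 Q.factorial C) Q δ H α := by
  have hit := i.2
  obtain ⟨Q₁, hQ₁, h1⟩ := one_dim (t - 1 - (i : ℕ)) C hC hp h0 c hc
  refine ⟨Q₁ * t.factorial, Nat.one_le_iff_ne_zero.mpr (Nat.mul_ne_zero (by omega) (Nat.factorial_ne_zero _)), ?_⟩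
  intro δ hδ
  have hF0 : (0 : ℝ) < t.factorial := by exact_mod_cast Nat.factorial_pos t
  have ht0 : (1 : ℝ) ≤ t := by exact_mod_cast (show 1 ≤ t by omega)
  set δ'' : ℝ := δ / (2 * (t * t.factorial)) with hδ''
  have hδ''0 : 0 < δ'' := by positivity
  obtain ⟨ρ₁, hρ₁, H₁, h2⟩ := h1 δ'' hδ''0
  refine ⟨min ρ₁ (δ / 2), lt_min hρ₁ (by positivity), max 1 H₁, ?_⟩
  intro H hH α hcard
  have hH1 : 1 ≤ H := (le_max_left _ _).trans hH
  have hH0 : (0 : ℝ) < H := by exact_mod_cast hH1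
  set U : Fin (t - 1 - (i : ℕ)) → ℝ := fun d => (Nat.choose ((i : ℕ) + d + 2) ((i : ℕ) + 1) : ℝ) * α ⟨(i : ℕ) + d + 1, by omega⟩ with hU
  have hsh : ∀ s : ℝ, sh s α i = pol U s + α i := by
    intro s
    rw [sh_poly, add_comm]
  obtain ⟨q₁, hq₁1, hq₁Q, hq₁⟩ := h2 H ((le_max_right _ _).trans hH) U (α i) (by
    refine hcard.trans ?_
    have h3 : ((range H).filter (fun s : ℕ => ∃ y ∈ C, |sh (s : ℝ) α i - y| ≤ min ρ₁ (δ / 2))).card ≤
        ((range H).filter (fun s : ℕ => ∃ y ∈ C, |pol U (s : ℝ) + α i - y| ≤ ρ₁)).card := by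
      apply card_le_card
      intro s hs
      rw [mem_filter] at hs ⊢
      obtain ⟨hs1, y, hy, hy'⟩ := hs
      refine ⟨hs1, y, hy, ?_⟩
      rw [← hsh]
      exact hy'.trans (min_le_left _ _)
    exact_mod_cast h3)
  have hq0 : (0 : ℝ) < ((q₁ * t.factorial : ℕ) : ℝ) := by
    have : 0 < q₁ * t.factorial := Nat.mul_pos (by omega) (Nat.factorial_pos t)
    exact_mod_cast this
  refine ⟨⟨q₁ * t.factorial, ?_, ?_, ?_⟩, ?_⟩
  · exact Nat.one_le_iff_ne_zero.mpr (Nat.mul_ne_zero (by omega) (Nat.factorial_ne_zero _))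
  · exact Nat.mul_le_mul hq₁Q le_rfl
  · intro j hj
    have hjt := j.2
    obtain ⟨d, hd⟩ : ∃ d : ℕ, (j : ℕ) = (i : ℕ) + d + 1 := ⟨(j : ℕ) - (i : ℕ) - 1, by omega⟩
    have hdt : d < t - 1 - (i : ℕ) := by omega
    have h3 := hq₁ ⟨d, hdt⟩
    have hUd : U ⟨d, hdt⟩ = (Nat.choose ((j : ℕ) + 1) ((i : ℕ) + 1) : ℝ) * α j := by
      simp only [hU]
      have h4 : (⟨(i : ℕ) + d + 1, by omega⟩ : Fin t) = j := Fin.ext hd.symm
      rw [h4]
      have h5 : (i : ℕ) + d + 2 = (j : ℕ) + 1 := by omega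
      rw [h5]
    rw [hUd] at h3
    have h4 : Nat.choose ((j : ℕ) + 1) ((i : ℕ) + 1) ∣ t.factorial := by
      have h4a := Nat.choose_mul_factorial_mul_factorial (show (i : ℕ) + 1 ≤ (j : ℕ) + 1 by omega)
      rw [mul_assoc] at h4a
      exact (Dvd.intro _ h4a).trans (Nat.factorial_dvd_factorial (by omega))
    obtain ⟨m, hm⟩ := h4
    have h5 : ((q₁ * t.factorial : ℕ) : ℝ) * α j = (m : ℝ) * (q₁ * ((Nat.choose ((j : ℕ) + 1) ((i : ℕ) + 1) : ℝ) * α j)) := by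
      rw [hm]
      push_cast
      ring
    rw [h5]
    refine (dZ_nat_mul_le _ _).trans ?_
    have h6 : m ≤ t.factorial := by
      have h7 : 1 ≤ Nat.choose ((j : ℕ) + 1) ((i : ℕ) + 1) := Nat.choose_pos (by omega)
      calc m = 1 * m := (one_mul m).symm
        _ ≤ Nat.choose ((j : ℕ) + 1) ((i : ℕ) + 1) * m := Nat.mul_le_mul h7 le_rfl
        _ = t.factorial := hm.symm
    have h6' : (m : ℝ) ≤ t.factorial := by exact_mod_cast h6
    have h8 : (j : ℕ) + 1 - ((i : ℕ) + 1) = d + 1 := by omega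
    rw [h8]
    have h9 : (0 : ℝ) < (H : ℝ) ^ (d + 1) := by positivity
    calc (m : ℝ) * dZ (q₁ * ((Nat.choose ((j : ℕ) + 1) ((i : ℕ) + 1) : ℝ) * α j)) ≤ t.factorial * (δ'' / (H : ℝ) ^ (d + 1)) :=
          mul_le_mul h6' h3 (dZ_nonneg _) hF0.le
      _ = (t.factorial * δ'') / (H : ℝ) ^ (d + 1) := by ring
      _ ≤ δ / (H : ℝ) ^ (d + 1) := by
          apply div_le_div_of_nonneg_right _ h9.le
          rw [hδ'']
          rw [mul_div_assoc', div_le_iff₀ (by positivity)]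
          nlinarith [mul_pos hδ hF0]
  · intro j hj
    have hji : j = i := Fin.ext (by omega)
    subst hji
    have hne : ((range H).filter (fun s : ℕ => ∃ y ∈ C, |sh (s : ℝ) α j - y| ≤ min ρ₁ (δ / 2))).Nonempty := by
      rw [← card_pos]
      have h3 : (0 : ℝ) < c * H := by positivity
      exact_mod_cast h3.trans_le hcard
    obtain ⟨s, hs⟩ := hne
    rw [mem_filter, mem_range] at hs
    obtain ⟨hsH, y, hy, hys⟩ := hs
    have hs0 : (s : ℝ) ≤ H := by exact_mod_cast hsH.le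
    have hb : dZ (((q₁ * t.factorial : ℕ) : ℝ) * pol U (s : ℝ)) ≤ t * (t.factorial * δ'') := by
      unfold pol
      rw [mul_sum]
      refine (as_dZ_sum _ _).trans ?_
      have h3 : ∀ d ∈ (univ : Finset (Fin (t - 1 - (j : ℕ)))), dZ (((q₁ * t.factorial : ℕ) : ℝ) * (U d * (s : ℝ) ^ ((d : ℕ) + 1))) ≤ t.factorial * δ'' := by
        intro d _
        have h4 : ((q₁ * t.factorial : ℕ) : ℝ) * (U d * (s : ℝ) ^ ((d : ℕ) + 1)) = ((t.factorial * s ^ ((d : ℕ) + 1) : ℕ) : ℝ) * (q₁ * U d) := by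
          push_cast
          ring
        rw [h4]
        refine (dZ_nat_mul_le _ _).trans ?_
        push_cast
        have h5 : (s : ℝ) ^ ((d : ℕ) + 1) ≤ (H : ℝ) ^ ((d : ℕ) + 1) := pow_le_pow_left₀ (by positivity) hs0 _
        have h6 : (0 : ℝ) < (H : ℝ) ^ ((d : ℕ) + 1) := by positivity
        calc (t.factorial : ℝ) * (s : ℝ) ^ ((d : ℕ) + 1) * dZ (q₁ * U d) ≤ (t.factorial * (H : ℝ) ^ ((d : ℕ) + 1)) * (δ'' / (H : ℝ) ^ ((d : ℕ) + 1)) :=
              mul_le_mul (mul_le_mul_of_nonneg_left h5 hF0.le) (hq₁ d) (dZ_nonneg _) (by positivity)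
          _ = t.factorial * δ'' := by
              field_simp
      refine (sum_le_card_nsmul _ _ _ h3).trans ?_
      rw [card_univ, Fintype.card_fin, nsmul_eq_mul]
      apply mul_le_mul_of_nonneg_right _ (by positivity)
      exact_mod_cast (show t - 1 - (j : ℕ) ≤ t by omega)
    have hval : (t : ℝ) * (t.factorial * δ'') = δ / 2 := by
      rw [hδ'']
      field_simp
    rw [hval] at hb
    obtain ⟨z, hz⟩ := exists_int (((q₁ * t.factorial : ℕ) : ℝ) * pol U (s : ℝ))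
    rw [← hz] at hb
    have hq1 : (1 : ℝ) ≤ ((q₁ * t.factorial : ℕ) : ℝ) := by
      have : 1 ≤ q₁ * t.factorial := Nat.one_le_iff_ne_zero.mpr (Nat.mul_ne_zero (by omega) (Nat.factorial_ne_zero _))
      exact_mod_cast this
    have h3 : |pol U (s : ℝ) - (z : ℝ) / ((q₁ * t.factorial : ℕ) : ℝ)| ≤ δ / 2 := by
      have h4 : ((q₁ * t.factorial : ℕ) : ℝ) * pol U (s : ℝ) - z = ((q₁ * t.factorial : ℕ) : ℝ) * (pol U (s : ℝ) - (z : ℝ) / ((q₁ * t.factorial : ℕ) : ℝ)) := by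
        rw [mul_sub, mul_div_cancel₀ _ hq0.ne']
      rw [h4, abs_mul, abs_of_pos hq0] at hb
      have h5 := abs_nonneg (pol U (s : ℝ) - (z : ℝ) / ((q₁ * t.factorial : ℕ) : ℝ))
      nlinarith
    refine ⟨y + ((-z : ℤ) : ℝ) / ((q₁ * t.factorial : ℕ) : ℝ), ?_, ?_⟩
    · refine thick1_mem (m' := q₁ * t.factorial) ?_ ?_ ?_ hy (-z)
      · exact Nat.one_le_iff_ne_zero.mpr (Nat.mul_ne_zero (by omega) (Nat.factorial_ne_zero _))
      · exact Nat.dvd_factorial (Nat.mul_pos (by omega) (Nat.factorial_pos t)) (Nat.mul_le_mul hq₁Q le_rfl)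
      · exact Nat.one_le_iff_ne_zero.mpr (Nat.factorial_ne_zero _)
    · rw [hsh] at hys
      have h6 : |pol U (s : ℝ) + α j - y| ≤ δ / 2 := hys.trans (min_le_right _ _)
      have h7 : α j - (y + ((-z : ℤ) : ℝ) / ((q₁ * t.factorial : ℕ) : ℝ)) =
          (pol U (s : ℝ) + α j - y) - (pol U (s : ℝ) - (z : ℝ) / ((q₁ * t.factorial : ℕ) : ℝ)) := by
        push_cast
        ring
      rw [h7]
      refine (abs_sub _ _).trans ?_
      linarith

end Pool.Agent.Lib.MP_3e612f_nt.NF
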