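import Pool.Agent.Lib.MP_3e612f_nt.NF.P.WeylV
import Pool.Agent.Lib.MP_3e612f_nt.NF.C.Dual
import Pool.Agent.Lib.MP_3e612f_nt.NF.C.Inner

/-! Duality on one block (paper v2). -/

set_option autoImplicit false

namespace Pool.Agent.Lib.MP_3e612f_nt.NF

open Finset
open Pool.Agent.Lib.MP_3e612f_nt.MR (mu ex)

private theorem blk_pol_sub {t : ℕ} (α β : Fin t → ℝ) (x : ℝ) :
    pol (fun i => α i - β i) x = pol α x - pol β x := by
  unfold pol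
  rw [← Finset.sum_sub_distrib]
  exact Finset.sum_congr rfl fun i _ => by ring

private theorem blk_sh_sub {t : ℕ} (s : ℝ) (α β : Fin t → ℝ) (i : Fin t) :
    sh s (fun i => α i - β i) i = sh s α i - sh s β i := by
  unfold sh
  rw [← Finset.sum_sub_distrib]
  exact Finset.sum_congr rfl fun j _ => by ring

private theorem blk_win (H : ℕ) : win 1 1 (H + 1) 0 = Icc 1 H := by
  ext h
  simp only [win, Finset.mem_filter, Finset.mem_Ico, Finset.mem_Icc]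
  omega

/-- one pair of shifts -/
private theorem blk_pair (t : ℕ) (κ : ℝ) (hκ : 0 < κ) (hκ1 : κ ≤ 1) (KW : ℕ) (hKW : 1 ≤ KW)
    (hW : ∀ N : ℕ, 1 ≤ N → ∀ (α : Fin t → ℝ) (c : ℝ),
      κ * N ≤ ‖∑ n ∈ range N, ex (pol α (n : ℝ) + c)‖ →
        ∃ k : ℕ, 1 ≤ k ∧ k ≤ KW ∧ ∀ i : Fin t, dZ (k * α i) ≤ KW / (N : ℝ) ^ ((i : ℕ) + 1))
    (H : ℕ) (hH : 1 ≤ H) (a b : Fin t → ℝ) (s s₀ : ℕ) (hs : s < H) (hs₀ : s₀ < H)
    (h : κ * ((2 * H + 1 : ℕ) : ℝ) ≤ ‖∑ m ∈ range (2 * H + 1),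
      psi 1 s 1 (H + 1) 0 (fun n => pol a (n : ℝ)) m *
        (starRingEnd ℂ) (psi 1 s₀ 1 (H + 1) 0 (fun n => pol b (n : ℝ)) m)‖) :
    ∃ k : ℕ, 1 ≤ k ∧ k ≤ KW ∧ ∀ i : Fin t,
      dZ (k * (a i - sh ((s : ℝ) - s₀) b i)) ≤ (t * 2 ^ t * 3 ^ t) * (KW / κ ^ t) / H := by
  obtain ⟨m₀, J, h1, h2, h3, h4, h5⟩ := psi_mul 1 le_rfl s s₀ 1 (H + 1) 0 1 (H + 1) 0 H hs hs₀
    le_rfl le_rfl (fun n => pol a (n : ℝ)) (fun n => pol b (n : ℝ))
  rw [h5] at h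
  set v : ℝ := ((m₀ - s : ℕ) : ℝ) with hv
  set w : ℝ := ((m₀ - s₀ : ℕ) : ℝ) with hw
  set β : Fin t → ℝ := fun i => sh v a i - sh w b i with hβ
  have h6 : ∀ j ∈ range J, ex (pol a ((m₀ - s + 1 * j : ℕ) : ℝ) - pol b ((m₀ - s₀ + 1 * j : ℕ) : ℝ)) =
      ex (pol β (j : ℝ) + (pol a v - pol b w)) := by
    intro j _
    congr 1
    have e1 : ((m₀ - s + 1 * j : ℕ) : ℝ) = (j : ℝ) + v := by
      rw [hv, one_mul, Nat.cast_add, add_comm]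
    have e2 : ((m₀ - s₀ + 1 * j : ℕ) : ℝ) = (j : ℝ) + w := by
      rw [hw, one_mul, Nat.cast_add, add_comm]
    rw [e1, e2, pol_add, pol_add, hβ, blk_pol_sub]
    ring
  rw [Finset.sum_congr rfl h6] at h
  have hHr : (1 : ℝ) ≤ H := by exact_mod_cast hH
  have hM : κ * H ≤ κ * ((2 * H + 1 : ℕ) : ℝ) := by
    apply mul_le_mul_of_nonneg_left _ hκ.le
    push_cast
    linarith
  have hJle : ‖∑ j ∈ range J, ex (pol β (j : ℝ) + (pol a v - pol b w))‖ ≤ J := by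
    refine (norm_sum_le _ _).trans (le_of_eq ?_)
    simp [norm_ex]
  have hJr : κ * H ≤ J := hM.trans (h.trans hJle)
  have hκH : 0 < κ * H := by positivity
  have hJ1 : 1 ≤ J := by
    rcases Nat.eq_zero_or_pos J with h0 | h0
    · rw [h0, Nat.cast_zero] at hJr
      linarith
    · exact h0
  have hJM : κ * J ≤ κ * ((2 * H + 1 : ℕ) : ℝ) :=
    mul_le_mul_of_nonneg_left (by exact_mod_cast h4) hκ.le
  obtain ⟨k, hk1, hkK, hk⟩ := hW J hJ1 β _ (hJM.trans h)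
  refine ⟨k, hk1, hkK, fun i => ?_⟩
  have hKW0 : (0 : ℝ) < KW := by exact_mod_cast hKW
  have h7 : ∀ j : Fin t, dZ (k * β j) ≤ (KW / κ ^ t) / (H : ℝ) ^ ((j : ℕ) + 1) := by
    intro j
    refine (hk j).trans ?_
    rw [div_div]
    apply div_le_div_of_nonneg_left hKW0.le (by positivity)
    calc κ ^ t * (H : ℝ) ^ ((j : ℕ) + 1) ≤ κ ^ ((j : ℕ) + 1) * (H : ℝ) ^ ((j : ℕ) + 1) := by
          apply mul_le_mul_of_nonneg_right _ (by positivity)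
          exact pow_le_pow_of_le_one hκ.le hκ1 (by omega)
      _ = (κ * H) ^ ((j : ℕ) + 1) := (mul_pow _ _ _).symm
      _ ≤ (J : ℝ) ^ ((j : ℕ) + 1) := pow_le_pow_left₀ hκH.le hJr _
  have h8 := sh_dZ (t := t) (-((m₀ - s : ℕ) : ℤ)) 3 (by norm_num) H hH (by
    push_cast
    rw [abs_neg, Nat.abs_cast]
    have : m₀ - s ≤ 3 * H := by omega
    exact_mod_cast this) k (KW / κ ^ t) (by positivity) β h7 i
  have h9 : sh ((-((m₀ - s : ℕ) : ℤ) : ℤ) : ℝ) β i = a i - sh ((s : ℝ) - s₀) b i := by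
    have e1 : ((-((m₀ - s : ℕ) : ℤ) : ℤ) : ℝ) = -v := by push_cast; rfl
    rw [e1, hβ, blk_sh_sub, sh_sh, sh_sh, neg_add_cancel, sh_zero]
    congr 2
    rw [hv, hw, Nat.cast_sub h1, Nat.cast_sub h2]
    ring
  rw [h9] at h8
  refine h8.trans ?_
  apply div_le_div_of_nonneg_left (by positivity) (by positivity)
  calc (H : ℝ) = (H : ℝ) ^ 1 := (pow_one _).symm
    _ ≤ (H : ℝ) ^ ((i : ℕ) + 1) := pow_le_pow_right₀ hHr (by omega)

/-- `duality` with `M = 2H + 1`, `D = S`, `ψ_s = psi 1 s 1 (H+1) 0 (pol (α s))` (`sum_psi`; `win 1 1 (H+1) 0 = Icc 1 H`), `ε/3`: `s₀ ∈ S` and at least `c H` of the `s ∈ S` with `|⟨ψ_s, ψ_{s₀}⟩| ≥ c₁ (2H+1)`. `psi_mul`: the inner product is `∑_{j<J} e(P_s(m₀ - s + j) - P_{s₀}(m₀ - s₀ + j))`, `J ≥ c₁ H`, and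
`P_s(v + j) - P_{s₀}(w + j) = const + pol (sh v (α s) - sh w (α s₀)) j`. `weyl_all`: `k ≤ K`: `dZ (k (sh v (α s) - sh w (α s₀))_i) ≤ K/J^(i+1)`. Apply `sh (-v)` (`sh_dZ`, `sh_sh`; `v = m₀ - s`, `w = m₀ - s₀`, `w - v = s - s₀`): `dZ (k (α s - sh (s - s₀) (α s₀))_i) ≤ C/H^(i+1) ≤ C/H`; multiply by `K!/k`: `m = K!`. -/
theorem block_all (t : ℕ) (ht : 1 ≤ t) (ε : ℝ) (hε : 0 < ε) (hε1 : ε ≤ 1) : ∃ c : ℝ, 0 < c ∧ ∃ m : ℕ, 1 ≤ m ∧ ∃ K : ℝ, 0 < K ∧ ∃ H₀ : ℕ, ∀ H : ℕ, H₀ ≤ H →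
    ∀ f : ℕ → ℂ, (∀ n, ‖f n‖ ≤ 1) → ∀ (α : ℕ → Fin t → ℝ) (S : Finset ℕ), S ⊆ range H → ε * H ≤ S.card →
    (∀ s ∈ S, ε * H ≤ ‖∑ h ∈ Icc 1 H, f (s + h) * ex (pol (α s) (h : ℝ))‖) →
    ∃ s₀ ∈ S, ∃ S' ⊆ S, c * H ≤ (S'.card : ℝ) ∧ ∀ s ∈ S', ∃ z : Fin t → ℤ, ∀ i, |α s i - sh ((s : ℝ) - s₀) (α s₀) i - z i / m| ≤ K / H := by
  set ε' : ℝ := ε / 3 with hε'
  have hε'0 : 0 < ε' := by positivity
  have hε'1 : ε' ≤ 1 := by rw [hε']; linarith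
  set κ : ℝ := ε' ^ 2 / 2 with hκ
  have hκ0 : 0 < κ := by positivity
  have hκ1 : κ ≤ 1 := by
    rw [hκ]
    have : ε' ^ 2 ≤ 1 := pow_le_one₀ hε'0.le hε'1
    linarith
  obtain ⟨KW, hKW, hW⟩ := weyl_all t ht κ hκ0
  have hKW0 : (0 : ℝ) < KW := by exact_mod_cast hKW
  have ht0 : (0 : ℝ) < t := by exact_mod_cast ht
  refine ⟨κ * ε, by positivity, KW.factorial, Nat.succ_le_of_lt (Nat.factorial_pos _),
    (t * 2 ^ t * 3 ^ t) * (KW / κ ^ t), by positivity, 1, ?_⟩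
  intro H hH f hf α S hS hcard hbig
  have hHr : (1 : ℝ) ≤ H := by exact_mod_cast hH
  have hSne : S.Nonempty := by
    rw [Finset.nonempty_iff_ne_empty]
    rintro rfl
    rw [Finset.card_empty, Nat.cast_zero] at hcard
    have : 0 < ε * H := by positivity
    linarith
  have hψ : ∀ s m, ‖psi 1 s 1 (H + 1) 0 (fun n => pol (α s) (n : ℝ)) m‖ ≤ 1 := by
    intro s m
    unfold psi
    split_ifs
    · rw [norm_ex]
    · rw [norm_zero]; exact zero_le_one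
  have hb : ∀ s ∈ S, ε' * ((2 * H + 1 : ℕ) : ℝ) ≤ ‖∑ m ∈ range (2 * H + 1),
      f m * psi 1 s 1 (H + 1) 0 (fun n => pol (α s) (n : ℝ)) m‖ := by
    intro s hs
    rw [sum_psi 1 s 1 (H + 1) 0 H (Finset.mem_range.1 (hS hs)) le_rfl
      (fun n => pol (α s) (n : ℝ)) f, blk_win]
    refine le_trans ?_ (hbig s hs)
    rw [hε']
    push_cast
    nlinarith
  obtain ⟨s₀, hs₀, hd⟩ := duality (2 * H + 1) f hf S hSne
    (fun s m => psi 1 s 1 (H + 1) 0 (fun n => pol (α s) (n : ℝ)) m) hψ ε' hε'0 hε'1 hb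
  refine ⟨s₀, hs₀, S.filter (fun s => ε' ^ 2 / 2 * ((2 * H + 1 : ℕ) : ℝ) ≤ ‖∑ m ∈ range (2 * H + 1),
      psi 1 s 1 (H + 1) 0 (fun n => pol (α s) (n : ℝ)) m *
        (starRingEnd ℂ) (psi 1 s₀ 1 (H + 1) 0 (fun n => pol (α s₀) (n : ℝ)) m)‖),
    Finset.filter_subset _ _, ?_, ?_⟩
  · refine le_trans ?_ hd
    rw [mul_assoc]
    exact mul_le_mul_of_nonneg_left hcard hκ0.le
  · intro s hs
    obtain ⟨hsS, hsb⟩ := Finset.mem_filter.1 hs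
    obtain ⟨k, hk1, hkK, hk⟩ := blk_pair t κ hκ0 hκ1 KW hKW hW H hH (α s) (α s₀) s s₀
      (Finset.mem_range.1 (hS hsS)) (Finset.mem_range.1 (hS hs₀)) hsb
    obtain ⟨q, hq⟩ : k ∣ KW.factorial := Nat.dvd_factorial hk1 hkK
    have hfac : 0 < KW.factorial := Nat.factorial_pos _
    have hk0 : (0 : ℝ) < k := by exact_mod_cast hk1
    have hq0 : (0 : ℝ) < q := by
      have : 0 < q := by
        rcases Nat.eq_zero_or_pos q with h0 | h0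
        · rw [h0, mul_zero] at hq; omega
        · exact h0
      exact_mod_cast this
    have hz : ∀ i : Fin t, ∃ z : ℤ, |α s i - sh ((s : ℝ) - s₀) (α s₀) i - z / (KW.factorial : ℝ)| ≤
        (t * 2 ^ t * 3 ^ t) * (KW / κ ^ t) / H := by
      intro i
      obtain ⟨z, hz⟩ := exists_int (k * (α s i - sh ((s : ℝ) - s₀) (α s₀) i))
      refine ⟨z * q, ?_⟩
      have h1 : ((z * q : ℤ) : ℝ) / (KW.factorial : ℝ) = z / k := by
        rw [hq]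
        push_cast
        field_simp
      rw [h1]
      have h2 : |α s i - sh ((s : ℝ) - s₀) (α s₀) i - z / k| * k =
          |k * (α s i - sh ((s : ℝ) - s₀) (α s₀) i) - z| := by
        rw [← abs_of_pos hk0, ← abs_mul, abs_of_pos hk0]
        congr 1
        field_simp
      have h3 := hk i
      rw [← hz, ← h2] at h3
      refine le_trans ?_ h3
      exact le_mul_of_one_le_right (abs_nonneg _) (by exact_mod_cast hk1)
    choose z hz using hz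
    exact ⟨z, hz⟩

end Pool.Agent.Lib.MP_3e612f_nt.NF
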