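import Pool.Agent.Lib.MP_3e612f_nt.NF.P.ShB
import Pool.Agent.Lib.MP_3e612f_nt.NF.P.Thick

/-! Moving the base point in `Cond` (paper v2). -/

set_option autoImplicit false

namespace Pool.Agent.Lib.MP_3e612f_nt.NF

open Finset
open Pool.Agent.Lib.MP_3e612f_nt.MR (mu ex)

/-- the natural coefficient of `α j'` in `sh s₀ α j` -/
def csN (s₀ j j' : ℕ) : ℕ := Nat.choose (j' + 1) (j + 1) * s₀ ^ (j' - j)

theorem csN_self (s₀ j : ℕ) : csN s₀ j j = 1 := by simp [csN]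

theorem csN_lt {s₀ j j' : ℕ} (h : j' < j) : csN s₀ j j' = 0 := by
  unfold csN
  rw [Nat.choose_eq_zero_of_lt (by omega), zero_mul]

theorem csN_le {t s₀ j j' H : ℕ} (hj' : j' < t) (hs : s₀ ≤ H) : (csN s₀ j j' : ℝ) ≤ 2 ^ t * (H : ℝ) ^ (j' - j) := by
  unfold csN
  push_cast
  have h1 : ((Nat.choose (j' + 1) (j + 1) : ℕ) : ℝ) ≤ 2 ^ t := by
    have h2 : Nat.choose (j' + 1) (j + 1) ≤ 2 ^ (j' + 1) := Nat.choose_le_two_pow _ _
    have h3 : 2 ^ (j' + 1) ≤ 2 ^ t := Nat.pow_le_pow_right (by norm_num) (by omega)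
    exact_mod_cast h2.trans h3
  have h4 : (s₀ : ℝ) ^ (j' - j) ≤ (H : ℝ) ^ (j' - j) := pow_le_pow_left₀ (Nat.cast_nonneg _) (by exact_mod_cast hs) _
  exact mul_le_mul h1 h4 (by positivity) (by positivity)

theorem sh_csN {t : ℕ} (s₀ : ℕ) (α : Fin t → ℝ) (j : Fin t) : sh (s₀ : ℝ) α j = ∑ j' : Fin t, (csN s₀ j j' : ℝ) * α j' := by
  unfold sh csN
  refine Finset.sum_congr rfl fun j' _ => ?_
  push_cast
  ring

/-- one term, above the level -/
theorem csN_dZ {t I s₀ H : ℕ} (hH : 1 ≤ H) (hs : s₀ ≤ H) (δ : ℝ) (hδ : 0 ≤ δ) (j j' : ℕ) (hj' : j' < t) (hI : I ≤ j + 1) (x : ℝ)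
    (hx : j ≤ j' → dZ x ≤ δ / (H : ℝ) ^ (j' + 1 - I)) : (csN s₀ j j' : ℝ) * dZ x ≤ 2 ^ t * (δ / (H : ℝ) ^ (j + 1 - I)) := by
  have hH' : (0 : ℝ) < H := by exact_mod_cast hH
  rcases lt_or_ge j' j with h | h
  · rw [csN_lt h, Nat.cast_zero, zero_mul]
    positivity
  · have h1 := csN_le (j := j) hj' hs
    have h2 : j' + 1 - I = (j' - j) + (j + 1 - I) := by omega
    calc (csN s₀ j j' : ℝ) * dZ x ≤ (2 ^ t * (H : ℝ) ^ (j' - j)) * (δ / (H : ℝ) ^ (j' + 1 - I)) :=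
          mul_le_mul h1 (hx h) (dZ_nonneg x) (by positivity)
      _ = 2 ^ t * (δ / (H : ℝ) ^ (j + 1 - I)) := by
          rw [h2, pow_add]
          field_simp

/-- If `α` satisfies `Cond` then so does `sh s₀ α`, `0 ≤ s₀ < H`, with `thick1 Q! C` and a larger closeness: above level `I`: `sh s₀ α j = ∑_{j' ≥ j} choose s₀^(j'-j) α_{j'}`, `dZ (q ·) ≤ ∑ choose H^(j'-j) δ/H^(j'+1-I) ≤ t 2^t δ/H^(j+1-I)`; level `I`: `sh s₀ α j = α_j + ∑_{j'>j} choose s₀^(j'-j) α_{j'}` and the sum is in `(1/q)ℤ + O(t 2^t δ)`. -/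
theorem cond_sh (t : ℕ) : ∃ A : ℝ, 1 ≤ A ∧ ∀ (I : ℕ) (C : Set ℝ) (Q : ℕ) (δ : ℝ) (H : ℕ) (α : Fin t → ℝ) (s₀ : ℕ), 1 ≤ I → Per1 C → 0 ≤ δ → 1 ≤ H → s₀ < H →
    Cond I C Q δ H α → Cond I (thick1 Q.factorial C) Q (A * δ) H (sh (s₀ : ℝ) α) := by
  refine ⟨t * 2 ^ t + 1, by have : (0 : ℝ) ≤ t * 2 ^ t := by positivity
                            linarith, ?_⟩
  intro I C Q δ H α s₀ hI _ hδ hH hs hC
  obtain ⟨⟨q, hq1, hqQ, hq⟩, hlev⟩ := hC
  have hH' : (0 : ℝ) < H := by exact_mod_cast hH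
  have hq0 : (1 : ℝ) ≤ q := by exact_mod_cast hq1
  refine ⟨⟨q, hq1, hqQ, ?_⟩, ?_⟩
  · intro j hj
    have h1 : (q : ℝ) * sh (s₀ : ℝ) α j = ∑ j' : Fin t, (csN s₀ j j' : ℝ) * (q * α j') := by
      rw [sh_csN, Finset.mul_sum]
      exact Finset.sum_congr rfl fun j' _ => by ring
    have hsum : ∀ (s : Finset (Fin t)) (f : Fin t → ℝ), dZ (∑ j' ∈ s, f j') ≤ ∑ j' ∈ s, dZ (f j') := by
      intro s f
      classical
      induction s using Finset.induction_on with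
      | empty => simp [dZ]
      | insert a s ha ih =>
        rw [Finset.sum_insert ha, Finset.sum_insert ha]
        exact (dZ_add_le _ _).trans (by linarith)
    rw [h1]
    refine (hsum _ _).trans ?_
    have h2 : ∀ j' ∈ (Finset.univ : Finset (Fin t)), dZ ((csN s₀ j j' : ℝ) * (q * α j')) ≤ 2 ^ t * (δ / (H : ℝ) ^ ((j : ℕ) + 1 - I)) := by
      intro j' _
      refine (dZ_nat_mul_le _ _).trans ?_
      exact csN_dZ hH hs.le δ hδ j j' j'.2 (by omega) _ fun h => hq j' (by omega)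
    refine (Finset.sum_le_card_nsmul _ _ _ h2).trans ?_
    rw [Finset.card_univ, Fintype.card_fin, nsmul_eq_mul]
    have h3 : 0 ≤ δ / (H : ℝ) ^ ((j : ℕ) + 1 - I) := by positivity
    calc (t : ℝ) * (2 ^ t * (δ / (H : ℝ) ^ ((j : ℕ) + 1 - I))) ≤ (t * 2 ^ t + 1) * (δ / (H : ℝ) ^ ((j : ℕ) + 1 - I)) := by nlinarith
      _ = (t * 2 ^ t + 1) * δ / (H : ℝ) ^ ((j : ℕ) + 1 - I) := by ring
  · intro j hj
    obtain ⟨y, hy, hyd⟩ := hlev j hj
    classical
    choose z hz using fun j' : Fin t => exists_int ((q : ℝ) * α j')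
    have h0 : sh (s₀ : ℝ) α j = α j + ∑ j' ∈ Finset.univ.erase j, (csN s₀ j j' : ℝ) * α j' := by
      rw [sh_csN, ← Finset.add_sum_erase _ _ (Finset.mem_univ j), csN_self, Nat.cast_one, one_mul]
    have h1 : |∑ j' ∈ Finset.univ.erase j, (csN s₀ j j' : ℝ) * (q * α j' - z j')| ≤ t * 2 ^ t * δ := by
      refine (Finset.abs_sum_le_sum_abs _ _).trans ?_
      have h2 : ∀ j' ∈ Finset.univ.erase j, |(csN s₀ j j' : ℝ) * (q * α j' - z j')| ≤ 2 ^ t * δ := by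
        intro j' hj'
        have hne : (j' : ℕ) ≠ j := fun h => (Finset.ne_of_mem_erase hj') (Fin.ext h)
        rw [abs_mul, Nat.abs_cast, hz]
        rcases lt_or_ge (j' : ℕ) (j : ℕ) with h | h
        · rw [csN_lt h, Nat.cast_zero, zero_mul]
          positivity
        · refine (csN_dZ hH hs.le δ hδ j j' j'.2 (by omega) _ fun h => hq j' (by omega)).trans ?_
          rw [hj, Nat.sub_self, pow_zero, div_one]
      refine (Finset.sum_le_card_nsmul _ _ _ h2).trans ?_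
      rw [nsmul_eq_mul]
      have h3 : ((Finset.univ.erase j).card : ℝ) ≤ t := by
        have := Finset.card_le_univ (Finset.univ.erase j)
        rw [Fintype.card_fin] at this
        exact_mod_cast this
      have h4 : 0 ≤ 2 ^ t * δ := by positivity
      nlinarith
    refine ⟨y + ((∑ j' ∈ Finset.univ.erase j, (csN s₀ j j' : ℤ) * z j' : ℤ) : ℝ) / q,
      thick1_mem hq1 (Nat.dvd_factorial hq1 hqQ) (Nat.factorial_pos Q) hy _, ?_⟩
    have h5 : sh (s₀ : ℝ) α j - (y + ((∑ j' ∈ Finset.univ.erase j, (csN s₀ j j' : ℤ) * z j' : ℤ) : ℝ) / q) =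
        (α j - y) + (∑ j' ∈ Finset.univ.erase j, (csN s₀ j j' : ℝ) * (q * α j' - z j')) / q := by
      rw [h0]
      have h6 : ∑ j' ∈ Finset.univ.erase j, (csN s₀ j j' : ℝ) * (q * α j' - z j') =
          q * ∑ j' ∈ Finset.univ.erase j, (csN s₀ j j' : ℝ) * α j' - ∑ j' ∈ Finset.univ.erase j, (csN s₀ j j' : ℝ) * z j' := by
        rw [Finset.mul_sum, ← Finset.sum_sub_distrib]
        exact Finset.sum_congr rfl fun j' _ => by ring
      rw [h6]
      push_cast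
      field_simp
      ring
    rw [h5]
    refine (abs_add_le _ _).trans ?_
    have h7 : |(∑ j' ∈ Finset.univ.erase j, (csN s₀ j j' : ℝ) * (q * α j' - z j')) / q| ≤ t * 2 ^ t * δ := by
      rw [abs_div, Nat.abs_cast]
      refine (div_le_self (abs_nonneg _) hq0).trans h1
    linarith

end Pool.Agent.Lib.MP_3e612f_nt.NF
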