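import Pool.Agent.Lib.MP_3e612f_nt.NF.P.TMain
import Pool.Agent.Lib.MP_3e612f_nt.NF.P.CondSh
import Pool.Agent.Lib.MP_3e612f_nt.NF.P.Block

/-! Classification of the windows (paper v2). -/

set_option autoImplicit false

namespace Pool.Agent.Lib.MP_3e612f_nt.NF

open Finset
open Pool.Agent.Lib.MP_3e612f_nt.MR (mu ex)

open scoped Classical in
/-- `block_all` (`ε`): `c, m, K₁`. `K' = thick m K` (closed, periodic, admissible). `tc_all` for `K'`, `c`, `Δ'(I,C,Q,w) = Δ I (thick1 Q! C) Q w / A` (`A` from `cond_sh`); the list of the theorem is `(I_k, thick1 Q_k! C_k, Q_k, w_k)`. Suppose the set `S` of the bad `s < H` without a condition has more than `εH` elements: `block_all` (for `f(n₀ + ·)`) gives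
`s₀ ∈ S` and `≥ cH` values `s < H` with `α_{n₀+s}` within `K₁/H` (coordinatewise) of `sh (s - s₀) (α s₀) + z/m`; as `α_{n₀+s} ∈ K`, `sh s (sh (-s₀) (α s₀))` is within `K₁/H ≤ ρ` of `K'`. So `α̃ = sh (-s₀) (α s₀)` satisfies one of the conditions, hence `α s₀ = sh s₀ α̃` does (`cond_sh`), contradiction to `s₀ ∈ S`. (`ε ≤ 1` may be assumed.) -/
theorem classify {𝒢 : ℕ → Set ℝ → Prop} (h𝒢 : GoodLev 𝒢) (t : ℕ) (ht : 1 ≤ t) (K : Set (Fin t → ℝ)) (hK : IsClosed K) (hp : Per K) (hA : AdmP 𝒢 t K)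
    (ε : ℝ) (hε : 0 < ε) (hε1 : ε ≤ 1) (Δ : ℕ → Set ℝ → ℕ → ℝ → ℝ) (hΔ : ∀ I C Q w, 0 < Δ I C Q w) :
    ∃ (n : ℕ) (I : ℕ → ℕ) (C : ℕ → Set ℝ) (Q : ℕ → ℕ) (w : ℕ → ℝ),
      (∀ k < n, 1 ≤ I k ∧ I k ≤ t ∧ IsClosed (C k) ∧ Per1 (C k) ∧ 𝒢 (I k) (C k) ∧ 1 ≤ Q k ∧ 0 < w k) ∧ ∑ k ∈ range n, w k ≤ 1 ∧
      ∃ H₀ : ℕ, ∀ H : ℕ, H₀ ≤ H → ∀ f : ℕ → ℂ, (∀ n, ‖f n‖ ≤ 1) → ∀ α : ℕ → Fin t → ℝ, (∀ n, α n ∈ K) → ∀ n₀ : ℕ,
        ((((range H).filter (fun s : ℕ => ε * H ≤ ‖∑ h ∈ Icc 1 H, f (n₀ + s + h) * ex (pol (α (n₀ + s)) (h : ℝ))‖ ∧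
          ∀ k < n, ¬ Cond (I k) (C k) (Q k) (Δ (I k) (C k) (Q k) (w k)) H (α (n₀ + s)))).card : ℕ) : ℝ) ≤ ε * H := by
  obtain ⟨c, hc, m, hm, K₁, hK₁, Hb, hblock⟩ := block_all t ht ε hε hε1
  obtain ⟨A, hA1, hcond⟩ := cond_sh t
  have hA0 : (0 : ℝ) < A := lt_of_lt_of_le one_pos hA1
  obtain ⟨n, I, C, Q, w, hlist, hsum, ρ, hρ, H₁, hmain⟩ :=
    tc_all h𝒢 t ht (thick m K) (thick_closed m hm hK hp) (thick_per m hp)
      (adm_thick h𝒢 t K hK hp hA m hm) c hc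
      (fun I C Q w => Δ I (thick1 Q.factorial C) Q w / A)
      (fun I C Q w => div_pos (hΔ _ _ _ _) hA0)
  refine ⟨n, I, fun l => thick1 (Q l).factorial (C l), Q, w, ?_, hsum,
    max (max Hb H₁) (max 1 ⌈K₁ / ρ⌉₊), ?_⟩
  · intro l hl
    obtain ⟨h1, h2, h3, h4, h5, h6, h7⟩ := hlist l hl
    refine ⟨h1, h2, thick1_closed _ (Nat.succ_le_of_lt (Nat.factorial_pos _)) h3 h4,
      thick1_per _ h4, ?_, h6, h7⟩
    exact h𝒢.shift _ _ h5 _ (Nat.succ_le_of_lt (Nat.factorial_pos _))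
  · intro H hH f hf α hα n₀
    have hHb : Hb ≤ H := (le_max_left _ _).trans ((le_max_left _ _).trans hH)
    have hH₁ : H₁ ≤ H := (le_max_right Hb _).trans ((le_max_left _ _).trans hH)
    have hH1 : 1 ≤ H := (le_max_left _ _).trans ((le_max_right (max Hb H₁) _).trans hH)
    have hHK : ⌈K₁ / ρ⌉₊ ≤ H := (le_max_right 1 _).trans ((le_max_right (max Hb H₁) _).trans hH)
    have hH0 : (0 : ℝ) < H := by exact_mod_cast hH1
    have hKH : K₁ / H ≤ ρ := by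
      have h1 : K₁ / ρ ≤ H := (Nat.le_ceil _).trans (by exact_mod_cast hHK)
      rw [div_le_iff₀ hρ] at h1
      rw [div_le_iff₀ hH0]
      linarith
    by_contra hcon
    rw [not_le] at hcon
    set S := (range H).filter (fun s : ℕ => ε * H ≤ ‖∑ h ∈ Icc 1 H, f (n₀ + s + h) * ex (pol (α (n₀ + s)) (h : ℝ))‖ ∧
          ∀ l < n, ¬ Cond (I l) (thick1 (Q l).factorial (C l)) (Q l)
            (Δ (I l) (thick1 (Q l).factorial (C l)) (Q l) (w l)) H (α (n₀ + s))) with hS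
    obtain ⟨s₀, hs₀, S', hS'S, hS'c, hS'⟩ := hblock H hHb (fun j => f (n₀ + j))
      (fun j => hf _) (fun s => α (n₀ + s)) S (Finset.filter_subset _ _) hcon.le (by
        intro s hs
        have h1 := (Finset.mem_filter.1 hs).2.1
        have h2 : ∑ h ∈ Icc 1 H, f (n₀ + s + h) * ex (pol (α (n₀ + s)) (h : ℝ)) =
            ∑ h ∈ Icc 1 H, f (n₀ + (s + h)) * ex (pol (α (n₀ + s)) (h : ℝ)) :=
          Finset.sum_congr rfl fun h _ => by rw [Nat.add_assoc]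
        rw [h2] at h1
        exact h1)
    set β : Fin t → ℝ := sh (-(s₀ : ℝ)) (α (n₀ + s₀)) with hβ
    have hs₀H : s₀ < H := Finset.mem_range.1 (Finset.mem_filter.1 hs₀).1
    have hsub : S' ⊆ (range H).filter (fun s : ℕ => Nr (thick m K) ρ (sh (s : ℝ) β)) := by
      intro s hs
      rw [Finset.mem_filter]
      refine ⟨(Finset.mem_filter.1 (hS'S hs)).1, ?_⟩
      obtain ⟨z, hz⟩ := hS' s hs
      refine ⟨fun i => α (n₀ + s) i - z i / m, ⟨fun i => - z i, ?_⟩, ?_⟩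
      · have h1 : (fun i => α (n₀ + s) i - (z i : ℝ) / m - ((- z i : ℤ) : ℝ) / m) = α (n₀ + s) := by
          funext i
          push_cast
          ring
        rw [h1]
        exact hα _
      · intro i
        have h1 : sh (s : ℝ) β = sh ((s : ℝ) - s₀) (α (n₀ + s₀)) := by
          rw [hβ, sh_sh, sub_eq_add_neg]
        rw [h1]
        have h2 := hz i
        rw [← abs_neg] at h2
        have h3 : sh ((s : ℝ) - s₀) (α (n₀ + s₀)) i - (α (n₀ + s) i - (z i : ℝ) / m) =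
            -(α (n₀ + s) i - sh ((s : ℝ) - s₀) (α (n₀ + s₀)) i - (z i : ℝ) / m) := by ring
        rw [h3]
        exact h2.trans hKH
    have hcard : c * H ≤ ((((range H).filter
        (fun s : ℕ => Nr (thick m K) ρ (sh (s : ℝ) β))).card : ℕ) : ℝ) :=
      hS'c.trans (by exact_mod_cast Finset.card_le_card hsub)
    obtain ⟨l, hl, hCl⟩ := hmain H hH₁ β hcard
    obtain ⟨h1, h2, h3, h4, h5, h6, h7⟩ := hlist l hl
    have h8 := hcond (I l) (C l) (Q l) _ H β s₀ h1 h4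
      (div_pos (hΔ (I l) (thick1 (Q l).factorial (C l)) (Q l) (w l)) hA0).le hH1 hs₀H hCl
    have h9 : sh (s₀ : ℝ) β = α (n₀ + s₀) := by
      rw [hβ, sh_sh, add_neg_cancel, sh_zero]
    rw [h9, mul_div_cancel₀ _ hA0.ne'] at h8
    exact (Finset.mem_filter.1 hs₀).2.2 l hl h8

end Pool.Agent.Lib.MP_3e612f_nt.NF
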