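import Pool.Agent.Lib.MP_3e612f_nt.NF.Base

/-! Definitions for the theorems on polynomial phases (paper v2, Part P). -/

set_option autoImplicit false

namespace Pool.Agent.Lib.MP_3e612f_nt.NF

open Finset
open Pool.Agent.Lib.MP_3e612f_nt.MR (mu ex)

/-- the real polynomial with zero constant term and coefficients `α i` of `x^(i+1)` -/
noncomputable def pol {t : ℕ} (α : Fin t → ℝ) (x : ℝ) : ℝ := ∑ i : Fin t, α i * x ^ ((i : ℕ) + 1)

/-- the coefficients of `pol α (X + s)` (without the constant term) -/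
noncomputable def sh {t : ℕ} (s : ℝ) (α : Fin t → ℝ) : Fin t → ℝ :=
  fun i => ∑ j : Fin t, (Nat.choose ((j : ℕ) + 1) ((i : ℕ) + 1) : ℝ) * s ^ ((j : ℕ) - (i : ℕ)) * α j

/-- `K` is invariant under integral translations -/
def Per {t : ℕ} (K : Set (Fin t → ℝ)) : Prop := ∀ x ∈ K, ∀ z : Fin t → ℤ, (fun i => x i + z i) ∈ K

/-- `C` is 1-periodic -/
def Per1 (C : Set ℝ) : Prop := ∀ x ∈ C, ∀ z : ℤ, x + z ∈ C

/-- `x` is within `ρ` of `K` (maximum norm) -/
def Nr {t : ℕ} (K : Set (Fin t → ℝ)) (ρ : ℝ) (x : Fin t → ℝ) : Prop := ∃ y ∈ K, ∀ i, |x i - y i| ≤ ρ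

/-- the slice of `K` at the value `β` of the top coefficient -/
def slice {t : ℕ} (K : Set (Fin (t + 1) → ℝ)) (β : ℝ) : Set (Fin t → ℝ) := {x | (Fin.snoc (α := fun _ => ℝ) x β : Fin (t + 1) → ℝ) ∈ K}

/-- a continuous function equal to 1 on `K` and 0 at distance at least `1/(n+1)` from `K` -/
noncomputable def gK {t : ℕ} (n : ℕ) (K : Set (Fin t → ℝ)) (x : Fin t → ℝ) : ℝ :=
  ((thickenedIndicator (one_div_pos.2 (Nat.cast_add_one_pos (α := ℝ) n)) K x : NNReal) : ℝ)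

/-- the integral of `gK n K` over the unit cube of the slice at `β` -/
noncomputable def sI {t : ℕ} (n : ℕ) (K : Set (Fin (t + 1) → ℝ)) (β : ℝ) : ℝ :=
  ∫ x in Set.Icc (0 : Fin t → ℝ) 1, gK n K (Fin.snoc (α := fun _ => ℝ) x β : Fin (t + 1) → ℝ)

/-- the set of the values `β` of the top coefficient for which the slice has measure at least `c` -/
def lev {t : ℕ} (K : Set (Fin (t + 1) → ℝ)) (c : ℝ) : Set ℝ := {β | ∀ n : ℕ, c ≤ sI n K β}

/-- A class of subsets of `ℝ` for each level. -/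
structure GoodLev (𝒢 : ℕ → Set ℝ → Prop) : Prop where
  null : ∀ i C, 𝒢 i C → MeasureTheory.volume C = 0
  mono : ∀ i C C', 𝒢 i C → C' ⊆ C → 𝒢 i C'
  union : ∀ i C C', 𝒢 i C → 𝒢 i C' → 𝒢 i (C ∪ C')
  shift : ∀ i C, 𝒢 i C → ∀ q : ℕ, 1 ≤ q → 𝒢 i {x | ∃ z : ℤ, x - z / q ∈ C}

/-- Admissible sets of coefficient vectors: the level sets of the top coefficient are good, and so are recursively all slices over rational top coefficients. -/
def AdmP (𝒢 : ℕ → Set ℝ → Prop) : (t : ℕ) → Set (Fin t → ℝ) → Prop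
  | 0, _ => True
  | t + 1, K => (∀ c : ℝ, 0 < c → 𝒢 (t + 1) (lev K c)) ∧ ∀ r : ℚ, AdmP 𝒢 t (slice K (r : ℝ))

/-- all translates of `K` by vectors with coordinates in `(1/m)ℤ` -/
def thick {t : ℕ} (m : ℕ) (K : Set (Fin t → ℝ)) : Set (Fin t → ℝ) := {x | ∃ z : Fin t → ℤ, (fun i => x i - z i / m) ∈ K}

/-- all translates of `C` by numbers in `(1/m)ℤ` -/
def thick1 (m : ℕ) (C : Set ℝ) : Set ℝ := {x | ∃ z : ℤ, x - z / m ∈ C}

/-- The conclusion of the structure theorem at level `I`: the coefficients above level `I` are rational with denominator at most `Q` up to `δ/H^(distance)`, and the coefficient of level `I` is within `δ` of `C`. -/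
def Cond {t : ℕ} (I : ℕ) (C : Set ℝ) (Q : ℕ) (δ : ℝ) (H : ℕ) (α : Fin t → ℝ) : Prop :=
  (∃ q : ℕ, 1 ≤ q ∧ q ≤ Q ∧ ∀ j : Fin t, I ≤ (j : ℕ) → dZ (q * α j) ≤ δ / (H : ℝ) ^ ((j : ℕ) + 1 - I)) ∧
    ∀ j : Fin t, (j : ℕ) + 1 = I → ∃ y ∈ C, |α j - y| ≤ δ

end Pool.Agent.Lib.MP_3e612f_nt.NF
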