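import Pool.Agent.Lib.MP_3e612f_nt.NF.P.Defs

/-! Translation of polynomials (paper v2, Part P). -/

set_option autoImplicit false

namespace Pool.Agent.Lib.MP_3e612f_nt.NF

open Finset
open Pool.Agent.Lib.MP_3e612f_nt.MR (mu ex)

theorem sh_binom (t j : ℕ) (hj : j < t) (x s : ℝ) :
    (x + s) ^ (j + 1) = s ^ (j + 1) + ∑ i : Fin t, (Nat.choose (j + 1) ((i : ℕ) + 1) : ℝ) * s ^ (j - (i : ℕ)) * x ^ ((i : ℕ) + 1) := by
  rw [add_pow, Finset.sum_range_succ']
  have h1 : ∑ i : Fin t, (Nat.choose (j + 1) ((i : ℕ) + 1) : ℝ) * s ^ (j - (i : ℕ)) * x ^ ((i : ℕ) + 1) =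
      ∑ i ∈ range t, (Nat.choose (j + 1) (i + 1) : ℝ) * s ^ (j - i) * x ^ (i + 1) :=
    Fin.sum_univ_eq_sum_range (fun i => (Nat.choose (j + 1) (i + 1) : ℝ) * s ^ (j - i) * x ^ (i + 1)) t
  have h2 : ∑ i ∈ range (j + 1), (Nat.choose (j + 1) (i + 1) : ℝ) * s ^ (j - i) * x ^ (i + 1) =
      ∑ i ∈ range t, (Nat.choose (j + 1) (i + 1) : ℝ) * s ^ (j - i) * x ^ (i + 1) := by
    refine Finset.sum_subset (Finset.range_subset_range.mpr (by omega)) fun i _ hi => ?_
    rw [Finset.mem_range, not_lt] at hi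
    rw [Nat.choose_eq_zero_of_lt (by omega), Nat.cast_zero, zero_mul, zero_mul]
  rw [h1, ← h2, add_comm]
  congr 1
  · simp
  · refine Finset.sum_congr rfl fun i _ => ?_
    rw [Nat.add_sub_add_right]
    ring

/-- `pol α (x + s) = pol α s + pol (sh s α) x` (binomial theorem; `choose (j+1) 0 s^(j+1)` gives `pol α s`). -/
theorem pol_add {t : ℕ} (α : Fin t → ℝ) (x s : ℝ) : pol α (x + s) = pol α s + pol (sh s α) x := by
  unfold pol sh
  have h1 : ∑ i : Fin t, (∑ j : Fin t, (Nat.choose ((j : ℕ) + 1) ((i : ℕ) + 1) : ℝ) * s ^ ((j : ℕ) - (i : ℕ)) * α j) * x ^ ((i : ℕ) + 1) =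
      ∑ j : Fin t, α j * ∑ i : Fin t, (Nat.choose ((j : ℕ) + 1) ((i : ℕ) + 1) : ℝ) * s ^ ((j : ℕ) - (i : ℕ)) * x ^ ((i : ℕ) + 1) := by
    simp only [Finset.sum_mul, Finset.mul_sum]
    rw [Finset.sum_comm]
    refine Finset.sum_congr rfl fun j _ => Finset.sum_congr rfl fun i _ => ?_
    ring
  rw [h1, ← Finset.sum_add_distrib]
  refine Finset.sum_congr rfl fun j _ => ?_
  rw [sh_binom t j j.2 x s]
  ring

theorem sh_pol_zero {t : ℕ} (α : Fin t → ℝ) : pol α 0 = 0 := by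
  unfold pol
  refine Finset.sum_eq_zero fun i _ => ?_
  rw [zero_pow (Nat.succ_ne_zero _), mul_zero]

/-- the coefficients are determined by the values -/
theorem sh_pol_inj {t : ℕ} (α β : Fin t → ℝ) (h : ∀ x : ℝ, pol α x = pol β x) : α = β := by
  have key : ∀ γ : Fin t → ℝ, (∀ x : ℝ, (∑ i : Fin t, Polynomial.C (γ i) * Polynomial.X ^ ((i : ℕ) + 1) : Polynomial ℝ).eval x = pol γ x) ∧
      ∀ i : Fin t, (∑ i : Fin t, Polynomial.C (γ i) * Polynomial.X ^ ((i : ℕ) + 1) : Polynomial ℝ).coeff ((i : ℕ) + 1) = γ i := by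
    intro γ
    constructor
    · intro x
      unfold pol
      rw [Polynomial.eval_finsetSum]
      refine Finset.sum_congr rfl fun i _ => ?_
      simp
    · intro i
      rw [Polynomial.finsetSum_coeff]
      rw [Finset.sum_eq_single i]
      · simp
      · intro j _ hj
        rw [Polynomial.coeff_C_mul, Polynomial.coeff_X_pow, if_neg, mul_zero]
        intro h1
        exact hj (Fin.ext (by omega))
      · intro h1
        exact absurd (Finset.mem_univ i) h1
  have h1 : (∑ i : Fin t, Polynomial.C (α i) * Polynomial.X ^ ((i : ℕ) + 1) : Polynomial ℝ) = ∑ i : Fin t, Polynomial.C (β i) * Polynomial.X ^ ((i : ℕ) + 1) := by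
    apply Polynomial.funext
    intro x
    rw [(key α).1, (key β).1, h]
  funext i
  rw [← (key α).2 i, ← (key β).2 i, h1]

theorem sh_sh {t : ℕ} (s s' : ℝ) (α : Fin t → ℝ) : sh s (sh s' α) = sh (s + s') α := by
  apply sh_pol_inj
  intro x
  have h1 := pol_add (sh s' α) x s
  have h2 := pol_add α (x + s) s'
  have h3 := pol_add α s s'
  have h4 := pol_add α x (s + s')
  have h5 : x + (s + s') = x + s + s' := by ring
  rw [h5] at h4
  linarith

theorem sh_zero {t : ℕ} (α : Fin t → ℝ) : sh 0 α = α := by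
  apply sh_pol_inj
  intro x
  have h1 := pol_add α x 0
  rw [sh_pol_zero, add_zero, zero_add] at h1
  exact h1.symm

theorem sh_add {t : ℕ} (s : ℝ) (α β : Fin t → ℝ) : sh s (α + β) = sh s α + sh s β := by
  funext i
  unfold sh
  rw [Pi.add_apply, ← Finset.sum_add_distrib]
  refine Finset.sum_congr rfl fun j _ => ?_
  rw [Pi.add_apply]
  ring

theorem sh_smul {t : ℕ} (s c : ℝ) (α : Fin t → ℝ) : sh s (c • α) = c • sh s α := by
  funext i
  unfold sh
  rw [Pi.smul_apply, smul_eq_mul, Finset.mul_sum]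
  refine Finset.sum_congr rfl fun j _ => ?_
  rw [Pi.smul_apply, smul_eq_mul]
  ring

/-- integral translations preserve integral vectors -/
theorem sh_int {t : ℕ} (s : ℤ) (z : Fin t → ℤ) : ∃ w : Fin t → ℤ, sh (s : ℝ) (fun i => (z i : ℝ)) = fun i => (w i : ℝ) := by
  refine ⟨fun i => ∑ j : Fin t, (Nat.choose ((j : ℕ) + 1) ((i : ℕ) + 1) : ℤ) * s ^ ((j : ℕ) - (i : ℕ)) * z j, ?_⟩
  funext i
  unfold sh
  push_cast
  rfl

/-- splitting off the top coefficient -/
theorem sh_snoc {t : ℕ} (s : ℝ) (x : Fin t → ℝ) (β : ℝ) :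
    sh s (Fin.snoc (α := fun _ => ℝ) x β : Fin (t + 1) → ℝ) =
      Fin.snoc (α := fun _ => ℝ) (fun i : Fin t => sh s x i + (Nat.choose (t + 1) ((i : ℕ) + 1) : ℝ) * s ^ (t - (i : ℕ)) * β) β := by
  funext i
  refine Fin.lastCases ?_ (fun i => ?_) i
  · rw [Fin.snoc_last]
    unfold sh
    rw [Fin.sum_univ_castSucc, Fin.snoc_last, Finset.sum_eq_zero]
    · simp
    · intro j _
      rw [Nat.choose_eq_zero_of_lt (by simp), Nat.cast_zero, zero_mul, zero_mul]
  · rw [Fin.snoc_castSucc]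
    unfold sh
    rw [Fin.sum_univ_castSucc, Fin.snoc_last]
    congr 1
    refine Finset.sum_congr rfl fun j _ => ?_
    rw [Fin.snoc_castSucc]
    simp

end Pool.Agent.Lib.MP_3e612f_nt.NF
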