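import Pool.Agent.Lib.MP_3e612f_nt.NF.P.Defs

/-! Counting on short stretches (paper v2, T). -/

set_option autoImplicit false

namespace Pool.Agent.Lib.MP_3e612f_nt.NF

open Finset
open Pool.Agent.Lib.MP_3e612f_nt.MR (mu ex)

open scoped Classical in
/-- shifting the range loses at most `h` elements -/
theorem stretch_shift (B : ℕ → Prop) (H h : ℕ) :
    ((range H).filter B).card ≤ ((range H).filter (fun s => B (s + h))).card + h := by
  have h1 : (range H).filter B ⊆
      ((range H).filter (fun s => B (s + h))).image (fun s => s + h) ∪ range h := by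
    intro s hs
    rw [mem_filter, mem_range] at hs
    rw [mem_union]
    by_cases hsh : s < h
    · exact Or.inr (mem_range.2 hsh)
    · left
      rw [mem_image]
      refine ⟨s - h, ?_, by omega⟩
      rw [mem_filter, mem_range]
      refine ⟨by omega, ?_⟩
      have : s - h + h = s := by omega
      rw [this]
      exact hs.2
  calc ((range H).filter B).card ≤ _ := card_le_card h1
    _ ≤ _ := card_union_le _ _
    _ ≤ _ := by
      rw [card_range]
      exact Nat.add_le_add_right card_image_le _

open scoped Classical in
/-- Count the pairs `(s, h)`, `s < H`, `h < L` with `B (s + h)`: every `s' ∈ [L, H)` with `B s'` gives `L` pairs, so there are at least `(cH - L) L ≥ (3c/4) H L` pairs, each `s` has at most `L` of them, and those with fewer than `(c/4)L` give at most `(c/4) L H`. -/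
theorem stretch (B : ℕ → Prop) (H L : ℕ) (c : ℝ) (hc : 0 < c) (hL : (L : ℝ) ≤ c / 4 * H) (h : c * H ≤ ((((range H).filter B).card : ℕ) : ℝ)) :
    c / 2 * H ≤ ((((range H).filter (fun s => c / 4 * L ≤ ((((range L).filter (fun h => B (s + h))).card : ℕ) : ℝ))).card : ℕ) : ℝ) := by
  set A := (range H).filter (fun s => c / 4 * L ≤ ((((range L).filter (fun h => B (s + h))).card : ℕ) : ℝ)) with hA
  have hH0 : (0 : ℝ) ≤ H := Nat.cast_nonneg _
  have hL0 : (0 : ℝ) ≤ L := Nat.cast_nonneg _
  rcases Nat.eq_zero_or_pos L with hL1 | hL1
  · have h1 : A = range H := by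
      rw [hA]
      apply filter_true_of_mem
      intro s _
      rw [hL1]
      simp
    rw [h1, card_range]
    have h2 : ((((range H).filter B).card : ℕ) : ℝ) ≤ H := by
      have := card_filter_le (range H) B
      rw [card_range] at this
      exact_mod_cast this
    nlinarith
  · have h1 : ∑ s ∈ range H, (((range L).filter (fun h => B (s + h))).card : ℝ) =
        ∑ h ∈ range L, (((range H).filter (fun s => B (s + h))).card : ℝ) := by
      have h2 : ∀ s, (((range L).filter (fun h => B (s + h))).card : ℝ) =
          ∑ h ∈ range L, if B (s + h) then (1 : ℝ) else 0 := by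
        intro s
        rw [card_filter]
        push_cast
        rfl
      have h3 : ∀ h, (((range H).filter (fun s => B (s + h))).card : ℝ) =
          ∑ s ∈ range H, if B (s + h) then (1 : ℝ) else 0 := by
        intro h
        rw [card_filter]
        push_cast
        rfl
      rw [sum_congr rfl fun s _ => h2 s, sum_congr rfl fun h _ => h3 h, sum_comm]
    have h2 : (L : ℝ) * (c * H - L) ≤
        ∑ h ∈ range L, (((range H).filter (fun s => B (s + h))).card : ℝ) := by
      have h3 : ∀ h' ∈ range L, c * H - L ≤ (((range H).filter (fun s => B (s + h'))).card : ℝ) := by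
        intro h' hh'
        have h4 := stretch_shift B H h'
        have h5 : ((((range H).filter B).card : ℕ) : ℝ) ≤
            (((range H).filter (fun s => B (s + h'))).card : ℝ) + h' := by exact_mod_cast h4
        have h6 : (h' : ℝ) ≤ L := by exact_mod_cast (mem_range.1 hh').le
        linarith
      have h4 := sum_le_sum h3
      rwa [sum_const, card_range, nsmul_eq_mul] at h4
    have h3 : ∑ s ∈ range H, (((range L).filter (fun h => B (s + h))).card : ℝ) ≤
        (A.card : ℝ) * L + H * (c / 4 * L) := by
      have h4 : ∀ s ∈ range H, (((range L).filter (fun h => B (s + h))).card : ℝ) ≤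
          (if s ∈ A then (L : ℝ) else 0) + c / 4 * L := by
        intro s hs
        by_cases hsA : s ∈ A
        · rw [if_pos hsA]
          have h5 := card_filter_le (range L) (fun h => B (s + h))
          rw [card_range] at h5
          have h6 : (((range L).filter (fun h => B (s + h))).card : ℝ) ≤ L := by exact_mod_cast h5
          have h7 : 0 ≤ c / 4 * (L : ℝ) := by positivity
          linarith
        · rw [if_neg hsA, zero_add]
          by_contra hcon
          rw [not_le] at hcon
          apply hsA
          rw [hA, mem_filter]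
          exact ⟨hs, hcon.le⟩
      have h5 := sum_le_sum h4
      rw [sum_add_distrib, sum_const, card_range, nsmul_eq_mul, ← sum_filter] at h5
      have h6 : (range H).filter (fun s => s ∈ A) = A := by
        ext s
        rw [mem_filter]
        exact ⟨fun h => h.2, fun h => ⟨(mem_filter.1 h).1, h⟩⟩
      rw [h6, sum_const, nsmul_eq_mul] at h5
      exact h5
    rw [h1] at h3
    have hLp : (0 : ℝ) < L := by exact_mod_cast hL1
    have h4 : (L : ℝ) * (c / 2 * H) ≤ L * A.card := by nlinarith
    exact le_of_mul_le_mul_left h4 hLp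

/-- Weighted pigeonhole: if every `s ∈ S` has a label `< n` and the weights `w` sum to at most 1 then some label `λ` is used by at least `w_λ |S|` elements. -/
theorem wpig {α : Type} (S : Finset α) (n : ℕ) (R : α → ℕ → Prop) (h : ∀ s ∈ S, ∃ k < n, R s k) (w : ℕ → ℝ) (hw : ∀ k < n, 0 < w k) (hw1 : ∑ k ∈ range n, w k ≤ 1)
    (hS : S.Nonempty) : ∃ k < n, ∃ T ⊆ S, (∀ s ∈ T, R s k) ∧ w k * S.card ≤ (T.card : ℝ) := by
  classical
  by_contra hcon
  push Not at hcon
  have h1 : ∀ k ∈ range n, ((S.filter fun s => R s k).card : ℝ) < w k * S.card := by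
    intro k hk
    refine hcon k (mem_range.1 hk) _ (filter_subset _ _) ?_
    intro s hs
    exact (mem_filter.1 hs).2
  have h2 : S ⊆ (range n).biUnion fun k => S.filter fun s => R s k := by
    intro s hs
    obtain ⟨k, hk, hR⟩ := h s hs
    rw [mem_biUnion]
    exact ⟨k, mem_range.2 hk, mem_filter.2 ⟨hs, hR⟩⟩
  have h3 : (S.card : ℝ) ≤ ∑ k ∈ range n, ((S.filter fun s => R s k).card : ℝ) := by
    have := (card_le_card h2).trans card_biUnion_le
    exact_mod_cast this
  obtain ⟨s, hs⟩ := hS
  obtain ⟨k, hk, -⟩ := h s hs
  have h4 : ∑ k ∈ range n, ((S.filter fun s => R s k).card : ℝ) <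
      ∑ k ∈ range n, w k * S.card :=
    sum_lt_sum_of_nonempty ⟨k, mem_range.2 hk⟩ h1
  rw [← sum_mul] at h4
  have h5 : (∑ k ∈ range n, w k) * (S.card : ℝ) ≤ 1 * S.card :=
    mul_le_mul_of_nonneg_right hw1 (Nat.cast_nonneg _)
  linarith

end Pool.Agent.Lib.MP_3e612f_nt.NF
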