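import Pool.Agent.Lib.MP_3e612f_nt.NF.P.SliceN
import Pool.Agent.Lib.MP_3e612f_nt.NF.P.Stretch
import Pool.Agent.Lib.MP_3e612f_nt.NF.P.Thick
import Pool.Agent.Lib.MP_3e612f_nt.NF.P.Sh

/-! From the full vector to the lower coefficients (paper v2, T). -/

set_option autoImplicit false

namespace Pool.Agent.Lib.MP_3e612f_nt.NF

open Finset
open Pool.Agent.Lib.MP_3e612f_nt.MR (mu ex)

/-- translation does not change the top coefficient; the lower ones change by `choose s^(t-i) β` -/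
theorem sh_init {t : ℕ} (s h : ℝ) (α : Fin (t + 1) → ℝ) :
    sh (s + h) α = Fin.snoc (α := fun _ => ℝ)
      (fun i : Fin t => sh h (Fin.init (sh s α) : Fin t → ℝ) i +
        (Nat.choose (t + 1) ((i : ℕ) + 1) : ℝ) * h ^ (t - (i : ℕ)) * α (Fin.last t)) (α (Fin.last t)) := by
  have h1 : sh s α (Fin.last t) = α (Fin.last t) := by
    have h2 : α = Fin.snoc (α := fun _ => ℝ) (Fin.init α : Fin t → ℝ) (α (Fin.last t)) :=
      (Fin.snoc_init_self α).symm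
    have h3 := sh_snoc s (Fin.init α : Fin t → ℝ) (α (Fin.last t))
    rw [← h2] at h3
    rw [h3, Fin.snoc_last]
  have h4 : sh s α = Fin.snoc (α := fun _ => ℝ) (Fin.init (sh s α) : Fin t → ℝ)
      (α (Fin.last t)) := by
    rw [← h1]
    exact (Fin.snoc_init_self (sh s α)).symm
  have h5 := sh_snoc h (Fin.init (sh s α) : Fin t → ℝ) (α (Fin.last t))
  rw [← h4, sh_sh, add_comm h s] at h5
  exact h5

/-- The pointwise step. -/
theorem descend_pt {t : ℕ} (K : Set (Fin (t + 1) → ℝ)) (hp : Per K) (k D : ℕ) (hk : 1 ≤ k)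
    (hkD : k ∣ D) (hD : 1 ≤ D) (b : ℤ) (L : ℕ) (ρ' ρ₁ ρ δ : ℝ) (hδ : 0 ≤ δ)
    (hρ₁ : ∀ y ∈ K, |y (Fin.last t) - (b : ℝ) / k| ≤ ρ₁ →
      ∃ x' ∈ slice K ((b : ℝ) / k), ∀ i : Fin t, |y i.castSucc - x' i| ≤ ρ' / 3)
    (h1 : ρ + δ ≤ ρ₁) (h2 : ρ ≤ ρ' / 3) (h3 : 2 ^ (t + 1) * ((L : ℝ) + 1) ^ t * δ ≤ ρ' / 3)
    (α : Fin (t + 1) → ℝ) (z₀ : ℤ) (hα : |α (Fin.last t) - (b : ℝ) / k - z₀| ≤ δ)
    (s h : ℕ) (hh : h < L) (hN : Nr K ρ (sh ((s + h : ℕ) : ℝ) α)) :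
    Nr (thick D (slice K ((b : ℝ) / k))) ρ'
      (sh (h : ℝ) (Fin.init (sh (s : ℝ) α) : Fin t → ℝ)) := by
  obtain ⟨y, hyK, hy⟩ := hN
  rw [Nat.cast_add, sh_init] at hy
  have hyl := hy (Fin.last t)
  rw [Fin.snoc_last] at hyl
  have hyK' := hp y hyK (Fin.snoc (α := fun _ => ℤ) (fun _ : Fin t => (0 : ℤ)) (-z₀))
  obtain ⟨x', hx', hxy⟩ := hρ₁ _ hyK' (by
    simp only [Fin.snoc_last, Int.cast_neg]
    have e1 : y (Fin.last t) + -(z₀ : ℝ) - (b : ℝ) / k =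
        -(α (Fin.last t) - y (Fin.last t)) + (α (Fin.last t) - (b : ℝ) / k - z₀) := by ring
    rw [e1]
    refine (abs_add_le _ _).trans ?_
    rw [abs_neg]
    linarith)
  have hxy' : ∀ i : Fin t, |y i.castSucc - x' i| ≤ ρ' / 3 := by
    intro i
    have := hxy i
    simpa only [Fin.snoc_castSucc, Int.cast_zero, add_zero] using this
  obtain ⟨d, rfl⟩ := hkD
  have hk0 : (k : ℝ) ≠ 0 := by
    have : 0 < k := hk
    exact_mod_cast this.ne'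
  have hd0 : (d : ℝ) ≠ 0 := by
    have : d ≠ 0 := by
      rintro rfl
      simp at hD
    exact_mod_cast this
  refine ⟨fun i => x' i - (Nat.choose (t + 1) ((i : ℕ) + 1) : ℝ) * (h : ℝ) ^ (t - (i : ℕ)) *
    ((b : ℝ) / k + z₀), ?_, ?_⟩
  · refine ⟨fun i => -((Nat.choose (t + 1) ((i : ℕ) + 1) : ℤ) * (h : ℤ) ^ (t - (i : ℕ)) *
      ((b + k * z₀) * d)), ?_⟩
    have e2 : (fun i : Fin t => (x' i - (Nat.choose (t + 1) ((i : ℕ) + 1) : ℝ) *
        (h : ℝ) ^ (t - (i : ℕ)) * ((b : ℝ) / k + z₀)) -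
        ((-((Nat.choose (t + 1) ((i : ℕ) + 1) : ℤ) * (h : ℤ) ^ (t - (i : ℕ)) *
      ((b + k * z₀) * d)) : ℤ) : ℝ) / ((k * d : ℕ) : ℝ)) = x' := by
      funext i
      push_cast
      field_simp
      ring
    rw [e2]
    exact hx'
  · intro i
    have hyi := hy i.castSucc
    rw [Fin.snoc_castSucc] at hyi
    have hxi := hxy' i
    have hC : |(Nat.choose (t + 1) ((i : ℕ) + 1) : ℝ) * (h : ℝ) ^ (t - (i : ℕ)) *
        (α (Fin.last t) - (b : ℝ) / k - z₀)| ≤ ρ' / 3 := by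
      refine le_trans ?_ h3
      rw [abs_mul]
      have e3 : |(Nat.choose (t + 1) ((i : ℕ) + 1) : ℝ) * (h : ℝ) ^ (t - (i : ℕ))| ≤
          2 ^ (t + 1) * ((L : ℝ) + 1) ^ t := by
        rw [abs_of_nonneg (by positivity)]
        have e4 : (Nat.choose (t + 1) ((i : ℕ) + 1) : ℝ) ≤ 2 ^ (t + 1) := by
          exact_mod_cast Nat.choose_le_two_pow (t + 1) ((i : ℕ) + 1)
        have e5 : (h : ℝ) ^ (t - (i : ℕ)) ≤ ((L : ℝ) + 1) ^ t := by
          have e6 : (h : ℝ) ≤ (L : ℝ) + 1 := by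
            have : (h : ℝ) < L := by exact_mod_cast hh
            linarith
          have e7 : (1 : ℝ) ≤ (L : ℝ) + 1 := by
            have : (0 : ℝ) ≤ L := Nat.cast_nonneg _
            linarith
          exact (pow_le_pow_left₀ (Nat.cast_nonneg _) e6 _).trans
            (pow_le_pow_right₀ e7 (Nat.sub_le _ _))
        exact mul_le_mul e4 e5 (by positivity) (by positivity)
      exact mul_le_mul e3 hα (abs_nonneg _) (by positivity)
    have e8 : sh (h : ℝ) (Fin.init (sh (s : ℝ) α) : Fin t → ℝ) i -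
        (x' i - (Nat.choose (t + 1) ((i : ℕ) + 1) : ℝ) * (h : ℝ) ^ (t - (i : ℕ)) *
          ((b : ℝ) / k + z₀)) =
        (sh (h : ℝ) (Fin.init (sh (s : ℝ) α) : Fin t → ℝ) i +
          (Nat.choose (t + 1) ((i : ℕ) + 1) : ℝ) * (h : ℝ) ^ (t - (i : ℕ)) * α (Fin.last t) -
          y i.castSucc) + (y i.castSucc - x' i) -
          (Nat.choose (t + 1) ((i : ℕ) + 1) : ℝ) * (h : ℝ) ^ (t - (i : ℕ)) *
            (α (Fin.last t) - (b : ℝ) / k - z₀) := by ring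
    rw [e8]
    refine (abs_sub _ _).trans ?_
    refine (add_le_add_left (abs_add_le _ _) _).trans ?_
    linarith

open scoped Classical in
/-- `k ≥ 1`, `r = b/k`. Let `α (last t) = β = r + θ + z₀`, `z₀ ∈ ℤ`, `|θ| ≤ k₀/H`. `stretch` with `B s = Nr K ρ (sh s α)`. For `h < L`: `sh (s+h) α = sh h (sh s α)`, `sh s α = snoc x(s) β` with `x(s) = Fin.init (sh s α)`, and by `sh_snoc` its lower part is `sh h x(s) + choose h^(t-i) β`; `choose h^(t-i) β ∈ (1/k)ℤ + O(2^(t+1) L^t k₀/H)`. If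
`y ∈ K` is within `ρ` of it, `y - (0,..,0,z₀) ∈ K` has top coordinate within `ρ + k₀/H` of `r`: `slice_near` (`ρ'/3`): the lower part of `y` is within `ρ'/3` of `slice K r`; so `sh h x(s)` is within `ρ'` of `thick k (slice K r)`, which is contained in `thick D (slice K r)` for `k ∣ D`. -/
theorem descend {t : ℕ} (K : Set (Fin (t + 1) → ℝ)) (hK : IsClosed K) (hp : Per K) (c : ℝ) (hc : 0 < c) (k₀ k D : ℕ) (hk : 1 ≤ k) (hkD : k ∣ D) (hD : 1 ≤ D) (b : ℤ)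
    (L : ℕ) (ρ' : ℝ) (hρ' : 0 < ρ') : ∃ ρ : ℝ, 0 < ρ ∧ ∃ H₀ : ℕ, ∀ H : ℕ, H₀ ≤ H → ∀ α : Fin (t + 1) → ℝ,
      (∃ z₀ : ℤ, |α (Fin.last t) - (b : ℝ) / k - z₀| ≤ k₀ / H) →
      c * H ≤ ((((range H).filter (fun s : ℕ => Nr K ρ (sh (s : ℝ) α))).card : ℕ) : ℝ) →
      c / 2 * H ≤ ((((range H).filter (fun s : ℕ => c / 4 * L ≤
        ((((range L).filter (fun h : ℕ => Nr (thick D (slice K ((b : ℝ) / k))) ρ' (sh (h : ℝ) (Fin.init (sh (s : ℝ) α) : Fin t → ℝ)))).card : ℕ) : ℝ))).card : ℕ) : ℝ) := by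
  obtain ⟨ρ₁, hρ₁0, hρ₁⟩ := slice_near hK hp ((b : ℝ) / k) (ρ' / 3) (by positivity)
  have hM : (0 : ℝ) < 2 ^ (t + 1) * ((L : ℝ) + 1) ^ t := by positivity
  obtain ⟨H₀, hH₀⟩ := exists_nat_ge (max (k₀ / (ρ₁ / 2))
    (max (2 ^ (t + 1) * ((L : ℝ) + 1) ^ t * k₀ / (ρ' / 3)) (max (L / (c / 4)) 1)))
  refine ⟨min (ρ₁ / 2) (ρ' / 3), by positivity, H₀, ?_⟩
  intro H hH α hα hcount
  obtain ⟨z₀, hz₀⟩ := hα
  have hHr : (H₀ : ℝ) ≤ H := by exact_mod_cast hH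
  have g0 := hH₀.trans hHr
  have g1 : (k₀ : ℝ) / (ρ₁ / 2) ≤ H := (le_max_left _ _).trans g0
  have g2 : 2 ^ (t + 1) * ((L : ℝ) + 1) ^ t * k₀ / (ρ' / 3) ≤ H :=
    (le_max_left _ _).trans ((le_max_right _ _).trans g0)
  have g3 : (L : ℝ) / (c / 4) ≤ H :=
    (le_max_left _ _).trans ((le_max_right _ _).trans ((le_max_right _ _).trans g0))
  have g4 : (1 : ℝ) ≤ H :=
    (le_max_right _ _).trans ((le_max_right _ _).trans ((le_max_right _ _).trans g0))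
  have hH0 : (0 : ℝ) < H := by linarith
  have g5 : (k₀ : ℝ) / H ≤ ρ₁ / 2 := by
    rw [div_le_iff₀ (by positivity)] at g1
    rw [div_le_iff₀ hH0]
    linarith
  have g6 : 2 ^ (t + 1) * ((L : ℝ) + 1) ^ t * (k₀ / H) ≤ ρ' / 3 := by
    rw [div_le_iff₀ (by positivity)] at g2
    rw [← mul_div_assoc, div_le_iff₀ hH0]
    linarith
  have g7 : (L : ℝ) ≤ c / 4 * H := by
    rw [div_le_iff₀ (by positivity)] at g3
    linarith
  have hst := stretch (fun s : ℕ => Nr K (min (ρ₁ / 2) (ρ' / 3)) (sh (s : ℝ) α)) H L c hc g7 hcount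
  refine hst.trans ?_
  have hsub : (range H).filter (fun s : ℕ => c / 4 * L ≤ ((((range L).filter (fun h : ℕ =>
      Nr K (min (ρ₁ / 2) (ρ' / 3)) (sh ((s + h : ℕ) : ℝ) α))).card : ℕ) : ℝ)) ⊆
      (range H).filter (fun s : ℕ => c / 4 * L ≤
        ((((range L).filter (fun h : ℕ => Nr (thick D (slice K ((b : ℝ) / k))) ρ'
          (sh (h : ℝ) (Fin.init (sh (s : ℝ) α) : Fin t → ℝ)))).card : ℕ) : ℝ)) := by
    intro s hs
    rw [mem_filter] at hs ⊢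
    refine ⟨hs.1, hs.2.trans ?_⟩
    have hsub2 : (range L).filter (fun h : ℕ =>
        Nr K (min (ρ₁ / 2) (ρ' / 3)) (sh ((s + h : ℕ) : ℝ) α)) ⊆
        (range L).filter (fun h : ℕ => Nr (thick D (slice K ((b : ℝ) / k))) ρ'
          (sh (h : ℝ) (Fin.init (sh (s : ℝ) α) : Fin t → ℝ))) := by
      intro h hh
      rw [mem_filter] at hh ⊢
      refine ⟨hh.1, descend_pt K hp k D hk hkD hD b L ρ' ρ₁ (min (ρ₁ / 2) (ρ' / 3)) (k₀ / H)
        (by positivity) hρ₁ ?_ (min_le_right _ _) g6 α z₀ hz₀ s h (mem_range.1 hh.1) hh.2⟩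
      have := min_le_left (ρ₁ / 2) (ρ' / 3)
      linarith
    exact_mod_cast card_le_card hsub2
  exact_mod_cast card_le_card hsub

end Pool.Agent.Lib.MP_3e612f_nt.NF
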