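import Pool.Agent.Lib.MP_3e612f_nt.NF.P.Defs

/-! Trigonometric approximation (paper v2). -/

set_option autoImplicit false

namespace Pool.Agent.Lib.MP_3e612f_nt.NF

open Finset
open Pool.Agent.Lib.MP_3e612f_nt.MR (mu ex)

/-- The monomials of the torus. -/
theorem Trig_mFourier {t : ℕ} (l : Fin t → ℤ) (x : Fin t → ℝ) :
    (UnitAddTorus.mFourier l : C(UnitAddTorus (Fin t), ℂ)) (fun i => (x i : UnitAddCircle)) = ex (∑ i, (l i : ℝ) * x i) := by
  have h1 : (UnitAddTorus.mFourier l : C(UnitAddTorus (Fin t), ℂ)) (fun i => (x i : UnitAddCircle)) =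
      ∏ i, fourier (l i) (x i : UnitAddCircle) := rfl
  rw [h1]
  unfold ex
  have h2 : ∀ i ∈ (univ : Finset (Fin t)), fourier (l i) (x i : UnitAddCircle) = Complex.exp (((2 * Real.pi * ((l i : ℝ) * x i) : ℝ) : ℂ) * Complex.I) := by
    intro i _
    rw [fourier_coe_apply]
    congr 1
    push_cast
    ring
  rw [Finset.prod_congr rfl h2, ← Complex.exp_sum]
  congr 1
  rw [Finset.mul_sum]
  push_cast
  rw [Finset.sum_mul]

/-- Stone - Weierstrass on the torus (`UnitAddTorus.span_mFourier_closure_eq_top` or an induction): a continuous periodic function is uniformly close to a trigonometric polynomial. -/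
theorem trig_approx {t : ℕ} (g : (Fin t → ℝ) → ℝ) (hg : Continuous g) (hp : ∀ (x : Fin t → ℝ) (z : Fin t → ℤ), g (fun i => x i + z i) = g x) (ε : ℝ) (hε : 0 < ε) :
    ∃ (Λ : Finset (Fin t → ℤ)) (a : (Fin t → ℤ) → ℂ), ∀ x, ‖(g x : ℂ) - ∑ l ∈ Λ, a l * ex (∑ i, (l i : ℝ) * x i)‖ ≤ ε := by
  classical
  set π : (Fin t → ℝ) → UnitAddTorus (Fin t) := fun x i => (x i : UnitAddCircle) with hπ
  have hq : IsOpenQuotientMap π := IsOpenQuotientMap.piMap fun _ => QuotientAddGroup.isOpenQuotientMap_mk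
  have hG : ∀ x y, π x = π y → g x = g y := by
    intro x y h
    have h1 : ∀ i, ∃ z : ℤ, x i = y i + z := by
      intro i
      have h2 : (x i : UnitAddCircle) = (y i : UnitAddCircle) := congrFun h i
      have h3 := QuotientAddGroup.eq_iff_sub_mem.1 h2
      obtain ⟨k, hk⟩ := AddSubgroup.mem_zmultiples_iff.1 h3
      refine ⟨k, ?_⟩
      rw [zsmul_eq_mul, mul_one] at hk
      linarith
    choose z hz using h1
    rw [← hp y z]
    congr 1
    funext i
    exact hz i
  set s := Function.surjInv hq.surjective with hs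
  have hsπ : ∀ x, g (s (π x)) = g x := fun x => hG _ _ (Function.surjInv_eq hq.surjective (π x))
  have hGc : Continuous fun y : UnitAddTorus (Fin t) => (g (s y) : ℂ) := by
    rw [hq.isQuotientMap.continuous_iff]
    have h1 : (fun y : UnitAddTorus (Fin t) => (g (s y) : ℂ)) ∘ π = fun x => (g x : ℂ) := by
      funext x
      simp only [Function.comp_apply, hsπ]
    rw [h1]
    exact Complex.continuous_ofReal.comp hg
  set G : C(UnitAddTorus (Fin t), ℂ) := ⟨fun y => (g (s y) : ℂ), hGc⟩ with hGdef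
  have hmem : G ∈ (Submodule.span ℂ (Set.range (UnitAddTorus.mFourier (d := Fin t)))).topologicalClosure := by
    rw [UnitAddTorus.span_mFourier_closure_eq_top]
    trivial
  have h2 : G ∈ closure ((Submodule.span ℂ (Set.range (UnitAddTorus.mFourier (d := Fin t))) : Submodule ℂ C(UnitAddTorus (Fin t), ℂ)) :
      Set C(UnitAddTorus (Fin t), ℂ)) := hmem
  obtain ⟨f, hf, hd⟩ := Metric.mem_closure_iff.1 h2 ε hε
  obtain ⟨c, hc⟩ := Finsupp.mem_span_range_iff_exists_finsupp.1 hf
  refine ⟨c.support, c, fun x => ?_⟩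
  have h3 := ContinuousMap.norm_coe_le_norm (G - f) (π x)
  rw [dist_eq_norm] at hd
  refine le_trans (le_of_eq ?_) (h3.trans hd.le)
  congr 1
  have h4 : (G - f) (π x) = (g x : ℂ) - f (π x) := by
    rw [ContinuousMap.sub_apply]
    congr 1
    show (g (s (π x)) : ℂ) = g x
    rw [hsπ]
  rw [h4, ← hc, Finsupp.sum]
  congr 1
  rw [ContinuousMap.coe_sum, Finset.sum_apply]
  refine Finset.sum_congr rfl fun l _ => ?_
  rw [ContinuousMap.coe_smul, Pi.smul_apply, smul_eq_mul, hπ, Trig_mFourier]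

end Pool.Agent.Lib.MP_3e612f_nt.NF
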