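import Pool.Agent.Lib.MP_3e612f_nt.NF.P.Orb
import Pool.Agent.Lib.MP_3e612f_nt.NF.P.Trig

/-! Equidistribution of orbits over a given top coefficient (paper v2). -/

set_option autoImplicit false

namespace Pool.Agent.Lib.MP_3e612f_nt.NF

open Finset
open Pool.Agent.Lib.MP_3e612f_nt.MR (mu ex)

theorem eqt_ex_sum {ι : Type} (s : Finset ι) (f : ι → ℝ) : ex (∑ i ∈ s, f i) = ∏ i ∈ s, ex (f i) := by
  classical
  induction s using Finset.induction_on with
  | empty => simp [ex_zero]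
  | insert a s ha ih => rw [Finset.sum_insert ha, Finset.prod_insert ha, ex_add, ih]

theorem eqt_ex_cont : Continuous ex := by
  unfold ex
  fun_prop

theorem eqt_int_one (n : ℤ) : ∫ x in Set.Icc (0 : ℝ) 1, ex ((n : ℝ) * x) = if n = 0 then 1 else 0 := by
  rcases eq_or_ne n 0 with h | h
  · subst h
    simp [ex_zero]
  · rw [if_neg h, MeasureTheory.integral_Icc_eq_integral_Ioc, ← intervalIntegral.integral_of_le (by norm_num)]
    have hc : ((2 * Real.pi * n : ℝ) : ℂ) * Complex.I ≠ 0 := by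
      refine mul_ne_zero ?_ Complex.I_ne_zero
      have : (2 * Real.pi * n : ℝ) ≠ 0 := by
        have h1 : (n : ℝ) ≠ 0 := Int.cast_ne_zero.2 h
        have h2 := Real.pi_ne_zero
        positivity
      exact_mod_cast this
    have h1 : ∀ x : ℝ, ex ((n : ℝ) * x) = Complex.exp ((((2 * Real.pi * n : ℝ) : ℂ) * Complex.I) * x) := by
      intro x
      unfold ex
      congr 1
      push_cast
      ring
    simp_rw [h1]
    rw [integral_exp_mul_complex hc]
    have h2 : Complex.exp ((((2 * Real.pi * n : ℝ) : ℂ) * Complex.I) * (1 : ℝ)) = 1 := by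
      rw [← h1, mul_one, ex_int]
    rw [h2]
    simp

theorem eqt_int_cube {t : ℕ} (l : Fin t → ℤ) :
    ∫ x in Set.Icc (0 : Fin t → ℝ) 1, ex (∑ i, (l i : ℝ) * x i) = if (∀ i, l i = 0) then 1 else 0 := by
  have h1 : ∀ x : Fin t → ℝ, ex (∑ i, (l i : ℝ) * x i) = ∏ i, ex ((l i : ℝ) * x i) := fun x => eqt_ex_sum _ _
  simp_rw [h1]
  have h2 : Set.Icc (0 : Fin t → ℝ) 1 = Set.univ.pi (fun _ => Set.Icc (0 : ℝ) 1) := by
    rw [← Set.pi_univ_Icc]; rfl
  rw [h2, MeasureTheory.volume_pi, MeasureTheory.Measure.restrict_pi_pi,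
    MeasureTheory.integral_fintype_prod_eq_prod (fun i x => ex ((l i : ℝ) * x))]
  simp_rw [eqt_int_one]
  rw [Finset.prod_ite_zero]
  simp

/-- `trig_approx` with `c/8`: `cH ≤ ∑_s g(sh s α) ≤ (c/8)H + Re ∑_l a_l ∑_s e(l·sh s α)`. The terms with `l_i = 0` for all `i < t` give `H G₀(β)`, `G₀(β) = ∑ a_l e(l_t β)`, `β = α (last t)` (top coefficient of `sh s α` is `β`), and `G₀(β) = ∫_{cube} G(x, β) dx ≤ ∫ g(x, β) dx + c/8`. If all the other sums are at most `κ H` with
`κ ∑|a_l| ≤ c/8` then `∫ g(x,β) dx ≥ c - 3c/8 ≥ c/2`; otherwise `orbit_sum`. -/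
theorem equi_top {t : ℕ} (g : (Fin (t + 1) → ℝ) → ℝ) (hg : Continuous g) (hp : ∀ (x : Fin (t + 1) → ℝ) (z : Fin (t + 1) → ℤ), g (fun i => x i + z i) = g x)
    (c : ℝ) (hc : 0 < c) : ∃ K' : ℕ, 1 ≤ K' ∧ ∀ H : ℕ, 1 ≤ H → ∀ α : Fin (t + 1) → ℝ, c * H ≤ ∑ s ∈ range H, g (sh (s : ℝ) α) →
      c / 2 ≤ ∫ x in Set.Icc (0 : Fin t → ℝ) 1, g (Fin.snoc (α := fun _ => ℝ) x (α (Fin.last t)) : Fin (t + 1) → ℝ) ∨
        ∃ k : ℕ, 1 ≤ k ∧ k ≤ K' ∧ dZ (k * α (Fin.last t)) ≤ K' / H := by
  classical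
  obtain ⟨Λ, a, hΛ⟩ := trig_approx g hg hp (c / 8) (by positivity)
  set A : ℝ := ∑ l ∈ Λ, ‖a l‖ + 1 with hA
  have hA0 : 0 ≤ ∑ l ∈ Λ, ‖a l‖ := Finset.sum_nonneg fun _ _ => norm_nonneg _
  have hA1 : 1 ≤ A := by rw [hA]; linarith
  set κ : ℝ := c / (8 * A) with hκd
  have hκ : 0 < κ := by rw [hκd]; positivity
  have hK : ∀ l : Fin (t + 1) → ℤ, ∃ K' : ℕ, (∃ i : Fin t, l i.castSucc ≠ 0) → 1 ≤ K' ∧ ∀ H : ℕ, 1 ≤ H → ∀ α : Fin (t + 1) → ℝ,
      κ * H ≤ ‖∑ s ∈ range H, ex (∑ i, (l i : ℝ) * sh (s : ℝ) α i)‖ → ∃ k : ℕ, 1 ≤ k ∧ k ≤ K' ∧ dZ (k * α (Fin.last t)) ≤ K' / H := by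
    intro l
    by_cases hl : ∃ i : Fin t, l i.castSucc ≠ 0
    · obtain ⟨K', h⟩ := orbit_sum κ hκ l hl
      exact ⟨K', fun _ => h⟩
    · exact ⟨0, fun h => absurd h hl⟩
  choose K hK using hK
  refine ⟨∑ l ∈ Λ, K l + 1, by omega, ?_⟩
  intro H hH α hα
  have hH0 : (0 : ℝ) < H := by exact_mod_cast hH
  by_cases hbad : ∃ l ∈ Λ, (∃ i : Fin t, l i.castSucc ≠ 0) ∧ κ * H ≤ ‖∑ s ∈ range H, ex (∑ i, (l i : ℝ) * sh (s : ℝ) α i)‖
  · right
    obtain ⟨l, hlΛ, hl, hb⟩ := hbad
    obtain ⟨k, hk1, hk2, hk3⟩ := (hK l hl).2 H hH α hb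
    have hle : K l ≤ ∑ l ∈ Λ, K l + 1 := (Finset.single_le_sum (f := K) (fun _ _ => Nat.zero_le _) hlΛ).trans (Nat.le_succ _)
    refine ⟨k, hk1, hk2.trans hle, hk3.trans ?_⟩
    have : (K l : ℝ) ≤ ((∑ l ∈ Λ, K l + 1 : ℕ) : ℝ) := by exact_mod_cast hle
    gcongr
  · left
    push Not at hbad
    set β := α (Fin.last t) with hβ
    -- the averaged trigonometric polynomial
    set G0 : ℂ := ∑ l ∈ Λ, if (∀ i : Fin t, l i.castSucc = 0) then a l * ex ((l (Fin.last t) : ℝ) * β) else 0 with hG0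
    have hshtop : ∀ s : ℝ, sh s α (Fin.last t) = β := by
      intro s
      have h := sh_snoc s (Fin.init α : Fin t → ℝ) (α (Fin.last t))
      rw [Fin.snoc_init_self] at h
      rw [h, Fin.snoc_last]
    -- integral
    have hint : ∫ x in Set.Icc (0 : Fin t → ℝ) 1, (∑ l ∈ Λ, a l * ex (∑ i, (l i : ℝ) * (Fin.snoc (α := fun _ => ℝ) x β : Fin (t + 1) → ℝ) i)) = G0 := by
      have hterm : ∀ l : Fin (t + 1) → ℤ, ∀ x : Fin t → ℝ, a l * ex (∑ i, (l i : ℝ) * (Fin.snoc (α := fun _ => ℝ) x β : Fin (t + 1) → ℝ) i)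
          = (a l * ex ((l (Fin.last t) : ℝ) * β)) * ex (∑ i : Fin t, (l i.castSucc : ℝ) * x i) := by
        intro l x
        rw [Fin.sum_univ_castSucc]
        simp only [Fin.snoc_castSucc, Fin.snoc_last]
        rw [ex_add]
        ring
      simp_rw [hterm]
      rw [MeasureTheory.integral_finsetSum]
      · rw [hG0]
        refine Finset.sum_congr rfl fun l _ => ?_
        rw [MeasureTheory.integral_const_mul, eqt_int_cube (fun i : Fin t => l i.castSucc)]
        split_ifs <;> simp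
      · intro l _
        apply Continuous.integrableOn_Icc
        have := eqt_ex_cont
        fun_prop
    have hgint : Continuous fun x : Fin t → ℝ => g (Fin.snoc (α := fun _ => ℝ) x β : Fin (t + 1) → ℝ) := by
      refine hg.comp ?_
      refine continuous_pi fun i => ?_
      refine Fin.lastCases ?_ (fun j => ?_) i
      · simp only [Fin.snoc_last]; exact continuous_const
      · simp only [Fin.snoc_castSucc]; exact continuous_apply j
    have h1 : ‖((∫ x in Set.Icc (0 : Fin t → ℝ) 1, g (Fin.snoc (α := fun _ => ℝ) x β : Fin (t + 1) → ℝ) : ℝ) : ℂ) - G0‖ ≤ c / 8 := by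
      rw [← hint, ← integral_complex_ofReal, ← MeasureTheory.integral_sub]
      · have hv : MeasureTheory.volume (Set.Icc (0 : Fin t → ℝ) 1) = 1 := by
          rw [Real.volume_Icc_pi]; simp
        refine (MeasureTheory.norm_setIntegral_le_of_norm_le_const (C := c / 8) (by rw [hv]; exact ENNReal.one_lt_top) ?_).trans ?_
        · intro x _
          exact hΛ _
        · rw [MeasureTheory.measureReal_def, hv]
          simp
      · exact (Complex.continuous_ofReal.comp hgint).integrableOn_Icc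
      · apply Continuous.integrableOn_Icc
        have := eqt_ex_cont
        refine continuous_finsetSum _ fun l _ => continuous_const.mul (eqt_ex_cont.comp ?_)
        refine continuous_finsetSum _ fun i _ => continuous_const.mul ?_
        refine Fin.lastCases ?_ (fun j => ?_) i
        · simp only [Fin.snoc_last]; exact continuous_const
        · simp only [Fin.snoc_castSucc]; exact continuous_apply j
    -- sum
    have h2 : ‖((∑ s ∈ range H, g (sh (s : ℝ) α) : ℝ) : ℂ) - H * G0‖ ≤ c / 4 * H := by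
      have hG : (H : ℂ) * G0 = ∑ s ∈ range H, ∑ l ∈ Λ, if (∀ i : Fin t, l i.castSucc = 0) then a l * ex (∑ i, (l i : ℝ) * sh (s : ℝ) α i) else 0 := by
        have : ∀ s ∈ range H, (∑ l ∈ Λ, if (∀ i : Fin t, l i.castSucc = 0) then a l * ex (∑ i, (l i : ℝ) * sh (s : ℝ) α i) else 0) = G0 := by
          intro s _
          rw [hG0]
          refine Finset.sum_congr rfl fun l _ => ?_
          split_ifs with hl
          · rw [Fin.sum_univ_castSucc, hshtop]
            simp [hl]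
          · rfl
        rw [Finset.sum_congr rfl this, Finset.sum_const, Finset.card_range, nsmul_eq_mul]
      have hsplit : ((∑ s ∈ range H, g (sh (s : ℝ) α) : ℝ) : ℂ) - H * G0 =
          (∑ s ∈ range H, ((g (sh (s : ℝ) α) : ℂ) - ∑ l ∈ Λ, a l * ex (∑ i, (l i : ℝ) * sh (s : ℝ) α i))) +
            ∑ l ∈ Λ, (if (∀ i : Fin t, l i.castSucc = 0) then 0 else a l * ∑ s ∈ range H, ex (∑ i, (l i : ℝ) * sh (s : ℝ) α i)) := by
        rw [hG, Finset.sum_sub_distrib]
        push_cast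
        have : ∑ s ∈ range H, ∑ l ∈ Λ, a l * ex (∑ i, (l i : ℝ) * sh (s : ℝ) α i) =
            (∑ s ∈ range H, ∑ l ∈ Λ, if (∀ i : Fin t, l i.castSucc = 0) then a l * ex (∑ i, (l i : ℝ) * sh (s : ℝ) α i) else 0) +
            ∑ l ∈ Λ, (if (∀ i : Fin t, l i.castSucc = 0) then 0 else a l * ∑ s ∈ range H, ex (∑ i, (l i : ℝ) * sh (s : ℝ) α i)) := by
          rw [Finset.sum_comm, Finset.sum_comm (s := range H), ← Finset.sum_add_distrib]
          refine Finset.sum_congr rfl fun l _ => ?_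
          split_ifs with hl
          · simp
          · rw [Finset.mul_sum]; simp
        rw [this]
        ring
      rw [hsplit]
      refine (norm_add_le _ _).trans ?_
      have e1 : ‖∑ s ∈ range H, ((g (sh (s : ℝ) α) : ℂ) - ∑ l ∈ Λ, a l * ex (∑ i, (l i : ℝ) * sh (s : ℝ) α i))‖ ≤ c / 8 * H := by
        refine (norm_sum_le_of_le (n := fun _ => c / 8) (range H) (fun (s : ℕ) _ => hΛ (sh (s : ℝ) α))).trans ?_
        rw [Finset.sum_const, Finset.card_range, nsmul_eq_mul]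
        linarith
      have e2 : ‖∑ l ∈ Λ, (if (∀ i : Fin t, l i.castSucc = 0) then 0 else a l * ∑ s ∈ range H, ex (∑ i, (l i : ℝ) * sh (s : ℝ) α i))‖ ≤ c / 8 * H := by
        have : ∀ l ∈ Λ, ‖(if (∀ i : Fin t, l i.castSucc = 0) then 0 else a l * ∑ s ∈ range H, ex (∑ i, (l i : ℝ) * sh (s : ℝ) α i))‖ ≤ ‖a l‖ * (κ * H) := by
          intro l hl
          split_ifs with h
          · rw [norm_zero]; positivity
          · rw [norm_mul]
            push Not at h
            exact mul_le_mul_of_nonneg_left (hbad l hl h).le (norm_nonneg _)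
        refine (norm_sum_le_of_le _ this).trans ?_
        rw [← Finset.sum_mul]
        have hAκ : A * κ = c / 8 := by
          rw [hκd]; field_simp
        have : (∑ l ∈ Λ, ‖a l‖) * (κ * H) ≤ A * (κ * H) := by
          apply mul_le_mul_of_nonneg_right _ (by positivity)
          rw [hA]; linarith
        refine this.trans (le_of_eq ?_)
        rw [← mul_assoc, hAκ]
      linarith
    have h3 : c - c / 4 ≤ G0.re := by
      have h4 := (Complex.re_le_norm _).trans h2
      have h9 : ((H : ℂ) * G0).re = H * G0.re := by simp [Complex.mul_re]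
      rw [Complex.sub_re, Complex.ofReal_re, h9] at h4
      have h5 : c * H - c / 4 * H ≤ H * G0.re := by linarith
      have h6 : (c - c / 4) * H ≤ G0.re * H := by linarith
      exact le_of_mul_le_mul_right h6 hH0
    have h7 : G0.re - c / 8 ≤ ∫ x in Set.Icc (0 : Fin t → ℝ) 1, g (Fin.snoc (α := fun _ => ℝ) x β : Fin (t + 1) → ℝ) := by
      have h8 := (Complex.abs_re_le_norm _).trans h1
      rw [Complex.sub_re, Complex.ofReal_re] at h8
      have := (abs_le.1 h8).1
      linarith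
    linarith

end Pool.Agent.Lib.MP_3e612f_nt.NF
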