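import Pool.Agent.Lib.MP_3e612f_nt.NF.P.LevB
import Pool.Agent.Lib.MP_3e612f_nt.NF.P.Thick

/-! The two classes of level sets; admissibility from volumes (paper v2). -/

set_option autoImplicit false

namespace Pool.Agent.Lib.MP_3e612f_nt.NF

open Finset
open Pool.Agent.Lib.MP_3e612f_nt.MR (mu ex)

/-- logarithmic averages: null, and without rational numbers above level 1 -/
def GP (i : ℕ) (C : Set ℝ) : Prop := MeasureTheory.volume C = 0 ∧ (2 ≤ i → ∀ q : ℚ, (q : ℝ) ∉ C)

/-- ordinary averages: empty above level 1, rational at level 1 -/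
def GN (i : ℕ) (C : Set ℝ) : Prop := (∀ x ∈ C, ∃ q : ℚ, x = q) ∧ (2 ≤ i → C = ∅)

theorem shift_eq_iUnion (q : ℕ) (C : Set ℝ) :
    {x : ℝ | ∃ z : ℤ, x - z / q ∈ C} = ⋃ z : ℤ, (fun x : ℝ => x + -((z : ℝ) / q)) ⁻¹' C := by
  ext x
  simp only [Set.mem_iUnion, Set.mem_preimage, ← sub_eq_add_neg]
  rfl

theorem good_GP : GoodLev GP where
  null := fun _ _ h => h.1
  mono := fun _ _ _ h hs =>
    ⟨MeasureTheory.measure_mono_null hs h.1, fun hi q hq => h.2 hi q (hs hq)⟩
  union := fun _ _ _ h h' =>
    ⟨MeasureTheory.measure_union_null h.1 h'.1, fun hi q hq => hq.elim (h.2 hi q) (h'.2 hi q)⟩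
  shift := by
    intro i C h q _
    refine ⟨?_, ?_⟩
    · rw [shift_eq_iUnion, MeasureTheory.measure_iUnion_null_iff]
      intro z
      rw [MeasureTheory.measure_preimage_add_right]
      exact h.1
    · rintro hi r ⟨z, hz⟩
      refine h.2 hi (r - z / q) ?_
      push_cast
      exact hz

theorem good_GN : GoodLev GN where
  null := by
    intro _ C h
    refine MeasureTheory.measure_mono_null (t := Set.range ((↑) : ℚ → ℝ)) ?_
      ((Set.countable_range _).measure_zero _)
    intro x hx
    obtain ⟨q, hq⟩ := h.1 x hx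
    exact ⟨q, hq.symm⟩
  mono := fun _ _ _ h hs => ⟨fun x hx => h.1 x (hs hx), fun hi => Set.subset_eq_empty hs (h.2 hi)⟩
  union := fun _ _ _ h h' =>
    ⟨fun x hx => hx.elim (h.1 x) (h'.1 x), fun hi => by rw [h.2 hi, h'.2 hi, Set.union_empty]⟩
  shift := by
    intro i C h q _
    refine ⟨?_, ?_⟩
    · rintro x ⟨z, hz⟩
      obtain ⟨r, hr⟩ := h.1 _ hz
      refine ⟨r + z / q, ?_⟩
      push_cast
      rw [← hr]
      ring
    · intro hi
      rw [h.2 hi]
      ext x
      simp

/-- `K` is null, and recursively so are all slices over rational values of the top coordinate (in dimension at least 1). -/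
def NullP : (t : ℕ) → Set (Fin t → ℝ) → Prop
  | 0, _ => True
  | t + 1, K => MeasureTheory.volume K = 0 ∧ ∀ r : ℚ, NullP t (slice K (r : ℝ))

/-- In dimension at least 2 all slices over real values of the top coordinate are null, and recursively for the slices over rational values; in dimension 1 the elements are rational. -/
def NullN : (t : ℕ) → Set (Fin t → ℝ) → Prop
  | 0, _ => True
  | 1, K => ∀ x ∈ K, ∃ q : ℚ, x 0 = q
  | t + 2, K => (∀ β : ℝ, MeasureTheory.volume (slice K β) = 0) ∧ ∀ r : ℚ, NullN (t + 1) (slice K (r : ℝ))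

/-- `lev_null`, `not_mem_lev`. -/
theorem admP_of_null (t : ℕ) : ∀ K : Set (Fin t → ℝ), IsClosed K → Per K → NullP t K → AdmP GP t K := by
  induction t with
  | zero => exact fun _ _ _ _ => trivial
  | succ t ih =>
    intro K hK hp h0
    refine ⟨fun c hc => ⟨lev_null hK hp h0.1 c hc, fun ht q => ?_⟩, fun r => ?_⟩
    · obtain ⟨t', rfl⟩ : ∃ t', t = t' + 1 := ⟨t - 1, by omega⟩
      exact not_mem_lev hK q (h0.2 q).1 c hc
    · exact ih _ (slice_closed hK _) (slice_per hp _) (h0.2 r)

/-- `not_mem_lev`, `lev_one_sub`. -/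
theorem admN_of_null (t : ℕ) : ∀ K : Set (Fin t → ℝ), IsClosed K → Per K → NullN t K → AdmP GN t K := by
  induction t with
  | zero => exact fun _ _ _ _ => trivial
  | succ t ih =>
    intro K hK hp h0
    cases t with
    | zero =>
      refine ⟨fun c hc => ⟨fun x hx => ?_, fun h => absurd h (by norm_num)⟩, fun r => trivial⟩
      exact h0 _ (lev_one_sub hK c hc hx)
    | succ t =>
      refine ⟨fun c hc => ?_, fun r => ?_⟩
      · have h1 : lev K c = ∅ :=
          Set.eq_empty_iff_forall_notMem.2 fun β => not_mem_lev hK β (h0.1 β) c hc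
        exact ⟨fun x hx => absurd hx (by rw [h1]; exact fun h => h), fun _ => h1⟩
      · exact ih _ (slice_closed hK _) (slice_per hp _) (h0.2 r)

end Pool.Agent.Lib.MP_3e612f_nt.NF
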