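import Pool.Agent.Lib.MP_3e612f_nt.NF.P.NoLin

/-! Polynomials whose linear coefficient is a fixed rational combination of the higher coefficients (paper v2). -/

set_option autoImplicit false

namespace Pool.Agent.Lib.MP_3e612f_nt.NF

open Finset
open Pool.Agent.Lib.MP_3e612f_nt.MR (mu ex)

/-- `b · α + r ∈ ℤ` -/
def hyp (b : ℕ → ℤ) (t : ℕ) (r : ℝ) : Set (Fin t → ℝ) := {α | ∃ z : ℤ, ∑ j : Fin t, (b j : ℝ) * α j + r = z}

theorem hyp_slice (b : ℕ → ℤ) (t : ℕ) (r β : ℝ) : slice (hyp b (t + 1) r) β = hyp b t (b t * β + r) := by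
  ext x
  simp only [slice, hyp, Set.mem_ofPred_eq]
  rw [Fin.sum_univ_castSucc]
  simp only [Fin.snoc_castSucc, Fin.snoc_last, Fin.val_castSucc, Fin.val_last]
  constructor
  · rintro ⟨z, hz⟩
    exact ⟨z, by rw [← hz]; ring⟩
  · rintro ⟨z, hz⟩
    exact ⟨z, by rw [← hz]; ring⟩

theorem hyp_vol (b : ℕ → ℤ) (hb : b 0 ≠ 0) (t : ℕ) (r : ℝ) : MeasureTheory.volume (hyp b (t + 1) r) = 0 := by
  have hsub : hyp b (t + 1) r ⊆ ⋃ z : ℤ, {x : Fin (t + 1) → ℝ | ∑ j : Fin (t + 1), (b j : ℝ) * x j = (z : ℝ) - r} := by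
    rintro x ⟨z, hz⟩
    rw [Set.mem_iUnion]
    exact ⟨z, by simp only [Set.mem_ofPred_eq]; linarith⟩
  refine MeasureTheory.measure_mono_null hsub ?_
  rw [MeasureTheory.measure_iUnion_null_iff]
  intro z
  let L : (Fin (t + 1) → ℝ) →ₗ[ℝ] ℝ := ∑ j : Fin (t + 1), (b j : ℝ) • LinearMap.proj j
  have hL : ∀ x, L x = ∑ j : Fin (t + 1), (b j : ℝ) * x j := by
    intro x
    simp [L]
  have hL0 : L (Pi.single 0 1) = b 0 := by
    rw [hL, Fin.sum_univ_succ]
    simp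
  have hker : LinearMap.ker L ≠ ⊤ := by
    intro h
    have h1 : Pi.single (0 : Fin (t + 1)) (1 : ℝ) ∈ LinearMap.ker L := by rw [h]; trivial
    rw [LinearMap.mem_ker, hL0] at h1
    exact hb (by exact_mod_cast h1)
  have h0 := MeasureTheory.Measure.addHaar_submodule (MeasureTheory.volume : MeasureTheory.Measure (Fin (t + 1) → ℝ)) (LinearMap.ker L) hker
  set c : Fin (t + 1) → ℝ := Pi.single 0 (((z : ℝ) - r) / b 0) with hc
  have hLc : L c = (z : ℝ) - r := by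
    have : c = (((z : ℝ) - r) / b 0) • Pi.single (0 : Fin (t + 1)) (1 : ℝ) := by
      rw [hc]
      ext j
      by_cases hj : j = 0
      · subst hj; simp
      · simp [hj]
    rw [this, map_smul, hL0, smul_eq_mul, div_mul_cancel₀]
    exact_mod_cast hb
  have heq : {x : Fin (t + 1) → ℝ | ∑ j : Fin (t + 1), (b j : ℝ) * x j = (z : ℝ) - r} = (fun x => x + -c) ⁻¹' (LinearMap.ker L : Set (Fin (t + 1) → ℝ)) := by
    ext x
    simp only [Set.mem_ofPred_eq, Set.mem_preimage, SetLike.mem_coe, LinearMap.mem_ker, map_add, map_neg, hLc]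
    rw [hL]
    constructor
    · intro h; rw [h]; ring
    · intro h; linarith
  rw [heq, MeasureTheory.measure_preimage_add_right]
  exact h0

theorem hyp_closed (b : ℕ → ℤ) (t : ℕ) (r : ℝ) : IsClosed (hyp b t r) := by
  have h1 : hyp b t r = (fun α : Fin t → ℝ => ∑ j : Fin t, (b j : ℝ) * α j + r) ⁻¹' Set.range ((↑) : ℤ → ℝ) := by
    ext x
    constructor
    · rintro ⟨z, hz⟩
      exact ⟨z, hz.symm⟩
    · rintro ⟨z, hz⟩
      exact ⟨z, hz.symm⟩
  rw [h1]
  exact Int.isClosedEmbedding_coe_real.isClosed_range.preimage (by fun_prop)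

theorem hyp_per (b : ℕ → ℤ) (t : ℕ) (r : ℝ) : Per (hyp b t r) := by
  rintro x ⟨z, hz⟩ w
  refine ⟨z + ∑ j : Fin t, b j * w j, ?_⟩
  push_cast
  rw [← hz]
  simp only [mul_add, sum_add_distrib]
  ring

theorem nullN_hyp (b : ℕ → ℤ) (hb : b 0 ≠ 0) (t : ℕ) : ∀ r : ℚ, NullN (t + 1) (hyp b (t + 1) r) := by
  induction t with
  | zero =>
    rintro r x ⟨z, hz⟩
    refine ⟨((z : ℚ) - r) / b 0, ?_⟩
    have hb' : (b 0 : ℝ) ≠ 0 := by exact_mod_cast hb
    rw [Fin.sum_univ_one] at hz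
    push_cast
    rw [eq_div_iff hb']
    simp only [Fin.val_zero] at hz
    linarith
  | succ t ih =>
    intro r
    refine ⟨fun β => ?_, fun q => ?_⟩
    · rw [hyp_slice]
      exact hyp_vol b hb t _
    · rw [hyp_slice]
      have := ih (b (t + 1) * q + r)
      push_cast at this
      exact this

/-- Sup over all real polynomials of degree at most `t` whose linear coefficient is a given rational combination of the higher coefficients, ordinary averages. -/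
theorem hyper (t : ℕ) (c : ℕ → ℚ) (ε : ℝ) (hε : 0 < ε) : ∃ H₀ : ℕ, ∀ H : ℕ, H₀ ≤ H → ∃ N₀ : ℕ, ∀ N : ℕ, N₀ ≤ N → ∀ P : ℕ → Polynomial ℝ,
    (∀ n, (P n).natDegree ≤ t ∧ (P n).coeff 1 = ∑ j ∈ Icc 2 t, (c j : ℝ) * (P n).coeff j) →
      ∑ n ∈ Icc 1 N, ‖∑ h ∈ Icc 1 H, (mu (n + h) : ℂ) * ex ((P n).eval (h : ℝ))‖ ≤ ε * H * N := by
  obtain ⟨D, hD, hDc⟩ : ∃ D : ℤ, D ≠ 0 ∧ ∀ j ∈ Icc 2 t, ∃ z : ℤ, (D : ℚ) * c j = z := by
    refine ⟨∏ j ∈ Icc 2 t, ((c j).den : ℤ), prod_ne_zero_iff.2 fun j _ => by exact_mod_cast (c j).den_nz, fun j hj => ?_⟩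
    refine ⟨(∏ i ∈ (Icc 2 t).erase j, ((c i).den : ℤ)) * (c j).num, ?_⟩
    rw [← prod_erase_mul _ _ hj]
    push_cast
    rw [mul_assoc, Rat.den_mul_eq_num]
  choose! w hw using hDc
  let b : ℕ → ℤ := fun j => if j = 0 then D else - w (j + 1)
  have hb0 : b 0 = D := by simp [b]
  obtain ⟨H₀, hH₀⟩ := part_n (t + 1) (by omega) (hyp b (t + 1) ((0 : ℚ) : ℝ)) (hyp_closed _ _ _) (hyp_per _ _ _)
    (nullN_hyp b (by rw [hb0]; exact hD) t 0) ε hε
  refine ⟨H₀, fun H hH => ?_⟩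
  obtain ⟨N₀, hN₀⟩ := hH₀ H hH
  refine ⟨N₀, fun N hN P hP => ?_⟩
  refine le_trans (le_of_eq ?_) (hN₀ N hN (fun n i => (P n).coeff ((i : ℕ) + 1)) ?_)
  · refine sum_congr rfl fun n _ => ?_
    have h1 : ∑ h ∈ Icc 1 H, (mu (n + h) : ℂ) * ex ((P n).eval (h : ℝ)) =
        ex ((P n).coeff 0) * ∑ h ∈ Icc 1 H, (mu (n + h) : ℂ) *
          ex (pol (fun i : Fin (t + 1) => (P n).coeff ((i : ℕ) + 1)) (h : ℝ)) := by
      rw [Finset.mul_sum]
      refine sum_congr rfl fun h _ => ?_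
      rw [noLin_eval t (P n) (hP n).1, ex_add]
      ring
    rw [h1, norm_mul, norm_ex, one_mul]
  · intro n
    refine ⟨0, ?_⟩
    rw [Fin.sum_univ_succ]
    simp only [Fin.val_zero, hb0, Fin.val_succ]
    have h1 : (P n).coeff (0 + 1) = ∑ j ∈ Icc 2 t, (c j : ℝ) * (P n).coeff j := (hP n).2
    have h2 : ∑ i : Fin t, (b ((i : ℕ) + 1) : ℝ) * (P n).coeff ((i : ℕ) + 1 + 1) = - ((D : ℝ) * ∑ j ∈ Icc 2 t, (c j : ℝ) * (P n).coeff j) := by
      rw [Fin.sum_univ_eq_sum_range (fun i => (b (i + 1) : ℝ) * (P n).coeff (i + 1 + 1)) t, mul_sum, ← sum_neg_distrib]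
      have h3 : Icc 2 t = Ico 2 (t + 1) := by ext; simp only [mem_Icc, mem_Ico]; omega
      have h4 : ∀ i ∈ range t, (b (i + 1) : ℝ) * (P n).coeff (i + 1 + 1) = if i + 2 ≤ t then - ((D : ℝ) * ((c (i + 2) : ℝ) * (P n).coeff (i + 2))) else 0 := by
        intro i hi
        split_ifs with h
        · have h5 := hw (i + 2) (by rw [mem_Icc]; omega)
          have h6 : (D : ℝ) * (c (i + 2) : ℝ) = (w (i + 2) : ℝ) := by exact_mod_cast h5
          have h7 : b (i + 1) = - w (i + 2) := by simp [b]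
          rw [h7, ← mul_assoc, h6]
          push_cast
          ring
        · have : (P n).coeff (i + 1 + 1) = 0 := Polynomial.coeff_eq_zero_of_natDegree_lt (by have := (hP n).1; omega)
          rw [this, mul_zero]
      rw [sum_congr rfl h4, ← sum_filter]
      refine sum_nbij' (fun i => i + 2) (fun j => j - 2) ?_ ?_ ?_ ?_ ?_
      · intro i hi
        simp only [mem_filter, mem_range] at hi
        rw [mem_Icc]; omega
      · intro j hj
        rw [mem_Icc] at hj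
        simp only [mem_filter, mem_range]
        omega
      · intro i _; simp
      · intro j hj
        rw [mem_Icc] at hj
        show j - 2 + 2 = j
        omega
      · intro i _; rfl
    rw [h1, h2]
    simp

end Pool.Agent.Lib.MP_3e612f_nt.NF
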