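import Pool.Agent.Lib.MP_3e612f_nt.NF.P.PairI

/-! Windows satisfying a condition with a set without rational numbers (paper v2, KM). -/

set_option autoImplicit false

namespace Pool.Agent.Lib.MP_3e612f_nt.NF

open Finset
open Pool.Agent.Lib.MP_3e612f_nt.MR (mu ex)

/-- finitely many positive numbers have a positive lower bound -/
theorem exists_pos_le_all {ι : Type} (s : Finset ι) (P : ι → ℝ → Prop) (hP : ∀ i ∈ s, ∃ e : ℝ, 0 < e ∧ P i e)
    (hm : ∀ i e e', e' ≤ e → P i e → P i e') : ∃ e : ℝ, 0 < e ∧ ∀ i ∈ s, P i e := by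
  classical
  induction s using Finset.induction_on with
  | empty => exact ⟨1, one_pos, fun i hi => absurd hi (notMem_empty i)⟩
  | insert a s ha ih =>
    obtain ⟨e, he, h1⟩ := ih fun i hi => hP i (mem_insert_of_mem hi)
    obtain ⟨e', he', h2⟩ := hP a (mem_insert_self a s)
    refine ⟨min e e', lt_min he he', fun i hi => ?_⟩
    rcases mem_insert.1 hi with rfl | hi
    · exact hm _ _ _ (min_le_right _ _) h2
    · exact hm _ _ _ (min_le_left _ _) (h1 i hi)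

/-- The distance of a closed 1-periodic set without rational numbers to the rational numbers with bounded denominator is positive. -/
theorem exists_dist_rat (C : Set ℝ) (hC : IsClosed C) (hp : Per1 C) (hq : ∀ q : ℚ, (q : ℝ) ∉ C) (R : ℕ) :
    ∃ ρ : ℝ, 0 < ρ ∧ ∀ r : ℕ, 1 ≤ r → r < R → ∀ b : ℤ, ∀ x ∈ C, ρ ≤ |x - b / r| := by
  obtain ⟨ρ, hρ, h1⟩ := exists_pos_le_all (range R ×ˢ range R)
    (fun p e => ∀ x ∈ C, e ≤ |x - (p.1 : ℝ) / (p.2 : ℝ)|) (by
      rintro ⟨b, r⟩ -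
      have h2 : ((b : ℝ) / (r : ℝ)) ∈ Cᶜ := by
        have := hq ((b : ℚ) / (r : ℚ))
        push_cast at this
        exact this
      obtain ⟨e, he, h3⟩ := Metric.isOpen_iff.1 hC.isOpen_compl _ h2
      refine ⟨e, he, fun x hx => ?_⟩
      by_contra hcon
      push Not at hcon
      exact h3 (by rw [Metric.mem_ball, Real.dist_eq]; exact hcon) hx)
    (fun p e e' hee h x hx => hee.trans (h x hx))
  refine ⟨ρ, hρ, fun r hr1 hr2 b x hx => ?_⟩
  have hr0 : (r : ℤ) ≠ 0 := by omega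
  have h2 : 0 ≤ b % (r : ℤ) := Int.emod_nonneg _ hr0
  have h3 : b % (r : ℤ) < r := Int.emod_lt_of_pos _ (by omega)
  obtain ⟨c, hc⟩ := Int.eq_ofNat_of_zero_le h2
  have h4 := h1 (c, r) (mem_product.2 ⟨mem_range.2 (by omega), mem_range.2 hr2⟩)
    (x + ((-(b / (r : ℤ)) : ℤ) : ℝ)) (hp x hx _)
  refine h4.trans (le_of_eq ?_)
  have h5 : (r : ℤ) * (b / (r : ℤ)) + c = b := by
    have := Int.mul_ediv_add_emod b (r : ℤ)
    rw [hc] at this
    exact this
  have h6 : (r : ℝ) * ((b / (r : ℤ) : ℤ) : ℝ) + (c : ℝ) = b := by exact_mod_cast h5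
  have h7 : (r : ℝ) ≠ 0 := by
    have : (1 : ℝ) ≤ r := by exact_mod_cast hr1
    linarith
  congr 1
  rw [← h6]
  push_cast
  field_simp
  ring

open scoped Classical in
/-- `windows_s` with `pair_level`: `R₀`; `C` is closed, 1-periodic and contains no rational number, so its distance to the rational numbers with denominator `< R₀` is at least `2ρ₀ > 0`; `δ ≤ ρ₀`. If no `n ∈ [1,N]` satisfies the condition the sum is 0; otherwise fix one, `n₀`, and put `o n = (true, α n)` if `n` satisfies it and `(false, α n₀)` if not.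
(`Icc 1 N`: outside of it use `(false, α n₀)` too.) -/
theorem km_log (t : ℕ) (i : Fin t) (C : Set ℝ) (hC : IsClosed C) (hp : Per1 C) (h0 : MeasureTheory.volume C = 0) (hq : ∀ q : ℚ, (q : ℝ) ∉ C) (Q : ℕ) (ε : ℝ) (hε : 0 < ε) :
    ∃ δ : ℝ, 0 < δ ∧ ∃ H₀ : ℕ, ∀ H : ℕ, H₀ ≤ H → ∃ N₀ : ℕ, ∀ N : ℕ, N₀ ≤ N → ∀ α : ℕ → Fin t → ℝ,
      ∑ n ∈ (Icc 1 N).filter (fun n => Cond ((i : ℕ) + 1) C Q δ H (α n)), 1 / (n : ℝ) * ‖∑ h ∈ Icc 1 H, (mu (n + h) : ℂ) * ex (pol (α n) (h : ℝ))‖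
        ≤ ε * H * Real.log N := by
  obtain ⟨R₀, hR⟩ := windows_s ((i : ℕ) + 1) (by omega)
    (fun (o : Bool × (Fin t → ℝ)) (n : ℕ) => if o.1 then ex (pol o.2 (n : ℝ)) else 0)
    (fun o n => by
      split_ifs
      · rw [norm_ex]
      · rw [norm_zero]
        exact zero_le_one)
    (fun o => o.2 i)
    (fun δ H o => ∃ q : ℕ, 1 ≤ q ∧ q ≤ Q ∧ ∀ j : Fin t, (i : ℕ) + 1 ≤ (j : ℕ) → dZ (q * o.2 j) ≤ δ / (H : ℝ) ^ ((j : ℕ) + 1 - ((i : ℕ) + 1)))
    (by
      rintro δ δ' hδ H o ⟨q, h1, h2, h3⟩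
      exact ⟨q, h1, h2, fun j hj => (h3 j hj).trans (div_le_div_of_nonneg_right hδ (by positivity))⟩)
    (pair_level t i Q) C hC hp h0 ε hε
  obtain ⟨ρ, hρ, hd⟩ := exists_dist_rat C hC hp hq R₀
  obtain ⟨δ, hδ, H₀, hH⟩ := hR (ρ / 2) (by positivity)
  refine ⟨min δ (ρ / 2), lt_min hδ (by positivity), H₀, fun H hHH => ?_⟩
  obtain ⟨N₀, hN⟩ := hH H hHH
  refine ⟨N₀, fun N hNN α => ?_⟩
  have hlog : 0 ≤ Real.log N := Real.log_natCast_nonneg N
  set P : ℕ → Prop := fun n => Cond ((i : ℕ) + 1) C Q (min δ (ρ / 2)) H (α n) with hPdef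
  by_cases hne : ∃ n₀, P n₀
  · obtain ⟨n₀, hn₀⟩ := hne
    have hgood : ∀ n, P n → (∃ q : ℕ, 1 ≤ q ∧ q ≤ Q ∧ ∀ j : Fin t, (i : ℕ) + 1 ≤ (j : ℕ) → dZ (q * α n j) ≤ δ / (H : ℝ) ^ ((j : ℕ) + 1 - ((i : ℕ) + 1))) ∧
        (∃ x ∈ C, |α n i - x| ≤ δ) ∧ (∀ r : ℕ, 1 ≤ r → r < R₀ → ∀ b : ℤ, ρ / 2 ≤ |α n i - b / r|) := by
      rintro n ⟨⟨q, h1, h2, h3⟩, h4⟩
      obtain ⟨y, hy, h5⟩ := h4 i rfl
      refine ⟨⟨q, h1, h2, fun j hj => (h3 j hj).trans
        (div_le_div_of_nonneg_right (min_le_left _ _) (by positivity))⟩,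
        ⟨y, hy, h5.trans (min_le_left _ _)⟩, fun r hr1 hr2 b => ?_⟩
      have h6 := hd r hr1 hr2 b y hy
      have h7 := h5.trans (min_le_right _ _)
      have h8 : |y - b / r| ≤ |α n i - b / r| + |α n i - y| := by
        have h9 : y - b / r = (α n i - b / r) - (α n i - y) := by ring
        rw [h9]
        exact abs_sub _ _
      linarith
    have hmain := hN N hNN (fun n => if P n then (true, α n) else (false, α n₀)) (fun n => by
      by_cases h : P n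
      · rw [if_pos h]
        exact hgood n h
      · rw [if_neg h]
        exact hgood n₀ hn₀)
    refine le_trans ?_ hmain
    rw [sum_filter]
    refine sum_le_sum fun n _ => ?_
    by_cases h : P n
    · rw [if_pos h, if_pos h]
      simp only [if_true]
      exact le_refl _
    · rw [if_neg h]
      exact mul_nonneg (by positivity) (norm_nonneg _)
  · rw [filter_false_of_mem fun n _ hn => hne ⟨n, hn⟩, sum_empty]
    positivity

end Pool.Agent.Lib.MP_3e612f_nt.NF
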