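import Pool.Agent.Lib.MP_3e612f_nt.NF.O.MainSO
import Pool.Agent.Lib.MP_3e612f_nt.NF.P.KmLog

/-! Level sets without rational numbers, ordinary averages. -/

set_option autoImplicit false

namespace Pool.Agent.Lib.MP_3e612f_nt.NF

open Finset
open Pool.Agent.Lib.MP_3e612f_nt.MR (mu ex)

open scoped Classical in
/-- As `km_log` (P/KmLog) with `windows_so`. -/
theorem km_log_o (t : ℕ) (i : Fin t) (C : Set ℝ) (hC : IsClosed C) (hp : Per1 C) (h0 : MeasureTheory.volume C = 0) (hq : ∀ q : ℚ, (q : ℝ) ∉ C) (Q : ℕ) (ε : ℝ) (hε : 0 < ε) :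
    ∃ δ : ℝ, 0 < δ ∧ ∃ H₀ : ℕ, ∀ H : ℕ, H₀ ≤ H → ∃ N₀ : ℕ, ∀ N : ℕ, N₀ ≤ N → ∀ α : ℕ → Fin t → ℝ,
      ∑ n ∈ (Icc 1 N).filter (fun n => Cond ((i : ℕ) + 1) C Q δ H (α n)), ‖∑ h ∈ Icc 1 H, (mu (n + h) : ℂ) * ex (pol (α n) (h : ℝ))‖
        ≤ ε * H * N := by
  obtain ⟨R₀, hR⟩ := windows_so ((i : ℕ) + 1) (by omega)
    (fun (o : Bool × (Fin t → ℝ)) (n : ℕ) => if o.1 then ex (pol o.2 (n : ℝ)) else 0)
    (fun o n => by
      split_ifs
      · rw [norm_ex]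
      · rw [norm_zero]
        exact zero_le_one)
    (fun o => o.2 i)
    (fun δ H o => ∃ q : ℕ, 1 ≤ q ∧ q ≤ Q ∧ ∀ j : Fin t, (i : ℕ) + 1 ≤ (j : ℕ) → dZ (q * o.2 j) ≤ δ / (H : ℝ) ^ ((j : ℕ) + 1 - ((i : ℕ) + 1)))
    (by
      rintro δ δ' hδ H o ⟨q, h1, h2, h3⟩
      exact ⟨q, h1, h2, fun j hj => (h3 j hj).trans (div_le_div_of_nonneg_right hδ (by positivity))⟩)
    (pair_level t i Q) C hC hp h0 ε hε
  obtain ⟨ρ, hρ, hd⟩ := exists_dist_rat C hC hp hq R₀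
  obtain ⟨δ, hδ, H₀, hH⟩ := hR (ρ / 2) (by positivity)
  refine ⟨min δ (ρ / 2), lt_min hδ (by positivity), H₀, fun H hHH => ?_⟩
  obtain ⟨N₀, hN⟩ := hH H hHH
  refine ⟨N₀, fun N hNN α => ?_⟩
  set P : ℕ → Prop := fun n => Cond ((i : ℕ) + 1) C Q (min δ (ρ / 2)) H (α n) with hPdef
  by_cases hne : ∃ n₀, P n₀
  · obtain ⟨n₀, hn₀⟩ := hne
    have hgood : ∀ n, P n → (∃ q : ℕ, 1 ≤ q ∧ q ≤ Q ∧ ∀ j : Fin t, (i : ℕ) + 1 ≤ (j : ℕ) → dZ (q * α n j) ≤ δ / (H : ℝ) ^ ((j : ℕ) + 1 - ((i : ℕ) + 1))) ∧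
        (∃ x ∈ C, |α n i - x| ≤ δ) ∧ (∀ r : ℕ, 1 ≤ r → r < R₀ → ∀ b : ℤ, ρ / 2 ≤ |α n i - b / r|) := by
      rintro n ⟨⟨q, h1, h2, h3⟩, h4⟩
      obtain ⟨y, hy, h5⟩ := h4 i rfl
      refine ⟨⟨q, h1, h2, fun j hj => (h3 j hj).trans
        (div_le_div_of_nonneg_right (min_le_left _ _) (by positivity))⟩,
        ⟨y, hy, h5.trans (min_le_left _ _)⟩, fun r hr1 hr2 b => ?_⟩
      have h6 := hd r hr1 hr2 b y hy
      have h7 := h5.trans (min_le_right _ _)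
      have h8 : |y - b / r| ≤ |α n i - b / r| + |α n i - y| := by
        have h9 : y - b / r = (α n i - b / r) - (α n i - y) := by ring
        rw [h9]
        exact abs_sub _ _
      linarith
    have hmain := hN N hNN (fun n => if P n then (true, α n) else (false, α n₀)) (fun n => by
      by_cases h : P n
      · rw [if_pos h]
        exact hgood n h
      · rw [if_neg h]
        exact hgood n₀ hn₀)
    refine le_trans ?_ hmain
    rw [sum_filter]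
    refine sum_le_sum fun n _ => ?_
    by_cases h : P n
    · rw [if_pos h, if_pos h]
      simp only [if_true]
      exact le_refl _
    · rw [if_neg h]
      exact norm_nonneg _
  · rw [filter_false_of_mem fun n _ hn => hne ⟨n, hn⟩, sum_empty]
    positivity

end Pool.Agent.Lib.MP_3e612f_nt.NF
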