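import Pool.Agent.Lib.MP_3e612f_nt.NF.Base

/-! From ordinary to logarithmic averages (paper v2). -/

set_option autoImplicit false

namespace Pool.Agent.Lib.MP_3e612f_nt.NF

open Finset
open Pool.Agent.Lib.MP_3e612f_nt.MR (mu ex)

private theorem lc_bound (ε H : ℝ) (hε : 0 < ε) (hH : 1 ≤ H) (N₀ : ℕ) (b : ℕ → ℝ)
    (hb : ∀ n, 0 ≤ b n ∧ b n ≤ H)
    (hx : ∀ x : ℕ, N₀ ≤ x → ∑ n ∈ range x, b n ≤ ε * H * x) (x : ℕ) :
    ∑ n ∈ range x, b n ≤ ε * H * x + H * N₀ := by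
  have hH0 : 0 ≤ H := by linarith
  rcases le_total N₀ x with h | h
  · have h1 := hx x h
    have : 0 ≤ H * (N₀ : ℝ) := by positivity
    linarith
  · have h1 : ∑ n ∈ range x, b n ≤ ∑ n ∈ range x, H := Finset.sum_le_sum fun n _ => (hb n).2
    have h2 : ∑ n ∈ range x, H = H * x := by
      rw [Finset.sum_const, card_range, nsmul_eq_mul, mul_comm]
    have h3 : H * (x : ℝ) ≤ H * N₀ := mul_le_mul_of_nonneg_left (by exact_mod_cast h) hH0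
    have h4 : 0 ≤ ε * H * (x : ℝ) := by positivity
    linarith

private theorem lc_ind (ε H : ℝ) (hε : 0 < ε) (hH : 1 ≤ H) (N₀ : ℕ) (b : ℕ → ℝ)
    (hb : ∀ n, 0 ≤ b n ∧ b n ≤ H)
    (hx : ∀ x : ℕ, N₀ ≤ x → ∑ n ∈ range x, b n ≤ ε * H * x) (N : ℕ) :
    ∑ n ∈ Icc 1 N, 1 / (n : ℝ) * b n ≤ (∑ n ∈ range (N + 1), b n) / (N + 1)
      + ε * H * ∑ n ∈ Icc 1 N, 1 / (n : ℝ) + H * N₀ * (1 - 1 / ((N : ℝ) + 1)) := by
  induction N with
  | zero =>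
    have := (hb 0).1
    simpa using this
  | succ N ih =>
    rw [Finset.sum_Icc_succ_top (by omega), Finset.sum_Icc_succ_top (by omega),
      Finset.sum_range_succ _ (N + 1)]
    have hS := lc_bound ε H hε hH N₀ b hb hx (N + 2)
    rw [Finset.sum_range_succ _ (N + 1)] at hS
    set S : ℝ := ∑ n ∈ range (N + 1), b n with hSdef
    set F : ℝ := ∑ n ∈ Icc 1 N, 1 / (n : ℝ) * b n
    set h : ℝ := ∑ n ∈ Icc 1 N, 1 / (n : ℝ)
    have hN : (0 : ℝ) < (N : ℝ) + 1 := by positivity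
    have hN2 : (0 : ℝ) < (N : ℝ) + 1 + 1 := by positivity
    push_cast at hS ⊢
    have e1 : (S + b (N + 1)) / ((N : ℝ) + 1 + 1) + (S + b (N + 1)) / (((N : ℝ) + 1) * ((N : ℝ) + 1 + 1))
        = S / ((N : ℝ) + 1) + 1 / ((N : ℝ) + 1) * b (N + 1) := by
      field_simp
    have e2 : (S + b (N + 1)) / (((N : ℝ) + 1) * ((N : ℝ) + 1 + 1))
        ≤ (ε * H * ((N : ℝ) + 1 + 1) + H * N₀) / (((N : ℝ) + 1) * ((N : ℝ) + 1 + 1)) := by
      apply div_le_div_of_nonneg_right _ (by positivity)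
      have : (N : ℝ) + 1 + 1 = (N : ℝ) + 2 := by ring
      rw [this]
      exact hS
    have e3 : (ε * H * ((N : ℝ) + 1 + 1) + H * N₀) / (((N : ℝ) + 1) * ((N : ℝ) + 1 + 1))
        = ε * H * (1 / ((N : ℝ) + 1)) + H * N₀ * (1 / ((N : ℝ) + 1) - 1 / ((N : ℝ) + 1 + 1)) := by
      field_simp
      ring
    have e4 : ε * H * (h + 1 / ((N : ℝ) + 1)) = ε * H * h + ε * H * (1 / ((N : ℝ) + 1)) := by ring
    have e5 : H * N₀ * (1 - 1 / ((N : ℝ) + 1 + 1)) = H * N₀ * (1 - 1 / ((N : ℝ) + 1))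
        + H * N₀ * (1 / ((N : ℝ) + 1) - 1 / ((N : ℝ) + 1 + 1)) := by ring
    rw [e4, e5]
    linarith

/-- Partial summation: `∑_{n≤N} b_n/n = S(N+1)/N + ∑_{n<N} S(n+1)(1/n - 1/(n+1)) ` with `S(x) = ∑_{n<x} b_n ≤ H N₀ + ε H x`. -/
theorem log_of_ces (ε H : ℝ) (hε : 0 < ε) (hH : 1 ≤ H) (N₀ : ℕ) : ∃ N₁ : ℕ, ∀ N : ℕ, N₁ ≤ N → ∀ b : ℕ → ℝ, (∀ n, 0 ≤ b n ∧ b n ≤ H) →
    (∀ x : ℕ, N₀ ≤ x → ∑ n ∈ range x, b n ≤ ε * H * x) → ∑ n ∈ Icc 1 N, 1 / (n : ℝ) * b n ≤ 4 * ε * H * Real.log N := by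
  refine ⟨⌈Real.exp ((3 * ε + 2 * N₀) / (3 * ε))⌉₊ + 1, fun N hN b hb hx => ?_⟩
  have hH0 : 0 < H := by linarith
  have hN1 : Real.exp ((3 * ε + 2 * N₀) / (3 * ε)) ≤ N := by
    refine (Nat.le_ceil _).trans ?_
    exact_mod_cast (by omega : ⌈Real.exp ((3 * ε + 2 * N₀) / (3 * ε))⌉₊ ≤ N)
  have hNpos : (0 : ℝ) < N := lt_of_lt_of_le (Real.exp_pos _) hN1
  have hlog : (3 * ε + 2 * N₀) / (3 * ε) ≤ Real.log N := by
    rw [Real.le_log_iff_exp_le hNpos]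
    exact hN1
  have hlog2 : 3 * ε + 2 * N₀ ≤ Real.log N * (3 * ε) := by
    rwa [div_le_iff₀ (by positivity)] at hlog
  have h1 := lc_ind ε H hε hH N₀ b hb hx N
  have h2 := lc_bound ε H hε hH N₀ b hb hx (N + 1)
  have h3 : (∑ n ∈ range (N + 1), b n) / ((N : ℝ) + 1) ≤ ε * H + H * N₀ := by
    rw [div_le_iff₀ (by positivity)]
    push_cast at h2
    have : 0 ≤ H * (N₀ : ℝ) * N := by positivity
    nlinarith
  have h4 : ∑ n ∈ Icc 1 N, 1 / (n : ℝ) ≤ 1 + Real.log N := by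
    have := harmonic_le_one_add_log N
    rw [harmonic_eq_sum_Icc] at this
    push_cast at this
    simpa [one_div] using this
  have h5 : ε * H * ∑ n ∈ Icc 1 N, 1 / (n : ℝ) ≤ ε * H * (1 + Real.log N) :=
    mul_le_mul_of_nonneg_left h4 (by positivity)
  have h6 : H * N₀ * (1 - 1 / ((N : ℝ) + 1)) ≤ H * N₀ := by
    have h7 : 0 ≤ 1 / ((N : ℝ) + 1) := by positivity
    have h8 : 0 ≤ H * (N₀ : ℝ) := by positivity
    nlinarith
  have h9 : H * (3 * ε + 2 * N₀) ≤ H * (Real.log N * (3 * ε)) := mul_le_mul_of_nonneg_left hlog2 hH0.le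
  nlinarith

end Pool.Agent.Lib.MP_3e612f_nt.NF
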