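import Pool.Agent.Lib.MP_3e612f_nt.NF.P.WeylV
import Pool.Agent.Lib.MP_3e612f_nt.NF.K.MainS

/-! The hypothesis on pairs at a given level (paper v2, KM). -/

set_option autoImplicit false

namespace Pool.Agent.Lib.MP_3e612f_nt.NF

open Finset
open Pool.Agent.Lib.MP_3e612f_nt.MR (mu ex)

theorem pl_dZ_sum {ι : Type} (s : Finset ι) (f : ι → ℝ) : dZ (∑ i ∈ s, f i) ≤ ∑ i ∈ s, dZ (f i) := by
  classical
  induction s using Finset.induction_on with
  | empty =>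
    simp only [sum_empty]
    have := dZ_int 0
    simp only [Int.cast_zero] at this
    rw [this]
  | insert a s ha ih =>
    rw [sum_insert ha, sum_insert ha]
    exact (dZ_add_le _ _).trans (by linarith)

theorem pl_sh_eq {t : ℕ} (i : Fin t) (α : Fin t → ℝ) (s : ℝ) :
    sh s α i - α i = ∑ j : Fin t, if (i : ℕ) < (j : ℕ) then (Nat.choose ((j : ℕ) + 1) ((i : ℕ) + 1) : ℝ) * s ^ ((j : ℕ) - (i : ℕ)) * α j else 0 := by
  have h1 : α i = ∑ j : Fin t, if j = i then α i else 0 := by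
    rw [Finset.sum_ite_eq' univ i (fun _ => α i), if_pos (mem_univ i)]
  unfold sh
  conv_lhs => rw [h1]
  rw [← sum_sub_distrib]
  refine sum_congr rfl fun j _ => ?_
  rcases lt_trichotomy (i : ℕ) (j : ℕ) with h | h | h
  · have hne : j ≠ i := by
      rintro rfl
      exact absurd h (lt_irrefl _)
    rw [if_pos h, if_neg hne, sub_zero]
  · have he : j = i := Fin.ext h.symm
    subst he
    rw [if_pos rfl, if_neg (lt_irrefl _)]
    simp
  · have hne : j ≠ i := by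
      rintro rfl
      exact absurd h (lt_irrefl _)
    rw [if_neg hne, if_neg (by omega), Nat.choose_eq_zero_of_lt (by omega)]
    simp

theorem pl_sh {t : ℕ} (i : Fin t) (α : Fin t → ℝ) (s H q : ℕ) (hs : s ≤ H) (hH : 1 ≤ H) (δ : ℝ) (hδ : 0 ≤ δ)
    (h : ∀ j : Fin t, (i : ℕ) + 1 ≤ (j : ℕ) → dZ (q * α j) ≤ δ / (H : ℝ) ^ ((j : ℕ) + 1 - ((i : ℕ) + 1))) :
    dZ (q * (sh (s : ℝ) α i - α i)) ≤ t * 2 ^ t * δ := by
  have hH0 : (0 : ℝ) < H := by exact_mod_cast hH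
  rw [pl_sh_eq, mul_sum]
  refine (pl_dZ_sum _ _).trans ?_
  have h1 : ∀ j ∈ (univ : Finset (Fin t)), dZ ((q : ℝ) * if (i : ℕ) < (j : ℕ) then (Nat.choose ((j : ℕ) + 1) ((i : ℕ) + 1) : ℝ) * (s : ℝ) ^ ((j : ℕ) - (i : ℕ)) * α j else 0) ≤ 2 ^ t * δ := by
    intro j _
    by_cases hij : (i : ℕ) < (j : ℕ)
    · rw [if_pos hij]
      have h2 : (q : ℝ) * ((Nat.choose ((j : ℕ) + 1) ((i : ℕ) + 1) : ℝ) * (s : ℝ) ^ ((j : ℕ) - (i : ℕ)) * α j) =
          ((Nat.choose ((j : ℕ) + 1) ((i : ℕ) + 1) * s ^ ((j : ℕ) - (i : ℕ)) : ℕ) : ℝ) * (q * α j) := by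
        push_cast
        ring
      rw [h2]
      refine (dZ_nat_mul_le _ _).trans ?_
      have h3 := h j hij
      have h4 : (j : ℕ) + 1 - ((i : ℕ) + 1) = (j : ℕ) - (i : ℕ) := by omega
      rw [h4] at h3
      have h5 : ((Nat.choose ((j : ℕ) + 1) ((i : ℕ) + 1) : ℕ) : ℝ) ≤ 2 ^ t := by
        have h6 : Nat.choose ((j : ℕ) + 1) ((i : ℕ) + 1) ≤ 2 ^ t :=
          (Nat.choose_le_two_pow _ _).trans (Nat.pow_le_pow_right (by norm_num) (by omega))
        exact_mod_cast h6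
      have h6 : (s : ℝ) ^ ((j : ℕ) - (i : ℕ)) ≤ (H : ℝ) ^ ((j : ℕ) - (i : ℕ)) :=
        pow_le_pow_left₀ (by positivity) (by exact_mod_cast hs) _
      have h7 : (0 : ℝ) < (H : ℝ) ^ ((j : ℕ) - (i : ℕ)) := by positivity
      push_cast
      calc ((Nat.choose ((j : ℕ) + 1) ((i : ℕ) + 1) : ℕ) : ℝ) * (s : ℝ) ^ ((j : ℕ) - (i : ℕ)) * dZ (q * α j)
          ≤ 2 ^ t * (H : ℝ) ^ ((j : ℕ) - (i : ℕ)) * (δ / (H : ℝ) ^ ((j : ℕ) - (i : ℕ))) := by
            apply mul_le_mul _ h3 (dZ_nonneg _) (by positivity)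
            exact mul_le_mul h5 h6 (by positivity) (by positivity)
        _ = 2 ^ t * δ := by
            field_simp
    · rw [if_neg hij, mul_zero]
      have h2 := dZ_int 0
      simp only [Int.cast_zero] at h2
      rw [h2]
      positivity
  refine (sum_le_card_nsmul _ _ _ h1).trans (le_of_eq ?_)
  rw [card_univ, Fintype.card_fin, nsmul_eq_mul]
  ring

theorem pl_pol {t : ℕ} (α : Fin t → ℝ) (s p j : ℕ) :
    pol α ((s + p * j : ℕ) : ℝ) = pol α (s : ℝ) + ∑ l : Fin t, ((p : ℝ) ^ ((l : ℕ) + 1) * sh (s : ℝ) α l) * (j : ℝ) ^ ((l : ℕ) + 1) := by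
  have h1 : ((s + p * j : ℕ) : ℝ) = (p : ℝ) * j + s := by
    push_cast
    ring
  rw [h1, pol_add]
  congr 1
  unfold pol
  refine sum_congr rfl fun l _ => ?_
  rw [mul_pow]
  ring

/-- Level `i + 1`. If one of the two is switched off the sum is 0. Otherwise `pol α (s + pj) - pol α' (s' + qj) = const + pol γ j`, `γ_l = p^(l+1) (sh s α)_l - q^(l+1) (sh s' α')_l` (`pol_add`); `weyl_all`: `k ≤ K`, `dZ (k γ_i) ≤ K/J^(i+1) ≤ K/(lam H)^(i+1)`. `(sh s α)_i = α_i + ∑_{j>i} choose s^(j-i) α_j` and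
`dZ (q₀ ·)` of the sum is at most `t 2^t δ` (`s ≤ H`). So `dZ (k q₀ q₀' (p^(i+1) α_i - q^(i+1) α'_i)) ≤ Q² K/(lam H)^(i+1) + K Q² X^(i+1) t 2^(t+1) δ ≤ τ`. `B = K Q²`. -/
theorem pair_level (t : ℕ) (i : Fin t) (Q : ℕ) :
    PairHypS ((i : ℕ) + 1) (fun (o : Bool × (Fin t → ℝ)) (n : ℕ) => if o.1 then ex (pol o.2 (n : ℝ)) else 0) (fun o => o.2 i)
      (fun δ H o => ∃ q : ℕ, 1 ≤ q ∧ q ≤ Q ∧ ∀ j : Fin t, (i : ℕ) + 1 ≤ (j : ℕ) → dZ (q * o.2 j) ≤ δ / (H : ℝ) ^ ((j : ℕ) + 1 - ((i : ℕ) + 1))) := by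
  intro κ hκ
  have ht : 1 ≤ t := by have := i.2; omega
  obtain ⟨K, hK1, hK⟩ := weyl_all t ht κ hκ
  refine ⟨K * (Q * Q), ?_⟩
  intro X lam τ hlam hτ
  set M : ℝ := 2 * (K * (Q * (X ^ t * (t * 2 ^ t)))) + 1 with hM
  have hM0 : 0 < M := by positivity
  obtain ⟨H₁, hH₁⟩ := exists_nat_ge (1 / lam)
  obtain ⟨H₂, hH₂⟩ := exists_nat_ge (2 * (Q * (Q * K)) / (lam * τ))
  refine ⟨τ / (2 * M), by positivity, max 1 (max H₁ H₂), ?_⟩
  intro H hH p q J hp1 hpX hq1 hqX hJ o o' s s' hA hA' hs hs' hsum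
  have hH1 : 1 ≤ H := (le_max_left _ _).trans hH
  have hHH1 : H₁ ≤ H := ((le_max_left _ _).trans (le_max_right _ _)).trans hH
  have hHH2 : H₂ ≤ H := ((le_max_right _ _).trans (le_max_right _ _)).trans hH
  have hH0 : (0 : ℝ) < H := by exact_mod_cast hH1
  have hlamH : 1 ≤ lam * H := by
    have h1 : 1 / lam ≤ H := hH₁.trans (by exact_mod_cast hHH1)
    rw [div_le_iff₀ hlam] at h1
    linarith
  have hJ1 : (1 : ℝ) ≤ J := hlamH.trans hJ
  have hJ1' : 1 ≤ J := by exact_mod_cast hJ1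
  obtain ⟨b, α⟩ := o
  obtain ⟨b', α'⟩ := o'
  obtain ⟨q₀, hq₀1, hq₀Q, hq₀⟩ := hA
  obtain ⟨q₀', hq₀1', hq₀Q', hq₀'⟩ := hA'
  simp only at hsum hq₀ hq₀' ⊢
  have hκJ : 0 < κ * J := by positivity
  cases b with
  | false =>
    exfalso
    simp at hsum
    linarith
  | true =>
    cases b' with
    | false =>
      exfalso
      simp at hsum
      linarith
    | true =>
      set γ : Fin t → ℝ := fun l => (p : ℝ) ^ ((l : ℕ) + 1) * sh (s : ℝ) α l - (q : ℝ) ^ ((l : ℕ) + 1) * sh (s' : ℝ) α' l with hγ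
      have hs1 : ∑ j ∈ range J, (if (true : Bool) then ex (pol α ((s + p * j : ℕ) : ℝ)) else 0) *
          (starRingEnd ℂ) (if (true : Bool) then ex (pol α' ((s' + q * j : ℕ) : ℝ)) else 0) =
          ∑ j ∈ range J, ex (pol γ (j : ℝ) + (pol α (s : ℝ) - pol α' (s' : ℝ))) := by
        refine sum_congr rfl fun j _ => ?_
        simp only [if_true]
        rw [← ex_sub, pl_pol, pl_pol]
        congr 1
        unfold pol
        simp only [hγ, sub_mul]
        rw [sum_sub_distrib]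
        ring
      have hsum' : κ * J ≤ ‖∑ j ∈ range J, ex (pol γ (j : ℝ) + (pol α (s : ℝ) - pol α' (s' : ℝ)))‖ := by
        rw [← hs1]
        exact hsum
      obtain ⟨k, hk1, hkK, hk⟩ := hK J hJ1' γ _ hsum'
      refine ⟨k * (q₀ * q₀'), ?_, ?_, ?_⟩
      · exact Nat.one_le_iff_ne_zero.mpr (by positivity)
      · exact Nat.mul_le_mul hkK (Nat.mul_le_mul hq₀Q hq₀Q')
      · have h1 := pl_sh i α s H q₀ (by omega) hH1 (τ / (2 * M)) (by positivity) hq₀
        have h2 := pl_sh i α' s' H q₀' (by omega) hH1 (τ / (2 * M)) (by positivity) hq₀'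
        have h3 := hk i
        have hid : ((k * (q₀ * q₀') : ℕ) : ℝ) * ((p : ℝ) ^ ((i : ℕ) + 1) * α i - (q : ℝ) ^ ((i : ℕ) + 1) * α' i) =
            ((q₀ * q₀' : ℕ) : ℝ) * (k * γ i) - ((k * q₀' * p ^ ((i : ℕ) + 1) : ℕ) : ℝ) * (q₀ * (sh (s : ℝ) α i - α i)) +
              ((k * q₀ * q ^ ((i : ℕ) + 1) : ℕ) : ℝ) * (q₀' * (sh (s' : ℝ) α' i - α' i)) := by
          simp only [hγ]
          push_cast
          ring
        rw [hid]
        have hb1 : dZ (((q₀ * q₀' : ℕ) : ℝ) * (k * γ i)) ≤ (Q * Q) * (K / (lam * H)) := by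
          refine (dZ_nat_mul_le _ _).trans ?_
          have h4 : (K : ℝ) / (J : ℝ) ^ ((i : ℕ) + 1) ≤ K / (lam * H) := by
            apply div_le_div_of_nonneg_left (by positivity) (by positivity)
            calc lam * H ≤ J := hJ
              _ = (J : ℝ) ^ 1 := (pow_one _).symm
              _ ≤ (J : ℝ) ^ ((i : ℕ) + 1) := pow_le_pow_right₀ hJ1 (by omega)
          have h5 : ((q₀ * q₀' : ℕ) : ℝ) ≤ Q * Q := by
            exact_mod_cast Nat.mul_le_mul hq₀Q hq₀Q'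
          exact mul_le_mul h5 (h3.trans h4) (dZ_nonneg _) (by positivity)
        have hpow : ∀ p : ℕ, 1 ≤ p → p ≤ X → (p : ℝ) ^ ((i : ℕ) + 1) ≤ (X : ℝ) ^ t := by
          intro p hp hpX
          have hX1 : (1 : ℝ) ≤ X := by exact_mod_cast hp.trans hpX
          calc (p : ℝ) ^ ((i : ℕ) + 1) ≤ (X : ℝ) ^ ((i : ℕ) + 1) := pow_le_pow_left₀ (by positivity) (by exact_mod_cast hpX) _
            _ ≤ (X : ℝ) ^ t := pow_le_pow_right₀ hX1 (by have := i.2; omega)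
        have hgen : ∀ (a p : ℕ) (x : ℝ), 1 ≤ p → p ≤ X → a ≤ Q → dZ x ≤ t * 2 ^ t * (τ / (2 * M)) →
            dZ (((k * a * p ^ ((i : ℕ) + 1) : ℕ) : ℝ) * x) ≤ K * (Q * (X ^ t * (t * 2 ^ t))) * (τ / (2 * M)) := by
          intro a p x hp hpX ha hx
          refine (dZ_nat_mul_le _ _).trans ?_
          push_cast
          have h4 := hpow p hp hpX
          have h5 : (k : ℝ) ≤ K := by exact_mod_cast hkK
          have h6 : (a : ℝ) ≤ Q := by exact_mod_cast ha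
          calc (k : ℝ) * a * (p : ℝ) ^ ((i : ℕ) + 1) * dZ x ≤ (K * Q * (X : ℝ) ^ t) * (t * 2 ^ t * (τ / (2 * M))) := by
                apply mul_le_mul _ hx (dZ_nonneg _) (by positivity)
                apply mul_le_mul _ h4 (by positivity) (by positivity)
                exact mul_le_mul h5 h6 (by positivity) (by positivity)
            _ = K * (Q * (X ^ t * (t * 2 ^ t))) * (τ / (2 * M)) := by ring
        have hb2 := hgen q₀' p _ hp1 hpX hq₀Q' h1
        have hb3 := hgen q₀ q _ hq1 hqX hq₀Q h2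
        have h7 := dZ_add_le (((q₀ * q₀' : ℕ) : ℝ) * (k * γ i) - ((k * q₀' * p ^ ((i : ℕ) + 1) : ℕ) : ℝ) * (q₀ * (sh (s : ℝ) α i - α i)))
          (((k * q₀ * q ^ ((i : ℕ) + 1) : ℕ) : ℝ) * (q₀' * (sh (s' : ℝ) α' i - α' i)))
        have h8 := dZ_sub_le (((q₀ * q₀' : ℕ) : ℝ) * (k * γ i)) (((k * q₀' * p ^ ((i : ℕ) + 1) : ℕ) : ℝ) * (q₀ * (sh (s : ℝ) α i - α i)))
        have h9 : (Q * Q) * (K / (lam * H)) ≤ τ / 2 := by
          have h10 : 2 * (Q * (Q * K)) / (lam * τ) ≤ (H : ℝ) := hH₂.trans (by exact_mod_cast hHH2)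
          rw [div_le_iff₀ (by positivity)] at h10
          have h11 : (Q * Q : ℝ) * (K / (lam * H)) = (Q * (Q * K)) / (lam * H) := by ring
          rw [h11, div_le_iff₀ (by positivity)]
          nlinarith
        have h12 : K * (Q * (X ^ t * (t * 2 ^ t))) * (τ / (2 * M)) ≤ τ / 4 := by
          have h13 : (K * (Q * (X ^ t * (t * 2 ^ t))) : ℝ) ≤ M / 2 := by
            rw [hM]
            linarith
          calc K * (Q * (X ^ t * (t * 2 ^ t))) * (τ / (2 * M)) ≤ M / 2 * (τ / (2 * M)) :=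
                mul_le_mul_of_nonneg_right h13 (by positivity)
            _ = τ / 4 := by
                field_simp
                norm_num
        linarith

end Pool.Agent.Lib.MP_3e612f_nt.NF
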