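import Pool.Agent.Lib.MP_3e612f_nt.NF.P.KmRat
import Pool.Agent.Lib.MP_3e612f_nt.NF.P.LogCes
import Pool.Agent.Lib.MP_3e612f_nt.NF.P.PairI

/-! Windows satisfying a condition at level 1 (paper v2, KM). -/

set_option autoImplicit false

namespace Pool.Agent.Lib.MP_3e612f_nt.NF

open Finset
open Pool.Agent.Lib.MP_3e612f_nt.MR (mu ex)

theorem KmOne_norm_mu (n : ℕ) : ‖(mu n : ℂ)‖ ≤ 1 := by
  unfold mu
  rw [Complex.norm_real, Real.norm_eq_abs, ← Int.cast_abs]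
  exact_mod_cast ArithmeticFunction.abs_moebius_le_one

theorem KmOne_window {t : ℕ} (α : Fin t → ℝ) (n H : ℕ) : ‖∑ h ∈ Icc 1 H, (mu (n + h) : ℂ) * ex (pol α (h : ℝ))‖ ≤ H := by
  refine (norm_sum_le _ _).trans ?_
  have h1 : ∀ h ∈ Icc 1 H, ‖(mu (n + h) : ℂ) * ex (pol α (h : ℝ))‖ ≤ 1 := by
    intro h _
    rw [norm_mul, norm_ex, mul_one]
    exact KmOne_norm_mu _
  refine (sum_le_sum h1).trans ?_
  simp

open scoped Classical in
/-- `windows_s` with `pair_level` (`i = 0`), `ε/2`: `R₀`. `km_rat` with `Q`, `R = R₀` and `ε/8`: `ρ`. `windows_s` with `ρ₀ = ρ`: `δ`. The `n` satisfying the condition are of two kinds: `α_0` within `ρ` of a rational number with denominator `< R₀`: `RatC`, `km_rat` and `log_of_ces` (the bound of `km_rat` holds for all `x ≥ N₀` with the same `α`);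
the others: as in `km_log`. -/
theorem km_one (t : ℕ) (i : Fin t) (hi : (i : ℕ) = 0) (C : Set ℝ) (hC : IsClosed C) (hp : Per1 C) (h0 : MeasureTheory.volume C = 0) (Q : ℕ) (ε : ℝ) (hε : 0 < ε) :
    ∃ δ : ℝ, 0 < δ ∧ ∃ H₀ : ℕ, ∀ H : ℕ, H₀ ≤ H → ∃ N₀ : ℕ, ∀ N : ℕ, N₀ ≤ N → ∀ α : ℕ → Fin t → ℝ,
      ∑ n ∈ (Icc 1 N).filter (fun n => Cond 1 C Q δ H (α n)), 1 / (n : ℝ) * ‖∑ h ∈ Icc 1 H, (mu (n + h) : ℂ) * ex (pol (α n) (h : ℝ))‖
        ≤ ε * H * Real.log N := by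
  have hf1 : ∀ (o : Bool × (Fin t → ℝ)) (n : ℕ), ‖(fun (o : Bool × (Fin t → ℝ)) (n : ℕ) => if o.1 then ex (pol o.2 (n : ℝ)) else 0) o n‖ ≤ 1 := by
    intro o n
    dsimp only
    split_ifs
    · exact (norm_ex _).le
    · simp
  obtain ⟨R₀, hR⟩ := windows_s ((i : ℕ) + 1) (by omega) (fun (o : Bool × (Fin t → ℝ)) (n : ℕ) => if o.1 then ex (pol o.2 (n : ℝ)) else 0) hf1
    (fun o => o.2 i)
    (fun δ H o => ∃ q : ℕ, 1 ≤ q ∧ q ≤ Q ∧ ∀ j : Fin t, (i : ℕ) + 1 ≤ (j : ℕ) → dZ (q * o.2 j) ≤ δ / (H : ℝ) ^ ((j : ℕ) + 1 - ((i : ℕ) + 1)))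
    (by
      rintro δ δ' hδ H o ⟨q, h1, h2, h3⟩
      refine ⟨q, h1, h2, fun j hj => (h3 j hj).trans ?_⟩
      exact div_le_div_of_nonneg_right hδ (by positivity))
    (pair_level t i Q) C hC hp h0 (ε / 2) (by positivity)
  obtain ⟨ρ, hρ, δ₁, hδ₁, H₁, hkr⟩ := km_rat t Q R₀ (ε / 8) (by positivity)
  obtain ⟨δ₂, hδ₂, H₂, hw⟩ := hR ρ hρ
  refine ⟨min δ₁ δ₂, lt_min hδ₁ hδ₂, max (max H₁ H₂) 1, fun H hH => ?_⟩
  have hH1 : H₁ ≤ H := (le_max_left _ _).trans ((le_max_left _ _).trans hH)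
  have hH2 : H₂ ≤ H := (le_max_right _ _).trans ((le_max_left _ _).trans hH)
  have hH3 : 1 ≤ H := (le_max_right _ _).trans hH
  obtain ⟨N₁, hN1⟩ := hkr H hH1
  obtain ⟨N₂, hN2⟩ := hw H hH2
  obtain ⟨N₃, hN3⟩ := log_of_ces (ε / 8) H (by positivity) (by exact_mod_cast hH3) N₁
  refine ⟨max (max N₂ N₃) 1, fun N hN α => ?_⟩
  have hNN2 : N₂ ≤ N := (le_max_left _ _).trans ((le_max_left _ _).trans hN)
  have hNN3 : N₃ ≤ N := (le_max_right _ _).trans ((le_max_left _ _).trans hN)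
  have hNN1 : 1 ≤ N := (le_max_right _ _).trans hN
  set g : ℕ → ℝ := fun n => ‖∑ h ∈ Icc 1 H, (mu (n + h) : ℂ) * ex (pol (α n) (h : ℝ))‖ with hg
  have hg0 : ∀ n, 0 ≤ g n := fun n => norm_nonneg _
  have hgH : ∀ n, g n ≤ H := fun n => KmOne_window _ _ _
  have hlog : 0 ≤ Real.log N := Real.log_nonneg (by exact_mod_cast hNN1)
  -- the irrational kind
  set P : ℕ → Prop := fun n => Cond 1 C Q (min δ₁ δ₂) H (α n) ∧ ∀ r : ℕ, 1 ≤ r → r < R₀ → ∀ b : ℤ, ρ ≤ |α n i - b / r| with hP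
  have hirr : ∑ n ∈ (Icc 1 N).filter P, 1 / (n : ℝ) * g n ≤ ε / 2 * H * Real.log N := by
    by_cases hex : ∃ n₀, P n₀
    · obtain ⟨n₀, hn₀⟩ := hex
      have hPA : ∀ n, P n → ∀ B : Bool, (∃ q : ℕ, 1 ≤ q ∧ q ≤ Q ∧ ∀ j : Fin t, (i : ℕ) + 1 ≤ (j : ℕ) → dZ (q * (B, α n).2 j) ≤ δ₂ / (H : ℝ) ^ ((j : ℕ) + 1 - ((i : ℕ) + 1))) ∧
          (∃ x ∈ C, |(B, α n).2 i - x| ≤ δ₂) ∧ (∀ r : ℕ, 1 ≤ r → r < R₀ → ∀ b : ℤ, ρ ≤ |(B, α n).2 i - b / r|) := by
        rintro n ⟨⟨⟨q, h1, h2, h3⟩, h4⟩, h5⟩ B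
        refine ⟨⟨q, h1, h2, ?_⟩, ?_, h5⟩
        · intro j hj
          have h6 := h3 j (by omega)
          have h7 : (j : ℕ) + 1 - ((i : ℕ) + 1) = (j : ℕ) + 1 - 1 := by omega
          rw [h7]
          refine h6.trans ?_
          exact div_le_div_of_nonneg_right (min_le_right _ _) (by positivity)
        · obtain ⟨y, hy, hy2⟩ := h4 i (by omega)
          exact ⟨y, hy, hy2.trans (min_le_right _ _)⟩
      have h8 := hN2 N hNN2 (fun n => if P n then (true, α n) else (false, α n₀)) (by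
        intro n
        by_cases hn : P n
        · simp only [hn, if_true]
          exact hPA n hn true
        · simp only [hn, if_false]
          exact hPA n₀ hn₀ false)
      refine le_trans ?_ h8
      rw [sum_filter]
      refine sum_le_sum fun n _ => ?_
      by_cases hn : P n
      · have e1 : (if P n then (true, α n) else (false, α n₀)) = (true, α n) := if_pos hn
        rw [if_pos hn, e1]
        refine le_of_eq ?_
        simp only [hg]
        congr 2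
      · rw [if_neg hn]
        exact mul_nonneg (by positivity) (norm_nonneg _)
    · have h9 : (Icc 1 N).filter P = ∅ := by
        rw [filter_eq_empty_iff]
        intro n _ hn
        exact hex ⟨n, hn⟩
      rw [h9, sum_empty]
      positivity
  -- the rational kind
  have hrat : ∑ n ∈ Icc 1 N, 1 / (n : ℝ) * (if RatC Q R₀ ρ δ₁ H (α n) then g n else 0) ≤ 4 * (ε / 8) * H * Real.log N := by
    refine hN3 N hNN3 (fun n => if RatC Q R₀ ρ δ₁ H (α n) then g n else 0) ?_ ?_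
    · intro n
      split_ifs
      · exact ⟨hg0 n, hgH n⟩
      · exact ⟨le_rfl, by positivity⟩
    · intro x hx
      have h1 := hN1 x hx α
      rw [sum_filter] at h1
      exact h1
  have hsplit : ∑ n ∈ (Icc 1 N).filter (fun n => Cond 1 C Q (min δ₁ δ₂) H (α n)), 1 / (n : ℝ) * g n ≤
      ∑ n ∈ (Icc 1 N).filter P, 1 / (n : ℝ) * g n + ∑ n ∈ Icc 1 N, 1 / (n : ℝ) * (if RatC Q R₀ ρ δ₁ H (α n) then g n else 0) := by
    rw [sum_filter, sum_filter, ← sum_add_distrib]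
    refine sum_le_sum fun n _ => ?_
    have hnn : 0 ≤ 1 / (n : ℝ) * g n := by have := hg0 n; positivity
    by_cases hc : Cond 1 C Q (min δ₁ δ₂) H (α n)
    · by_cases hPn : P n
      · rw [if_pos hc, if_pos hPn]
        have : 0 ≤ 1 / (n : ℝ) * (if RatC Q R₀ ρ δ₁ H (α n) then g n else 0) := by
          split_ifs
          · exact hnn
          · simp
        linarith
      · have hR : RatC Q R₀ ρ δ₁ H (α n) := by
          have h1 : ∃ r : ℕ, 1 ≤ r ∧ r < R₀ ∧ ∃ b : ℤ, |α n i - b / r| < ρ := by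
            by_contra hcon
            push Not at hcon
            exact hPn ⟨hc, hcon⟩
          obtain ⟨r, hr1, hr2, b, hb⟩ := h1
          obtain ⟨⟨q, h1, h2, h3⟩, -⟩ := id hc
          refine ⟨⟨q, h1, h2, ?_⟩, ?_⟩
          · intro j hj
            have h4 := h3 j hj
            rw [Nat.add_sub_cancel] at h4
            exact h4.trans (div_le_div_of_nonneg_right (min_le_left _ _) (by positivity))
          · intro j hj
            have hj0 : j = i := Fin.ext (by omega)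
            rw [hj0]
            exact ⟨r, hr1, hr2.le, b, hb.le⟩
        rw [if_pos hc, if_neg hPn, if_pos hR]
        linarith
    · rw [if_neg hc]
      have h1 : 0 ≤ (if P n then 1 / (n : ℝ) * g n else 0) := by
        split_ifs
        · exact hnn
        · exact le_rfl
      have h2 : 0 ≤ 1 / (n : ℝ) * (if RatC Q R₀ ρ δ₁ H (α n) then g n else 0) := by
        split_ifs
        · exact hnn
        · simp
      linarith
  refine hsplit.trans ?_
  refine (add_le_add hirr hrat).trans (le_of_eq ?_)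
  ring

end Pool.Agent.Lib.MP_3e612f_nt.NF
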