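import Pool.Agent.Lib.MP_3e612f_nt.NF.P.KmRat

/-! Windows satisfying a condition at level 1 with a set of rational numbers, ordinary averages (paper v2, KM). -/

set_option autoImplicit false

namespace Pool.Agent.Lib.MP_3e612f_nt.NF

open Finset
open Pool.Agent.Lib.MP_3e612f_nt.MR (mu ex)

theorem KmQ_exists_pos {ι : Type} (s : Finset ι) (f : ι → ℝ) (hf : ∀ x ∈ s, 0 < f x) : ∃ δ : ℝ, 0 < δ ∧ ∀ x ∈ s, δ ≤ f x := by
  classical
  induction s using Finset.induction_on with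
  | empty => exact ⟨1, one_pos, by simp⟩
  | insert a s ha ih =>
    obtain ⟨δ, hδ, h⟩ := ih (fun x hx => hf x (mem_insert_of_mem hx))
    refine ⟨min δ (f a), lt_min hδ (hf a (mem_insert_self _ _)), ?_⟩
    intro x hx
    rcases mem_insert.1 hx with rfl | hx
    · exact min_le_right _ _
    · exact (min_le_left _ _).trans (h x hx)

/-- the sum of a function over the union of finitely many sets -/
theorem KmQ_union {ι : Type} (F : Finset ι) (N : Finset ℕ) (P : ℕ → Prop) (R : ι → ℕ → Prop) [DecidablePred P] [∀ r, DecidablePred (R r)]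
    (g : ℕ → ℝ) (hg : ∀ n, 0 ≤ g n) (h : ∀ n, P n → ∃ r ∈ F, R r n) :
    ∑ n ∈ N.filter P, g n ≤ ∑ r ∈ F, ∑ n ∈ N.filter (R r), g n := by
  classical
  have h1 : ∀ n ∈ N.filter P, g n ≤ ∑ r ∈ F, if R r n then g n else 0 := by
    intro n hn
    obtain ⟨r, hr, hR⟩ := h n (mem_filter.1 hn).2
    have h2 := single_le_sum (f := fun r => if R r n then g n else 0) (fun r _ => by
      split_ifs
      · exact hg n
      · exact le_rfl) hr
    simpa [hR] using h2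
  refine (sum_le_sum h1).trans ?_
  rw [sum_comm]
  refine sum_le_sum fun r _ => ?_
  rw [sum_filter (s := N) (p := R r)]
  refine sum_le_sum_of_subset_of_nonneg (filter_subset _ _) ?_
  intro n _ _
  split_ifs
  · exact hg n
  · exact le_rfl

open scoped Classical in
/-- For `r ≥ 1` let `ρ(r), δ(r)` be the numbers of `km_rat` for `R = r` and `ε 2^(-r)`. The open balls `B(b/r, ρ(r)/2)` around the points `b/r ∈ C` cover the compact set `C ∩ [0,1]`: finitely many of them do; let `F` be the finite set of the `r` used. `δ = min (δ(r), ρ(r)/2)`: a vector satisfying `Cond 1 C Q δ H` satisfies `RatC Q r ρ(r) δ(r) H` for some `r ∈ F`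
(periodicity); `∑_{r ∈ F} ε 2^(-r) ≤ ε`. -/
theorem km_q (t : ℕ) (ht : 1 ≤ t) (C : Set ℝ) (hC : IsClosed C) (hp : Per1 C) (hr : ∀ x ∈ C, ∃ q : ℚ, x = q) (Q : ℕ) (ε : ℝ) (hε : 0 < ε) :
    ∃ δ : ℝ, 0 < δ ∧ ∃ H₀ : ℕ, ∀ H : ℕ, H₀ ≤ H → ∃ N₀ : ℕ, ∀ N : ℕ, N₀ ≤ N → ∀ α : ℕ → Fin t → ℝ,
      ∑ n ∈ (range N).filter (fun n => Cond 1 C Q δ H (α n)), ‖∑ h ∈ Icc 1 H, (mu (n + h) : ℂ) * ex (pol (α n) (h : ℝ))‖ ≤ ε * H * N := by
  have hk := fun r : ℕ => km_rat t Q r (ε / 2 * (1 / 2) ^ r) (by positivity)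
  choose ρ hρ δ hδ H₀ hH using hk
  choose! N₀ hN using hH
  -- a denominator
  have hd : ∀ x : ℝ, ∃ r : ℕ, 1 ≤ r ∧ (x ∈ C → ∃ b : ℤ, x = b / r) := by
    intro x
    by_cases hx : x ∈ C
    · obtain ⟨q, rfl⟩ := hr x hx
      refine ⟨q.den, q.den_pos, fun _ => ⟨q.num, ?_⟩⟩
      rw [← Rat.cast_natCast, ← Rat.cast_intCast, ← Rat.cast_div, Rat.num_div_den]
    · exact ⟨1, le_rfl, fun h => absurd h hx⟩
  choose den hden1 hden using hd
  -- compactness
  have hK : IsCompact (C ∩ Set.Icc (0 : ℝ) 1) := (isCompact_Icc).inter_left hC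
  obtain ⟨T, hT, hcov⟩ := hK.elim_nhds_subcover (fun x => Metric.ball x (ρ (den x) / 2)) (fun x _ => Metric.ball_mem_nhds x (by have := hρ (den x); positivity))
  set F : Finset ℕ := T.image den with hF
  obtain ⟨δ', hδ', hδ1⟩ := KmQ_exists_pos F (fun r => min (δ r) (ρ r / 2)) (fun r _ => lt_min (hδ r) (by have := hρ r; positivity))
  refine ⟨δ', hδ', F.sup H₀, fun H hHH => ⟨F.sup (fun r => N₀ r H), fun N hNN α => ?_⟩⟩
  have hstep : ∑ n ∈ (range N).filter (fun n => Cond 1 C Q δ' H (α n)), ‖∑ h ∈ Icc 1 H, (mu (n + h) : ℂ) * ex (pol (α n) (h : ℝ))‖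
      ≤ ∑ r ∈ F, ∑ n ∈ (range N).filter (fun n => RatC Q r (ρ r) (δ r) H (α n)), ‖∑ h ∈ Icc 1 H, (mu (n + h) : ℂ) * ex (pol (α n) (h : ℝ))‖ := by
    refine KmQ_union F (range N) (fun n => Cond 1 C Q δ' H (α n)) (fun r n => RatC Q r (ρ r) (δ r) H (α n)) _ (fun n => norm_nonneg _) ?_
    rintro n ⟨⟨q, hq1, hqQ, hq⟩, hc⟩
    obtain ⟨i0, hi0⟩ : ∃ i : Fin t, (i : ℕ) = 0 := ⟨⟨0, by omega⟩, rfl⟩
    obtain ⟨y, hy, hyα⟩ := hc i0 (by omega)
    have hy' : y + ((-⌊y⌋ : ℤ) : ℝ) ∈ C := hp y hy _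
    have hyI : y + ((-⌊y⌋ : ℤ) : ℝ) ∈ Set.Icc (0 : ℝ) 1 := by
      push_cast
      constructor
      · have := Int.floor_le y; linarith
      · have := Int.lt_floor_add_one y; linarith
    have hmem := hcov ⟨hy', hyI⟩
    simp only [Set.mem_iUnion, Metric.mem_ball, Real.dist_eq] at hmem
    obtain ⟨x, hxT, hx⟩ := hmem
    have hxC : x ∈ C := (hT x hxT).1
    obtain ⟨b, hb⟩ := hden x hxC
    have hrF : den x ∈ F := mem_image_of_mem _ hxT
    have hδx := hδ1 _ hrF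
    refine ⟨den x, hrF, ⟨q, hq1, hqQ, ?_⟩, ?_⟩
    · intro j hj
      have h1 := hq j hj
      rw [Nat.add_sub_cancel] at h1
      refine h1.trans ?_
      apply div_le_div_of_nonneg_right _ (by positivity)
      exact hδx.trans (min_le_left _ _)
    · intro j hj
      have hj0 : j = i0 := Fin.ext (by omega)
      rw [hj0]
      refine ⟨den x, hden1 x, le_rfl, b + den x * ⌊y⌋, ?_⟩
      have hd0 : (den x : ℝ) ≠ 0 := by
        have := hden1 x
        positivity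
      have h2 : (((b + den x * ⌊y⌋ : ℤ)) : ℝ) / (den x : ℝ) = x + ⌊y⌋ := by
        push_cast
        rw [add_div, mul_div_cancel_left₀ _ hd0, ← hb]
      rw [h2]
      have h3 : α n i0 - (x + ⌊y⌋) = (α n i0 - y) + (y + ((-⌊y⌋ : ℤ) : ℝ) - x) := by
        push_cast
        ring
      rw [h3]
      refine (abs_add_le _ _).trans ?_
      have h4 := hδx.trans (min_le_right _ _)
      linarith
  refine hstep.trans ?_
  have hb : ∀ r ∈ F, ∑ n ∈ (range N).filter (fun n => RatC Q r (ρ r) (δ r) H (α n)), ‖∑ h ∈ Icc 1 H, (mu (n + h) : ℂ) * ex (pol (α n) (h : ℝ))‖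
      ≤ ε / 2 * (1 / 2) ^ r * H * N := by
    intro r hr
    have h1 : H₀ r ≤ H := (le_sup (f := H₀) hr).trans hHH
    have h2 : N₀ r H ≤ N := (le_sup (f := fun r => N₀ r H) hr).trans hNN
    exact hN r H h1 N h2 α
  refine (sum_le_sum hb).trans ?_
  have hg : ∑ r ∈ F, (1 / 2 : ℝ) ^ r ≤ 2 := by
    have h5 := Summable.sum_le_tsum (f := fun r : ℕ => (1 / 2 : ℝ) ^ r) F (fun r _ => by positivity) summable_geometric_two
    rw [tsum_geometric_two] at h5
    exact h5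
  have h6 : ∑ r ∈ F, ε / 2 * (1 / 2) ^ r * H * N = (∑ r ∈ F, (1 / 2 : ℝ) ^ r) * (ε / 2 * H * N) := by
    rw [sum_mul]
    refine sum_congr rfl fun r _ => ?_
    ring
  rw [h6]
  have h7 : 0 ≤ ε / 2 * H * N := by positivity
  nlinarith [mul_le_mul_of_nonneg_right hg h7]

end Pool.Agent.Lib.MP_3e612f_nt.NF
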