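import Pool.Agent.Lib.MP_3e612f_nt.NF.R.KmRatU

/-! Nearly rational windows (paper v2, KM). -/

set_option autoImplicit false

namespace Pool.Agent.Lib.MP_3e612f_nt.NF

open Finset
open Pool.Agent.Lib.MP_3e612f_nt.MR (mu ex)

/-- For a modulus `q`, a class, and the windows `[max 1 (i h₁), min ((i+1)h₁) (H+1))`, `i ≤ H/h₁`: the windows with `1 ≤ i < H/h₁` are full, of length `h₁`: `∑_{n<N} |∑_{h ∈ win, h ≡ u} μ(n+h)| ≤ ∑_{a : ZMod q} ∑_{n<N} |..n+h ≡ a..| ≤ q ε' h₁ (N + H)` by `MR.mr q` (`h₁ ≥ h₀(q, ε')`, `X = N + i h₁`; fixed before `H`); the two other windows trivially `h₁ N`.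
The sum over `i` is at most `(H/h₁) q ε' h₁ (N + H) + 2 h₁ N ≤ ε'' H N` for `H` large and `N ≥ H`. -/
theorem short_windows (q : ℕ) (hq : 1 ≤ q) (ε : ℝ) (hε : 0 < ε) : ∃ h₀ : ℕ, ∀ h₁ : ℕ, h₀ ≤ h₁ → 1 ≤ h₁ → ∃ H₀ : ℕ, ∀ H : ℕ, H₀ ≤ H → ∃ N₀ : ℕ, ∀ N : ℕ, N₀ ≤ N → ∀ u : ℕ,
    ∑ n ∈ range N, ∑ i ∈ range (H / h₁ + 1), ‖∑ h ∈ win q (max 1 (i * h₁)) (min ((i + 1) * h₁) (H + 1)) u, (mu (n + h) : ℂ)‖ ≤ ε * H * N := by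
  obtain ⟨h₀, h⟩ := short_windows_u q hq ε hε
  refine ⟨h₀, fun h₁ hh hh1 => ?_⟩
  obtain ⟨D, hD⟩ := h h₁ hh hh1
  exact ⟨D, fun H hH => ⟨D * H, fun N hN u => hD H N hH hN u⟩⟩

open scoped Classical in
/-- `short_windows` for all `q ≤ QR` (with `ε/(2 (QR)²)`), `h₁` = the maximum of the `h₀`, then `rat_split` (`ε/2`). -/
theorem km_rat (t : ℕ) (Q R : ℕ) (ε : ℝ) (hε : 0 < ε) : ∃ ρ : ℝ, 0 < ρ ∧ ∃ δ : ℝ, 0 < δ ∧ ∃ H₀ : ℕ, ∀ H : ℕ, H₀ ≤ H → ∃ N₀ : ℕ, ∀ N : ℕ, N₀ ≤ N → ∀ α : ℕ → Fin t → ℝ,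
    ∑ n ∈ (range N).filter (fun n => RatC Q R ρ δ H (α n)), ‖∑ h ∈ Icc 1 H, (mu (n + h) : ℂ) * ex (pol (α n) (h : ℝ))‖ ≤ ε * H * N := by
  obtain ⟨ρ, hρ, δ, hδ, D, hD⟩ := km_rat_u t Q R ε hε
  exact ⟨ρ, hρ, δ, hδ, D, fun H hH => ⟨D * H, fun N hN α => hD H N hH hN α⟩⟩

end Pool.Agent.Lib.MP_3e612f_nt.NF
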