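import Pool.Agent.Lib.MP_3e612f_nt.NF.P.Defs

/-! Level sets of slices: continuity (paper v2). -/

set_option autoImplicit false

namespace Pool.Agent.Lib.MP_3e612f_nt.NF

open Finset
open Pool.Agent.Lib.MP_3e612f_nt.MR (mu ex)

/-- basic properties of `gK` (`thickenedIndicator`) -/
theorem gK_nonneg {t : ℕ} (n : ℕ) (K : Set (Fin t → ℝ)) (x : Fin t → ℝ) : 0 ≤ gK n K x :=
  NNReal.coe_nonneg _

theorem gK_le_one {t : ℕ} (n : ℕ) (K : Set (Fin t → ℝ)) (x : Fin t → ℝ) : gK n K x ≤ 1 := by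
  have h := thickenedIndicator_le_one (one_div_pos.2 (Nat.cast_add_one_pos (α := ℝ) n)) K x
  unfold gK
  exact_mod_cast h

theorem gK_cont {t : ℕ} (n : ℕ) (K : Set (Fin t → ℝ)) : Continuous (gK n K) :=
  NNReal.continuous_coe.comp
    (thickenedIndicator (one_div_pos.2 (Nat.cast_add_one_pos (α := ℝ) n)) K).continuous

theorem gK_anti {t : ℕ} {n n' : ℕ} (h : n ≤ n') (K : Set (Fin t → ℝ)) (x : Fin t → ℝ) : gK n' K x ≤ gK n K x := by
  have h1 : (1 : ℝ) / ((n' : ℝ) + 1) ≤ 1 / ((n : ℝ) + 1) := by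
    apply one_div_le_one_div_of_le (by positivity)
    have : (n : ℝ) ≤ n' := by exact_mod_cast h
    linarith
  have h2 := thickenedIndicator_mono (one_div_pos.2 (Nat.cast_add_one_pos (α := ℝ) n'))
    (one_div_pos.2 (Nat.cast_add_one_pos (α := ℝ) n)) h1 K x
  unfold gK
  exact_mod_cast h2

/-- for `x` within `1/(2(n+1))` of `K` -/
theorem gK_half {t : ℕ} (n : ℕ) (K : Set (Fin t → ℝ)) (x : Fin t → ℝ) (h : Nr K (1 / (2 * ((n : ℝ) + 1))) x) : 1 / 2 ≤ gK n K x := by
  obtain ⟨y, hy, hxy⟩ := h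
  have hpos : (0 : ℝ) < (n : ℝ) + 1 := Nat.cast_add_one_pos n
  have h1 : Metric.infEDist x K ≤ ENNReal.ofReal (1 / (2 * ((n : ℝ) + 1))) := by
    refine (Metric.infEDist_le_edist_of_mem hy).trans ?_
    rw [edist_dist]
    refine ENNReal.ofReal_le_ofReal ?_
    rw [dist_pi_le_iff (by positivity)]
    intro i
    rw [Real.dist_eq]
    exact hxy i
  have h2 : Metric.infEDist x K / ENNReal.ofReal (1 / ((n : ℝ) + 1)) ≤ ENNReal.ofReal (1 / 2) := by
    refine ENNReal.div_le_of_le_mul ?_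
    rw [← ENNReal.ofReal_mul (by norm_num)]
    refine h1.trans (ENNReal.ofReal_le_ofReal (le_of_eq ?_))
    field_simp
  have h3 : ENNReal.ofReal (1 / 2) ≤ thickenedIndicatorAux (1 / ((n : ℝ) + 1)) K x := by
    unfold thickenedIndicatorAux
    have h4 : (1 : ENNReal) - ENNReal.ofReal (1 / 2) ≤
        1 - Metric.infEDist x K / ENNReal.ofReal (1 / ((n : ℝ) + 1)) := tsub_le_tsub_left h2 1
    refine le_trans (le_of_eq ?_) h4
    rw [← ENNReal.ofReal_one, ← ENNReal.ofReal_sub _ (by norm_num)]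
    norm_num
  have h5 : ((1 / 2 : ℝ)).toNNReal ≤
      thickenedIndicator (one_div_pos.2 (Nat.cast_add_one_pos (α := ℝ) n)) K x := by
    rw [thickenedIndicator_apply]
    have h6 := ENNReal.toNNReal_mono (by
      exact (lt_of_le_of_lt (thickenedIndicatorAux_le_one _ K x) ENNReal.one_lt_top).ne) h3
    exact h6
  have h7 : ((((1 / 2 : ℝ)).toNNReal : NNReal) : ℝ) ≤ gK n K x := by
    unfold gK
    exact_mod_cast h5
  rw [Real.coe_toNNReal _ (by norm_num)] at h7
  exact h7

theorem gK_per {t : ℕ} (n : ℕ) {K : Set (Fin t → ℝ)} (hp : Per K) (x : Fin t → ℝ) (z : Fin t → ℤ) : gK n K (fun i => x i + z i) = gK n K x := by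
  have key : ∀ (x : Fin t → ℝ) (z : Fin t → ℤ),
      Metric.infEDist (fun i => x i + z i) K ≤ Metric.infEDist x K := by
    intro x z
    refine Metric.le_infEDist.2 fun y hy => ?_
    have h1 := Metric.infEDist_le_edist_of_mem (x := fun i => x i + (z i : ℝ)) (hp y hy z)
    refine h1.trans (le_of_eq ?_)
    have h2 : (fun i => x i + (z i : ℝ)) = x + fun i => (z i : ℝ) := rfl
    have h3 : (fun i => y i + (z i : ℝ)) = y + fun i => (z i : ℝ) := rfl
    rw [h2, h3, edist_add_right]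
  have h : Metric.infEDist (fun i => x i + z i) K = Metric.infEDist x K := by
    refine le_antisymm (key x z) ?_
    have h1 := key (fun i => x i + z i) (fun i => - z i)
    have h2 : (fun i => x i + (z i : ℝ) + ((-z i : ℤ) : ℝ)) = x := by
      funext i
      push_cast
      ring
    rw [h2] at h1
    exact h1
  unfold gK
  rw [thickenedIndicator_apply, thickenedIndicator_apply]
  unfold thickenedIndicatorAux
  rw [h]

/-- `gK n K x → 1_K(x)` for closed `K` (`thickenedIndicator_tendsto_indicator_closure`) -/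
theorem gK_tendsto {t : ℕ} {K : Set (Fin t → ℝ)} (hK : IsClosed K) (x : Fin t → ℝ) :
    Filter.Tendsto (fun n => gK n K x) Filter.atTop (nhds (K.indicator (fun _ => (1 : ℝ)) x)) := by
  have h1 := thickenedIndicator_tendsto_indicator_closure
    (fun n => one_div_pos.2 (Nat.cast_add_one_pos (α := ℝ) n))
    (tendsto_one_div_add_atTop_nhds_zero_nat (𝕜 := ℝ)) K
  rw [tendsto_pi_nhds] at h1
  have h2 := (NNReal.continuous_coe.tendsto _).comp (h1 x)
  rw [hK.closure_eq] at h2
  have h3 : ((K.indicator (fun _ => (1 : NNReal)) x : NNReal) : ℝ) =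
      K.indicator (fun _ => (1 : ℝ)) x := by
    by_cases hx : x ∈ K
    · simp [hx]
    · simp [hx]
  rw [h3] at h2
  exact h2

theorem snoc_cont {t : ℕ} : Continuous fun p : ℝ × (Fin t → ℝ) =>
    (Fin.snoc (α := fun _ => ℝ) p.2 p.1 : Fin (t + 1) → ℝ) :=
  Continuous.finSnoc (A := fun _ => ℝ) continuous_snd continuous_fst

theorem gK_snoc_cont {t : ℕ} (n : ℕ) (K : Set (Fin (t + 1) → ℝ)) (β : ℝ) :
    Continuous fun x : Fin t → ℝ =>
      gK n K (Fin.snoc (α := fun _ => ℝ) x β : Fin (t + 1) → ℝ) :=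
  (gK_cont n K).comp (snoc_cont.comp (Continuous.prodMk continuous_const continuous_id))

theorem sI_cont {t : ℕ} (n : ℕ) (K : Set (Fin (t + 1) → ℝ)) : Continuous (sI n K) := by
  have h : Continuous (Function.uncurry fun (β : ℝ) (x : Fin t → ℝ) =>
      gK n K (Fin.snoc (α := fun _ => ℝ) x β : Fin (t + 1) → ℝ)) :=
    (gK_cont n K).comp snoc_cont
  exact continuous_parametric_integral_of_continuous h isCompact_Icc

theorem sI_anti {t : ℕ} {n n' : ℕ} (h : n ≤ n') (K : Set (Fin (t + 1) → ℝ)) (β : ℝ) : sI n' K β ≤ sI n K β := by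
  unfold sI
  refine MeasureTheory.setIntegral_mono ?_ ?_ fun x => gK_anti h K _
  · exact (gK_snoc_cont n' K β).continuousOn.integrableOn_compact isCompact_Icc
  · exact (gK_snoc_cont n K β).continuousOn.integrableOn_compact isCompact_Icc

theorem sI_per {t : ℕ} (n : ℕ) {K : Set (Fin (t + 1) → ℝ)} (hp : Per K) (β : ℝ) (z : ℤ) : sI n K (β + z) = sI n K β := by
  unfold sI
  refine MeasureTheory.integral_congr_ae (Filter.Eventually.of_forall fun x => ?_)
  have h := gK_per n hp (Fin.snoc (α := fun _ => ℝ) x β : Fin (t + 1) → ℝ)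
    (Fin.snoc (α := fun _ => ℤ) (fun _ => 0) z)
  have h1 : (fun i => (Fin.snoc (α := fun _ => ℝ) x β : Fin (t + 1) → ℝ) i +
      ((Fin.snoc (α := fun _ => ℤ) (fun _ => 0) z : Fin (t + 1) → ℤ) i : ℝ)) =
      (Fin.snoc (α := fun _ => ℝ) x (β + z) : Fin (t + 1) → ℝ) := by
    funext i
    refine Fin.lastCases ?_ (fun j => ?_) i
    · simp
    · simp
  rw [h1] at h
  exact h

end Pool.Agent.Lib.MP_3e612f_nt.NF
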