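import Pool.Agent.Lib.MP_3e612f_nt.NF.P.PartN

/-! Polynomials without linear term (paper v2). -/

set_option autoImplicit false

namespace Pool.Agent.Lib.MP_3e612f_nt.NF

open Finset
open Pool.Agent.Lib.MP_3e612f_nt.MR (mu ex)

theorem noLin_slice (t : ℕ) (β : ℝ) :
    slice {α : Fin (t + 1 + 1) → ℝ | ∀ j : Fin (t + 1 + 1), (j : ℕ) = 0 → ∃ z : ℤ, α j = z} β =
      {α : Fin (t + 1) → ℝ | ∀ j : Fin (t + 1), (j : ℕ) = 0 → ∃ z : ℤ, α j = z} := by
  ext x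
  constructor
  · intro h j hj
    have h1 := h (Fin.castSucc j) (by simpa using hj)
    rwa [Fin.snoc_castSucc] at h1
  · intro h j hj
    obtain ⟨i, rfl⟩ : ∃ i : Fin (t + 1), j = Fin.castSucc i :=
      ⟨⟨(j : ℕ), by omega⟩, Fin.ext rfl⟩
    change ∃ z : ℤ, (Fin.snoc (α := fun _ => ℝ) x β : Fin (t + 1 + 1) → ℝ) (Fin.castSucc i) = z
    rw [Fin.snoc_castSucc]
    exact h i (by simpa using hj)

theorem noLin_vol (t : ℕ) :
    MeasureTheory.volume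
      {α : Fin (t + 1) → ℝ | ∀ j : Fin (t + 1), (j : ℕ) = 0 → ∃ z : ℤ, α j = z} = 0 := by
  have hsub : {α : Fin (t + 1) → ℝ | ∀ j : Fin (t + 1), (j : ℕ) = 0 → ∃ z : ℤ, α j = z} ⊆
      ⋃ z : ℤ, {α : Fin (t + 1) → ℝ | α 0 = (z : ℝ)} := by
    intro x hx
    obtain ⟨z, hz⟩ := hx 0 rfl
    rw [Set.mem_iUnion]
    exact ⟨z, hz⟩
  refine MeasureTheory.measure_mono_null hsub ?_
  rw [MeasureTheory.measure_iUnion_null_iff]
  intro z
  rw [MeasureTheory.volume_pi]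
  exact MeasureTheory.Measure.pi_hyperplane (α := fun _ : Fin (t + 1) => ℝ)
    (fun _ : Fin (t + 1) => MeasureTheory.volume) 0 (z : ℝ)

/-- `K = {α : α_0 ∈ ℤ}`: closed, periodic, `NullN` (the slices of `{x : x_0 ∈ ℤ}` in dimension at least 1 are null). -/
theorem nullN_noLin (t : ℕ) (ht : 1 ≤ t) : NullN t {α : Fin t → ℝ | ∀ j : Fin t, (j : ℕ) = 0 → ∃ z : ℤ, α j = z} := by
  obtain ⟨t, rfl⟩ : ∃ s, t = s + 1 := ⟨t - 1, by omega⟩
  clear ht
  induction t with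
  | zero =>
    intro x hx
    obtain ⟨z, hz⟩ := hx 0 rfl
    exact ⟨(z : ℚ), by rw [hz]; norm_cast⟩
  | succ t ih =>
    refine ⟨fun β => ?_, fun r => ?_⟩
    · rw [noLin_slice]
      exact noLin_vol t
    · rw [noLin_slice]
      exact ih

theorem noLin_closed (t : ℕ) :
    IsClosed {α : Fin t → ℝ | ∀ j : Fin t, (j : ℕ) = 0 → ∃ z : ℤ, α j = z} := by
  rw [Set.ofPred_forall]
  refine isClosed_iInter fun j => ?_
  by_cases hj : (j : ℕ) = 0
  · have h1 : {α : Fin t → ℝ | (j : ℕ) = 0 → ∃ z : ℤ, α j = z} =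
        (fun α : Fin t → ℝ => α j) ⁻¹' Set.range ((↑) : ℤ → ℝ) := by
      ext x
      constructor
      · intro h
        obtain ⟨z, hz⟩ := h hj
        exact ⟨z, hz.symm⟩
      · rintro ⟨z, hz⟩ _
        exact ⟨z, hz.symm⟩
    rw [h1]
    exact Int.isClosedEmbedding_coe_real.isClosed_range.preimage (continuous_apply j)
  · have h1 : {α : Fin t → ℝ | (j : ℕ) = 0 → ∃ z : ℤ, α j = z} = Set.univ := by
      ext x
      constructor
      · intro _
        trivial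
      · intro _ h
        exact absurd h hj
    rw [h1]
    exact isClosed_univ

theorem noLin_eval (t : ℕ) (P : Polynomial ℝ) (hP : P.natDegree ≤ t) (x : ℝ) :
    P.eval x = P.coeff 0 + pol (fun i : Fin (t + 1) => P.coeff ((i : ℕ) + 1)) x := by
  unfold pol
  rw [Polynomial.eval_eq_sum_range' (n := t + 1 + 1) (by omega), Finset.sum_range_succ']
  rw [Fin.sum_univ_eq_sum_range (fun i => P.coeff (i + 1) * x ^ (i + 1)) (t + 1)]
  rw [pow_zero, mul_one, add_comm]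

/-- Sup over all real polynomials of degree at most `t` without linear term, ordinary averages. -/
theorem no_linear (t : ℕ) (ε : ℝ) (hε : 0 < ε) : ∃ H₀ : ℕ, ∀ H : ℕ, H₀ ≤ H → ∃ N₀ : ℕ, ∀ N : ℕ, N₀ ≤ N → ∀ P : ℕ → Polynomial ℝ,
    (∀ n, (P n).natDegree ≤ t ∧ (P n).coeff 1 = 0) →
      ∑ n ∈ Icc 1 N, ‖∑ h ∈ Icc 1 H, (mu (n + h) : ℂ) * ex ((P n).eval (h : ℝ))‖ ≤ ε * H * N := by
  obtain ⟨H₀, hH₀⟩ := part_n (t + 1) (by omega)
    {α : Fin (t + 1) → ℝ | ∀ j : Fin (t + 1), (j : ℕ) = 0 → ∃ z : ℤ, α j = z}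
    (noLin_closed (t + 1)) (by
      intro x hx z j hj
      obtain ⟨w, hw⟩ := hx j hj
      exact ⟨w + z j, by push_cast; rw [hw]⟩) (nullN_noLin (t + 1) (by omega)) ε hε
  refine ⟨H₀, fun H hH => ?_⟩
  obtain ⟨N₀, hN₀⟩ := hH₀ H hH
  refine ⟨N₀, fun N hN P hP => ?_⟩
  refine le_trans (le_of_eq ?_) (hN₀ N hN (fun n i => (P n).coeff ((i : ℕ) + 1)) ?_)
  · refine sum_congr rfl fun n _ => ?_
    have h1 : ∑ h ∈ Icc 1 H, (mu (n + h) : ℂ) * ex ((P n).eval (h : ℝ)) =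
        ex ((P n).coeff 0) * ∑ h ∈ Icc 1 H, (mu (n + h) : ℂ) *
          ex (pol (fun i : Fin (t + 1) => (P n).coeff ((i : ℕ) + 1)) (h : ℝ)) := by
      rw [Finset.mul_sum]
      refine sum_congr rfl fun h _ => ?_
      rw [noLin_eval t (P n) (hP n).1, ex_add]
      ring
    rw [h1, norm_mul, norm_ex, one_mul]
  · intro n j hj
    refine ⟨0, ?_⟩
    have h1 : (P n).coeff ((j : ℕ) + 1) = 0 := by
      rw [hj]
      exact (hP n).2
    simpa using h1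

end Pool.Agent.Lib.MP_3e612f_nt.NF
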