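import Pool.Agent.Lib.MP_3e612f_nt.NF.P.Good

/-! The condition `NullP` in terms of slices (paper v2). -/

set_option autoImplicit false

namespace Pool.Agent.Lib.MP_3e612f_nt.NF

open Finset

/-- `NullP` from the slices over rational values of the coordinates from `s` on. -/
theorem nullP_of_slices (t : ℕ) : ∀ (K : Set (Fin t → ℝ)), (∀ s : ℕ, 1 ≤ s → s ≤ t → ∀ r : Fin t → ℚ,
      MeasureTheory.volume {x : Fin s → ℝ | (fun i : Fin t => if h : (i : ℕ) < s then x ⟨i, h⟩ else (r i : ℝ)) ∈ K} = 0) → NullP t K := by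
  induction t with
  | zero =>
    intro K _
    trivial
  | succ t ih =>
    intro K hK
    refine ⟨?_, fun q => ih _ fun s hs hst r => ?_⟩
    · have h := hK (t + 1) (by omega) le_rfl (fun _ => 0)
      have h1 : {x : Fin (t + 1) → ℝ | (fun i : Fin (t + 1) => if h : (i : ℕ) < t + 1 then x ⟨i, h⟩ else (((0 : ℚ)) : ℝ)) ∈ K} = K := by
        ext x
        have h2 : (fun i : Fin (t + 1) => if h : (i : ℕ) < t + 1 then x ⟨i, h⟩ else (((0 : ℚ)) : ℝ)) = x := by
          funext i
          rw [dif_pos i.isLt]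
        simp only [Set.mem_ofPred_eq, h2]
      rw [h1] at h
      exact h
    · have h := hK s hs (by omega) (Fin.snoc (α := fun _ => ℚ) r q)
      refine le_antisymm (le_trans (MeasureTheory.measure_mono ?_) (le_of_eq h)) bot_le
      intro x hx
      have h2 : (Fin.snoc (α := fun _ => ℝ) (fun i : Fin t => if h : (i : ℕ) < s then x ⟨i, h⟩ else (r i : ℝ)) (q : ℝ) : Fin (t + 1) → ℝ) ∈ K := hx
      have h3 : (Fin.snoc (α := fun _ => ℝ) (fun i : Fin t => if h : (i : ℕ) < s then x ⟨i, h⟩ else (r i : ℝ)) (q : ℝ) : Fin (t + 1) → ℝ) =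
          fun i : Fin (t + 1) => if h : (i : ℕ) < s then x ⟨i, h⟩ else (((Fin.snoc (α := fun _ => ℚ) r q : Fin (t + 1) → ℚ) i : ℚ) : ℝ) := by
        funext i
        refine Fin.lastCases ?_ (fun j => ?_) i
        · rw [Fin.snoc_last, dif_neg, Fin.snoc_last]
          rw [Fin.val_last]
          omega
        · rw [Fin.snoc_castSucc, Fin.snoc_castSucc]
          rfl
      rw [h3] at h2
      exact h2

end Pool.Agent.Lib.MP_3e612f_nt.NF
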