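import Pool.Agent.Lib.MP_3e612f_nt.NF.P.ShB
import Pool.Agent.Lib.MP_3e612f_nt.NF.Weyl2Loc

/-! The inverse theorem for Weyl sums: all coefficients (paper v2). -/

set_option autoImplicit false

namespace Pool.Agent.Lib.MP_3e612f_nt.NF

open Finset
open Pool.Agent.Lib.MP_3e612f_nt.MR (mu ex)

theorem WeylV_pol_succ {t : ℕ} (α : Fin (t + 1) → ℝ) (x : ℝ) :
    pol α x = pol (fun i : Fin t => α i.castSucc) x + α (Fin.last t) * x ^ (t + 1) := by
  unfold pol
  rw [Fin.sum_univ_castSucc]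
  simp

theorem WeylV_pol_mul {t : ℕ} (α : Fin t → ℝ) (k x : ℝ) :
    pol α (k * x) = pol (fun i : Fin t => k ^ ((i : ℕ) + 1) * α i) x := by
  unfold pol
  refine sum_congr rfl fun i _ => ?_
  rw [mul_pow]
  ring

/-- All coefficients. Induction on `t ≥ 1`. `t = 1`: `weyl' 1`. `t + 1`: `weyl' (t+1)` (`exists_poly`) gives `k` for the top coefficient, `weyl2_loc (t+1)` gives `y, M`, `M ≥ c₁ N`, with `∑_{m<M} e(pol x (y + km) + c) ≥ (κ/2) M`, `x` = the lower `t` coefficients (`Fin.init α`), and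
`pol x (y + km) = pol x y + pol (sh y x) (km)` has coefficients `k^(i+1) (sh y x)_i`; induction hypothesis: `k'`; with `k'' = k' k^(t+1)`: `dZ (k'' (sh y x)_i) ≤ C/N^(i+1)`; `sh_dZ` with `s = -y` (`sh (-y) (sh y x) = x`): `dZ (k'' x_i) ≤ C'/N^(i+1)`; top: `dZ (k'' α_t) ≤ k' k^t K/N^(t+1)`. `N < N₀`: take `K` large (`dZ ≤ 1/2`). -/
theorem weyl_all (t : ℕ) (ht : 1 ≤ t) (κ : ℝ) (hκ : 0 < κ) : ∃ K : ℕ, 1 ≤ K ∧ ∀ N : ℕ, 1 ≤ N → ∀ (α : Fin t → ℝ) (c : ℝ),
    κ * N ≤ ‖∑ n ∈ range N, ex (pol α (n : ℝ) + c)‖ → ∃ k : ℕ, 1 ≤ k ∧ k ≤ K ∧ ∀ i : Fin t, dZ (k * α i) ≤ K / (N : ℝ) ^ ((i : ℕ) + 1) := by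
  induction t, ht using Nat.le_induction generalizing κ with
  | base =>
    obtain ⟨K, hK, h⟩ := weyl' 1 le_rfl κ hκ
    refine ⟨K, hK, fun N hN α c hα => ?_⟩
    obtain ⟨Q, hQ, hev, hco⟩ := exists_poly α c
    obtain ⟨k, hk1, hk2, hk3⟩ := h N hN Q hQ (by
      rw [sum_congr rfl fun n _ => by rw [hev]]
      exact hα)
    refine ⟨k, hk1, hk2, fun i => ?_⟩
    have hi : (i : ℕ) = 0 := by omega
    have h1 := hco i
    rw [hi] at h1
    rw [hi, ← h1]
    exact hk3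
  | succ t ht ih =>
    obtain ⟨K₁, hK₁, hW⟩ := weyl' (t + 1) (by omega) κ hκ
    obtain ⟨c₁, hc₁, N₀, hL⟩ := weyl2_loc (t + 1) (by omega) κ hκ K₁ hK₁
    obtain ⟨K₂, hK₂, hI⟩ := ih (κ / 2) (by positivity)
    set N₁ : ℕ := max N₀ (⌈1 / c₁⌉₊ + 1) with hN₁
    set C : ℝ := K₁ ^ (t + 1) * K₂ * (max 1 (1 / c₁)) ^ (t + 1) with hC
    have hK₁r : (1 : ℝ) ≤ K₁ := by exact_mod_cast hK₁
    have hK₂r : (1 : ℝ) ≤ K₂ := by exact_mod_cast hK₂
    have hm1 : (1 : ℝ) ≤ max 1 (1 / c₁) := le_max_left _ _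
    have hC1 : 1 ≤ C := by
      rw [hC]
      have h1 : (1 : ℝ) ≤ K₁ ^ (t + 1) := one_le_pow₀ hK₁r
      have h2 : (1 : ℝ) ≤ (max 1 (1 / c₁)) ^ (t + 1) := one_le_pow₀ hm1
      have h3 : (1 : ℝ) ≤ K₁ ^ (t + 1) * K₂ := one_le_mul_of_one_le_of_one_le h1 hK₂r
      exact one_le_mul_of_one_le_of_one_le h3 h2
    set K : ℕ := N₁ ^ (t + 1) + ⌈(t * 2 ^ t + 1) * C⌉₊ with hKdef
    have hKC : (t * 2 ^ t + 1) * C ≤ K := by
      refine (Nat.le_ceil _).trans ?_
      rw [hKdef]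
      push_cast
      have : (0 : ℝ) ≤ (N₁ : ℝ) ^ (t + 1) := by positivity
      linarith
    have hKC' : C ≤ K := by
      refine le_trans ?_ hKC
      have h1 : (1 : ℝ) ≤ t * 2 ^ t + 1 := by
        have : (0 : ℝ) ≤ t * 2 ^ t := by positivity
        linarith
      exact le_mul_of_one_le_left (by linarith) h1
    have hN₁1 : 1 ≤ N₁ := le_trans (by omega) (le_max_right _ _)
    have hKN : ((N₁ : ℝ)) ^ (t + 1) ≤ K := by
      rw [hKdef]
      push_cast
      have : (0 : ℝ) ≤ (⌈(t * 2 ^ t + 1) * C⌉₊ : ℝ) := Nat.cast_nonneg _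
      linarith
    have hK1 : 1 ≤ K := by
      have : (1 : ℝ) ≤ K := hC1.trans hKC'
      exact_mod_cast this
    refine ⟨K, hK1, fun N hN α c hα => ?_⟩
    have hNr : (1 : ℝ) ≤ N := by exact_mod_cast hN
    by_cases hNN : N < N₁
    · refine ⟨1, le_rfl, hK1, fun i => ?_⟩
      refine (dZ_le_half _).trans ?_
      have h1 : (N : ℝ) ^ ((i : ℕ) + 1) ≤ K := by
        have h2 : (N : ℝ) ^ ((i : ℕ) + 1) ≤ (N : ℝ) ^ (t + 1) :=
          pow_le_pow_right₀ hNr (by omega)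
        have h3 : (N : ℝ) ^ (t + 1) ≤ (N₁ : ℝ) ^ (t + 1) := by
          have : (N : ℝ) ≤ N₁ := by exact_mod_cast hNN.le
          gcongr
        linarith
      have h2 : (0 : ℝ) < (N : ℝ) ^ ((i : ℕ) + 1) := by positivity
      rw [le_div_iff₀ h2]
      linarith
    · rw [not_lt] at hNN
      obtain ⟨Q, hQ, hev, hco⟩ := exists_poly α c
      have htop : Q.coeff (t + 1) = α (Fin.last t) := by
        have := hco (Fin.last t)
        rwa [Fin.val_last] at this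
      have hQs : κ * N ≤ ‖∑ n ∈ range N, ex (Q.eval (n : ℝ))‖ := by
        rw [sum_congr rfl fun n _ => by rw [hev]]
        exact hα
      obtain ⟨k₁, hk₁, hk₁K, hk₁d⟩ := hW N hN Q hQ hQs
      obtain ⟨y, M, hM, hyM, hsum⟩ := hL N ((le_max_left _ _).trans hNN) Q hQs k₁ hk₁ hk₁K hk₁d
      have hM1 : 1 ≤ M := by
        have h1 : (0 : ℝ) < M := by
          have : 0 < c₁ * N := by positivity
          linarith
        exact_mod_cast h1
      have hyN : y ≤ N := by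
        have : k₁ ≤ k₁ * M := Nat.le_mul_of_pos_right _ hM1
        omega
      set x : Fin t → ℝ := fun i => α i.castSucc with hx
      set x' : Fin t → ℝ := fun i => (k₁ : ℝ) ^ ((i : ℕ) + 1) * sh (y : ℝ) x i with hx'
      have hterm : ∀ m : ℕ, Q.eval ((y : ℝ) + k₁ * m) - Q.coeff (t + 1) * ((y : ℝ) + k₁ * m) ^ (t + 1)
          = pol x' (m : ℝ) + (pol x (y : ℝ) + c) := by
        intro m
        rw [hev, htop, WeylV_pol_succ, add_comm (y : ℝ) ((k₁ : ℝ) * m), pol_add, WeylV_pol_mul]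
        ring
      rw [sum_congr rfl fun m _ => by rw [hterm]] at hsum
      obtain ⟨k₂, hk₂, hk₂K, hk₂d⟩ := hI M hM1 x' _ hsum
      have hk₁r : (k₁ : ℝ) ≤ K₁ := by exact_mod_cast hk₁K
      have hk₂r : (k₂ : ℝ) ≤ K₂ := by exact_mod_cast hk₂K
      have hk₁1 : (1 : ℝ) ≤ k₁ := by exact_mod_cast hk₁
      have hmax : (0 : ℝ) < max 1 (1 / c₁) := by linarith
      have hKle : ((k₂ * k₁ ^ (t + 1) : ℕ) : ℝ) ≤ C := by
        push_cast
        have h1 : (k₂ : ℝ) * (k₁ : ℝ) ^ (t + 1) ≤ K₂ * K₁ ^ (t + 1) := by gcongr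
        have h2 : (1 : ℝ) ≤ (max 1 (1 / c₁)) ^ (t + 1) := one_le_pow₀ hm1
        calc (k₂ : ℝ) * (k₁ : ℝ) ^ (t + 1) ≤ K₂ * K₁ ^ (t + 1) := h1
          _ = (K₁ ^ (t + 1) * K₂) * 1 := by ring
          _ ≤ _ := by
            rw [hC]
            gcongr
      refine ⟨k₂ * k₁ ^ (t + 1), ?_, ?_, ?_⟩
      · exact Nat.mul_pos hk₂ (Nat.pow_pos hk₁)
      · have : ((k₂ * k₁ ^ (t + 1) : ℕ) : ℝ) ≤ K := hKle.trans hKC'
        exact_mod_cast this
      · have hy0 : ∀ j : Fin t, dZ (((k₂ * k₁ ^ (t + 1) : ℕ) : ℝ) * sh (y : ℝ) x j) ≤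
            C / (N : ℝ) ^ ((j : ℕ) + 1) := by
          intro j
          have h1 : ((k₂ * k₁ ^ (t + 1) : ℕ) : ℝ) * sh (y : ℝ) x j =
              ((k₁ ^ (t - (j : ℕ)) : ℕ) : ℝ) * (k₂ * x' j) := by
            rw [hx']
            push_cast
            have h2 : (k₁ : ℝ) ^ (t + 1) = (k₁ : ℝ) ^ (t - (j : ℕ)) * (k₁ : ℝ) ^ ((j : ℕ) + 1) := by
              rw [← pow_add]
              congr 1
              omega
            rw [h2]
            ring
          rw [h1]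
          refine (dZ_nat_mul_le _ _).trans ?_
          have h2 := hk₂d j
          have hMp : (0 : ℝ) < M := by exact_mod_cast hM1
          have h3 : (K₂ : ℝ) / (M : ℝ) ^ ((j : ℕ) + 1) ≤
              K₂ * (max 1 (1 / c₁)) ^ (t + 1) / (N : ℝ) ^ ((j : ℕ) + 1) := by
            rw [div_le_div_iff₀ (by positivity) (by positivity)]
            have h4 : (N : ℝ) ≤ max 1 (1 / c₁) * M := by
              have h5 : (N : ℝ) ≤ 1 / c₁ * M := by
                rw [one_div_mul_eq_div, le_div_iff₀ hc₁]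
                linarith
              exact h5.trans (by gcongr; exact le_max_right _ _)
            have h5 : (N : ℝ) ^ ((j : ℕ) + 1) ≤
                (max 1 (1 / c₁)) ^ (t + 1) * (M : ℝ) ^ ((j : ℕ) + 1) := by
              calc (N : ℝ) ^ ((j : ℕ) + 1) ≤ (max 1 (1 / c₁) * M) ^ ((j : ℕ) + 1) := by gcongr
                _ = (max 1 (1 / c₁)) ^ ((j : ℕ) + 1) * (M : ℝ) ^ ((j : ℕ) + 1) := mul_pow _ _ _
                _ ≤ _ := by
                  have : (max 1 (1 / c₁)) ^ ((j : ℕ) + 1) ≤ (max 1 (1 / c₁)) ^ (t + 1) :=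
                    pow_le_pow_right₀ hm1 (by omega)
                  gcongr
            calc (K₂ : ℝ) * (N : ℝ) ^ ((j : ℕ) + 1) ≤
                K₂ * ((max 1 (1 / c₁)) ^ (t + 1) * (M : ℝ) ^ ((j : ℕ) + 1)) := by gcongr
              _ = _ := by ring
          have h4 : ((k₁ ^ (t - (j : ℕ)) : ℕ) : ℝ) ≤ (K₁ : ℝ) ^ (t + 1) := by
            push_cast
            calc (k₁ : ℝ) ^ (t - (j : ℕ)) ≤ (K₁ : ℝ) ^ (t - (j : ℕ)) := by gcongr
              _ ≤ (K₁ : ℝ) ^ (t + 1) := pow_le_pow_right₀ hK₁r (by omega)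
          calc ((k₁ ^ (t - (j : ℕ)) : ℕ) : ℝ) * dZ (k₂ * x' j) ≤
              (K₁ : ℝ) ^ (t + 1) * (K₂ * (max 1 (1 / c₁)) ^ (t + 1) / (N : ℝ) ^ ((j : ℕ) + 1)) := by
                have h5 := h2.trans h3
                have h6 := dZ_nonneg (k₂ * x' j)
                gcongr
            _ = C / (N : ℝ) ^ ((j : ℕ) + 1) := by
              rw [hC]
              ring
        intro i
        rcases Fin.eq_castSucc_or_eq_last i with ⟨j, rfl⟩ | rfl
        · have h1 := sh_dZ (-(y : ℤ)) 1 le_rfl N hN (by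
            push_cast
            rw [abs_neg, Nat.abs_cast, one_mul]
            exact_mod_cast hyN) (k₂ * k₁ ^ (t + 1)) C (by linarith) (sh (y : ℝ) x) hy0 j
          have h2 : sh (((-(y : ℤ) : ℤ)) : ℝ) (sh (y : ℝ) x) = x := by
            rw [sh_sh]
            push_cast
            rw [neg_add_cancel, sh_zero]
          rw [h2] at h1
          refine h1.trans ?_
          rw [Fin.val_castSucc]
          have h3 : (t : ℝ) * 2 ^ t * 1 ^ t * C ≤ K := by
            refine le_trans ?_ hKC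
            rw [one_pow, mul_one]
            have : (0 : ℝ) ≤ C := by linarith
            nlinarith
          gcongr
        · rw [Fin.val_last]
          have h1 : ((k₂ * k₁ ^ (t + 1) : ℕ) : ℝ) * α (Fin.last t) =
              ((k₂ * k₁ ^ t : ℕ) : ℝ) * (k₁ * Q.coeff (t + 1)) := by
            rw [htop]
            push_cast
            ring
          rw [h1]
          refine (dZ_nat_mul_le _ _).trans ?_
          have h2 : ((k₂ * k₁ ^ t : ℕ) : ℝ) * K₁ ≤ K := by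
            refine le_trans ?_ hKC'
            push_cast
            have h3 : (1 : ℝ) ≤ (max 1 (1 / c₁)) ^ (t + 1) := one_le_pow₀ hm1
            calc (k₂ : ℝ) * (k₁ : ℝ) ^ t * K₁ ≤ K₂ * K₁ ^ t * K₁ := by gcongr
              _ = (K₁ ^ (t + 1) * K₂) * 1 := by ring
              _ ≤ _ := by
                rw [hC]
                gcongr
          calc ((k₂ * k₁ ^ t : ℕ) : ℝ) * dZ (k₁ * Q.coeff (t + 1)) ≤
              ((k₂ * k₁ ^ t : ℕ) : ℝ) * (K₁ / (N : ℝ) ^ (t + 1)) := by gcongr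
            _ = ((k₂ * k₁ ^ t : ℕ) : ℝ) * K₁ / (N : ℝ) ^ (t + 1) := by ring
            _ ≤ K / (N : ℝ) ^ (t + 1) := by gcongr

end Pool.Agent.Lib.MP_3e612f_nt.NF
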