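import Pool.Agent.Lib.MP_3e612f_nt.NF.P.Smooth
import Pool.Agent.Lib.MP_3e612f_nt.NF.P.WeylV
import Pool.Agent.Lib.MP_3e612f_nt.NF.P.Trig
import Pool.Agent.Lib.MP_3e612f_nt.NF.P.LevA
import Pool.Agent.Lib.MP_3e612f_nt.NF.P.EquiTop

/-! A polynomial that is often near a null set is almost constant modulo bounded denominators (paper v2, O). -/

set_option autoImplicit false

namespace Pool.Agent.Lib.MP_3e612f_nt.NF

open Finset
open Pool.Agent.Lib.MP_3e612f_nt.MR (mu ex)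

/-- the set `Z` as a subset of `Fin 1 → ℝ` -/
theorem od_small (Z : Set ℝ) (hZ : IsClosed Z) (h0 : MeasureTheory.volume Z = 0) (c : ℝ) (hc : 0 < c) :
    ∃ n : ℕ, ∫ x in Set.Icc (0 : Fin 1 → ℝ) 1, gK n {x : Fin 1 → ℝ | x 0 ∈ Z} x ≤ c := by
  set K : Set (Fin 1 → ℝ) := {x : Fin 1 → ℝ | x 0 ∈ Z} with hKd
  have hK : IsClosed K := hZ.preimage (continuous_apply 0)
  have hvK : MeasureTheory.volume K = 0 := by
    have h := (MeasureTheory.volume_preserving_funUnique (Fin 1) ℝ).measure_preimage hZ.measurableSet.nullMeasurableSet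
    rw [h0] at h
    have h2 : K = (MeasurableEquiv.funUnique (Fin 1) ℝ) ⁻¹' Z := by
      ext x
      simp only [hKd, Set.mem_ofPred_eq, Set.mem_preimage, MeasurableEquiv.funUnique_apply]
      rfl
    rw [h2]
    exact h
  have h1 : Filter.Tendsto (fun n => ∫ x in Set.Icc (0 : Fin 1 → ℝ) 1, gK n K x) Filter.atTop
      (nhds (∫ x in Set.Icc (0 : Fin 1 → ℝ) 1, K.indicator (fun _ => (1 : ℝ)) x)) := by
    refine MeasureTheory.tendsto_integral_of_dominated_convergence (fun _ => (1 : ℝ)) ?_ ?_ ?_ ?_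
    · intro n
      exact (gK_cont n K).aestronglyMeasurable
    · exact MeasureTheory.integrableOn_const isCompact_Icc.measure_lt_top.ne
    · intro n
      refine Filter.Eventually.of_forall fun x => ?_
      rw [Real.norm_eq_abs, abs_of_nonneg (gK_nonneg n K _)]
      exact gK_le_one n K _
    · exact Filter.Eventually.of_forall fun x => gK_tendsto hK _
  have h2 : (∫ x in Set.Icc (0 : Fin 1 → ℝ) 1, K.indicator (fun _ => (1 : ℝ)) x) = 0 := by
    refine MeasureTheory.integral_eq_zero_of_ae ?_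
    have h3 : ∀ᵐ x ∂(MeasureTheory.volume : MeasureTheory.Measure (Fin 1 → ℝ)), x ∉ K :=
      MeasureTheory.measure_eq_zero_iff_ae_notMem.1 hvK
    refine MeasureTheory.ae_restrict_of_ae ?_
    filter_upwards [h3] with x hx
    exact Set.indicator_of_notMem hx _
  rw [h2] at h1
  exact ((h1.eventually (eventually_le_nhds hc)).exists)

open scoped Classical in
/-- a frequency with a large exponential sum -/
theorem od_freq (Z : Set ℝ) (hZ : IsClosed Z) (hp : Per1 Z) (h0 : MeasureTheory.volume Z = 0) (c : ℝ) (hc : 0 < c) :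
    ∃ (L : ℕ) (κ ρ : ℝ), 0 < κ ∧ 0 < ρ ∧ ∀ H : ℕ, 1 ≤ H → ∀ f : ℕ → ℝ,
      c * H ≤ ((((range H).filter (fun s : ℕ => ∃ y ∈ Z, |f s - y| ≤ ρ)).card : ℕ) : ℝ) →
      ∃ l : ℤ, l ≠ 0 ∧ l.natAbs ≤ L ∧ κ * H ≤ ‖∑ s ∈ range H, ex ((l : ℝ) * f s)‖ := by
  obtain ⟨n, hn⟩ := od_small Z hZ h0 (c / 8) (by positivity)
  set K : Set (Fin 1 → ℝ) := {x : Fin 1 → ℝ | x 0 ∈ Z} with hKd
  have hKper : Per K := fun x hx z => hp _ hx (z 0)
  obtain ⟨Λ, a, hΛ⟩ := trig_approx (gK n K) (gK_cont n K) (fun x z => gK_per n hKper x z) (c / 16) (by positivity)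
  set A : ℝ := ∑ l ∈ Λ, ‖a l‖ + 1 with hA
  have hA0 : 0 ≤ ∑ l ∈ Λ, ‖a l‖ := Finset.sum_nonneg fun _ _ => norm_nonneg _
  have hA1 : 1 ≤ A := by rw [hA]; linarith
  have hnpos : (0 : ℝ) < (n : ℝ) + 1 := Nat.cast_add_one_pos n
  -- the mean value
  set G0 : ℂ := ∑ l ∈ Λ, a l * (if (∀ i : Fin 1, l i = 0) then 1 else 0) with hG0
  have hint : ∫ x in Set.Icc (0 : Fin 1 → ℝ) 1, (∑ l ∈ Λ, a l * ex (∑ i, (l i : ℝ) * x i)) = G0 := by
    rw [MeasureTheory.integral_finsetSum]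
    · rw [hG0]
      refine Finset.sum_congr rfl fun l _ => ?_
      rw [MeasureTheory.integral_const_mul, eqt_int_cube l]
    · intro l _
      apply Continuous.integrableOn_Icc
      have := eqt_ex_cont
      fun_prop
  have h1 : ‖((∫ x in Set.Icc (0 : Fin 1 → ℝ) 1, gK n K x : ℝ) : ℂ) - G0‖ ≤ c / 16 := by
    rw [← hint, ← integral_complex_ofReal, ← MeasureTheory.integral_sub]
    · have hv : MeasureTheory.volume (Set.Icc (0 : Fin 1 → ℝ) 1) = 1 := by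
        rw [Real.volume_Icc_pi]; simp
      refine (MeasureTheory.norm_setIntegral_le_of_norm_le_const (C := c / 16) (by rw [hv]; exact ENNReal.one_lt_top) ?_).trans ?_
      · intro x _
        exact hΛ _
      · rw [MeasureTheory.measureReal_def, hv]
        simp
    · exact (Complex.continuous_ofReal.comp (gK_cont n K)).integrableOn_Icc
    · apply Continuous.integrableOn_Icc
      refine continuous_finsetSum _ fun l _ => continuous_const.mul (eqt_ex_cont.comp ?_)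
      refine continuous_finsetSum _ fun i _ => continuous_const.mul ?_
      exact continuous_apply i
  have hI0 : 0 ≤ ∫ x in Set.Icc (0 : Fin 1 → ℝ) 1, gK n K x :=
    MeasureTheory.integral_nonneg fun x => gK_nonneg n K x
  have hG0n : ‖G0‖ ≤ c / 8 + c / 16 := by
    have h2 : ‖G0‖ ≤ ‖((∫ x in Set.Icc (0 : Fin 1 → ℝ) 1, gK n K x : ℝ) : ℂ)‖ + ‖((∫ x in Set.Icc (0 : Fin 1 → ℝ) 1, gK n K x : ℝ) : ℂ) - G0‖ := by
      have h3 := norm_sub_norm_le G0 ((∫ x in Set.Icc (0 : Fin 1 → ℝ) 1, gK n K x : ℝ) : ℂ)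
      rw [← norm_neg (G0 - _), neg_sub] at h3
      linarith
    rw [Complex.norm_real, Real.norm_eq_abs, abs_of_nonneg hI0] at h2
    linarith
  refine ⟨∑ l ∈ Λ, (l 0).natAbs, c / (8 * A), 1 / (2 * ((n : ℝ) + 1)), by positivity, by positivity, ?_⟩
  intro H hH f hf
  have hH0 : (0 : ℝ) < H := by exact_mod_cast hH
  by_contra hcon
  push Not at hcon
  -- lower bound
  have hlow : c / 2 * H ≤ ∑ s ∈ range H, gK n K (fun _ => f s) := by
    have h2 : (1 / 2 : ℝ) * ((((range H).filter (fun s : ℕ => ∃ y ∈ Z, |f s - y| ≤ 1 / (2 * ((n : ℝ) + 1)))).card : ℕ) : ℝ) ≤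
        ∑ s ∈ range H, gK n K (fun _ => f s) := by
      rw [Finset.card_eq_sum_ones, Nat.cast_sum, Finset.mul_sum, Finset.sum_filter]
      refine Finset.sum_le_sum fun s _ => ?_
      split_ifs with hs
      · obtain ⟨y, hy, hys⟩ := hs
        have h3 := gK_half n K (fun _ => f s) ⟨fun _ => y, hy, fun _ => hys⟩
        simpa using h3
      · exact gK_nonneg _ _ _
    linarith
  -- upper bound
  have hup : ∑ s ∈ range H, gK n K (fun _ => f s) ≤ c / 16 * H + ‖∑ s ∈ range H, ∑ l ∈ Λ, a l * ex (∑ i : Fin 1, (l i : ℝ) * f s)‖ := by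
    have h2 : ‖((∑ s ∈ range H, gK n K (fun _ => f s) : ℝ) : ℂ) - ∑ s ∈ range H, ∑ l ∈ Λ, a l * ex (∑ i : Fin 1, (l i : ℝ) * f s)‖ ≤ c / 16 * H := by
      push_cast
      rw [← Finset.sum_sub_distrib]
      refine (norm_sum_le _ _).trans ((Finset.sum_le_sum fun s _ => hΛ (fun _ => f s)).trans (le_of_eq ?_))
      rw [Finset.sum_const, Finset.card_range, nsmul_eq_mul]
      ring
    have h3 := norm_sub_norm_le ((∑ s ∈ range H, gK n K (fun _ => f s) : ℝ) : ℂ) (∑ s ∈ range H, ∑ l ∈ Λ, a l * ex (∑ i : Fin 1, (l i : ℝ) * f s))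
    have h4 : ‖((∑ s ∈ range H, gK n K (fun _ => f s) : ℝ) : ℂ)‖ = ∑ s ∈ range H, gK n K (fun _ => f s) := by
      rw [Complex.norm_real, Real.norm_eq_abs, abs_of_nonneg]
      exact Finset.sum_nonneg fun s _ => gK_nonneg _ _ _
    linarith
  have hsplit : ‖∑ s ∈ range H, ∑ l ∈ Λ, a l * ex (∑ i : Fin 1, (l i : ℝ) * f s)‖ ≤ ‖G0‖ * H + c / 8 * H := by
    rw [Finset.sum_comm]
    have h5 : ∑ l ∈ Λ, ∑ s ∈ range H, a l * ex (∑ i : Fin 1, (l i : ℝ) * f s) =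
        G0 * H + ∑ l ∈ Λ, (if (∀ i : Fin 1, l i = 0) then 0 else a l * ∑ s ∈ range H, ex ((l 0 : ℝ) * f s)) := by
      rw [hG0, Finset.sum_mul, ← Finset.sum_add_distrib]
      refine Finset.sum_congr rfl fun l _ => ?_
      split_ifs with hl
      · have h6 : l 0 = 0 := hl 0
        simp [h6, ex_zero]
        ring
      · simp [Finset.mul_sum]
    rw [h5]
    refine (norm_add_le _ _).trans (add_le_add ?_ ?_)
    · rw [norm_mul, Complex.norm_natCast]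
    · refine (norm_sum_le _ _).trans ?_
      have h7 : ∀ l ∈ Λ, ‖(if (∀ i : Fin 1, l i = 0) then (0 : ℂ) else a l * ∑ s ∈ range H, ex ((l 0 : ℝ) * f s))‖ ≤ ‖a l‖ * (c / (8 * A) * H) := by
        intro l hl
        split_ifs with hl0
        · rw [norm_zero]
          positivity
        · rw [norm_mul]
          refine mul_le_mul_of_nonneg_left ?_ (norm_nonneg _)
          refine (hcon (l 0) ?_ ?_).le
          · intro h8
            apply hl0
            intro i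
            rw [Subsingleton.elim i 0]
            exact h8
          · exact Finset.single_le_sum (f := fun l : Fin 1 → ℤ => (l 0).natAbs) (fun _ _ => Nat.zero_le _) hl
      refine (Finset.sum_le_sum h7).trans ?_
      rw [← Finset.sum_mul]
      have h9 : (∑ l ∈ Λ, ‖a l‖) ≤ A := by rw [hA]; linarith
      calc (∑ l ∈ Λ, ‖a l‖) * (c / (8 * A) * H) ≤ A * (c / (8 * A) * H) := by
            refine mul_le_mul_of_nonneg_right h9 (by positivity)
        _ = c / 8 * H := by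
            have : A ≠ 0 := by positivity
            field_simp
  have h10 : ‖G0‖ * H ≤ (c / 8 + c / 16) * H := mul_le_mul_of_nonneg_right hG0n hH0.le
  nlinarith [mul_pos hc hH0]

open scoped Classical in
/-- bounded denominators -/
theorem od_den (t : ℕ) (Z : Set ℝ) (hZ : IsClosed Z) (hp : Per1 Z) (h0 : MeasureTheory.volume Z = 0) (c : ℝ) (hc : 0 < c) :
    ∃ (Q K : ℕ) (ρ : ℝ), 1 ≤ Q ∧ 0 < ρ ∧ ∀ H : ℕ, 1 ≤ H → ∀ (U : Fin t → ℝ) (u₀ : ℝ),
      c * H ≤ ((((range H).filter (fun s : ℕ => ∃ y ∈ Z, |pol U (s : ℝ) + u₀ - y| ≤ ρ)).card : ℕ) : ℝ) →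
      ∃ q : ℕ, 1 ≤ q ∧ q ≤ Q ∧ ∀ d : Fin t, dZ (q * U d) ≤ K / (H : ℝ) ^ ((d : ℕ) + 1) := by
  rcases Nat.eq_zero_or_pos t with ht | ht
  · subst ht
    refine ⟨1, 0, 1, le_rfl, one_pos, fun H hH U u₀ _ => ⟨1, le_rfl, le_rfl, fun d => d.elim0⟩⟩
  · obtain ⟨L, κ, ρ, hκ, hρ, hL⟩ := od_freq Z hZ hp h0 c hc
    obtain ⟨K, hK1, hK⟩ := weyl_all t ht κ hκ
    refine ⟨K * L + 1, K, ρ, by omega, hρ, ?_⟩
    intro H hH U u₀ hU
    obtain ⟨l, hl0, hlL, hl⟩ := hL H hH (fun s => pol U (s : ℝ) + u₀) hU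
    have h1 : ∀ s : ℕ, ex ((l : ℝ) * (pol U (s : ℝ) + u₀)) = ex (pol (fun i => (l : ℝ) * U i) (s : ℝ) + (l : ℝ) * u₀) := by
      intro s
      congr 1
      unfold pol
      rw [mul_add, Finset.mul_sum]
      congr 1
      refine Finset.sum_congr rfl fun i _ => ?_
      ring
    simp_rw [h1] at hl
    obtain ⟨k, hk1, hkK, hk⟩ := hK H hH _ _ hl
    refine ⟨k * l.natAbs, ?_, ?_, ?_⟩
    · have : 1 ≤ l.natAbs := by omega
      exact Nat.mul_pos hk1 this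
    · exact (Nat.mul_le_mul hkK hlL).trans (Nat.le_succ _)
    · intro d
      have h2 := hk d
      have h3 : dZ (((k * l.natAbs : ℕ) : ℝ) * U d) = dZ ((k : ℝ) * ((l : ℝ) * U d)) := by
        rcases Int.natAbs_eq l with h4 | h4
        · congr 1
          have h5 : (l : ℝ) = (l.natAbs : ℝ) := by
            conv_lhs => rw [h4]
            simp
          rw [h5]
          push_cast
          ring
        · have h5 : (l : ℝ) = -(l.natAbs : ℝ) := by
            conv_lhs => rw [h4]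
            simp
          rw [← dZ_neg]
          congr 1
          rw [h5]
          push_cast
          ring
      rw [h3]
      exact h2

/-- congruence of the rational part -/
theorem od_cong {t : ℕ} (q : ℕ) (hq : 1 ≤ q) (a : Fin t → ℤ) (s : ℕ) :
    ∃ z : ℤ, pol (fun d => (a d : ℝ) / q) (s : ℝ) = pol (fun d => (a d : ℝ) / q) ((s % q : ℕ) : ℝ) + z := by
  have hq0 : (q : ℝ) ≠ 0 := by
    have : q ≠ 0 := by omega
    exact_mod_cast this
  have h1 : ∀ d : Fin t, ∃ z : ℤ, (a d : ℝ) / q * (s : ℝ) ^ ((d : ℕ) + 1) = (a d : ℝ) / q * ((s % q : ℕ) : ℝ) ^ ((d : ℕ) + 1) + z := by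
    intro d
    have h2 : (q : ℤ) ∣ (s : ℤ) ^ ((d : ℕ) + 1) - ((s % q : ℕ) : ℤ) ^ ((d : ℕ) + 1) := by
      refine dvd_trans ?_ (sub_dvd_pow_sub_pow _ _ _)
      have h3 : (s : ℤ) - ((s % q : ℕ) : ℤ) = q * ((s / q : ℕ) : ℤ) := by
        have := Nat.div_add_mod s q
        have h4 : ((q * (s / q) + s % q : ℕ) : ℤ) = (s : ℤ) := by rw [this]
        push_cast at h4 ⊢
        linarith
      rw [h3]
      exact dvd_mul_right _ _
    obtain ⟨w, hw⟩ := h2
    refine ⟨a d * w, ?_⟩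
    have h5 : (s : ℝ) ^ ((d : ℕ) + 1) - ((s % q : ℕ) : ℝ) ^ ((d : ℕ) + 1) = q * w := by
      exact_mod_cast hw
    have h6 : (s : ℝ) ^ ((d : ℕ) + 1) = ((s % q : ℕ) : ℝ) ^ ((d : ℕ) + 1) + q * w := by linarith
    rw [h6]
    push_cast
    field_simp
  choose z hz using h1
  refine ⟨∑ d, z d, ?_⟩
  unfold pol
  push_cast
  rw [← Finset.sum_add_distrib]
  exact Finset.sum_congr rfl fun d _ => hz d

open scoped Classical in
/-- The one-dimensional claim. (1) `gK n Z` (`Z ⊆ ℝ^1`) has integral over a period `≤ c/8` for some `n` (`volume Z = 0`); for `ρ ≤ 1/(2(n+1))`, `(c/2) H ≤ ∑_{s<H} gK n Z (pol U s + u₀)`; `trig_approx` (`t = 1`): some frequency `0 < |l| ≤ L₁` has `|∑_s e(l (pol U s + u₀))| ≥ κ H`; `weyl_all`: `k ≤ K`,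
`dZ (k l U_d) ≤ K/H^(d+1)`; `q = k|l| ≤ Q`. This `Q` depends only on `t, Z, c`. (2) Given `δ`: suppose `dZ (q U_d) > δ/H^(d+1)` for some `d`. `U_d = a_d/q + θ_d`, `|θ_d| ≤ K/(q H^(d+1))`; on the class `s ≡ s₁ (q)` `pol U s + u₀ ≡ pol w (s/H) + v` modulo 1 with `w_d = θ_d H^(d+1)`, `|w_d| ≤ K`, some
`|w_d| ≥ δ/q ≥ δ/Q`. `smooth_count` with `δ/Q`, `c/(2Q)`: the number of `s` is at most `q (c/(2Q)) H ≤ (c/2) H < cH`. -/
theorem one_dim (t : ℕ) (Z : Set ℝ) (hZ : IsClosed Z) (hp : Per1 Z) (h0 : MeasureTheory.volume Z = 0) (c : ℝ) (hc : 0 < c) :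
    ∃ Q : ℕ, 1 ≤ Q ∧ ∀ δ : ℝ, 0 < δ → ∃ ρ : ℝ, 0 < ρ ∧ ∃ H₀ : ℕ, ∀ H : ℕ, H₀ ≤ H → ∀ (U : Fin t → ℝ) (u₀ : ℝ),
      c * H ≤ ((((range H).filter (fun s : ℕ => ∃ y ∈ Z, |pol U (s : ℝ) + u₀ - y| ≤ ρ)).card : ℕ) : ℝ) →
      ∃ q : ℕ, 1 ≤ q ∧ q ≤ Q ∧ ∀ d : Fin t, dZ (q * U d) ≤ δ / (H : ℝ) ^ ((d : ℕ) + 1) := by
  obtain ⟨Q, K, ρ₁, hQ1, hρ₁, hden⟩ := od_den t Z hZ hp h0 c hc
  refine ⟨Q, hQ1, fun δ hδ => ?_⟩
  have hQ0 : (0 : ℝ) < Q := by exact_mod_cast hQ1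
  obtain ⟨ρ₂, hρ₂, H₂, hsm⟩ := smooth_count (t := t) Z hZ hp h0 (K : ℝ) (δ / Q) (c / (2 * Q)) (by positivity) (by positivity)
  refine ⟨min ρ₁ ρ₂, lt_min hρ₁ hρ₂, max 1 H₂, ?_⟩
  intro H hH U u₀ hU
  have hH1 : 1 ≤ H := (le_max_left _ _).trans hH
  have hH2 : H₂ ≤ H := (le_max_right _ _).trans hH
  have hH0 : (0 : ℝ) < H := by exact_mod_cast hH1
  have hU1 : c * H ≤ ((((range H).filter (fun s : ℕ => ∃ y ∈ Z, |pol U (s : ℝ) + u₀ - y| ≤ ρ₁)).card : ℕ) : ℝ) := by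
    refine hU.trans ?_
    have : ((range H).filter (fun s : ℕ => ∃ y ∈ Z, |pol U (s : ℝ) + u₀ - y| ≤ min ρ₁ ρ₂)).card ≤
        ((range H).filter (fun s : ℕ => ∃ y ∈ Z, |pol U (s : ℝ) + u₀ - y| ≤ ρ₁)).card := by
      refine Finset.card_le_card (Finset.monotone_filter_right _ ?_)
      rintro s _ ⟨y, hy, hys⟩
      exact ⟨y, hy, hys.trans (min_le_left _ _)⟩
    exact_mod_cast this
  obtain ⟨q, hq1, hqQ, hq⟩ := hden H hH1 U u₀ hU1
  refine ⟨q, hq1, hqQ, ?_⟩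
  by_contra hcon
  push Not at hcon
  obtain ⟨d₀, hd₀⟩ := hcon
  have hq0 : (0 : ℝ) < q := by exact_mod_cast hq1
  have hqQ' : (q : ℝ) ≤ Q := by exact_mod_cast hqQ
  -- rational approximation
  choose a ha using fun d : Fin t => exists_int ((q : ℝ) * U d)
  set θ : Fin t → ℝ := fun d => U d - (a d : ℝ) / q with hθ
  have hθa : ∀ d, |θ d| = dZ (q * U d) / q := by
    intro d
    rw [← ha d]
    have : U d - (a d : ℝ) / q = (q * U d - a d) / q := by field_simp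
    rw [hθ]
    simp only
    rw [this, abs_div, abs_of_pos hq0]
  set w : Fin t → ℝ := fun d => (H : ℝ) ^ ((d : ℕ) + 1) * θ d with hw
  have hwa : ∀ d, |w d| = (H : ℝ) ^ ((d : ℕ) + 1) * (dZ (q * U d) / q) := by
    intro d
    rw [hw]
    simp only
    rw [abs_mul, hθa, abs_of_pos (by positivity)]
  have hwK : ∀ d, |w d| ≤ K := by
    intro d
    rw [hwa]
    have h1 : dZ (q * U d) / q ≤ dZ (q * U d) := by
      refine div_le_self (dZ_nonneg _) ?_
      exact_mod_cast hq1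
    have h2 := h1.trans (hq d)
    calc (H : ℝ) ^ ((d : ℕ) + 1) * (dZ (q * U d) / q) ≤ (H : ℝ) ^ ((d : ℕ) + 1) * (K / (H : ℝ) ^ ((d : ℕ) + 1)) := by
          refine mul_le_mul_of_nonneg_left h2 (by positivity)
      _ = K := by field_simp
  have hwδ : ∃ d, δ / Q ≤ |w d| := by
    refine ⟨d₀, ?_⟩
    rw [hwa]
    calc δ / Q ≤ δ / q := by
          refine div_le_div_of_nonneg_left hδ.le hq0 hqQ'
      _ = (H : ℝ) ^ ((d₀ : ℕ) + 1) * (δ / (H : ℝ) ^ ((d₀ : ℕ) + 1) / q) := by field_simp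
      _ ≤ (H : ℝ) ^ ((d₀ : ℕ) + 1) * (dZ (q * U d₀) / q) := by
          refine mul_le_mul_of_nonneg_left ?_ (by positivity)
          exact div_le_div_of_nonneg_right hd₀.le hq0.le
  -- values
  have hval : ∀ s : ℕ, ∃ z : ℤ, pol U (s : ℝ) + u₀ = pol w ((s : ℝ) / H) + (pol (fun d => (a d : ℝ) / q) ((s % q : ℕ) : ℝ) + u₀) + z := by
    intro s
    obtain ⟨z, hz⟩ := od_cong q hq1 a s
    refine ⟨z, ?_⟩
    have h1 : pol w ((s : ℝ) / H) = pol θ (s : ℝ) := by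
      rw [hw, ← WeylV_pol_mul θ (H : ℝ) ((s : ℝ) / H)]
      congr 1
      field_simp
    have h2 : pol U (s : ℝ) = pol θ (s : ℝ) + pol (fun d => (a d : ℝ) / q) (s : ℝ) := by
      unfold pol
      rw [← Finset.sum_add_distrib]
      refine Finset.sum_congr rfl fun d _ => ?_
      rw [hθ]
      ring
    rw [h1, h2, hz]
    ring
  have hsub : (range H).filter (fun s : ℕ => ∃ y ∈ Z, |pol U (s : ℝ) + u₀ - y| ≤ min ρ₁ ρ₂) ⊆
      (range q).biUnion fun r => (range H).filter (fun s : ℕ => ∃ y ∈ Z, |pol w ((s : ℝ) / H) + (pol (fun d => (a d : ℝ) / q) ((r : ℕ) : ℝ) + u₀) - y| ≤ ρ₂) := by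
    intro s hs
    rw [Finset.mem_filter] at hs
    obtain ⟨hsH, y, hy, hys⟩ := hs
    rw [Finset.mem_biUnion]
    refine ⟨s % q, Finset.mem_range.2 (Nat.mod_lt _ hq1), ?_⟩
    rw [Finset.mem_filter]
    obtain ⟨z, hz⟩ := hval s
    refine ⟨hsH, y + ((-z : ℤ) : ℝ), hp y hy (-z), ?_⟩
    rw [hz] at hys
    refine le_trans (le_of_eq ?_) (hys.trans (min_le_right _ _))
    congr 1
    push_cast
    ring
  have hcard := Finset.card_le_card hsub
  have hcard2 : ((((range H).filter (fun s : ℕ => ∃ y ∈ Z, |pol U (s : ℝ) + u₀ - y| ≤ min ρ₁ ρ₂)).card : ℕ) : ℝ) ≤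
      ∑ r ∈ range q, (((range H).filter (fun s : ℕ => ∃ y ∈ Z, |pol w ((s : ℝ) / H) + (pol (fun d => (a d : ℝ) / q) ((r : ℕ) : ℝ) + u₀) - y| ≤ ρ₂)).card : ℝ) := by
    have h1 := hcard.trans Finset.card_biUnion_le
    exact_mod_cast h1
  have hcard3 : ∑ r ∈ range q, (((range H).filter (fun s : ℕ => ∃ y ∈ Z, |pol w ((s : ℝ) / H) + (pol (fun d => (a d : ℝ) / q) ((r : ℕ) : ℝ) + u₀) - y| ≤ ρ₂)).card : ℝ) ≤
      ∑ r ∈ range q, (c / (2 * Q) * H) :=
    Finset.sum_le_sum fun r _ => hsm H hH2 w _ hwK hwδ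
  rw [Finset.sum_const, Finset.card_range, nsmul_eq_mul] at hcard3
  have h4 : (q : ℝ) * (c / (2 * Q) * H) ≤ c / 2 * H := by
    calc (q : ℝ) * (c / (2 * Q) * H) ≤ (Q : ℝ) * (c / (2 * Q) * H) := by
          refine mul_le_mul_of_nonneg_right hqQ' (by positivity)
      _ = c / 2 * H := by field_simp
  have h5 := hU.trans (hcard2.trans (hcard3.trans h4))
  nlinarith [mul_pos hc hH0]

end Pool.Agent.Lib.MP_3e612f_nt.NF
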