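import Pool.Agent.Lib.MP_3e612f_nt.NF.P.ShB
import Pool.Agent.Lib.MP_3e612f_nt.NF.WeylAll

/-! Exponential sums along orbits of translations (paper v2). -/

set_option autoImplicit false

namespace Pool.Agent.Lib.MP_3e612f_nt.NF

open Finset
open Pool.Agent.Lib.MP_3e612f_nt.MR (mu ex)

/-- `s ↦ ∑_i l_i (sh s α)_i` as a polynomial -/
private theorem orb_poly {t : ℕ} (l : Fin (t + 1) → ℤ) (j : ℕ) (hj : j < t) (hmin : ∀ i : Fin (t + 1), (i : ℕ) < j → l i = 0)
    (α : Fin (t + 1) → ℝ) : ∃ Q : Polynomial ℝ, Q.natDegree ≤ t - j ∧ (∀ s : ℝ, Q.eval s = ∑ i, (l i : ℝ) * sh s α i) ∧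
      Q.coeff (t - j) = (l ⟨j, by omega⟩ : ℝ) * (Nat.choose (t + 1) (j + 1) : ℝ) * α (Fin.last t) := by
  refine ⟨∑ i : Fin (t + 1), ∑ m : Fin (t + 1), Polynomial.C ((l i : ℝ) * (Nat.choose ((m : ℕ) + 1) ((i : ℕ) + 1) : ℝ) * α m) *
    Polynomial.X ^ ((m : ℕ) - (i : ℕ)), ?_, ?_, ?_⟩
  · refine Polynomial.natDegree_sum_le_of_forall_le _ _ fun i _ => Polynomial.natDegree_sum_le_of_forall_le _ _ fun m _ => ?_
    by_cases hi : (i : ℕ) < j
    · rw [hmin i hi]
      simp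
    · refine (Polynomial.natDegree_C_mul_X_pow_le _ _).trans ?_
      have := m.2
      omega
  · intro s
    rw [Polynomial.eval_finsetSum]
    refine Finset.sum_congr rfl fun i _ => ?_
    rw [Polynomial.eval_finsetSum]
    unfold sh
    rw [Finset.mul_sum]
    refine Finset.sum_congr rfl fun m _ => ?_
    rw [Polynomial.eval_mul, Polynomial.eval_C, Polynomial.eval_pow, Polynomial.eval_X]
    ring
  · rw [Polynomial.finsetSum_coeff, Finset.sum_eq_single ⟨j, by omega⟩]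
    · rw [Polynomial.finsetSum_coeff, Finset.sum_eq_single (Fin.last t)]
      · rw [Polynomial.coeff_C_mul, Polynomial.coeff_X_pow, if_pos (by simp), mul_one]
        simp
      · intro m _ hm
        rw [Polynomial.coeff_C_mul, Polynomial.coeff_X_pow, if_neg, mul_zero]
        intro h
        apply hm
        apply Fin.ext
        rw [Fin.val_last]
        simp only at h
        omega
      · intro h
        exact absurd (Finset.mem_univ _) h
    · intro i _ hi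
      rw [Polynomial.finsetSum_coeff]
      refine Finset.sum_eq_zero fun m _ => ?_
      by_cases hi2 : (i : ℕ) < j
      · rw [hmin i hi2]
        simp
      · rw [Polynomial.coeff_C_mul, Polynomial.coeff_X_pow, if_neg, mul_zero]
        intro h
        apply hi
        apply Fin.ext
        have := m.2
        simp only
        omega
    · intro h
      exact absurd (Finset.mem_univ _) h

/-- `s ↦ ∑_i l_i (sh s α)_i`: let `j` be the smallest index (`< t`) with `l_j ≠ 0`; the function is a polynomial in `s` of degree at most `t - j` whose coefficient of `s^(t-j)` is `l_j choose(t+1, j+1) α_t`. `weyl'` in degree `t - j ≥ 1`: `dZ (k l_j choose α_t) ≤ K/H^(t-j) ≤ K/H`. -/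
theorem orbit_sum {t : ℕ} (κ : ℝ) (hκ : 0 < κ) (l : Fin (t + 1) → ℤ) (hl : ∃ i : Fin t, l i.castSucc ≠ 0) : ∃ K' : ℕ, 1 ≤ K' ∧ ∀ H : ℕ, 1 ≤ H → ∀ α : Fin (t + 1) → ℝ,
    κ * H ≤ ‖∑ s ∈ range H, ex (∑ i, (l i : ℝ) * sh (s : ℝ) α i)‖ → ∃ k : ℕ, 1 ≤ k ∧ k ≤ K' ∧ dZ (k * α (Fin.last t)) ≤ K' / H := by
  classical
  obtain ⟨j, hj, hlj, hmin⟩ : ∃ (j : ℕ) (hj : j < t), l ⟨j, by omega⟩ ≠ 0 ∧ ∀ i : Fin (t + 1), (i : ℕ) < j → l i = 0 := by
    have hex : ∃ n : ℕ, ∃ h : n < t, l ⟨n, by omega⟩ ≠ 0 := by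
      obtain ⟨i, hi⟩ := hl
      exact ⟨i, i.2, hi⟩
    refine ⟨Nat.find hex, (Nat.find_spec hex).1, (Nat.find_spec hex).2, fun i hi => ?_⟩
    by_contra h
    exact Nat.find_min hex hi ⟨hi.trans (Nat.find_spec hex).1, h⟩
  obtain ⟨K, hK1, hK⟩ := weyl' (t - j) (by omega) κ hκ
  have hc : 0 < Nat.choose (t + 1) (j + 1) := Nat.choose_pos (by omega)
  have hla : 0 < (l ⟨j, by omega⟩).natAbs := Int.natAbs_pos.2 hlj
  refine ⟨K * ((l ⟨j, by omega⟩).natAbs * Nat.choose (t + 1) (j + 1)), ?_, ?_⟩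
  · exact Nat.mul_pos hK1 (Nat.mul_pos hla hc)
  · intro H hH α h
    obtain ⟨Q, hQ1, hQ2, hQ3⟩ := orb_poly l j hj hmin α
    obtain ⟨k, hk1, hk2, hk3⟩ := hK H hH Q hQ1 (by
      simp only [hQ2]
      exact h)
    refine ⟨k * ((l ⟨j, by omega⟩).natAbs * Nat.choose (t + 1) (j + 1)), Nat.mul_pos hk1 (Nat.mul_pos hla hc),
      Nat.mul_le_mul_right _ hk2, ?_⟩
    have e1 : dZ (((k * ((l ⟨j, by omega⟩).natAbs * Nat.choose (t + 1) (j + 1)) : ℕ) : ℝ) * α (Fin.last t)) =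
        dZ (k * Q.coeff (t - j)) := by
      rw [hQ3]
      push_cast
      have h3 : (((l ⟨j, by omega⟩).natAbs : ℕ) : ℝ) = ((((l ⟨j, by omega⟩).natAbs : ℕ) : ℤ) : ℝ) := (Int.cast_natCast _).symm
      rcases Int.natAbs_eq (l ⟨j, by omega⟩) with h1 | h1
      · rw [← h1] at h3
        congr 1
        rw [h3]
        ring
      · have h4 : (((l ⟨j, by omega⟩).natAbs : ℕ) : ℤ) = - l ⟨j, by omega⟩ := by omega
        rw [h4, Int.cast_neg] at h3
        rw [← dZ_neg]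
        congr 1
        rw [h3]
        ring
    rw [e1]
    refine hk3.trans ?_
    have hH1 : (1 : ℝ) ≤ H := by exact_mod_cast hH
    have hH0 : (0 : ℝ) < H := by linarith
    have e2 : (H : ℝ) ≤ (H : ℝ) ^ (t - j) := by
      calc (H : ℝ) = (H : ℝ) ^ 1 := (pow_one _).symm
        _ ≤ _ := pow_le_pow_right₀ hH1 (by omega)
    have e3 : (K : ℝ) ≤ ((K * ((l ⟨j, by omega⟩).natAbs * Nat.choose (t + 1) (j + 1)) : ℕ) : ℝ) := by
      have : K ≤ K * ((l ⟨j, by omega⟩).natAbs * Nat.choose (t + 1) (j + 1)) :=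
        Nat.le_mul_of_pos_right _ (Nat.mul_pos hla hc)
      exact_mod_cast this
    exact div_le_div₀ (Nat.cast_nonneg _) e3 hH0 e2

end Pool.Agent.Lib.MP_3e612f_nt.NF
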