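import Pool.Agent.Lib.MP_3e612f_nt.NF.P.Classify
import Pool.Agent.Lib.MP_3e612f_nt.NF.P.KmQ
import Pool.Agent.Lib.MP_3e612f_nt.NF.P.Good

/-! Theorem (N): ordinary averages (paper v2). -/

set_option autoImplicit false

namespace Pool.Agent.Lib.MP_3e612f_nt.NF

open Finset
open Pool.Agent.Lib.MP_3e612f_nt.MR (mu ex)

theorem pn_norm_mu (n : ℕ) : ‖(mu n : ℂ)‖ ≤ 1 := by
  rw [Complex.norm_real, Real.norm_eq_abs]
  unfold mu
  have h := ArithmeticFunction.abs_moebius_le_one (n := n)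
  exact_mod_cast h

theorem pn_sum_le {t : ℕ} (α : Fin t → ℝ) (n H : ℕ) :
    ‖∑ h ∈ Icc 1 H, (mu (n + h) : ℂ) * ex (pol α (h : ℝ))‖ ≤ H := by
  refine (norm_sum_le _ _).trans ?_
  have h1 : ∀ h ∈ Icc 1 H, ‖(mu (n + h) : ℂ) * ex (pol α (h : ℝ))‖ ≤ 1 := by
    intro h _
    rw [norm_mul, norm_ex, mul_one]
    exact pn_norm_mu _
  refine (sum_le_sum h1).trans ?_
  simp

/-- Counting in blocks of length `H`. -/
theorem pn_blocks (H : ℕ) (hH : 1 ≤ H) (N : ℕ) (P : ℕ → Prop) [DecidablePred P] (c : ℝ)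
    (h : ∀ n₀ : ℕ, (((range H).filter (fun s => P (n₀ + s))).card : ℝ) ≤ c) :
    (((range N).filter P).card : ℝ) ≤ ((N : ℝ) / H + 1) * c := by
  have hc : 0 ≤ c := le_trans (Nat.cast_nonneg _) (h 0)
  have h1 : (range N).filter P ⊆ (range (N / H + 1)).biUnion
      fun j => ((range H).filter (fun s => P (j * H + s))).image (fun s => j * H + s) := by
    intro n hn
    rw [mem_filter, mem_range] at hn
    rw [mem_biUnion]
    refine ⟨n / H, ?_, ?_⟩
    · rw [mem_range]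
      exact Nat.lt_succ_of_le (Nat.div_le_div_right hn.1.le)
    · rw [mem_image]
      have h2 : n / H * H + n % H = n := Nat.div_add_mod' n H
      refine ⟨n % H, ?_, h2⟩
      rw [mem_filter, mem_range, h2]
      exact ⟨Nat.mod_lt _ hH, hn.2⟩
  have h2 : ((range N).filter P).card ≤
      ∑ j ∈ range (N / H + 1), ((range H).filter (fun s => P (j * H + s))).card := by
    refine (card_le_card h1).trans (card_biUnion_le.trans ?_)
    exact sum_le_sum fun j _ => card_image_le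
  have h3 : (((range N).filter P).card : ℝ) ≤ ∑ j ∈ range (N / H + 1), c := by
    have h5 : (((range N).filter P).card : ℝ) ≤
        ((∑ j ∈ range (N / H + 1), ((range H).filter (fun s => P (j * H + s))).card : ℕ) : ℝ) :=
      Nat.cast_le.mpr h2
    refine h5.trans ?_
    rw [Nat.cast_sum]
    exact sum_le_sum fun j _ => h _
  refine h3.trans ?_
  rw [sum_const, card_range, nsmul_eq_mul]
  apply mul_le_mul_of_nonneg_right _ hc
  push_cast
  have h4 : ((N / H : ℕ) : ℝ) ≤ (N : ℝ) / H := Nat.cast_div_le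
  linarith

/-- (N). As (P), with `GN`: the items with `I ≥ 2` have `C = ∅` and their condition is never satisfied (`I ≤ t`); `I = 1`: `km_q` for `ε w/4`. Ordinary sums over `n < N`. -/
theorem part_n (t : ℕ) (ht : 1 ≤ t) (K : Set (Fin t → ℝ)) (hK : IsClosed K) (hp : Per K) (h0 : NullN t K) (ε : ℝ) (hε : 0 < ε) :
    ∃ H₀ : ℕ, ∀ H : ℕ, H₀ ≤ H → ∃ N₀ : ℕ, ∀ N : ℕ, N₀ ≤ N → ∀ α : ℕ → Fin t → ℝ, (∀ n, α n ∈ K) →
      ∑ n ∈ Icc 1 N, ‖∑ h ∈ Icc 1 H, (mu (n + h) : ℂ) * ex (pol (α n) (h : ℝ))‖ ≤ ε * H * N := by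
  classical
  have hA := admN_of_null t K hK hp h0
  obtain ⟨ε', hε'0, hε'1, hε'2⟩ : ∃ ε' : ℝ, 0 < ε' ∧ ε' ≤ 1 ∧ ε' ≤ ε / 8 :=
    ⟨min (ε / 8) 1, lt_min (by linarith) one_pos, min_le_right _ _, min_le_left _ _⟩
  -- the widths
  obtain ⟨Δ, hΔ0, hΔ1⟩ : ∃ Δ : ℕ → Set ℝ → ℕ → ℝ → ℝ, (∀ I C Q w, 0 < Δ I C Q w) ∧
      ∀ C Q w, IsClosed C → Per1 C → (∀ x ∈ C, ∃ q : ℚ, x = q) → 0 < w →
        ∃ H₀ : ℕ, ∀ H : ℕ, H₀ ≤ H → ∃ N₀ : ℕ, ∀ N : ℕ, N₀ ≤ N → ∀ α : ℕ → Fin t → ℝ,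
          ∑ n ∈ (range N).filter (fun n => Cond 1 C Q (Δ 1 C Q w) H (α n)),
            ‖∑ h ∈ Icc 1 H, (mu (n + h) : ℂ) * ex (pol (α n) (h : ℝ))‖ ≤ ε * w / 4 * H * N := by
    have key : ∀ (C : Set ℝ) (Q : ℕ) (w : ℝ), ∃ δ : ℝ, 0 < δ ∧
        (IsClosed C → Per1 C → (∀ x ∈ C, ∃ q : ℚ, x = q) → 0 < w →
        ∃ H₀ : ℕ, ∀ H : ℕ, H₀ ≤ H → ∃ N₀ : ℕ, ∀ N : ℕ, N₀ ≤ N → ∀ α : ℕ → Fin t → ℝ,
          ∑ n ∈ (range N).filter (fun n => Cond 1 C Q δ H (α n)),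
            ‖∑ h ∈ Icc 1 H, (mu (n + h) : ℂ) * ex (pol (α n) (h : ℝ))‖ ≤ ε * w / 4 * H * N) := by
      intro C Q w
      by_cases hh : IsClosed C ∧ Per1 C ∧ (∀ x ∈ C, ∃ q : ℚ, x = q) ∧ 0 < w
      · obtain ⟨h1, h2, h3, h4⟩ := hh
        obtain ⟨δ, hδ, H₀, h5⟩ := km_q t ht C h1 h2 h3 Q (ε * w / 4) (by positivity)
        refine ⟨δ, hδ, fun _ _ _ _ => ⟨H₀, fun H hH => ?_⟩⟩
        obtain ⟨N₀, h6⟩ := h5 H hH
        refine ⟨N₀, fun N hN α => ?_⟩
        refine le_trans (le_of_eq ?_) (h6 N hN α)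
        refine sum_congr ?_ fun _ _ => rfl
        ext n
        simp
      · exact ⟨1, one_pos, fun h1 h2 h3 h4 => absurd ⟨h1, h2, h3, h4⟩ hh⟩
    choose D hD0 hD1 using key
    exact ⟨fun _ C Q w => D C Q w, fun _ C Q w => hD0 C Q w, fun C Q w => hD1 C Q w⟩
  obtain ⟨m, I, C, Q, w, hI, hw1, H₁, hcl⟩ := classify good_GN t ht K hK hp hA ε' hε'0 hε'1 Δ hΔ0
  -- every condition
  have hk : ∀ k : ℕ, ∃ H₀ : ℕ, k < m → ∀ H : ℕ, H₀ ≤ H → ∃ N₀ : ℕ, ∀ N : ℕ, N₀ ≤ N → ∀ α : ℕ → Fin t → ℝ,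
      ∑ n ∈ (range N).filter (fun n => Cond (I k) (C k) (Q k) (Δ (I k) (C k) (Q k) (w k)) H (α n)),
        ‖∑ h ∈ Icc 1 H, (mu (n + h) : ℂ) * ex (pol (α n) (h : ℝ))‖ ≤ ε * w k / 4 * H * N := by
    intro k
    by_cases hkm : k < m
    · obtain ⟨h1, h2, h3, h4, h5, h6, h7⟩ := hI k hkm
      by_cases hI1 : I k = 1
      · obtain ⟨H₀, h8⟩ := hΔ1 (C k) (Q k) (w k) h3 h4 h5.1 h7
        refine ⟨H₀, fun _ H hH => ?_⟩
        obtain ⟨N₀, h9⟩ := h8 H hH
        refine ⟨N₀, fun N hN α => ?_⟩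
        rw [hI1]
        exact h9 N hN α
      · refine ⟨0, fun _ H _ => ⟨0, fun N _ α => ?_⟩⟩
        have hC : C k = ∅ := h5.2 (by omega)
        have h8 : (range N).filter (fun n => Cond (I k) (C k) (Q k) (Δ (I k) (C k) (Q k) (w k)) H (α n)) = ∅ := by
          apply filter_eq_empty_iff.mpr
          intro n _ hn
          obtain ⟨y, hy, -⟩ := hn.2 ⟨I k - 1, by omega⟩ (by
            show I k - 1 + 1 = I k
            omega)
          rw [hC] at hy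
          exact hy
        rw [h8, sum_empty]
        positivity
    · exact ⟨0, fun h => absurd h hkm⟩
  choose Hk hHk using hk
  refine ⟨max (max H₁ 1) ((range m).sup Hk), fun H hH => ?_⟩
  have hH1 : H₁ ≤ H := le_trans (le_trans (le_max_left _ _) (le_max_left _ _)) hH
  have hH2 : 1 ≤ H := le_trans (le_trans (le_max_right _ _) (le_max_left _ _)) hH
  have hH3 : ∀ k < m, Hk k ≤ H := fun k hk =>
    le_trans (Finset.le_sup (f := Hk) (mem_range.mpr hk)) (le_trans (le_max_right _ _) hH)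
  have hN : ∀ k : ℕ, ∃ N₀ : ℕ, k < m → ∀ N : ℕ, N₀ ≤ N → ∀ α : ℕ → Fin t → ℝ,
      ∑ n ∈ (range N).filter (fun n => Cond (I k) (C k) (Q k) (Δ (I k) (C k) (Q k) (w k)) H (α n)),
        ‖∑ h ∈ Icc 1 H, (mu (n + h) : ℂ) * ex (pol (α n) (h : ℝ))‖ ≤ ε * w k / 4 * H * N := by
    intro k
    by_cases hkm : k < m
    · obtain ⟨N₀, h⟩ := hHk k hkm H (hH3 k hkm)
      exact ⟨N₀, fun _ => h⟩
    · exact ⟨0, fun h => absurd h hkm⟩
  choose Nk hNk using hN
  refine ⟨max (H + 1) ((range m).sup Nk), fun N hN α hα => ?_⟩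
  have hN1 : H + 1 ≤ N := le_trans (le_max_left _ _) hN
  have hN2 : ∀ k < m, Nk k ≤ N + 1 := fun k hk =>
    le_trans (le_trans (Finset.le_sup (f := Nk) (mem_range.mpr hk)) (le_trans (le_max_right _ _) hN)) (Nat.le_succ _)
  obtain ⟨S, hS⟩ : ∃ S : ℕ → ℝ, S = fun n => ‖∑ h ∈ Icc 1 H, (mu (n + h) : ℂ) * ex (pol (α n) (h : ℝ))‖ := ⟨_, rfl⟩
  have hS0 : ∀ n, 0 ≤ S n := fun n => by rw [hS]; exact norm_nonneg _
  have hSH : ∀ n, S n ≤ H := fun n => by rw [hS]; exact pn_sum_le _ _ _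
  obtain ⟨Bd, hBd⟩ : ∃ Bd : ℕ → Prop, Bd = fun n => ε' * H ≤ S n ∧
    ∀ k < m, ¬ Cond (I k) (C k) (Q k) (Δ (I k) (C k) (Q k) (w k)) H (α n) := ⟨_, rfl⟩
  have hHr : (1 : ℝ) ≤ H := by exact_mod_cast hH2
  have hNr : (H : ℝ) + 1 ≤ N := by exact_mod_cast hN1
  -- (b)
  have hb : (((range (N + 1)).filter Bd).card : ℝ) ≤ (((N + 1 : ℕ) : ℝ) / H + 1) * (ε' * H) := by
    apply pn_blocks H hH2
    intro n₀
    refine le_trans (le_of_eq ?_) (hcl H hH1 (fun n => (mu n : ℂ)) pn_norm_mu α hα n₀)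
    congr 2
    ext s
    rw [hBd, hS]
    simp
  -- pointwise bound
  have hpt : ∀ n ∈ range (N + 1), S n ≤ ε' * H + (if Bd n then (H : ℝ) else 0) +
      ∑ k ∈ range m, (if Cond (I k) (C k) (Q k) (Δ (I k) (C k) (Q k) (w k)) H (α n) then S n else 0) := by
    intro n _
    have e1 : 0 ≤ ε' * H := by positivity
    have e2 : 0 ≤ (if Bd n then (H : ℝ) else 0) := by split_ifs <;> linarith
    have e3 : ∀ k ∈ range m, 0 ≤ (if Cond (I k) (C k) (Q k) (Δ (I k) (C k) (Q k) (w k)) H (α n) then S n else 0) := by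
      intro k _
      split_ifs
      · exact hS0 n
      · exact le_rfl
    have e4 := sum_nonneg e3
    by_cases c1 : S n < ε' * H
    · linarith
    · by_cases c2 : ∀ k < m, ¬ Cond (I k) (C k) (Q k) (Δ (I k) (C k) (Q k) (w k)) H (α n)
      · have c3 : Bd n := by
          rw [hBd]
          exact ⟨not_lt.mp c1, c2⟩
        rw [if_pos c3]
        have := hSH n
        linarith
      · have c3 : ∃ k, k < m ∧ Cond (I k) (C k) (Q k) (Δ (I k) (C k) (Q k) (w k)) H (α n) := by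
          by_contra c4
          exact c2 fun k hk hc => c4 ⟨k, hk, hc⟩
        obtain ⟨k, hkm, hc⟩ := c3
        have e5 := single_le_sum e3 (mem_range.mpr hkm)
        rw [if_pos hc] at e5
        linarith
  have hsum : ∑ n ∈ range (N + 1), S n ≤ ε' * H * (N + 1) + H * ((((N + 1 : ℕ) : ℝ) / H + 1) * (ε' * H)) +
      ε / 4 * H * (N + 1) := by
    refine (sum_le_sum hpt).trans ?_
    rw [sum_add_distrib, sum_add_distrib]
    refine add_le_add (add_le_add ?_ ?_) ?_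
    · rw [sum_const, card_range, nsmul_eq_mul]
      push_cast
      linarith
    · rw [← sum_filter, sum_const, nsmul_eq_mul, mul_comm]
      exact mul_le_mul_of_nonneg_left hb (by linarith)
    · rw [sum_comm]
      have e6 : ∀ k ∈ range m, ∑ n ∈ range (N + 1), (if Cond (I k) (C k) (Q k) (Δ (I k) (C k) (Q k) (w k)) H (α n) then S n else 0) ≤
          w k * (ε / 4 * H * (N + 1)) := by
        intro k hk
        rw [← sum_filter]
        have e7 := hNk k (mem_range.mp hk) (N + 1) (hN2 k (mem_range.mp hk)) α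
        rw [hS]
        refine e7.trans (le_of_eq ?_)
        push_cast
        ring
      refine (sum_le_sum e6).trans ?_
      rw [← sum_mul]
      have e8 : 0 ≤ ε / 4 * H * ((N : ℝ) + 1) := by positivity
      nlinarith
  have hsub : ∑ n ∈ Icc 1 N, S n ≤ ∑ n ∈ range (N + 1), S n := by
    refine sum_le_sum_of_subset_of_nonneg ?_ fun n _ _ => hS0 n
    intro n hn
    rw [mem_Icc] at hn
    rw [mem_range]
    omega
  have hfin : ∑ n ∈ Icc 1 N, S n ≤ ε * H * N := by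
    refine hsub.trans (hsum.trans ?_)
    have e9 : (H : ℝ) * ((((N + 1 : ℕ) : ℝ) / H + 1) * (ε' * H)) = ε' * H * ((N : ℝ) + 1 + H) := by
      have : (H : ℝ) ≠ 0 := by linarith
      push_cast
      field_simp
    rw [e9]
    have e10 : ε' * H * ((N : ℝ) + 1) ≤ ε / 8 * H * (N + 1) := by
      apply mul_le_mul_of_nonneg_right _ (by linarith)
      exact mul_le_mul_of_nonneg_right hε'2 (by linarith)
    have e11 : ε' * H * ((N : ℝ) + 1 + H) ≤ ε / 8 * H * (N + 1 + H) := by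
      apply mul_le_mul_of_nonneg_right _ (by linarith)
      exact mul_le_mul_of_nonneg_right hε'2 (by linarith)
    have e12 : 0 < ε * H := by positivity
    nlinarith
  rw [hS] at hfin
  exact hfin

end Pool.Agent.Lib.MP_3e612f_nt.NF
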