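import Pool.Agent.Lib.MP_3e612f_nt.NF.P.Defs

/-! Preimages of null sets under polynomials (paper v2, O). -/

set_option autoImplicit false

namespace Pool.Agent.Lib.MP_3e612f_nt.NF

open Finset
open Pool.Agent.Lib.MP_3e612f_nt.MR (mu ex)

/-- A subset of an interval on which the derivative of a polynomial has no zero, mapped by the polynomial into a null set, is a null set. -/
theorem poly_null_inj (P : Polynomial ℝ) (Z A : Set ℝ) (hA : MeasurableSet A) (h0 : MeasureTheory.volume Z = 0)
    (hAZ : ∀ u ∈ A, P.eval u ∈ Z) (hd : ∀ u ∈ A, P.derivative.eval u ≠ 0) (hinj : Set.InjOn (fun u => P.eval u) A) :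
    MeasureTheory.volume A = 0 := by
  have h1 := MeasureTheory.lintegral_image_eq_lintegral_abs_deriv_mul hA
    (fun x _ => (P.hasDerivAt x).hasDerivWithinAt) hinj (fun _ => 1)
  have h2 : MeasureTheory.volume ((fun u => P.eval u) '' A) = 0 := by
    refine MeasureTheory.measure_mono_null ?_ h0
    rintro _ ⟨u, hu, rfl⟩
    exact hAZ u hu
  have h3 : (∫⁻ x in A, ENNReal.ofReal |P.derivative.eval x| * 1) = 0 := by
    rw [← h1, MeasureTheory.lintegral_one, MeasureTheory.Measure.restrict_apply_univ]
    exact h2
  have hm : Measurable fun x : ℝ => ENNReal.ofReal |P.derivative.eval x| * 1 := by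
    have : Continuous fun x : ℝ => P.derivative.eval x := P.derivative.continuous
    exact ((this.abs.measurable).ennreal_ofReal).mul_const 1
  rw [MeasureTheory.lintegral_eq_zero_iff hm] at h3
  have h4 := (MeasureTheory.ae_restrict_iff' hA).1 h3
  rw [MeasureTheory.ae_iff] at h4
  refine MeasureTheory.measure_mono_null ?_ h4
  intro u hu h5
  have h6 := h5 hu
  simp only [mul_one, Pi.zero_apply, ENNReal.ofReal_eq_zero] at h6
  exact hd u hu (abs_nonpos_iff.1 h6)

/-- A nonconstant polynomial map `ℝ → ℝ` pulls back closed null sets to null sets: the derivative has finitely many zeros; on each of the finitely many complementary open intervals the map is strictly monotone, and `∫_{A} |w'| = volume (w '' A) ≤ volume Z = 0` for `A` = the preimage in the interval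
(`MeasureTheory.lintegral_abs_deriv_eq_addHaar_image` or `lintegral_abs_det_fderiv_eq_addHaar_image`), so `volume A = 0`. -/
theorem poly_null {t : ℕ} (w : Fin t → ℝ) (hw : w ≠ 0) (v : ℝ) (Z : Set ℝ) (hZ : IsClosed Z) (h0 : MeasureTheory.volume Z = 0) :
    MeasureTheory.volume {u : ℝ | pol w u + v ∈ Z} = 0 := by
  obtain ⟨P, hP⟩ : ∃ P : Polynomial ℝ, P = ∑ i : Fin t, Polynomial.C (w i) * Polynomial.X ^ ((i : ℕ) + 1) + Polynomial.C v := ⟨_, rfl⟩
  have hev : ∀ u, pol w u + v = P.eval u := by
    intro u
    rw [hP]
    unfold pol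
    simp [Polynomial.eval_finset_sum]
  have hcoef : ∀ i : Fin t, P.coeff ((i : ℕ) + 1) = w i := by
    intro i
    rw [hP, Polynomial.coeff_add, Polynomial.finset_sum_coeff, Polynomial.coeff_C_succ, add_zero]
    rw [Finset.sum_eq_single i]
    · rw [Polynomial.coeff_C_mul, Polynomial.coeff_X_pow, if_pos rfl, mul_one]
    · intro j _ hj
      rw [Polynomial.coeff_C_mul, Polynomial.coeff_X_pow, if_neg, mul_zero]
      intro h
      exact hj (Fin.ext (by omega))
    · intro h
      exact absurd (Finset.mem_univ i) h
  have hder : P.derivative ≠ 0 := by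
    intro h
    have h1 := Polynomial.natDegree_eq_zero_of_derivative_eq_zero h
    apply hw
    funext i
    rw [← hcoef i, Pi.zero_apply]
    exact Polynomial.coeff_eq_zero_of_natDegree_lt (by omega)
  have hsub : {u : ℝ | pol w u + v ∈ Z} ⊆ {u | Polynomial.IsRoot P.derivative u} ∪
      {u | P.eval u ∈ Z ∧ P.derivative.eval u ≠ 0} := by
    intro u hu
    by_cases h : P.derivative.eval u = 0
    · exact Or.inl h
    · refine Or.inr ⟨?_, h⟩
      rw [← hev]
      exact hu
  refine MeasureTheory.measure_mono_null hsub (MeasureTheory.measure_union_null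
    (Set.Finite.measure_zero (Polynomial.finite_setOf_isRoot hder) _) ?_)
  have hcd : Continuous fun x : ℝ => P.derivative.eval x := P.derivative.continuous
  have hc : Continuous fun x : ℝ => P.eval x := P.continuous
  refine MeasureTheory.measure_null_of_locally_null _ ?_
  rintro a ⟨ha, ha'⟩
  have hmeas : MeasurableSet {u | P.eval u ∈ Z ∧ P.derivative.eval u ≠ 0} := by
    have h1 : IsClosed {u | P.eval u ∈ Z} := hZ.preimage hc
    have h2 : IsOpen {u | P.derivative.eval u ≠ 0} := isOpen_ne_fun hcd continuous_const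
    exact h1.measurableSet.inter h2.measurableSet
  obtain ⟨r, hr, hrb⟩ : ∃ r > 0, (∀ u ∈ Metric.ball a r, 0 < P.derivative.eval u) ∨
      (∀ u ∈ Metric.ball a r, P.derivative.eval u < 0) := by
    rcases lt_or_gt_of_ne ha' with h | h
    · have h1 : IsOpen {u | P.derivative.eval u < 0} := isOpen_lt hcd continuous_const
      obtain ⟨r, hr, h2⟩ := Metric.isOpen_iff.1 h1 a h
      exact ⟨r, hr, Or.inr h2⟩
    · have h1 : IsOpen {u | 0 < P.derivative.eval u} := isOpen_lt continuous_const hcd
      obtain ⟨r, hr, h2⟩ := Metric.isOpen_iff.1 h1 a h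
      exact ⟨r, hr, Or.inl h2⟩
  have hinj : Set.InjOn (fun u => P.eval u) (Metric.ball a r) := by
    rcases hrb with h | h
    · refine (strictMonoOn_of_deriv_pos (convex_ball a r) hc.continuousOn ?_).injOn
      intro x hx
      rw [Polynomial.deriv]
      exact h x (interior_subset hx)
    · refine (strictAntiOn_of_deriv_neg (convex_ball a r) hc.continuousOn ?_).injOn
      intro x hx
      rw [Polynomial.deriv]
      exact h x (interior_subset hx)
  refine ⟨{u | P.eval u ∈ Z ∧ P.derivative.eval u ≠ 0} ∩ Metric.ball a r,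
    Filter.inter_mem self_mem_nhdsWithin (mem_nhdsWithin_of_mem_nhds (Metric.ball_mem_nhds a hr)), ?_⟩
  exact poly_null_inj P Z _ (hmeas.inter Metric.isOpen_ball.measurableSet) h0 (fun u hu => hu.1.1)
    (fun u hu => hu.1.2) (hinj.mono Set.inter_subset_right)

end Pool.Agent.Lib.MP_3e612f_nt.NF
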