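import Pool.Agent.Lib.MP_3e612f_nt.NF.P.Defs

/-! Nearly rational coefficient vectors (paper v2, KM). -/

set_option autoImplicit false

namespace Pool.Agent.Lib.MP_3e612f_nt.NF

open Finset
open Pool.Agent.Lib.MP_3e612f_nt.MR (mu ex)

/-- All coefficients above level 1 are rational with denominator at most `Q` up to `δ/H^j`, and the linear coefficient is within `ρ` of a rational number with denominator at most `R`. -/
def RatC {t : ℕ} (Q R : ℕ) (ρ δ : ℝ) (H : ℕ) (α : Fin t → ℝ) : Prop :=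
  (∃ q : ℕ, 1 ≤ q ∧ q ≤ Q ∧ ∀ j : Fin t, 1 ≤ (j : ℕ) → dZ (q * α j) ≤ δ / (H : ℝ) ^ (j : ℕ)) ∧
    ∀ j : Fin t, (j : ℕ) = 0 → ∃ r : ℕ, 1 ≤ r ∧ r ≤ R ∧ ∃ b : ℤ, |α j - b / r| ≤ ρ

end Pool.Agent.Lib.MP_3e612f_nt.NF
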