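import Pool.Agent.Lib.MP_3e612f_nt.NF.P.RatDef
import Pool.Agent.Lib.MP_3e612f_nt.NF.C.Defs

/-! Nearly rational windows: pointwise bound (paper v2, KM). -/

set_option autoImplicit false

namespace Pool.Agent.Lib.MP_3e612f_nt.NF

open Finset
open Pool.Agent.Lib.MP_3e612f_nt.MR (mu ex)

/-- The interval `[1,H]` is the union of the cells (class modulo `q`, subwindow of length `h₁`). -/
theorem cell_sum {M : Type*} [AddCommMonoid M] (q h₁ H : ℕ) (hq : 1 ≤ q) (hh : 1 ≤ h₁) (g : ℕ → M) :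
    ∑ h ∈ Icc 1 H, g h = ∑ u ∈ range q, ∑ i ∈ range (H / h₁ + 1),
      ∑ h ∈ win q (max 1 (i * h₁)) (min ((i + 1) * h₁) (H + 1)) u, g h := by
  have h1 : ∀ h ∈ Icc 1 H, h % q ∈ range q := fun h _ => mem_range.2 (Nat.mod_lt _ hq)
  rw [← sum_fiberwise_of_maps_to h1]
  refine sum_congr rfl fun u hu => ?_
  have h2 : ∀ h ∈ (Icc 1 H).filter (fun h => h % q = u), h / h₁ ∈ range (H / h₁ + 1) := by
    intro h hh'
    rw [mem_filter, mem_Icc] at hh'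
    rw [mem_range, Nat.lt_succ_iff]
    exact Nat.div_le_div_right hh'.1.2
  rw [← sum_fiberwise_of_maps_to h2]
  refine sum_congr rfl fun i _ => sum_congr ?_ fun _ _ => rfl
  ext h
  unfold win
  simp only [mem_filter, mem_Icc, mem_Ico]
  rw [Nat.mod_eq_of_lt (mem_range.1 hu)]
  have h3 : h / h₁ = i ↔ i * h₁ ≤ h ∧ h < (i + 1) * h₁ := by
    rw [Nat.div_eq_iff (by omega)]
    have : (i + 1) * h₁ = i * h₁ + h₁ := by ring
    constructor
    · rintro ⟨a, b⟩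
      exact ⟨by omega, by omega⟩
    · rintro ⟨a, b⟩
      exact ⟨by omega, by omega⟩
  rw [h3]
  simp only [max_le_iff, lt_min_iff]
  constructor
  · rintro ⟨⟨⟨a, b⟩, c⟩, d, e⟩
    exact ⟨⟨⟨a, d⟩, e, by omega⟩, c⟩
  · rintro ⟨⟨⟨a, d⟩, e, b⟩, c⟩
    exact ⟨⟨⟨a, by omega⟩, c⟩, d, e⟩

theorem cell_bound (s : Finset ℕ) (f e : ℕ → ℂ) (hf : ∀ n, ‖f n‖ ≤ 1) (he : ∀ h, ‖e h‖ = 1) (ε : ℝ)
    (hc : ∀ h ∈ s, ∀ h' ∈ s, ‖e h - e h'‖ ≤ ε) : ‖∑ h ∈ s, f h * e h‖ ≤ ε * (s.card : ℝ) + ‖∑ h ∈ s, f h‖ := by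
  rcases s.eq_empty_or_nonempty with rfl | ⟨h', hh'⟩
  · simp
  have h1 : ∑ h ∈ s, f h * e h = ∑ h ∈ s, f h * (e h - e h') + e h' * ∑ h ∈ s, f h := by
    rw [mul_sum, ← sum_add_distrib]
    exact sum_congr rfl fun h _ => by ring
  rw [h1]
  refine (norm_add_le _ _).trans (add_le_add ?_ ?_)
  · refine (norm_sum_le _ _).trans ?_
    calc ∑ h ∈ s, ‖f h * (e h - e h')‖ ≤ ∑ _h ∈ s, ε := by
          refine sum_le_sum fun h hs => ?_
          rw [norm_mul]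
          calc ‖f h‖ * ‖e h - e h'‖ ≤ 1 * ‖e h - e h'‖ :=
                mul_le_mul_of_nonneg_right (hf h) (norm_nonneg _)
            _ ≤ ε := by rw [one_mul]; exact hc h hs h' hh'
      _ = ε * s.card := by rw [sum_const, nsmul_eq_mul, mul_comm]
  · rw [norm_mul, he, one_mul]

theorem dZ_sum_le {ι : Type*} (s : Finset ι) (x : ι → ℝ) : dZ (∑ i ∈ s, x i) ≤ ∑ i ∈ s, dZ (x i) := by
  classical
  induction s using Finset.induction_on with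
  | empty => simp [dZ]
  | insert i s hi ih =>
    rw [sum_insert hi, sum_insert hi]
    exact (dZ_add_le _ _).trans (by linarith)

/-- difference of powers of two natural numbers `≤ H` -/
theorem pow_sub_abs_le {H : ℕ} {a b : ℤ} (ha : 0 ≤ a) (hb : 0 ≤ b) (haH : a ≤ H) (hbH : b ≤ H) (n : ℕ) :
    |(a : ℝ) ^ (n + 1) - (b : ℝ) ^ (n + 1)| ≤ (n + 1) * (H : ℝ) ^ n * |(a : ℝ) - b| := by
  have ha' : (0 : ℝ) ≤ a := by exact_mod_cast ha
  have hb' : (0 : ℝ) ≤ b := by exact_mod_cast hb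
  have haH' : (a : ℝ) ≤ H := by exact_mod_cast haH
  have hbH' : (b : ℝ) ≤ H := by exact_mod_cast hbH
  rw [← (Commute.all (a : ℝ) (b : ℝ)).geom_sum₂_mul (n + 1), abs_mul]
  refine mul_le_mul_of_nonneg_right ?_ (abs_nonneg _)
  rw [abs_of_nonneg (sum_nonneg fun i _ => by positivity)]
  calc ∑ i ∈ range (n + 1), (a : ℝ) ^ i * (b : ℝ) ^ (n + 1 - 1 - i) ≤ ∑ _i ∈ range (n + 1), (H : ℝ) ^ n := by
        refine sum_le_sum fun i hi => ?_
        have hin : i ≤ n := Nat.lt_succ_iff.1 (mem_range.1 hi)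
        calc (a : ℝ) ^ i * (b : ℝ) ^ (n + 1 - 1 - i) ≤ (H : ℝ) ^ i * (H : ℝ) ^ (n + 1 - 1 - i) := by
              gcongr
          _ = (H : ℝ) ^ n := by
              rw [← pow_add]; congr 1; omega
    _ = (n + 1) * (H : ℝ) ^ n := by rw [sum_const, card_range, nsmul_eq_mul]; push_cast; ring

/-- one coefficient: if `q₀ a` is within `κ` of an integer and `q₀ ∣ m` then `a m` is within `κ |m|` of an integer -/
theorem dZ_coef {q₀ : ℕ} (hq : 1 ≤ q₀) (a κ : ℝ) (h : dZ (q₀ * a) ≤ κ) {m : ℤ} (hm : (q₀ : ℤ) ∣ m) :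
    dZ (a * m) ≤ κ * |(m : ℝ)| := by
  obtain ⟨k, rfl⟩ := hm
  have h0 : 0 ≤ κ := (dZ_nonneg _).trans h
  have e : a * ((q₀ * k : ℤ) : ℝ) = (k : ℝ) * (q₀ * a) := by push_cast; ring
  rw [e]
  refine (dZ_int_mul_le k _).trans ?_
  have hq' : (1 : ℝ) ≤ q₀ := by exact_mod_cast hq
  calc |(k : ℝ)| * dZ (q₀ * a) ≤ |(k : ℝ)| * κ := mul_le_mul_of_nonneg_left h (abs_nonneg _)
    _ ≤ κ * |((q₀ * k : ℤ) : ℝ)| := by
      push_cast
      rw [abs_mul, abs_of_nonneg (by linarith : (0 : ℝ) ≤ q₀)]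
      nlinarith [mul_nonneg h0 (abs_nonneg (k : ℝ))]

/-- `h₁` = length of the subwindows, `ρ, δ ≤ ε/(C h₁)`. Let `q = q₀ r ≤ Q R`: `α_j = a_j/q + θ_j`, `|θ_j| ≤ δ/H^j` (`j ≥ 1`), `|θ_0| ≤ ρ`. For `h, h' ≤ H` in the same class modulo `q` and the same subwindow `[i h₁, (i+1) h₁)`: `|pol α h - pol α h'|` is within `∑_j (j+1) |θ_j| H^j h₁ ≤ t (t+1)(δ + ρ) h₁ ≤ ε/7` of an integer. So
the sum over class and subwindow is within `ε · #` of a unimodular constant times the sum of `f`. (`1 ≤ R` is needed only for `t = 0`.) -/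
theorem rat_split (t : ℕ) (Q R h₁ : ℕ) (hR : 1 ≤ R) (hh : 1 ≤ h₁) (ε : ℝ) (hε : 0 < ε) : ∃ ρ : ℝ, 0 < ρ ∧ ∃ δ : ℝ, 0 < δ ∧ ∀ H : ℕ, 1 ≤ H → ∀ f : ℕ → ℂ, (∀ n, ‖f n‖ ≤ 1) →
    ∀ α : Fin t → ℝ, RatC Q R ρ δ H α →
      ‖∑ h ∈ Icc 1 H, f h * ex (pol α (h : ℝ))‖ ≤ ε * H +
        ∑ q ∈ Icc 1 (Q * R), ∑ u ∈ range q, ∑ i ∈ range (H / h₁ + 1), ‖∑ h ∈ win q (max 1 (i * h₁)) (min ((i + 1) * h₁) (H + 1)) u, f h‖ := by
  have hh' : (1 : ℝ) ≤ h₁ := by exact_mod_cast hh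
  obtain ⟨δ, hδ⟩ : ∃ δ : ℝ, δ = ε / (7 * ((t : ℝ) + 1) ^ 2 * h₁) := ⟨_, rfl⟩
  have hδ0 : 0 < δ := by rw [hδ]; positivity
  have hδ1 : 7 * ((t : ℝ) * (t * (δ * h₁))) ≤ ε := by
    have h1 : 7 * (((t : ℝ) + 1) ^ 2 * (δ * h₁)) = ε := by
      rw [hδ]; field_simp
    have h2 : 0 ≤ δ * h₁ := by positivity
    have h3 : (0 : ℝ) ≤ t := Nat.cast_nonneg t
    nlinarith [mul_nonneg h3 h2]
  refine ⟨δ, hδ0, δ, hδ0, fun H hH f hf α hα => ?_⟩
  obtain ⟨⟨q₀, hq1, hqQ, hq2⟩, hr⟩ := hα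
  -- the denominator of the linear coefficient
  obtain ⟨r, hr1, hrR, hr2⟩ : ∃ r : ℕ, 1 ≤ r ∧ r ≤ R ∧ ∀ j : Fin t, (j : ℕ) = 0 → dZ (r * α j) ≤ r * δ := by
    by_cases ht : ∃ j : Fin t, (j : ℕ) = 0
    · obtain ⟨j, hj⟩ := ht
      obtain ⟨r, h1, h2, b, h3⟩ := hr j hj
      refine ⟨r, h1, h2, fun j' hj' => ?_⟩
      have : j' = j := Fin.ext (by rw [hj, hj'])
      subst this
      have hr0 : (0 : ℝ) < r := by exact_mod_cast h1
      refine (dZ_le_sub_int _ b).trans ?_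
      have e : (r : ℝ) * α j' - b = r * (α j' - b / r) := by field_simp
      rw [e, abs_mul, abs_of_pos hr0]
      exact mul_le_mul_of_nonneg_left h3 hr0.le
    · exact ⟨1, le_rfl, hR, fun j hj => absurd ⟨j, hj⟩ ht⟩
  have hH' : (1 : ℝ) ≤ H := by exact_mod_cast hH
  -- the phase is nearly constant on cells
  have key : ∀ h h' : ℕ, h ≤ H → h' ≤ H → (q₀ * r : ℕ) ∣ ((h : ℤ) - h').natAbs → |(h : ℝ) - h'| ≤ h₁ →
      ‖ex (pol α (h : ℝ)) - ex (pol α (h' : ℝ))‖ ≤ ε := by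
    intro h h' hhH hh'H hdvd hd
    refine (norm_ex_sub_ex_le' _ _).trans ?_
    refine le_trans ?_ hδ1
    refine mul_le_mul_of_nonneg_left ?_ (by norm_num)
    have e1 : pol α (h : ℝ) - pol α (h' : ℝ) = ∑ j : Fin t, α j * (((h : ℤ) ^ ((j : ℕ) + 1) - (h' : ℤ) ^ ((j : ℕ) + 1) : ℤ) : ℝ) := by
      unfold pol
      rw [← sum_sub_distrib]
      refine sum_congr rfl fun j _ => ?_
      push_cast
      ring
    rw [e1]
    refine (dZ_sum_le _ _).trans ?_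
    have hdv : ((q₀ * r : ℕ) : ℤ) ∣ (h : ℤ) - h' := Int.natCast_dvd.2 hdvd
    have e2 : ∀ j : Fin t, dZ (α j * (((h : ℤ) ^ ((j : ℕ) + 1) - (h' : ℤ) ^ ((j : ℕ) + 1) : ℤ) : ℝ)) ≤ t * (δ * h₁) := by
      intro j
      have hjt : ((j : ℕ) : ℝ) + 1 ≤ t := by exact_mod_cast j.2
      have hp := pow_sub_abs_le (H := H) (a := h) (b := h') (by positivity) (by positivity) (by exact_mod_cast hhH) (by exact_mod_cast hh'H) (j : ℕ)
      have hdp : ((h : ℤ) - h') ∣ (h : ℤ) ^ ((j : ℕ) + 1) - (h' : ℤ) ^ ((j : ℕ) + 1) := sub_dvd_pow_sub_pow _ _ _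
      rcases Nat.eq_zero_or_pos (j : ℕ) with hj | hj
      · have h5 : (r : ℤ) ∣ (h : ℤ) ^ ((j : ℕ) + 1) - (h' : ℤ) ^ ((j : ℕ) + 1) := by
          refine Dvd.dvd.trans ?_ (hdv.trans hdp)
          exact ⟨q₀, by push_cast; ring⟩
        obtain ⟨k, hk⟩ := h5
        have hr0 : (0 : ℝ) < r := by exact_mod_cast hr1
        have e : α j * (((h : ℤ) ^ ((j : ℕ) + 1) - (h' : ℤ) ^ ((j : ℕ) + 1) : ℤ) : ℝ) = (k : ℝ) * (r * α j) := by
          rw [hk]; push_cast; ring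
        rw [e]
        refine (dZ_int_mul_le k _).trans ?_
        have h6 : |(k : ℝ)| * r ≤ h₁ := by
          have h7 : ((r * k : ℤ) : ℝ) = (h : ℝ) - h' := by
            rw [← hk, hj]; push_cast; ring
          calc |(k : ℝ)| * r = |((r * k : ℤ) : ℝ)| := by
                push_cast; rw [abs_mul, abs_of_pos hr0]; ring
            _ ≤ h₁ := by rw [h7]; exact hd
        have h8 := hr2 j hj
        calc |(k : ℝ)| * dZ (r * α j) ≤ |(k : ℝ)| * (r * δ) := mul_le_mul_of_nonneg_left h8 (abs_nonneg _)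
          _ = (|(k : ℝ)| * r) * δ := by ring
          _ ≤ h₁ * δ := mul_le_mul_of_nonneg_right h6 hδ0.le
          _ ≤ t * (δ * h₁) := by
            have : (1 : ℝ) ≤ t := by
              have := hjt
              rw [hj] at this
              simpa using this
            nlinarith [mul_pos hδ0 (by linarith : (0 : ℝ) < h₁)]
      · have h5 : (q₀ : ℤ) ∣ (h : ℤ) ^ ((j : ℕ) + 1) - (h' : ℤ) ^ ((j : ℕ) + 1) := by
          refine Dvd.dvd.trans ?_ (hdv.trans hdp)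
          exact ⟨r, by push_cast; ring⟩
        refine (dZ_coef hq1 (α j) _ (hq2 j hj) h5).trans ?_
        push_cast at hp ⊢
        have hHj : (0 : ℝ) < (H : ℝ) ^ (j : ℕ) := by positivity
        calc δ / (H : ℝ) ^ (j : ℕ) * |(h : ℝ) ^ ((j : ℕ) + 1) - (h' : ℝ) ^ ((j : ℕ) + 1)|
            ≤ δ / (H : ℝ) ^ (j : ℕ) * ((((j : ℕ) : ℝ) + 1) * (H : ℝ) ^ (j : ℕ) * |(h : ℝ) - h'|) :=
              mul_le_mul_of_nonneg_left hp (by positivity)
          _ = (((j : ℕ) : ℝ) + 1) * (δ * |(h : ℝ) - h'|) := by field_simp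
          _ ≤ t * (δ * h₁) := by
            refine mul_le_mul hjt (mul_le_mul_of_nonneg_left hd hδ0.le) (by positivity) (by positivity)
    calc ∑ j : Fin t, dZ (α j * (((h : ℤ) ^ ((j : ℕ) + 1) - (h' : ℤ) ^ ((j : ℕ) + 1) : ℤ) : ℝ)) ≤ ∑ _j : Fin t, (t : ℝ) * (δ * h₁) :=
          sum_le_sum fun j _ => e2 j
      _ = (t : ℝ) * (t * (δ * h₁)) := by rw [sum_const, card_univ, Fintype.card_fin, nsmul_eq_mul]
  -- sum over the cells
  have hq : 1 ≤ q₀ * r := Nat.mul_pos hq1 hr1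
  have hcell : ∀ u ∈ range (q₀ * r), ∀ i ∈ range (H / h₁ + 1),
      ‖∑ h ∈ win (q₀ * r) (max 1 (i * h₁)) (min ((i + 1) * h₁) (H + 1)) u, f h * ex (pol α (h : ℝ))‖ ≤
        ε * ((win (q₀ * r) (max 1 (i * h₁)) (min ((i + 1) * h₁) (H + 1)) u).card : ℝ) +
          ‖∑ h ∈ win (q₀ * r) (max 1 (i * h₁)) (min ((i + 1) * h₁) (H + 1)) u, f h‖ := by
    intro u _ i _
    refine cell_bound _ f (fun h => ex (pol α (h : ℝ))) hf (fun h => norm_ex _) ε fun h hs h' hs' => ?_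
    unfold win at hs hs'
    rw [mem_filter, mem_Ico] at hs hs'
    have a1 := hs.1.1
    have a2 := hs.1.2
    have a3 := hs'.1.1
    have a4 := hs'.1.2
    rw [max_le_iff] at a1 a3
    rw [lt_min_iff] at a2 a4
    have e3 : (i + 1) * h₁ = i * h₁ + h₁ := by ring
    rw [e3] at a2 a4
    refine key h h' (by omega) (by omega) ?_ ?_
    · have hm : h ≡ h' [MOD (q₀ * r)] := hs.2.trans hs'.2.symm
      have := (Nat.modEq_iff_dvd.1 hm.symm)
      exact Int.natCast_dvd.1 this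
    · rw [abs_le]
      have b1 : (h : ℝ) ≤ i * h₁ + h₁ := by exact_mod_cast a2.1.le
      have b2 : (h' : ℝ) ≤ i * h₁ + h₁ := by exact_mod_cast a4.1.le
      have b3 : (i : ℝ) * h₁ ≤ h := by exact_mod_cast a1.2
      have b4 : (i : ℝ) * h₁ ≤ h' := by exact_mod_cast a3.2
      constructor <;> linarith
  have hcard : ∑ u ∈ range (q₀ * r), ∑ i ∈ range (H / h₁ + 1),
      ((win (q₀ * r) (max 1 (i * h₁)) (min ((i + 1) * h₁) (H + 1)) u).card : ℝ) = H := by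
    have h1 := cell_sum (q₀ * r) h₁ H hq hh (fun _ => (1 : ℝ))
    simp only [sum_const, nsmul_eq_mul, mul_one, Nat.card_Icc] at h1
    rw [← h1]
    push_cast
    simp
  have hmem : q₀ * r ∈ Icc 1 (Q * R) := mem_Icc.2 ⟨hq, Nat.mul_le_mul hqQ hrR⟩
  calc ‖∑ h ∈ Icc 1 H, f h * ex (pol α (h : ℝ))‖
      = ‖∑ u ∈ range (q₀ * r), ∑ i ∈ range (H / h₁ + 1),
          ∑ h ∈ win (q₀ * r) (max 1 (i * h₁)) (min ((i + 1) * h₁) (H + 1)) u, f h * ex (pol α (h : ℝ))‖ := by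
        rw [cell_sum (q₀ * r) h₁ H hq hh (fun h => f h * ex (pol α (h : ℝ)))]
    _ ≤ ∑ u ∈ range (q₀ * r), ∑ i ∈ range (H / h₁ + 1),
          ‖∑ h ∈ win (q₀ * r) (max 1 (i * h₁)) (min ((i + 1) * h₁) (H + 1)) u, f h * ex (pol α (h : ℝ))‖ :=
        (norm_sum_le _ _).trans (sum_le_sum fun u _ => norm_sum_le _ _)
    _ ≤ ∑ u ∈ range (q₀ * r), ∑ i ∈ range (H / h₁ + 1),
          (ε * ((win (q₀ * r) (max 1 (i * h₁)) (min ((i + 1) * h₁) (H + 1)) u).card : ℝ) +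
          ‖∑ h ∈ win (q₀ * r) (max 1 (i * h₁)) (min ((i + 1) * h₁) (H + 1)) u, f h‖) :=
        sum_le_sum fun u hu => sum_le_sum fun i hi => hcell u hu i hi
    _ = ε * H + ∑ u ∈ range (q₀ * r), ∑ i ∈ range (H / h₁ + 1),
          ‖∑ h ∈ win (q₀ * r) (max 1 (i * h₁)) (min ((i + 1) * h₁) (H + 1)) u, f h‖ := by
        simp only [sum_add_distrib, ← mul_sum]
        rw [hcard]
    _ ≤ _ := by
        refine add_le_add le_rfl ?_
        exact single_le_sum (f := fun q => ∑ u ∈ range q, ∑ i ∈ range (H / h₁ + 1),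
          ‖∑ h ∈ win q (max 1 (i * h₁)) (min ((i + 1) * h₁) (H + 1)) u, f h‖)
          (fun q _ => sum_nonneg fun u _ => sum_nonneg fun i _ => norm_nonneg _) hmem

end Pool.Agent.Lib.MP_3e612f_nt.NF
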