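import Pool.Agent.Lib.MP_3e612f_nt.NF.P.Defs

/-! Points near a slice (paper v2, T). -/

set_option autoImplicit false

namespace Pool.Agent.Lib.MP_3e612f_nt.NF

open Finset
open Pool.Agent.Lib.MP_3e612f_nt.MR (mu ex)

/-- Compactness modulo `ℤ^(t+1)`: otherwise there are `y_n ∈ K` with top coordinate within `1/n` of `r` and lower part not within `ρ'` of the slice; translate `y_n` by integers in the lower coordinates into a compact set, take a limit `y ∈ K` with top coordinate `r`: `y = snoc x' r`, `x' ∈ slice K r`, contradiction (`slice` is periodic). -/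
theorem slice_near {t : ℕ} {K : Set (Fin (t + 1) → ℝ)} (hK : IsClosed K) (hp : Per K) (r : ℝ) (ρ' : ℝ) (hρ' : 0 < ρ') : ∃ ρ : ℝ, 0 < ρ ∧
    ∀ y ∈ K, |y (Fin.last t) - r| ≤ ρ → ∃ x' ∈ slice K r, ∀ i : Fin t, |y i.castSucc - x' i| ≤ ρ' := by
  by_contra hcon
  push Not at hcon
  have h1 : ∀ n : ℕ, ∃ y ∈ K, |y (Fin.last t) - r| ≤ 1 / ((n : ℝ) + 1) ∧
      (∀ x' ∈ slice K r, ∃ i : Fin t, ρ' < |y i.castSucc - x' i|) ∧
      ∀ i : Fin t, 0 ≤ y i.castSucc ∧ y i.castSucc ≤ 1 := by
    intro n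
    obtain ⟨y, hy, hyr, hyn⟩ := hcon (1 / ((n : ℝ) + 1)) (by positivity)
    set z : Fin (t + 1) → ℤ := Fin.snoc (α := fun _ => ℤ) (fun i : Fin t => -⌊y i.castSucc⌋) 0 with hz
    have hzl : z (Fin.last t) = 0 := by rw [hz, Fin.snoc_last]
    have hzc : ∀ i : Fin t, z i.castSucc = -⌊y i.castSucc⌋ := fun i => by rw [hz, Fin.snoc_castSucc]
    refine ⟨fun i => y i + z i, hp y hy z, ?_, ?_, ?_⟩
    · show |y (Fin.last t) + (z (Fin.last t) : ℝ) - r| ≤ _
      rw [hzl, Int.cast_zero, add_zero]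
      exact hyr
    · intro x' hx'
      have hx'' : (fun i => x' i + (⌊y i.castSucc⌋ : ℝ)) ∈ slice K r := by
        have h2 := hp _ hx' (Fin.snoc (α := fun _ => ℤ) (fun i : Fin t => ⌊y i.castSucc⌋) 0)
        have h3 : (Fin.snoc (α := fun _ => ℝ) (fun i => x' i + (⌊y i.castSucc⌋ : ℝ)) r : Fin (t + 1) → ℝ) =
            (fun i => (Fin.snoc (α := fun _ => ℝ) x' r : Fin (t + 1) → ℝ) i +
              (((Fin.snoc (α := fun _ => ℤ) (fun i : Fin t => ⌊y i.castSucc⌋) 0 : Fin (t + 1) → ℤ) i : ℤ) : ℝ)) := by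
          funext i
          refine Fin.lastCases ?_ (fun j => ?_) i
          · simp only [Fin.snoc_last, Int.cast_zero, add_zero]
          · simp only [Fin.snoc_castSucc]
        show (Fin.snoc (α := fun _ => ℝ) (fun i => x' i + (⌊y i.castSucc⌋ : ℝ)) r : Fin (t + 1) → ℝ) ∈ K
        rw [h3]
        exact h2
      obtain ⟨i, hi⟩ := hyn _ hx''
      refine ⟨i, ?_⟩
      show ρ' < |y i.castSucc + (z i.castSucc : ℝ) - x' i|
      rw [hzc]
      have e : y i.castSucc + ((-⌊y i.castSucc⌋ : ℤ) : ℝ) - x' i = y i.castSucc - (x' i + (⌊y i.castSucc⌋ : ℝ)) := by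
        push_cast
        ring
      rw [e]
      exact hi
    · intro i
      show 0 ≤ y i.castSucc + (z i.castSucc : ℝ) ∧ y i.castSucc + (z i.castSucc : ℝ) ≤ 1
      rw [hzc]
      push_cast
      have h4 := Int.floor_le (y i.castSucc)
      have h5 := Int.lt_floor_add_one (y i.castSucc)
      constructor <;> linarith
  choose y hyK hyr hyn hyb using h1
  set S : Set (Fin (t + 1) → ℝ) := Set.Icc (fun _ => -(|r| + 1)) (fun _ => |r| + 1) with hS
  have hSc : IsCompact S := isCompact_Icc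
  have hyS : ∀ n, y n ∈ S := by
    intro n
    have hr := abs_nonneg r
    have hr1 := le_abs_self r
    have hr2 := neg_abs_le r
    have hl := hyr n
    have h6 : 1 / ((n : ℝ) + 1) ≤ 1 := by
      rw [div_le_one (by positivity)]
      have : (0 : ℝ) ≤ n := Nat.cast_nonneg n
      linarith
    rw [abs_le] at hl
    constructor
    · intro i
      refine Fin.lastCases ?_ (fun j => ?_) i
      · show -(|r| + 1) ≤ y n (Fin.last t)
        linarith [hl.1]
      · show -(|r| + 1) ≤ y n j.castSucc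
        linarith [(hyb n j).1]
    · intro i
      refine Fin.lastCases ?_ (fun j => ?_) i
      · show y n (Fin.last t) ≤ |r| + 1
        linarith [hl.2]
      · show y n j.castSucc ≤ |r| + 1
        linarith [(hyb n j).2]
  obtain ⟨a, _, φ, hφ, hlim⟩ := hSc.tendsto_subseq hyS
  have haK : a ∈ K := hK.mem_of_tendsto hlim (Filter.Eventually.of_forall fun n => hyK _)
  have hlimi : ∀ i, Filter.Tendsto (fun n => y (φ n) i) Filter.atTop (nhds (a i)) := fun i =>
    (tendsto_pi_nhds.1 hlim) i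
  have hal : a (Fin.last t) = r := by
    have h7 : Filter.Tendsto (fun n => y (φ n) (Fin.last t) - r) Filter.atTop (nhds 0) := by
      have h8 : Filter.Tendsto (fun n : ℕ => 1 / (((φ n : ℕ) : ℝ) + 1)) Filter.atTop (nhds 0) :=
        tendsto_one_div_add_atTop_nhds_zero_nat.comp hφ.tendsto_atTop
      exact squeeze_zero_norm (fun n => by rw [Real.norm_eq_abs]; exact hyr (φ n)) h8
    have h9 := (hlimi (Fin.last t)).sub_const r
    have h10 := tendsto_nhds_unique h7 h9
    linarith
  have hasl : (fun i : Fin t => a i.castSucc) ∈ slice K r := by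
    show (Fin.snoc (α := fun _ => ℝ) (fun i : Fin t => a i.castSucc) r : Fin (t + 1) → ℝ) ∈ K
    have e : (Fin.snoc (α := fun _ => ℝ) (fun i : Fin t => a i.castSucc) r : Fin (t + 1) → ℝ) = a := by
      funext i
      refine Fin.lastCases ?_ (fun j => ?_) i
      · simp only [Fin.snoc_last, hal]
      · simp only [Fin.snoc_castSucc]
    rw [e]
    exact haK
  have hev : ∀ᶠ n in Filter.atTop, ∀ i : Fin t, |y (φ n) i.castSucc - a i.castSucc| < ρ' := by
    rw [Filter.eventually_all]
    intro i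
    have h11 := (Metric.tendsto_nhds.1 (hlimi i.castSucc)) ρ' hρ'
    simpa only [Real.dist_eq] using h11
  obtain ⟨n, hn⟩ := hev.exists
  obtain ⟨i, hi⟩ := hyn (φ n) _ hasl
  exact absurd (hn i) (not_lt.2 hi.le)

end Pool.Agent.Lib.MP_3e612f_nt.NF
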