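import Pool.Agent.Lib.MP_3e612f_nt.NF.P.PolyNull

/-! Nonconstant smooth polynomials spend little time near a null set (paper v2, O). -/

set_option autoImplicit false

namespace Pool.Agent.Lib.MP_3e612f_nt.NF

open Finset
open Pool.Agent.Lib.MP_3e612f_nt.MR (mu ex)

theorem Smooth_cont {t : ℕ} : Continuous fun p : ((Fin t → ℝ) × ℝ) × ℝ => pol p.1.1 p.2 + p.1.2 := by
  unfold pol
  fun_prop

open scoped Classical in
/-- counting the points `s / H` near a set contained in an open set of small measure -/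
theorem Smooth_card (E O : Set ℝ) (ε c : ℝ) (hε : 0 < ε) (hc : 0 < c)
    (hEO : Metric.thickening ε E ⊆ O) (hO : MeasureTheory.volume O < ENNReal.ofReal c) (H : ℕ)
    (hH : 2 / ε ≤ H) (S : Finset ℕ) (hS : ∀ s ∈ S, (s : ℝ) / H ∈ Metric.thickening (ε / 2) E) :
    (S.card : ℝ) ≤ c * H := by
  have hHp : (0 : ℝ) < H := lt_of_lt_of_le (by positivity) hH
  have hsub : ∀ s ∈ S, Set.Ico ((s : ℝ) / H) (((s : ℝ) + 1) / H) ⊆ O := by
    intro s hs x hx
    apply hEO
    have h1 := hS s hs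
    rw [Metric.mem_thickening_iff] at h1 ⊢
    obtain ⟨z, hz, hd⟩ := h1
    refine ⟨z, hz, ?_⟩
    have h2 : dist x ((s : ℝ) / H) ≤ ε / 2 := by
      rw [Real.dist_eq, abs_of_nonneg (by linarith [hx.1])]
      have h3 : ((s : ℝ) + 1) / H = s / H + 1 / H := by ring
      have h4 : 1 / (H : ℝ) ≤ ε / 2 := by
        rw [div_le_iff₀ hHp]
        rw [div_le_iff₀ hε] at hH
        linarith
      have := hx.2
      linarith
    have := dist_triangle x ((s : ℝ) / H) z
    linarith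
  have hdis : (S : Set ℕ).PairwiseDisjoint
      (fun s => Set.Ico ((s : ℝ) / H) (((s : ℝ) + 1) / H)) := by
    intro a _ b _ hab
    have key : ∀ a b : ℕ, a < b → Disjoint (Set.Ico ((a : ℝ) / H) (((a : ℝ) + 1) / H))
        (Set.Ico ((b : ℝ) / H) (((b : ℝ) + 1) / H)) := by
      intro a b hlt
      rw [Set.disjoint_left]
      intro x hx hx'
      have h1 : ((a : ℝ) + 1) / H ≤ b / H := by
        have : (a : ℝ) + 1 ≤ b := by exact_mod_cast hlt
        gcongr
      linarith [hx.2, hx'.1]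
    rcases lt_or_gt_of_ne hab with h | h
    · exact key a b h
    · exact (key b a h).symm
  have h1 := MeasureTheory.measure_biUnion_finset (μ := MeasureTheory.volume) hdis
    (fun s _ => measurableSet_Ico)
  have h2 : MeasureTheory.volume (⋃ s ∈ S, Set.Ico ((s : ℝ) / H) (((s : ℝ) + 1) / H)) ≤
      MeasureTheory.volume O :=
    MeasureTheory.measure_mono (Set.iUnion₂_subset hsub)
  rw [h1] at h2
  have h3 : ∀ s ∈ S, MeasureTheory.volume (Set.Ico ((s : ℝ) / H) (((s : ℝ) + 1) / H)) =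
      ENNReal.ofReal (1 / H) := by
    intro s _
    rw [Real.volume_Ico]
    congr 1
    ring
  rw [sum_congr rfl h3, sum_const, nsmul_eq_mul] at h2
  have h4 := h2.trans hO.le
  rw [← ENNReal.ofReal_natCast, ← ENNReal.ofReal_mul (Nat.cast_nonneg _),
    ENNReal.ofReal_le_ofReal_iff hc.le, mul_one_div, div_le_iff₀ hHp] at h4
  exact h4

open scoped Classical in
/-- the local statement -/
theorem Smooth_local {t : ℕ} (Z : Set ℝ) (hZ : IsClosed Z) (h0 : MeasureTheory.volume Z = 0)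
    (c : ℝ) (hc : 0 < c) (w : Fin t → ℝ) (v : ℝ) (hw : w ≠ 0) :
    ∃ U ∈ nhds ((w, v) : (Fin t → ℝ) × ℝ), ∃ ρ : ℝ, 0 < ρ ∧ ∃ H₀ : ℕ, ∀ H : ℕ, H₀ ≤ H →
      ∀ x ∈ U, ((((range H).filter (fun s : ℕ =>
        ∃ y ∈ Z, |pol x.1 ((s : ℝ) / H) + x.2 - y| ≤ ρ)).card : ℕ) : ℝ) ≤ c * H := by
  rcases Z.eq_empty_or_nonempty with hZe | hZn
  · refine ⟨Set.univ, Filter.univ_mem, 1, one_pos, 0, fun H _ x _ => ?_⟩
    subst hZe
    rw [filter_false_of_mem (fun s _ => by simp)]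
    rw [card_empty]
    push_cast
    positivity
  · set E : Set ℝ := Set.Icc 0 1 ∩ {u : ℝ | pol w u + v ∈ Z} with hE
    have hcontu : Continuous fun u : ℝ => pol w u + v := by
      unfold pol
      fun_prop
    have hEc : IsCompact E := isCompact_Icc.inter_right (hZ.preimage hcontu)
    have hE0 : MeasureTheory.volume E = 0 :=
      MeasureTheory.measure_mono_null Set.inter_subset_right (poly_null w hw v Z hZ h0)
    obtain ⟨O, hEO, hOo, hOv⟩ := E.exists_isOpen_lt_of_lt (μ := MeasureTheory.volume)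
      (ENNReal.ofReal c) (by rw [hE0]; exact ENNReal.ofReal_pos.2 hc)
    obtain ⟨ε, hε, hth⟩ := hEc.exists_thickening_subset_open hOo hEO
    set F : Set ℝ := Set.Icc 0 1 ∩ (Metric.thickening (ε / 2) E)ᶜ with hF
    have hFc : IsCompact F := isCompact_Icc.inter_right Metric.isOpen_thickening.isClosed_compl
    set g : (((Fin t → ℝ) × ℝ) × ℝ) → ℝ :=
      fun p => Metric.infDist (pol p.1.1 p.2 + p.1.2) Z with hg
    have hgc : Continuous g := (Metric.continuous_infDist_pt Z).comp Smooth_cont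
    have hpos : ∀ u ∈ F, 0 < g ((w, v), u) := by
      intro u hu
      rw [hg]
      rw [← hZ.notMem_iff_infDist_pos hZn]
      intro hmem
      apply hu.2
      exact Metric.self_subset_thickening (by positivity) E ⟨hu.1, hmem⟩
    have hgu : Continuous fun u : ℝ => g ((w, v), u) := by fun_prop
    obtain ⟨a, ha0, ha⟩ := hFc.exists_forall_le' hgu.continuousOn hpos
    have hev : ∀ᶠ x in nhds ((w, v) : (Fin t → ℝ) × ℝ), ∀ u ∈ F, a / 2 < g (x, u) := by
      refine hFc.eventually_forall_of_forall_eventually (P := fun x u => a / 2 < g (x, u)) ?_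
      intro u hu
      have h1 : a / 2 < g ((w, v), u) := by linarith [ha u hu]
      exact hgc.continuousAt.eventually (lt_mem_nhds h1)
    refine ⟨_, hev, a / 2, by positivity, ⌈2 / ε⌉₊, fun H hH x hx => ?_⟩
    refine Smooth_card E O ε c hε hc hth hOv H (Nat.ceil_le.1 hH) _ ?_
    intro s hs
    rw [mem_filter, mem_range] at hs
    obtain ⟨hsH, y, hy, hys⟩ := hs
    by_contra hcon
    have hHp : (0 : ℝ) < H := by
      have : 0 < H := by omega
      exact_mod_cast this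
    have h1 : (s : ℝ) / H ∈ F := by
      refine ⟨⟨by positivity, ?_⟩, hcon⟩
      rw [div_le_one hHp]
      exact_mod_cast hsH.le
    have h2 := hx _ h1
    have h3 : g (x, (s : ℝ) / H) ≤ |pol x.1 ((s : ℝ) / H) + x.2 - y| := by
      rw [← Real.dist_eq]
      exact Metric.infDist_le_dist_of_mem hy
    linarith

open scoped Classical in
/-- Compactness of `W = {|w_d| ≤ K, max |w_d| ≥ δ} × [0,1]` (`v` modulo 1). For `(w,v) ∈ W` the compact set `E = {u ∈ [0,1] : pol w u + v ∈ Z}` is null (`poly_null`); cover it by finitely many open intervals of total length `< c/2`, with union `O`; on `[0,1] \ O` the distance of `pol w u + v` to `Z` is at least `2ρ > 0`. For `(w',v')` near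
`(w,v)` the polynomials differ by at most `ρ/2` on `[0,1]`, so `pol w' u + v'` within `ρ` of `Z` implies `u ∈ O`, and `#{s < H : s/H ∈ O} ≤ (c/2) H + 2·(number of intervals) ≤ cH` for `H` large. Finite subcover of `W`; minimum of the `ρ`, maximum of the `H₀`. -/
theorem smooth_count {t : ℕ} (Z : Set ℝ) (hZ : IsClosed Z) (hp : Per1 Z) (h0 : MeasureTheory.volume Z = 0) (K δ c : ℝ) (hδ : 0 < δ) (hc : 0 < c) :
    ∃ ρ : ℝ, 0 < ρ ∧ ∃ H₀ : ℕ, ∀ H : ℕ, H₀ ≤ H → ∀ (w : Fin t → ℝ) (v : ℝ), (∀ d, |w d| ≤ K) → (∃ d, δ ≤ |w d|) →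
      ((((range H).filter (fun s : ℕ => ∃ y ∈ Z, |pol w ((s : ℝ) / H) + v - y| ≤ ρ)).card : ℕ) : ℝ) ≤ c * H := by
  set W : Set (Fin t → ℝ) := {w | (∀ d, |w d| ≤ K) ∧ ∃ d, δ ≤ |w d|} with hW
  have hWc : IsCompact W := by
    have h1 : IsCompact (Set.univ.pi fun _ : Fin t => Set.Icc (-K) K) :=
      isCompact_univ_pi fun _ => isCompact_Icc
    have h2 : IsClosed {w : Fin t → ℝ | ∃ d, δ ≤ |w d|} := by
      have : {w : Fin t → ℝ | ∃ d, δ ≤ |w d|} = ⋃ d, {w : Fin t → ℝ | δ ≤ |w d|} := by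
        ext w
        simp
      rw [this]
      exact isClosed_iUnion_of_finite fun d =>
        isClosed_le continuous_const (continuous_abs.comp (continuous_apply d))
    have h3 : W = (Set.univ.pi fun _ : Fin t => Set.Icc (-K) K) ∩
        {w : Fin t → ℝ | ∃ d, δ ≤ |w d|} := by
      ext w
      simp only [hW, Set.mem_ofPred_eq, Set.mem_inter_iff, Set.mem_pi, Set.mem_univ,
        forall_true_left, Set.mem_Icc, abs_le]
    rw [h3]
    exact h1.inter_right h2
  have hWI : IsCompact (W ×ˢ Set.Icc (0 : ℝ) 1) := hWc.prod isCompact_Icc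
  have key : ∃ ρ : ℝ, 0 < ρ ∧ ∃ H₀ : ℕ, ∀ H : ℕ, H₀ ≤ H →
      ∀ x ∈ W ×ˢ Set.Icc (0 : ℝ) 1, ((((range H).filter (fun s : ℕ =>
        ∃ y ∈ Z, |pol x.1 ((s : ℝ) / H) + x.2 - y| ≤ ρ)).card : ℕ) : ℝ) ≤ c * H := by
    refine hWI.induction_on (p := fun S => ∃ ρ : ℝ, 0 < ρ ∧ ∃ H₀ : ℕ, ∀ H : ℕ, H₀ ≤ H →
      ∀ x ∈ S, ((((range H).filter (fun s : ℕ =>
        ∃ y ∈ Z, |pol x.1 ((s : ℝ) / H) + x.2 - y| ≤ ρ)).card : ℕ) : ℝ) ≤ c * H) ?_ ?_ ?_ ?_
    · exact ⟨1, one_pos, 0, fun H _ x hx => absurd hx (Set.notMem_empty x)⟩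
    · rintro S T hST ⟨ρ, hρ, H₀, h⟩
      exact ⟨ρ, hρ, H₀, fun H hH x hx => h H hH x (hST hx)⟩
    · rintro S T ⟨ρ, hρ, H₀, h⟩ ⟨ρ', hρ', H₀', h'⟩
      refine ⟨min ρ ρ', lt_min hρ hρ', max H₀ H₀', fun H hH x hx => ?_⟩
      rcases hx with hx | hx
      · refine le_trans ?_ (h H ((le_max_left _ _).trans hH) x hx)
        have : (range H).filter (fun s : ℕ => ∃ y ∈ Z, |pol x.1 ((s : ℝ) / H) + x.2 - y| ≤ min ρ ρ') ⊆
            (range H).filter (fun s : ℕ => ∃ y ∈ Z, |pol x.1 ((s : ℝ) / H) + x.2 - y| ≤ ρ) := by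
          intro s hs
          rw [mem_filter] at hs ⊢
          obtain ⟨h1, y, hy, hy'⟩ := hs
          exact ⟨h1, y, hy, hy'.trans (min_le_left _ _)⟩
        exact_mod_cast card_le_card this
      · refine le_trans ?_ (h' H ((le_max_right _ _).trans hH) x hx)
        have : (range H).filter (fun s : ℕ => ∃ y ∈ Z, |pol x.1 ((s : ℝ) / H) + x.2 - y| ≤ min ρ ρ') ⊆
            (range H).filter (fun s : ℕ => ∃ y ∈ Z, |pol x.1 ((s : ℝ) / H) + x.2 - y| ≤ ρ') := by
          intro s hs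
          rw [mem_filter] at hs ⊢
          obtain ⟨h1, y, hy, hy'⟩ := hs
          exact ⟨h1, y, hy, hy'.trans (min_le_right _ _)⟩
        exact_mod_cast card_le_card this
    · rintro ⟨w, v⟩ ⟨hw, -⟩
      have hw0 : w ≠ 0 := by
        rintro rfl
        obtain ⟨-, d, hd⟩ := hw
        have hd' : δ ≤ |(0 : Fin t → ℝ) d| := hd
        rw [Pi.zero_apply, abs_zero] at hd'
        linarith
      obtain ⟨U, hU, ρ, hρ, H₀, h⟩ := Smooth_local Z hZ h0 c hc w v hw0
      exact ⟨U, mem_nhdsWithin_of_mem_nhds hU, ρ, hρ, H₀, h⟩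
  obtain ⟨ρ, hρ, H₀, h⟩ := key
  refine ⟨ρ, hρ, H₀, fun H hH w v hw hw' => ?_⟩
  have h1 := h H hH (w, Int.fract v) ⟨⟨hw, hw'⟩, Int.fract_nonneg v, (Int.fract_lt_one v).le⟩
  refine le_trans ?_ h1
  have : (range H).filter (fun s : ℕ => ∃ y ∈ Z, |pol w ((s : ℝ) / H) + v - y| ≤ ρ) ⊆
      (range H).filter (fun s : ℕ => ∃ y ∈ Z, |pol w ((s : ℝ) / H) + Int.fract v - y| ≤ ρ) := by
    intro s hs
    rw [mem_filter] at hs ⊢
    obtain ⟨h2, y, hy, hy'⟩ := hs
    refine ⟨h2, y + ((-⌊v⌋ : ℤ) : ℝ), hp y hy _, ?_⟩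
    have h3 : pol w ((s : ℝ) / H) + Int.fract v - (y + ((-⌊v⌋ : ℤ) : ℝ)) =
        pol w ((s : ℝ) / H) + v - y := by
      have := Int.floor_add_fract v
      push_cast
      linarith
    rw [h3]
    exact hy'
  exact_mod_cast card_le_card this

end Pool.Agent.Lib.MP_3e612f_nt.NF
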