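import Pool.Agent.Lib.MP_3e612f_nt.NF.P.Defs

/-! The structure theorem: statement (paper v2, T). -/

set_option autoImplicit false

namespace Pool.Agent.Lib.MP_3e612f_nt.NF

open Finset
open Pool.Agent.Lib.MP_3e612f_nt.MR (mu ex)

open scoped Classical in
/-- Claim T in dimension `t`. For a closed periodic admissible `K`, `c > 0` and a closeness function `Δ` there is a finite list of levels `I`, closed good sets `C`, denominators `Q` and weights `w` with sum at most 1 such that every `α` whose orbit `sh s α`, `s < H`, is near `K` for at least `cH` of the `s` satisfies one of the conditions of the list,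
with closeness `Δ I C Q w`. -/
def TC (𝒢 : ℕ → Set ℝ → Prop) (t : ℕ) : Prop :=
  ∀ K : Set (Fin t → ℝ), IsClosed K → Per K → AdmP 𝒢 t K → ∀ c : ℝ, 0 < c → ∀ Δ : ℕ → Set ℝ → ℕ → ℝ → ℝ, (∀ I C Q w, 0 < Δ I C Q w) →
    ∃ (n : ℕ) (I : ℕ → ℕ) (C : ℕ → Set ℝ) (Q : ℕ → ℕ) (w : ℕ → ℝ),
      (∀ k < n, 1 ≤ I k ∧ I k ≤ t ∧ IsClosed (C k) ∧ Per1 (C k) ∧ 𝒢 (I k) (C k) ∧ 1 ≤ Q k ∧ 0 < w k) ∧ ∑ k ∈ range n, w k ≤ 1 ∧
      ∃ ρ : ℝ, 0 < ρ ∧ ∃ H₀ : ℕ, ∀ H : ℕ, H₀ ≤ H → ∀ α : Fin t → ℝ,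
        c * H ≤ ((((range H).filter (fun s : ℕ => Nr K ρ (sh (s : ℝ) α))).card : ℕ) : ℝ) →
        ∃ k < n, Cond (I k) (C k) (Q k) (Δ (I k) (C k) (Q k) (w k)) H α

end Pool.Agent.Lib.MP_3e612f_nt.NF
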