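import Pool.Agent.Lib.MP_3e612f_nt.NF.P.TDef
import Pool.Agent.Lib.MP_3e612f_nt.NF.P.Descend
import Pool.Agent.Lib.MP_3e612f_nt.NF.P.Ascend
import Pool.Agent.Lib.MP_3e612f_nt.NF.P.AdmT

/-! The structure theorem: one rational top coefficient (paper v2, T). -/

set_option autoImplicit false

namespace Pool.Agent.Lib.MP_3e612f_nt.NF

open Finset
open Pool.Agent.Lib.MP_3e612f_nt.MR (mu ex)

open scoped Classical in
/-- The contribution of one rational number `b/k` to the step. Let `K_r = thick D (slice K (b/k))` (closed, periodic, admissible: `adm_thick`; `AdmP 𝒢 (t+1) K` gives `AdmP 𝒢 t (slice K r)`). For the closeness function `Δ'(I, C, Q, w)` of dimension `t` proceed as follows: `ascend` (dimension `t+1`, `i = I - 1`, constant `w c/2`) gives `Q₁(I,C,w)`;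
with `δ = Δ I (thick1 Q₁! C) Q₁ (w/W)` it gives `ρ₁ > 0`; `Δ' := ρ₁` (and `1` if `C` is not closed periodic null or `I ∉ [1,t]`). `TC 𝒢 t` for `K_r`, `c/4`, `Δ'` gives the list, `ρ_r`, `L := H₀`. `descend` with `L`, `ρ' = ρ_r`: for at least `(c/2) H` of the `s < H` the vector `Fin.init (sh s α)` satisfies the hypothesis of `TC` at scale `L`,
hence one of its conditions; `wpig`: one item `k` for at least `w_k (c/2) H` of the `s`; its second part says that coordinate `I_k - 1` of `sh s α` is within `ρ₁` of `C_k`: `ascend` gives `Cond` for `α` with `thick1 Q₁! C_k`, `Q₁`, and closeness `Δ I_k (thick1 ..) Q₁ (w_k/W)`. New list: `(I_k, thick1 Q₁! C_k, Q₁, w_k/W)`; `thick1` preserves closed, periodic, good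
(`GoodLev.shift`). -/
theorem tc_rat {𝒢 : ℕ → Set ℝ → Prop} (h𝒢 : GoodLev 𝒢) (t : ℕ) (hT : TC 𝒢 t) (K : Set (Fin (t + 1) → ℝ)) (hK : IsClosed K) (hp : Per K) (hA : AdmP 𝒢 (t + 1) K)
    (c : ℝ) (hc : 0 < c) (Δ : ℕ → Set ℝ → ℕ → ℝ → ℝ) (hΔ : ∀ I C Q w, 0 < Δ I C Q w) (k₀ k : ℕ) (hk : 1 ≤ k) (hkk : k ≤ k₀) (b : ℤ) (W : ℝ) (hW : 1 ≤ W) :
    ∃ (n : ℕ) (I : ℕ → ℕ) (C : ℕ → Set ℝ) (Q : ℕ → ℕ) (w : ℕ → ℝ),
      (∀ k < n, 1 ≤ I k ∧ I k ≤ t + 1 ∧ IsClosed (C k) ∧ Per1 (C k) ∧ 𝒢 (I k) (C k) ∧ 1 ≤ Q k ∧ 0 < w k) ∧ ∑ k ∈ range n, w k ≤ 1 / W ∧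
      ∃ ρ : ℝ, 0 < ρ ∧ ∃ H₀ : ℕ, ∀ H : ℕ, H₀ ≤ H → ∀ α : Fin (t + 1) → ℝ, (∃ z₀ : ℤ, |α (Fin.last t) - (b : ℝ) / k - z₀| ≤ k₀ / H) →
        c * H ≤ ((((range H).filter (fun s : ℕ => Nr K ρ (sh (s : ℝ) α))).card : ℕ) : ℝ) →
        ∃ k < n, Cond (I k) (C k) (Q k) (Δ (I k) (C k) (Q k) (w k)) H α := by
  have hW0 : (0 : ℝ) < W := lt_of_lt_of_le one_pos hW
  set Kr : Set (Fin t → ℝ) := thick k (slice K ((b : ℝ) / k)) with hKr
  have hKrc : IsClosed Kr := thick_closed k hk (slice_closed hK _) (slice_per hp _)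
  have hKrp : Per Kr := thick_per k (slice_per hp _)
  have hKra : AdmP 𝒢 t Kr := by
    have h1 := hA.2 ((b : ℚ) / k)
    have h2 : (((b : ℚ) / k : ℚ) : ℝ) = (b : ℝ) / k := by push_cast; rfl
    rw [h2] at h1
    exact adm_thick h𝒢 t _ (slice_closed hK _) (slice_per hp _) h1 k hk
  have key : ∀ (I : ℕ) (C : Set ℝ) (w : ℝ), ∃ Q₁ : ℕ, 1 ≤ Q₁ ∧ ∃ ρ₁ : ℝ, 0 < ρ₁ ∧
      (∀ i : Fin (t + 1), (i : ℕ) + 1 = I → IsClosed C → Per1 C → MeasureTheory.volume C = 0 →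
        0 < w → ∃ H₀ : ℕ, ∀ H : ℕ, H₀ ≤ H → ∀ α : Fin (t + 1) → ℝ,
          w * (c / 2) * H ≤ ((((range H).filter (fun s : ℕ => ∃ y ∈ C, |sh (s : ℝ) α i - y| ≤ ρ₁)).card : ℕ) : ℝ) →
          Cond I (thick1 Q₁.factorial C) Q₁ (Δ I (thick1 Q₁.factorial C) Q₁ (w / W)) H α) := by
    intro I C w
    by_cases hv : (∃ i : Fin (t + 1), (i : ℕ) + 1 = I) ∧ IsClosed C ∧ Per1 C ∧
        MeasureTheory.volume C = 0 ∧ 0 < w
    · obtain ⟨⟨i, hi⟩, hC, hPC, h0, hw⟩ := hv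
      obtain ⟨Q₁, hQ₁, hδ⟩ := ascend (t + 1) i C hC hPC h0 (w * (c / 2)) (by positivity)
      obtain ⟨ρ₁, hρ₁, H₀, hH₀⟩ := hδ (Δ I (thick1 Q₁.factorial C) Q₁ (w / W)) (hΔ _ _ _ _)
      refine ⟨Q₁, hQ₁, ρ₁, hρ₁, ?_⟩
      intro i' hi' _ _ _ _
      have hii : i' = i := Fin.ext (by omega)
      subst hii
      refine ⟨H₀, fun H hH α hα => ?_⟩
      have h1 := hH₀ H hH α hα
      rw [hi] at h1
      exact h1
    · refine ⟨1, le_rfl, 1, one_pos, ?_⟩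
      intro i hi hC hPC h0 hw
      exact absurd ⟨⟨i, hi⟩, hC, hPC, h0, hw⟩ hv
  choose Q₁ hQ₁ ρ₁ hρ₁ hval using key
  obtain ⟨n, I, C, Q, w, hlist, hsum, ρr, hρr, L, hmain⟩ :=
    hT Kr hKrc hKrp hKra (c / 4) (by positivity) (fun I C _ w => ρ₁ I C w)
      (fun I C _ w => hρ₁ I C w)
  obtain ⟨ρ, hρ, Hd, hdesc⟩ := descend K hK hp c hc k₀ k k hk (dvd_refl k) hk b L ρr hρr
  -- thresholds of the items
  have hthr : ∀ l : ℕ, ∃ H₀ : ℕ, l < n → ∀ H : ℕ, H₀ ≤ H → ∀ α : Fin (t + 1) → ℝ,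
      ∀ i : Fin (t + 1), (i : ℕ) + 1 = I l →
      w l * (c / 2) * H ≤ ((((range H).filter (fun s : ℕ => ∃ y ∈ C l, |sh (s : ℝ) α i - y| ≤
        ρ₁ (I l) (C l) (w l))).card : ℕ) : ℝ) →
      Cond (I l) (thick1 (Q₁ (I l) (C l) (w l)).factorial (C l)) (Q₁ (I l) (C l) (w l))
        (Δ (I l) (thick1 (Q₁ (I l) (C l) (w l)).factorial (C l)) (Q₁ (I l) (C l) (w l)) (w l / W))
        H α := by
    intro l
    by_cases hl : l < n
    · obtain ⟨h1, h2, h3, h4, h5, -, h7⟩ := hlist l hl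
      have hi : I l - 1 < t + 1 := by omega
      have hi' : ((⟨I l - 1, hi⟩ : Fin (t + 1)) : ℕ) + 1 = I l := by
        show I l - 1 + 1 = I l
        omega
      obtain ⟨H₀, hH₀⟩ := hval (I l) (C l) (w l) ⟨I l - 1, hi⟩ hi' h3 h4 (h𝒢.null _ _ h5) h7
      refine ⟨H₀, fun _ H hH α i hil hα => ?_⟩
      have hii : i = ⟨I l - 1, hi⟩ := Fin.ext (by show (i : ℕ) = I l - 1; omega)
      subst hii
      exact hH₀ H hH α hα
    · exact ⟨0, fun h => absurd h hl⟩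
  choose Hl hHl using hthr
  refine ⟨n, I, fun l => thick1 (Q₁ (I l) (C l) (w l)).factorial (C l),
    fun l => Q₁ (I l) (C l) (w l), fun l => w l / W, ?_, ?_, ρ, hρ,
    max (max Hd 1) ((range n).sup Hl), ?_⟩
  · intro l hl
    obtain ⟨h1, h2, h3, h4, h5, -, h7⟩ := hlist l hl
    refine ⟨h1, by omega, thick1_closed _ (Nat.succ_le_of_lt (Nat.factorial_pos _)) h3 h4,
      thick1_per _ h4, ?_, hQ₁ _ _ _, div_pos h7 hW0⟩
    exact h𝒢.shift _ _ h5 _ (Nat.succ_le_of_lt (Nat.factorial_pos _))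
  · rw [← Finset.sum_div]
    exact div_le_div_of_nonneg_right hsum hW0.le
  · intro H hH α hα hcard
    have hHd : Hd ≤ H := (le_max_left _ _).trans ((le_max_left _ _).trans hH)
    have hH1 : 1 ≤ H := (le_max_right Hd 1).trans ((le_max_left _ _).trans hH)
    have hHl' : ∀ l < n, Hl l ≤ H := fun l hl =>
      (Finset.le_sup (f := Hl) (Finset.mem_range.2 hl)).trans ((le_max_right _ _).trans hH)
    have hd := hdesc H hHd α hα hcard
    set S := (range H).filter (fun s : ℕ => c / 4 * L ≤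
        ((((range L).filter (fun h : ℕ => Nr (thick k (slice K ((b : ℝ) / k))) ρr (sh (h : ℝ) (Fin.init (sh (s : ℝ) α) : Fin t → ℝ)))).card : ℕ) : ℝ)) with hS
    have hH0 : (0 : ℝ) < H := by exact_mod_cast hH1
    have hSpos : (0 : ℝ) < S.card := lt_of_lt_of_le (by positivity) hd
    have hSne : S.Nonempty := Finset.card_pos.1 (by exact_mod_cast hSpos)
    obtain ⟨l, hl, T, hTS, hTR, hTc⟩ := wpig S n
      (fun s l => Cond (I l) (C l) (Q l) (ρ₁ (I l) (C l) (w l)) L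
        (Fin.init (sh (s : ℝ) α) : Fin t → ℝ))
      (fun s hs => hmain L le_rfl _ (Finset.mem_filter.1 hs).2) w
      (fun l hl => (hlist l hl).2.2.2.2.2.2) hsum hSne
    obtain ⟨h1, h2, h3, h4, h5, -, h7⟩ := hlist l hl
    refine ⟨l, hl, ?_⟩
    have hi : I l - 1 < t + 1 := by omega
    have hi' : ((⟨I l - 1, hi⟩ : Fin (t + 1)) : ℕ) + 1 = I l := by
      show I l - 1 + 1 = I l
      omega
    refine hHl l hl H (hHl' l hl) α ⟨I l - 1, hi⟩ hi' ?_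
    have hsub : T ⊆ (range H).filter (fun s : ℕ => ∃ y ∈ C l,
        |sh (s : ℝ) α ⟨I l - 1, hi⟩ - y| ≤ ρ₁ (I l) (C l) (w l)) := by
      intro s hs
      rw [Finset.mem_filter]
      refine ⟨(Finset.mem_filter.1 (hTS hs)).1, ?_⟩
      have hj : I l - 1 < t := by omega
      have hj' : ((⟨I l - 1, hj⟩ : Fin t) : ℕ) + 1 = I l := by
        show I l - 1 + 1 = I l
        omega
      obtain ⟨y, hy, hy'⟩ := (hTR s hs).2 ⟨I l - 1, hj⟩ hj'
      exact ⟨y, hy, hy'⟩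
    have hcT : (T.card : ℝ) ≤ ((((range H).filter (fun s : ℕ => ∃ y ∈ C l,
        |sh (s : ℝ) α ⟨I l - 1, hi⟩ - y| ≤ ρ₁ (I l) (C l) (w l))).card : ℕ) : ℝ) := by
      exact_mod_cast Finset.card_le_card hsub
    refine le_trans ?_ hcT
    refine le_trans ?_ hTc
    calc w l * (c / 2) * H = w l * (c / 2 * H) := by ring
      _ ≤ w l * (S.card : ℝ) := mul_le_mul_of_nonneg_left hd h7.le

end Pool.Agent.Lib.MP_3e612f_nt.NF
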