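import Pool.Agent.Lib.MP_3e612f_nt.NF.P.EquiTop
import Pool.Agent.Lib.MP_3e612f_nt.NF.P.LevB

/-! The alternative for the top coefficient (paper v2, T). -/

set_option autoImplicit false

namespace Pool.Agent.Lib.MP_3e612f_nt.NF

open Finset
open Pool.Agent.Lib.MP_3e612f_nt.MR (mu ex)

open scoped Classical in
/-- Choose `n` from `lev_nbhd` (`c/4`, `δ₀`), `ρ = 1/(2(n+1))`, `g = gK n K`: `g ≥ 1/2` at the counted points (`gK_half`), so `(c/2) H ≤ ∑_s g (sh s α)`; `equi_top` with `c/2`: `c/4 ≤ sI n K β` (first alternative by `lev_nbhd`) or `dZ (kβ) ≤ K'/H`. -/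
theorem top_alt {t : ℕ} (K : Set (Fin (t + 1) → ℝ)) (hK : IsClosed K) (hp : Per K) (c : ℝ) (hc : 0 < c) (δ₀ : ℝ) (hδ₀ : 0 < δ₀) :
    ∃ k₀ : ℕ, 1 ≤ k₀ ∧ ∃ ρ : ℝ, 0 < ρ ∧ ∀ H : ℕ, 1 ≤ H → ∀ α : Fin (t + 1) → ℝ,
      c * H ≤ ((((range H).filter (fun s : ℕ => Nr K ρ (sh (s : ℝ) α))).card : ℕ) : ℝ) →
      (∃ y ∈ lev K (c / 4), |α (Fin.last t) - y| ≤ δ₀) ∨ ∃ k : ℕ, 1 ≤ k ∧ k ≤ k₀ ∧ dZ (k * α (Fin.last t)) ≤ k₀ / H := by
  have _ := hK
  obtain ⟨n, hn⟩ := lev_nbhd hp (c / 4) δ₀ hδ₀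
  obtain ⟨K', hK', he⟩ := equi_top (gK n K) (gK_cont n K) (fun x z => gK_per n hp x z) (c / 2)
    (by positivity)
  refine ⟨K', hK', 1 / (2 * ((n : ℝ) + 1)), by positivity, fun H hH α hcount => ?_⟩
  have h1 : c / 2 * H ≤ ∑ s ∈ range H, gK n K (sh (s : ℝ) α) := by
    have h2 : ∑ s ∈ (range H).filter (fun s : ℕ => Nr K (1 / (2 * ((n : ℝ) + 1))) (sh (s : ℝ) α)),
        (1 / 2 : ℝ) ≤
        ∑ s ∈ (range H).filter (fun s : ℕ => Nr K (1 / (2 * ((n : ℝ) + 1))) (sh (s : ℝ) α)),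
          gK n K (sh (s : ℝ) α) := by
      refine Finset.sum_le_sum fun s hs => ?_
      exact gK_half n K _ (Finset.mem_filter.1 hs).2
    have h3 : ∑ s ∈ (range H).filter (fun s : ℕ => Nr K (1 / (2 * ((n : ℝ) + 1))) (sh (s : ℝ) α)),
          gK n K (sh (s : ℝ) α) ≤ ∑ s ∈ range H, gK n K (sh (s : ℝ) α) := by
      refine Finset.sum_le_sum_of_subset_of_nonneg (Finset.filter_subset _ _) ?_
      intro s _ _
      exact gK_nonneg n K _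
    rw [Finset.sum_const, nsmul_eq_mul] at h2
    linarith
  rcases he H hH α h1 with h | h
  · left
    refine hn _ ?_
    unfold sI
    linarith
  · right
    exact h

end Pool.Agent.Lib.MP_3e612f_nt.NF
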