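import Pool.Agent.Lib.MP_3e612f_nt.NF.P.TOne
import Pool.Agent.Lib.MP_3e612f_nt.NF.P.TRat
import Pool.Agent.Lib.MP_3e612f_nt.NF.P.TopAlt

/-! The structure theorem (paper v2, T). -/

set_option autoImplicit false

namespace Pool.Agent.Lib.MP_3e612f_nt.NF

open Finset
open Pool.Agent.Lib.MP_3e612f_nt.MR (mu ex)

open scoped Classical in
/-- A finite list of conditions with weights of sum at most `B` that covers the `α` with property `P`. -/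
def TmL (𝒢 : ℕ → Set ℝ → Prop) {t : ℕ} (K : Set (Fin t → ℝ)) (c : ℝ) (Δ : ℕ → Set ℝ → ℕ → ℝ → ℝ) (B : ℝ)
    (P : ℕ → (Fin t → ℝ) → Prop) : Prop :=
  ∃ (n : ℕ) (I : ℕ → ℕ) (C : ℕ → Set ℝ) (Q : ℕ → ℕ) (w : ℕ → ℝ),
      (∀ k < n, 1 ≤ I k ∧ I k ≤ t ∧ IsClosed (C k) ∧ Per1 (C k) ∧ 𝒢 (I k) (C k) ∧ 1 ≤ Q k ∧ 0 < w k) ∧ ∑ k ∈ range n, w k ≤ B ∧
      ∃ ρ : ℝ, 0 < ρ ∧ ∃ H₀ : ℕ, ∀ H : ℕ, H₀ ≤ H → ∀ α : Fin t → ℝ, P H α →
        c * H ≤ ((((range H).filter (fun s : ℕ => Nr K ρ (sh (s : ℝ) α))).card : ℕ) : ℝ) →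
        ∃ k < n, Cond (I k) (C k) (Q k) (Δ (I k) (C k) (Q k) (w k)) H α

theorem tm_Nr_mono {t : ℕ} {K : Set (Fin t → ℝ)} {ρ ρ' : ℝ} (h : ρ ≤ ρ') {x : Fin t → ℝ} (hx : Nr K ρ x) : Nr K ρ' x := by
  obtain ⟨y, hy, h2⟩ := hx
  exact ⟨y, hy, fun i => (h2 i).trans h⟩

open scoped Classical in
theorem tm_card_mono {t : ℕ} {K : Set (Fin t → ℝ)} {ρ ρ' : ℝ} (h : ρ ≤ ρ') (H : ℕ) (α : Fin t → ℝ) :
    ((((range H).filter (fun s : ℕ => Nr K ρ (sh (s : ℝ) α))).card : ℕ) : ℝ) ≤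
      ((((range H).filter (fun s : ℕ => Nr K ρ' (sh (s : ℝ) α))).card : ℕ) : ℝ) := by
  have : (((range H).filter (fun s : ℕ => Nr K ρ (sh (s : ℝ) α))).card : ℕ) ≤
      (((range H).filter (fun s : ℕ => Nr K ρ' (sh (s : ℝ) α))).card : ℕ) := by
    refine Finset.card_le_card ?_
    intro s hs
    rw [Finset.mem_filter] at hs ⊢
    exact ⟨hs.1, tm_Nr_mono h hs.2⟩
  exact_mod_cast this

theorem tm_or {𝒢 : ℕ → Set ℝ → Prop} {t : ℕ} {K : Set (Fin t → ℝ)} {c : ℝ} {Δ : ℕ → Set ℝ → ℕ → ℝ → ℝ} {B B' : ℝ}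
    {P P' : ℕ → (Fin t → ℝ) → Prop} (h : TmL 𝒢 K c Δ B P) (h' : TmL 𝒢 K c Δ B' P') :
    TmL 𝒢 K c Δ (B + B') (fun H α => P H α ∨ P' H α) := by
  classical
  obtain ⟨n, I, C, Q, w, h1, h2, ρ, hρ, H₀, h3⟩ := h
  obtain ⟨n', I', C', Q', w', h1', h2', ρ', hρ', H₀', h3'⟩ := h'
  refine ⟨n + n', fun k => if k < n then I k else I' (k - n), fun k => if k < n then C k else C' (k - n),
    fun k => if k < n then Q k else Q' (k - n), fun k => if k < n then w k else w' (k - n), ?_, ?_,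
    min ρ ρ', lt_min hρ hρ', max H₀ H₀', ?_⟩
  · intro k hk
    by_cases hkn : k < n
    · simp only [hkn, if_true]
      exact h1 k hkn
    · simp only [hkn, if_false]
      exact h1' (k - n) (by omega)
  · rw [Finset.sum_range_add]
    refine add_le_add ?_ ?_
    · refine le_trans (le_of_eq ?_) h2
      refine Finset.sum_congr rfl fun k hk => ?_
      rw [if_pos (Finset.mem_range.1 hk)]
    · refine le_trans (le_of_eq ?_) h2'
      refine Finset.sum_congr rfl fun k _ => ?_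
      rw [if_neg (by omega), Nat.add_sub_cancel_left]
  · intro H hH α hP hc
    rcases hP with hP | hP
    · obtain ⟨k, hk, h4⟩ := h3 H ((le_max_left _ _).trans hH) α hP (hc.trans (tm_card_mono (min_le_left _ _) H α))
      refine ⟨k, by omega, ?_⟩
      simp only [hk, if_true]
      exact h4
    · obtain ⟨k, hk, h4⟩ := h3' H ((le_max_right _ _).trans hH) α hP (hc.trans (tm_card_mono (min_le_right _ _) H α))
      refine ⟨n + k, by omega, ?_⟩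
      have : ¬ (n + k < n) := by omega
      simp only [this, if_false, Nat.add_sub_cancel_left]
      exact h4

theorem tm_fam {𝒢 : ℕ → Set ℝ → Prop} {t : ℕ} {K : Set (Fin t → ℝ)} {c : ℝ} {Δ : ℕ → Set ℝ → ℕ → ℝ → ℝ} {B : ℝ}
    {P : ℕ → ℕ → (Fin t → ℝ) → Prop} (m : ℕ) (h : ∀ i < m, TmL 𝒢 K c Δ B (P i)) :
    TmL 𝒢 K c Δ (m * B) (fun H α => ∃ i < m, P i H α) := by
  induction m with
  | zero =>
    refine ⟨0, fun _ => 0, fun _ => ∅, fun _ => 0, fun _ => 0, fun k hk => absurd hk (Nat.not_lt_zero k), ?_, 1,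
      one_pos, 0, ?_⟩
    · simp
    · rintro H - α ⟨i, hi, -⟩
      exact absurd hi (Nat.not_lt_zero i)
  | succ m ih =>
    have h5 := tm_or (ih fun i hi => h i (by omega)) (h m (by omega))
    obtain ⟨n, I, C, Q, w, h1, h2, ρ, hρ, H₀, h3⟩ := h5
    refine ⟨n, I, C, Q, w, h1, h2.trans (le_of_eq ?_), ρ, hρ, H₀, ?_⟩
    · push_cast
      ring
    · intro H hH α hP hc
      refine h3 H hH α ?_ hc
      obtain ⟨i, hi, h6⟩ := hP
      rcases Nat.lt_succ_iff_lt_or_eq.1 hi with h7 | h7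
      · exact Or.inl ⟨i, h7, h6⟩
      · exact Or.inr (h7 ▸ h6)

/-- a multiple close to an integer -/
theorem tm_near_rat (k : ℕ) (hk : 1 ≤ k) (β e : ℝ) (h : dZ (k * β) ≤ e) :
    ∃ b : ℕ, b < k ∧ ∃ z₀ : ℤ, |β - ((b : ℤ) : ℝ) / k - z₀| ≤ e := by
  obtain ⟨z, hz⟩ := exists_int (k * β)
  have hk0 : (0 : ℤ) < (k : ℤ) := by exact_mod_cast hk
  have hk1 : (1 : ℝ) ≤ (k : ℝ) := by exact_mod_cast hk
  have hk2 : (0 : ℝ) < (k : ℝ) := by linarith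
  have hb0 : 0 ≤ z % k := Int.emod_nonneg _ (by omega)
  have hb1 : z % k < k := Int.emod_lt_of_pos _ hk0
  refine ⟨(z % k).toNat, by omega, z / k, ?_⟩
  have hb2 : (((z % k).toNat : ℕ) : ℤ) = z % k := Int.toNat_of_nonneg hb0
  rw [hb2]
  have h3 : (z : ℝ) = k * ((z / k : ℤ) : ℝ) + ((z % k : ℤ) : ℝ) := by
    have := Int.mul_ediv_add_emod z k
    exact_mod_cast this.symm
  have h4 : β - ((z % k : ℤ) : ℝ) / k - ((z / k : ℤ) : ℝ) = (k * β - z) / k := by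
    rw [h3]
    field_simp
    ring
  rw [h4, abs_div, abs_of_pos hk2, div_le_iff₀ hk2, hz]
  have h5 := dZ_nonneg (k * β)
  have h6 : 0 ≤ e := h5.trans h
  nlinarith

/-- The step `t → t + 1`, `t ≥ 1`. First item: `I = t + 1`, `C₀ = lev K (c/4)`, `Q = 1`, `w = 1/2`; `δ₀ = Δ (t+1) C₀ 1 (1/2)`; `top_alt` gives `k₀`, `ρ₀`. Second alternative: `dZ (k β) ≤ k₀/H`, `k ≤ k₀`: `β` is within `k₀/H` of `b/k + z₀` with `0 ≤ b < k`: finitely many pairs `(k, b)`, `k ≤ k₀`; `W = 2·(their number)`; `tc_rat` for each; concatenate the lists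
(use an induction over the finite set of pairs, or a lemma: lists can be concatenated; it is convenient to re-index by `Fin`/`List`), `ρ` = minimum, `H₀` = maximum; `ρ ↦` the hypothesis `Nr K ρ` is monotone in `ρ`. -/
theorem tc_step {𝒢 : ℕ → Set ℝ → Prop} (h𝒢 : GoodLev 𝒢) (t : ℕ) (ht : 1 ≤ t) (hT : TC 𝒢 t) : TC 𝒢 (t + 1) := by
  classical
  intro K hK hp hA c hc Δ hΔ
  obtain ⟨k₀, hk₀, ρ₀, hρ₀, htop⟩ := top_alt K hK hp c hc (Δ (t + 1) (lev K (c / 4)) 1 (1 / 2)) (hΔ _ _ _ _)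
  have hm : (0 : ℝ) < ((k₀ : ℝ) + 1) ^ 2 := by positivity
  have hm1 : (1 : ℝ) ≤ ((k₀ : ℝ) + 1) ^ 2 := by
    have : (0 : ℝ) ≤ (k₀ : ℝ) := Nat.cast_nonneg _
    nlinarith
  -- the first item
  have hA1 : TmL 𝒢 K c Δ (1 / 2) (fun _ α => ∃ y ∈ lev K (c / 4), |α (Fin.last t) - y| ≤ Δ (t + 1) (lev K (c / 4)) 1 (1 / 2)) := by
    refine ⟨1, fun _ => t + 1, fun _ => lev K (c / 4), fun _ => 1, fun _ => 1 / 2, ?_, ?_, 1, one_pos, 0, ?_⟩
    · intro k _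
      exact ⟨Nat.succ_le_succ (Nat.zero_le t), le_refl _, lev_closed K _, lev_per hp _, hA.1 _ (by positivity), le_refl _, by norm_num⟩
    · simp
    · intro H _ α hα _
      refine ⟨0, one_pos, ⟨1, le_refl _, le_refl _, ?_⟩, ?_⟩
      · intro j hj
        have h7 : t + 1 ≤ (j : ℕ) := hj
        have := j.2
        omega
      · intro j hj
        have h7 : (j : ℕ) + 1 = t + 1 := hj
        have hj2 : j = Fin.last t := by
          ext
          rw [Fin.val_last]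
          omega
        rw [hj2]
        exact hα
  -- the rational items
  have hB1 : ∀ i < (k₀ + 1) * (k₀ + 1), TmL 𝒢 K c Δ (1 / (2 * ((k₀ : ℝ) + 1) ^ 2))
      (fun H α => 1 ≤ i / (k₀ + 1) ∧ ∃ z₀ : ℤ, |α (Fin.last t) - (((i % (k₀ + 1) : ℕ) : ℤ) : ℝ) / ((i / (k₀ + 1) : ℕ) : ℝ) - z₀| ≤ k₀ / H) := by
    intro i hi
    have hi2 : i / (k₀ + 1) ≤ k₀ := by
      have := Nat.div_lt_of_lt_mul hi
      omega
    by_cases hk : 1 ≤ i / (k₀ + 1)
    · obtain ⟨n, I, C, Q, w, h1, h2, ρ, hρ, H₀, h3⟩ := tc_rat h𝒢 t hT K hK hp hA c hc Δ hΔ k₀ (i / (k₀ + 1)) hk hi2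
        ((i % (k₀ + 1) : ℕ) : ℤ) (2 * ((k₀ : ℝ) + 1) ^ 2) (by nlinarith)
      exact ⟨n, I, C, Q, w, h1, h2, ρ, hρ, H₀, fun H hH α hP hcc => h3 H hH α hP.2 hcc⟩
    · refine ⟨0, fun _ => 0, fun _ => ∅, fun _ => 0, fun _ => 0, fun k hk => absurd hk (Nat.not_lt_zero k), ?_, 1,
        one_pos, 0, ?_⟩
      · simp
        positivity
      · rintro H - α ⟨h5, -⟩
        exact absurd h5 hk
  have hC1 := tm_or hA1 (tm_fam _ hB1)
  obtain ⟨n, I, C, Q, w, h1, h2, ρ, hρ, H₀, h3⟩ := hC1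
  refine ⟨n, I, C, Q, w, h1, h2.trans (le_of_eq ?_), min ρ ρ₀, lt_min hρ hρ₀, max H₀ 1, ?_⟩
  · push_cast
    field_simp
    norm_num
  · intro H hH α hcc
    have hc1 := hcc.trans (tm_card_mono (min_le_left ρ ρ₀) H α)
    have hc2 := hcc.trans (tm_card_mono (min_le_right ρ ρ₀) H α)
    refine h3 H ((le_max_left _ _).trans hH) α ?_ hc1
    rcases htop H ((le_max_right _ _).trans hH) α hc2 with h5 | ⟨k, hk, hkk, h5⟩
    · exact Or.inl h5
    · right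
      obtain ⟨b, hb, z₀, h6⟩ := tm_near_rat k hk _ _ h5
      have hdiv : (k * (k₀ + 1) + b) / (k₀ + 1) = k := by
        rw [Nat.mul_comm k, Nat.mul_add_div (by omega), Nat.div_eq_of_lt (by omega), Nat.add_zero]
      have hmod : (k * (k₀ + 1) + b) % (k₀ + 1) = b := by
        rw [Nat.mul_comm k, Nat.mul_add_mod, Nat.mod_eq_of_lt (by omega)]
      refine ⟨k * (k₀ + 1) + b, by nlinarith, ?_⟩
      rw [hdiv, hmod]
      exact ⟨hk, z₀, h6⟩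

theorem tc_all {𝒢 : ℕ → Set ℝ → Prop} (h𝒢 : GoodLev 𝒢) (t : ℕ) (ht : 1 ≤ t) : TC 𝒢 t := by
  induction t, ht using Nat.le_induction with
  | base => exact tc_one h𝒢
  | succ t ht ih => exact tc_step h𝒢 t ht ih

end Pool.Agent.Lib.MP_3e612f_nt.NF
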