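import Pool.Agent.Lib.MP_3e612f_nt.NF.P.TDef
import Pool.Agent.Lib.MP_3e612f_nt.NF.P.LevB

/-! The structure theorem in dimension 1 (paper v2, T). -/

set_option autoImplicit false

namespace Pool.Agent.Lib.MP_3e612f_nt.NF

open Finset
open Pool.Agent.Lib.MP_3e612f_nt.MR (mu ex)

/-- `t = 1`: `sh s α = α` (`choose 1 1 s^0 α`), so `α` is within `ρ` of `K` (the filter is nonempty for `H ≥ 1`). One item: `I = 1`, `C = {β | (fun _ => β) ∈ K}` (closed, periodic, good: `sub_lev_one`, `lev K 1`, `mono`), `Q = 1`, `w = 1`, `ρ = Δ 1 C 1 1`; the condition above level 1 is empty. -/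
theorem tc_one {𝒢 : ℕ → Set ℝ → Prop} (h𝒢 : GoodLev 𝒢) : TC 𝒢 1 := by
  classical
  intro K hK hP hadm c hc Δ hΔ
  have hcl : IsClosed {β : ℝ | (fun _ : Fin 1 => β) ∈ K} := by
    have hcont : Continuous (fun β : ℝ => (fun _ : Fin 1 => β)) := continuous_pi fun _ => continuous_id
    exact hK.preimage hcont
  have hper : Per1 {β : ℝ | (fun _ : Fin 1 => β) ∈ K} := by
    intro x hx z
    exact hP (fun _ => x) hx (fun _ => z)
  have hgood : 𝒢 1 {β : ℝ | (fun _ : Fin 1 => β) ∈ K} :=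
    h𝒢.mono 1 (lev K 1) _ (hadm.1 1 one_pos) (sub_lev_one K 1 le_rfl)
  refine ⟨1, fun _ => 1, fun _ => {β : ℝ | (fun _ : Fin 1 => β) ∈ K}, fun _ => 1, fun _ => 1, ?_, ?_,
    Δ 1 {β : ℝ | (fun _ : Fin 1 => β) ∈ K} 1 1, hΔ _ _ _ _, 1, ?_⟩
  · intro k _
    exact ⟨le_rfl, le_rfl, hcl, hper, hgood, le_rfl, one_pos⟩
  · simp
  · intro H hH α hcard
    have hpos : (0 : ℝ) < c * H := by
      have : (0 : ℝ) < H := by exact_mod_cast hH
      positivity
    have hne : 0 < ((range H).filter (fun s : ℕ => Nr K (Δ 1 {β : ℝ | (fun _ : Fin 1 => β) ∈ K} 1 1)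
        (sh (s : ℝ) α))).card := by
      have h1 := lt_of_lt_of_le hpos hcard
      exact_mod_cast h1
    obtain ⟨s, hs⟩ := Finset.card_pos.1 hne
    obtain ⟨y, hy, hyd⟩ := (mem_filter.1 hs).2
    have hsh : sh (s : ℝ) α 0 = α 0 := by
      unfold sh
      simp
    refine ⟨0, one_pos, ⟨1, le_rfl, le_rfl, fun j hj => ?_⟩, fun j _ => ⟨y 0, ?_, ?_⟩⟩
    · exfalso
      have h1 : 1 ≤ (j : ℕ) := hj
      have h2 := j.2
      omega
    · change (fun _ : Fin 1 => y 0) ∈ K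
      have e : (fun _ : Fin 1 => y 0) = y := by
        funext i
        rw [Subsingleton.elim i 0]
      rw [e]
      exact hy
    · have h2 := hyd 0
      rw [hsh] at h2
      rw [Subsingleton.elim j 0]
      exact h2

end Pool.Agent.Lib.MP_3e612f_nt.NF
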